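import Pool.Agent.Lib.MP_99f32e_ag.Jac2

open MvPolynomial Matrix TensorProduct

namespace Pool.Agent.Lib.MP_99f32e_ag

lemma taylor_mem_sq {k ι : Type*} [CommRing k] [Fintype ι] (J : Ideal (MvPolynomial ι k))
    (h : ι → MvPolynomial ι k) (hh : ∀ i, h i ∈ J) (f : MvPolynomial ι k) :
    aeval (fun i => X i + h i) f - f - ∑ i, pderiv i f * h i ∈ J ^ 2 := by
  classical
  induction f using MvPolynomial.induction_on with
  | C a => simp
  | add p q hp hq =>
    convert add_mem hp hq using 1
    simp only [map_add, add_mul, Finset.sum_add_distrib]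
    ring
  | mul_X p j hp =>
    have h1 : ∑ i, pderiv i (p * X j) * h i = X j * ∑ i, pderiv i p * h i + p * h j := by
      simp only [Derivation.leibniz, smul_eq_mul, add_mul, Finset.sum_add_distrib, Finset.mul_sum,
        pderiv_X, mul_assoc]
      rw [add_comm]
      congr 1
      rw [Finset.sum_eq_single j]
      · simp
      · intro i _ hi
        simp [Pi.single_eq_of_ne' hi]
      · simp
    have h2 : (∑ i, pderiv i p * h i) * h j ∈ J ^ 2 := by
      rw [pow_two]
      exact Ideal.mul_mem_mul (Ideal.sum_mem _ fun i _ => Ideal.mul_mem_left _ _ (hh i)) (hh j)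
    convert add_mem (Ideal.mul_mem_right (X j + h j) _ hp) h2 using 1
    rw [h1, map_mul, aeval_X]
    ring

theorem smooth_of_jacobian {k K : Type*} [Field k] [Field K] [Algebra k K] {ι ρ : Type*}
    [Fintype ι] [Fintype ρ] [DecidableEq ρ] (c : ι → K) (g : ρ → MvPolynomial ι k)
    (hker : ∀ p : MvPolynomial ι k, aeval c p = 0 → p ∈ Ideal.span (Set.range g))
    (hg : ∀ l, aeval c (g l) = 0) (r : ρ → ι → MvPolynomial ι k)
    (hr : (Matrix.of fun l i => aeval c (r l i)) * (gradMat c g)ᵀ = 1) :
    Algebra.Smooth k (aeval c : MvPolynomial ι k →ₐ[k] K).range := by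
  classical
  set f := (aeval c : MvPolynomial ι k →ₐ[k] K).rangeRestrict with hf
  have hsurj : Function.Surjective f := AlgHom.rangeRestrict_surjective _
  have hft : Algebra.FiniteType k (aeval c : MvPolynomial ι k →ₐ[k] K).range :=
    Algebra.FiniteType.of_surjective f hsurj
  have hmem (p) : p ∈ RingHom.ker f.toRingHom ↔ aeval c p = 0 := by
    rw [RingHom.mem_ker, Subtype.ext_iff]; rfl
  set J := RingHom.ker f.toRingHom with hJ
  let h : ι → MvPolynomial ι k := fun i => -∑ l, r l i * g l
  have hh (i) : h i ∈ J := by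
    rw [hmem]; simp [h, hg]
  let φ : MvPolynomial ι k →ₐ[k] MvPolynomial ι k ⧸ J ^ 2 :=
    (Ideal.Quotient.mkₐ k _).comp (aeval fun i => X i + h i)
  have hφg (m) : φ (g m) = 0 := by
    refine Ideal.Quotient.eq_zero_iff_mem.mpr (?_ : aeval (fun i => X i + h i) (g m) ∈ J ^ 2)
    have h1 := taylor_mem_sq J h hh (g m)
    have h2 : g m + ∑ i, pderiv i (g m) * h i =
        ∑ l, ((if l = m then 1 else 0) - ∑ i, r l i * pderiv i (g m)) * g l := by
      simp only [h, mul_neg, Finset.sum_neg_distrib, Finset.mul_sum, sub_mul,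
        Finset.sum_sub_distrib, Finset.sum_mul, ite_mul, one_mul, zero_mul, Finset.sum_ite_eq',
        Finset.mem_univ, if_true]
      rw [Finset.sum_comm, sub_eq_add_neg]
      congr 2
      refine Finset.sum_congr rfl fun l _ => Finset.sum_congr rfl fun i _ => by ring
    have h3 : g m + ∑ i, pderiv i (g m) * h i ∈ J ^ 2 := by
      rw [h2, pow_two]
      refine Ideal.sum_mem _ fun l _ => Ideal.mul_mem_mul ?_ ((hmem _).mpr (hg l))
      rw [hmem]
      have := congr($hr l m)
      simp only [Matrix.mul_apply, Matrix.of_apply, Matrix.transpose_apply, gradMat,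
        Matrix.one_apply] at this
      simp only [map_sub, map_sum, map_mul, this]
      split_ifs <;> simp
    convert add_mem h1 h3 using 1
    ring
  have hφ (p) (hp : p ∈ J) : φ p = 0 := by
    have h1 : Ideal.span (Set.range g) ≤ RingHom.ker φ := by
      rw [Ideal.span_le]
      rintro _ ⟨l, rfl⟩
      exact hφg l
    exact h1 (hker p ((hmem p).mp hp))
  let σ : (aeval c : MvPolynomial ι k →ₐ[k] K).range →ₐ[k] MvPolynomial ι k ⧸ J ^ 2 :=
    (Ideal.Quotient.liftₐ J φ hφ).comp
      (Ideal.quotientKerAlgEquivOfSurjective hsurj).symm.toAlgHom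
  have hσ (p) : σ (f p) = φ p := by
    have : (Ideal.quotientKerAlgEquivOfSurjective hsurj).symm (f p) = Ideal.Quotient.mk _ p := by
      rw [AlgEquiv.symm_apply_eq]; rfl
    simp only [σ, AlgHom.comp_apply]
    erw [this]
    rfl
  have hfs : Algebra.FormallySmooth k (aeval c : MvPolynomial ι k →ₐ[k] K).range := by
    refine Algebra.FormallySmooth.of_split f σ ?_
    have : (f.kerSquareLift.comp σ).comp f = f := by
      refine MvPolynomial.algHom_ext fun i => ?_
      rw [AlgHom.comp_apply, AlgHom.comp_apply, hσ]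
      have : φ (X i) = Ideal.Quotient.mk _ (X i + h i) := by simp [φ]
      rw [this]
      change f (X i + h i) = _
      rw [map_add, show f (h i) = 0 from hh i, add_zero]
    ext x
    obtain ⟨p, rfl⟩ := hsurj x
    exact congr(($this p).1)
  exact ⟨hfs, Algebra.FinitePresentation.of_finiteType.mp hft⟩

attribute [local instance] Algebra.TensorProduct.rightAlgebra in
theorem isIntegrallyClosed_of_etale (R T : Type*) [CommRing R] [IsDomain R] [IsIntegrallyClosed R]
    [CommRing T] [IsDomain T] [Algebra R T] [Algebra.Etale R T] : IsIntegrallyClosed T := by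
  let L := FractionRing R
  have hinj : Function.Injective (algebraMap R T) := FaithfulSMul.algebraMap_injective R T
  have hle : Algebra.algebraMapSubmonoid T (nonZeroDivisors R) ≤ nonZeroDivisors T :=
    map_le_nonZeroDivisors_of_injective _ hinj le_rfl
  have hloc : IsLocalization (Algebra.algebraMapSubmonoid T (nonZeroDivisors R)) (T ⊗[R] L) :=
    inferInstance
  have hdom : IsDomain (T ⊗[R] L) := IsLocalization.isDomain_of_le_nonZeroDivisors _ hle
  have het : Algebra.Etale L (L ⊗[R] T) := inferInstance
  have hfin : Module.Finite L (L ⊗[R] T) := Algebra.FormallyUnramified.finite_of_free L _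
  have hdom' : IsDomain (L ⊗[R] T) := (Algebra.TensorProduct.comm R L T).toMulEquiv.isDomain _
  have hF' : IsField (L ⊗[R] T) := isField_of_isIntegral_of_isField' (Field.toIsField L)
  have hF : IsField (T ⊗[R] L) := (Algebra.TensorProduct.comm R T L).toMulEquiv.isField hF'
  let _ := hF.toField
  have hinj' : Function.Injective (algebraMap T (T ⊗[R] L)) := IsLocalization.injective _ hle
  have : FaithfulSMul T (T ⊗[R] L) := (faithfulSMul_iff_algebraMap_injective _ _).mpr hinj'
  have hfrac : IsFractionRing T (T ⊗[R] L) := IsFractionRing.of_field _ _ fun z => by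
    obtain ⟨⟨a, b⟩, hab⟩ :=
      IsLocalization.surj (Algebra.algebraMapSubmonoid T (nonZeroDivisors R)) z
    refine ⟨a, b, ?_⟩
    rw [eq_div_iff ((map_ne_zero_iff _ hinj').mpr (nonZeroDivisors.ne_zero (hle b.2))), hab]
  rw [isIntegrallyClosed_iff (T ⊗[R] L)]
  intro x hx
  obtain ⟨y, hy⟩ := (TensorProduct.toIntegralClosure_bijective_of_smooth
    (R := R) (S := T) (B := L)).2 ⟨x, hx⟩
  have hy' : Algebra.TensorProduct.map (.id T T) (integralClosure R L).val y = x := congr(($hy).1)
  rw [← hy']
  clear hy hy' hx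
  induction y with
  | zero => exact ⟨0, by simp⟩
  | add y y' hy hy' =>
    obtain ⟨a, ha⟩ := hy
    obtain ⟨a', ha'⟩ := hy'
    exact ⟨a + a', by rw [map_add, map_add, ha, ha']⟩
  | tmul t s =>
    obtain ⟨r, hr⟩ := IsIntegrallyClosed.isIntegral_iff.mp s.2
    refine ⟨r • t, ?_⟩
    simp only [Algebra.TensorProduct.map_tmul, AlgHom.coe_id, id_eq, Subalgebra.coe_val, ← hr]
    rw [Algebra.algebraMap_eq_smul_one r, ← TensorProduct.smul_tmul]
    rfl

theorem isIntegrallyClosed_of_smooth (k S : Type*) [Field k] [CommRing S] [IsDomain S]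
    [Algebra k S] [Algebra.Smooth k S] : IsIntegrallyClosed S := by
  refine IsIntegrallyClosed.of_localization_maximal fun p _ hp => ?_
  obtain ⟨f, hf, n, _, _, _⟩ :=
    Algebra.IsSmoothAt.exists_isStandardEtale_mvPolynomial (R := k) (p := p)
  have hf0 : f ≠ 0 := by rintro rfl; exact hf (zero_mem _)
  have : IsDomain (Localization.Away f) :=
    IsLocalization.isDomain_of_le_nonZeroDivisors _ (powers_le_nonZeroDivisors_of_noZeroDivisors hf0)
  have h1 : IsIntegrallyClosed (Localization.Away f) :=
    isIntegrallyClosed_of_etale (MvPolynomial (Fin n) k) _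
  have hle : Submonoid.powers f ≤ p.primeCompl := by
    rintro _ ⟨m, rfl⟩ hm
    exact hf (hp.isPrime.mem_of_pow_mem _ hm)
  let _ := IsLocalization.localizationAlgebraOfSubmonoidLe (Localization.Away f)
    (Localization.AtPrime p) _ _ hle
  have := IsLocalization.localization_isScalarTower_of_submonoid_le (Localization.Away f)
    (Localization.AtPrime p) _ _ hle
  have := IsLocalization.isLocalization_of_submonoid_le (Localization.Away f)
    (Localization.AtPrime p) _ _ hle
  refine isIntegrallyClosed_of_isLocalization (R := Localization.Away f) _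
    (p.primeCompl.map (algebraMap S (Localization.Away f))) ?_
  exact map_le_nonZeroDivisors_of_injective _ (IsLocalization.injective _
    (powers_le_nonZeroDivisors_of_noZeroDivisors hf0)) (Ideal.primeCompl_le_nonZeroDivisors p)

end Pool.Agent.Lib.MP_99f32e_ag
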