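import Pool.Agent.Lib.MP_99f32e_ag.Defs

open AlgebraicGeometry CategoryTheory IsLocalRing

universe u

namespace Pool.Agent.Lib.MP_99f32e_ag

section algebra

variable {R K : Type*} [CommRing R] [IsDomain R] [IsNoetherianRing R] [IsLocalRing R]
  [IsIntegrallyClosed R] [Field K] [Algebra R K] [IsFractionRing R K]

lemma dvr_of_mul_mem (f : K) (hf : f ∉ (algebraMap R K).range)
    (h : ∀ m ∈ maximalIdeal R, algebraMap R K m * f ∈ (algebraMap R K).range) :
    IsDiscreteValuationRing R := by
  have hinj := IsFractionRing.injective R K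
  have hne : maximalIdeal R ≠ ⊥ := by
    intro h0
    have hF : IsField R := IsLocalRing.isField_iff_maximalIdeal_eq.mpr h0
    apply hf
    obtain ⟨a, b, hb, rfl⟩ := IsFractionRing.div_surjective (A := R) f
    obtain ⟨c, hc⟩ := hF.mul_inv_cancel (nonZeroDivisors.ne_zero hb)
    refine ⟨a * c, ?_⟩
    have hb' : algebraMap R K b ≠ 0 := by
      simpa [map_eq_zero_iff _ hinj] using nonZeroDivisors.ne_zero hb
    rw [eq_div_iff hb', ← map_mul, mul_assoc, mul_comm c, hc, mul_one]
  have hF : ¬ IsField R := fun hF => hne (IsLocalRing.isField_iff_maximalIdeal_eq.mp hF)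
  refine ((IsDiscreteValuationRing.TFAE R hF).out 4 0).mp ?_
  by_cases H : ∀ m ∈ maximalIdeal R, ∃ c ∈ maximalIdeal R,
      algebraMap R K c = algebraMap R K m * f
  · exfalso
    apply hf
    have hint : IsIntegral R f := by
      refine isIntegral_of_smul_mem_submodule
        (Submodule.map (Algebra.linearMap R K) (maximalIdeal R)) ?_ ?_ f ?_
      · intro h0
        apply hne
        rw [eq_bot_iff]
        intro m hm
        have : algebraMap R K m ∈ Submodule.map (Algebra.linearMap R K) (maximalIdeal R) :=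
          ⟨m, hm, rfl⟩
        rw [h0, Submodule.mem_bot] at this
        simpa [map_eq_zero_iff _ hinj] using this
      · exact Submodule.FG.map _ (IsNoetherian.noetherian _)
      · rintro _ ⟨m, hm, rfl⟩
        obtain ⟨c, hc, e⟩ := H m hm
        exact ⟨c, hc, by simp [e, mul_comm]⟩
    exact IsIntegrallyClosed.isIntegral_iff.mp hint
  · push Not at H
    obtain ⟨p, hp, H⟩ := H
    obtain ⟨w, hw⟩ := h p hp
    have hw' : IsUnit w := by
      by_contra hh
      exact H w hh hw
    refine ⟨p, le_antisymm ?_ ?_⟩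
    · intro m hm
      obtain ⟨c, hc⟩ := h m hm
      obtain ⟨w, rfl⟩ := hw'
      have : m * w = p * c := by
        apply hinj
        rw [map_mul, map_mul, hw, hc]; ring
      refine Ideal.mem_span_singleton'.mpr ⟨c * ↑w⁻¹, ?_⟩
      calc c * ↑w⁻¹ * p = (p * c) * ↑w⁻¹ := by ring
        _ = m := by rw [← this]; simp
    · rw [Submodule.span_le]
      simpa using hp

lemma dvr_of_pow_mul_mem (N : ℕ) (f : K) (hf : f ∉ (algebraMap R K).range)
    (h : ∀ m ∈ maximalIdeal R ^ N, algebraMap R K m * f ∈ (algebraMap R K).range) :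
    IsDiscreteValuationRing R := by
  induction N with
  | zero => exact absurd (by simpa using h 1 (by simp)) hf
  | succ N ih =>
    by_cases H : ∀ m ∈ maximalIdeal R ^ N, algebraMap R K m * f ∈ (algebraMap R K).range
    · exact ih H
    · push Not at H
      obtain ⟨t, ht, H⟩ := H
      refine dvr_of_mul_mem _ H fun m hm => ?_
      rw [← mul_assoc, ← map_mul]
      refine h _ ?_
      rw [pow_succ']
      exact Ideal.mul_mem_mul hm ht

end algebra

section ord

variable {X : Scheme.{u}} [IsIntegral X] [IsLocallyNoetherian X]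

lemma ord_nonneg_of_mem {x : X} {f : X.functionField}
    (hf : f ∈ (algebraMap (X.presheaf.stalk x) X.functionField).range) : 0 ≤ X.ord f x := by
  by_cases hx : Order.coheight x = 1
  · by_cases h0 : f = 0
    · simp [h0]
    obtain ⟨a, rfl⟩ := hf
    rw [Scheme.le_ord_iff hx h0]
    have : Ring.KrullDimLE 1 (X.presheaf.stalk x) := krullDimLE_of_coheight_le hx.le
    exact Ring.ordFrac_ge_one_of_ne_zero (fun h => h0 (by rw [h, map_zero]))
  · simp [hx]

lemma ord_of_isUnit_stalk {x : X} {a : X.presheaf.stalk x} (ha : IsUnit a) :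
    X.ord (algebraMap (X.presheaf.stalk x) X.functionField a) x = 0 := by
  by_cases hx : Order.coheight x = 1
  · rw [Scheme.ord_eq_iff hx (ha.map _).ne_zero]
    have : Ring.KrullDimLE 1 (X.presheaf.stalk x) := krullDimLE_of_coheight_le hx.le
    exact Ring.ordFrac_of_isUnit ha
  · simp [hx]

lemma ord_one' (x : X) : X.ord (1 : X.functionField) x = 0 := by
  simpa using ord_of_isUnit_stalk (x := x) isUnit_one

lemma ord_inv' {f : X.functionField} (hf : f ≠ 0) (x : X) : X.ord f⁻¹ x = - X.ord f x := by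
  have := Scheme.ord_mul (x := x) hf (inv_ne_zero hf)
  rw [mul_inv_cancel₀ hf, ord_one'] at this
  omega

lemma ord_pow' {f : X.functionField} (hf : f ≠ 0) (x : X) (n : ℕ) :
    X.ord (f ^ n) x = n * X.ord f x := by
  induction n with
  | zero => simp [ord_one']
  | succ n ih => rw [pow_succ, Scheme.ord_mul (pow_ne_zero _ hf) hf, ih]; push_cast; ring

lemma mem_of_ord_nonneg_of_dvr {x : X} [IsDiscreteValuationRing (X.presheaf.stalk x)]
    {f : X.functionField} (h : 0 ≤ X.ord f x) :
    f ∈ (algebraMap (X.presheaf.stalk x) X.functionField).range := by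
  by_cases h0 : f = 0
  · rw [h0]; exact zero_mem _
  have hx : Order.coheight x = 1 := by
    have h1 := ringKrullDim_stalk_eq_coheight x
    rw [IsDiscreteValuationRing.ringKrullDim_eq_one] at h1
    exact_mod_cast h1.symm
  rw [Scheme.le_ord_iff hx h0] at h
  have h2 : 1 ≤ Ring.ordFrac (X.presheaf.stalk x) f := h
  rw [Ring.ordFrac_eq_valuation_inv] at h2
  have h3 : (IsDiscreteValuationRing.maximalIdeal (X.presheaf.stalk x)).valuation
      X.functionField f ≤ 1 := by
    have h4 : (IsDiscreteValuationRing.maximalIdeal (X.presheaf.stalk x)).valuation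
      X.functionField f ≠ 0 := by simpa using h0
    rwa [one_le_inv₀ (zero_lt_iff.mpr h4)] at h2
  exact IsDiscreteValuationRing.exists_lift_of_le_one h3

/-- Algebraic Hartogs lemma. -/
theorem hartogs (hn : ∀ x : X, IsIntegrallyClosed (X.presheaf.stalk x)) (x : X)
    (f : X.functionField) (h : ∀ y : X, y ⤳ x → 0 ≤ X.ord f y) :
    f ∈ (algebraMap (X.presheaf.stalk x) X.functionField).range := by
  by_contra hf
  obtain ⟨_, ⟨U, hU, rfl⟩, hxU, -⟩ := X.isBasis_affineOpens.exists_subset_of_mem_open
    (Set.mem_univ x) isOpen_univ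
  have : Nonempty U := ⟨⟨x, hxU⟩⟩
  have hU' : IsAffineOpen U := hU
  have hNoeth : IsNoetherianRing Γ(X, U) := IsLocallyNoetherian.component_noetherian ⟨U, hU⟩
  have hfrac := functionField_isFractionRing_of_isAffineOpen X U hU
  let I : Ideal Γ(X, U) := Submodule.comap (LinearMap.toSpanSingleton Γ(X, U) X.functionField f)
    (LinearMap.range (Algebra.linearMap Γ(X, U) X.functionField))
  have hI (a : Γ(X, U)) : a ∈ I ↔ ∃ b : Γ(X, U), algebraMap _ X.functionField b =
      algebraMap _ X.functionField a * f := by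
    simp [I, Algebra.smul_def]
  have key (y : U) (hy : ¬ I ≤ (hU'.primeIdealOf y).asIdeal) :
      f ∈ (algebraMap (X.presheaf.stalk y.1) X.functionField).range := by
    obtain ⟨a, ha, ha'⟩ := Set.not_subset.mp hy
    obtain ⟨b, hb⟩ := (hI a).mp ha
    let _ := TopCat.Presheaf.algebra_section_stalk X.presheaf y
    have := hU'.isLocalization_stalk y
    have := functionField_isScalarTower X U y
    obtain ⟨w, hw⟩ := IsLocalization.map_units (X.presheaf.stalk y.1)
      (⟨a, ha'⟩ : (hU'.primeIdealOf y).asIdeal.primeCompl)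
    refine ⟨algebraMap _ _ b * ↑w⁻¹, ?_⟩
    rw [map_mul, ← IsScalarTower.algebraMap_apply, hb,
      IsScalarTower.algebraMap_apply Γ(X, U) (X.presheaf.stalk y.1) X.functionField a]
    have : algebraMap Γ(X, U) (X.presheaf.stalk y.1) a = w := hw.symm
    rw [this, mul_right_comm, ← map_mul]
    simp
  have hIP : I ≤ (hU'.primeIdealOf ⟨x, hxU⟩).asIdeal := by
    by_contra hh
    exact hf (key ⟨x, hxU⟩ hh)
  obtain ⟨Q, hQ, hQP⟩ := Ideal.exists_minimalPrimes_le hIP
  have hQp : Q.IsPrime := hQ.1.1
  have hyU : hU'.fromSpec ⟨Q, hQp⟩ ∈ U := by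
    rw [← SetLike.mem_coe, ← hU'.range_fromSpec]; exact ⟨_, rfl⟩
  let y : U := ⟨hU'.fromSpec ⟨Q, hQp⟩, hyU⟩
  have hy : hU'.primeIdealOf y = ⟨Q, hQp⟩ := by
    apply hU'.fromSpec.isOpenEmbedding.injective
    rw [hU'.fromSpec_primeIdealOf]
  have hyx : y.1 ⤳ x := by
    have h1 : (⟨Q, hQp⟩ : PrimeSpectrum Γ(X, U)) ⤳ hU'.primeIdealOf ⟨x, hxU⟩ :=
      (PrimeSpectrum.le_iff_specializes _ _).mp hQP
    have h2 := h1.map hU'.fromSpec.continuous
    rwa [hU'.fromSpec_primeIdealOf] at h2
  let _ := TopCat.Presheaf.algebra_section_stalk X.presheaf y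
  have hloc := hU'.isLocalization_stalk y
  have := functionField_isScalarTower X U y
  have hloc' : IsLocalization.AtPrime (X.presheaf.stalk y.1) Q := by
    convert hloc; rw [hy]
  have hrad := IsLocalization.AtPrime.radical_map_of_mem_minimalPrimes (X.presheaf.stalk y.1) Q I hQ
  rw [IsLocalization.AtPrime.map_eq_maximalIdeal Q (X.presheaf.stalk y.1)] at hrad
  obtain ⟨N, hN⟩ := Ideal.exists_radical_pow_le_of_fg
    (I.map (algebraMap Γ(X, U) (X.presheaf.stalk y.1))) (IsNoetherian.noetherian _)
  rw [hrad] at hN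
  have hfy : f ∉ (algebraMap (X.presheaf.stalk y.1) X.functionField).range := by
    rintro ⟨c, hc⟩
    obtain ⟨⟨a, b⟩, hab⟩ := IsLocalization.surj Q.primeCompl c
    apply b.2
    apply hQ.1.2
    refine (hI _).mpr ⟨a, ?_⟩
    rw [IsScalarTower.algebraMap_apply Γ(X, U) (X.presheaf.stalk y.1) X.functionField a,
      ← hab, map_mul, hc, ← IsScalarTower.algebraMap_apply, mul_comm]
  have := hn y.1
  have hdvr : IsDiscreteValuationRing (X.presheaf.stalk y.1) := by
    refine dvr_of_pow_mul_mem N f hfy fun m hm => ?_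
    have hm' := hN hm
    clear hm
    induction hm' using Submodule.span_induction with
    | mem m hm =>
      obtain ⟨a, ha, rfl⟩ := hm
      obtain ⟨b, hb⟩ := (hI a).mp ha
      refine ⟨algebraMap _ _ b, ?_⟩
      rw [← IsScalarTower.algebraMap_apply, ← IsScalarTower.algebraMap_apply, hb]
    | zero => simp
    | add a b _ _ ha hb => rw [map_add, add_mul]; exact add_mem ha hb
    | smul a b _ hb =>
      rw [smul_eq_mul, map_mul, mul_assoc]
      exact mul_mem ⟨a, rfl⟩ hb
  exact hfy (mem_of_ord_nonneg_of_dvr (h y.1 hyx))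

end ord

end Pool.Agent.Lib.MP_99f32e_ag
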