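import Pool.Agent.Lib.MP_99f32e_ag.Model
import Pool.Agent.Lib.MP_99f32e_ag.Hartogs

open AlgebraicGeometry CategoryTheory IsLocalRing Limits

universe u

namespace Pool.Agent.Lib.MP_99f32e_ag

attribute [local instance] MvPolynomial.gradedAlgebra

section pull

variable {X Z : Scheme.{u}} [IsIntegral X] [IsIntegral Z] (h : X ⟶ Z) [IsDominant h]

lemma genericPoint_mem {U : X.Opens} (hU : (U : Set X).Nonempty) : genericPoint X ∈ U :=
  ((genericPoint_spec X).mem_open_set_iff U.isOpen).mpr (by simpa using hU)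

lemma pullFun_germ (U : Z.Opens) (hU : genericPoint Z ∈ U) (hU' : genericPoint X ∈ h ⁻¹ᵁ U) :
    Z.presheaf.germ U _ hU ≫ pullFun h = h.app U ≫ X.presheaf.germ _ _ hU' := by
  rw [pullFun, TopCat.Presheaf.germ_stalkSpecializes_assoc, Scheme.Hom.germ_stalkMap]

lemma genericPoint_mem_preimage {U : Z.Opens} (hU : genericPoint Z ∈ U) :
    genericPoint X ∈ h ⁻¹ᵁ U := by
  obtain ⟨x, hx⟩ := h.denseRange.exists_mem_open U.isOpen ⟨_, hU⟩
  exact genericPoint_mem ⟨x, hx⟩

lemma pullFun_algebraMap (x : X) (a : Z.presheaf.stalk (h x)) :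
    pullFun h (algebraMap (Z.presheaf.stalk (h x)) Z.functionField a) =
      algebraMap (X.presheaf.stalk x) X.functionField (h.stalkMap x a) := by
  obtain ⟨U, hU, s, rfl⟩ := Z.presheaf.exists_germ_eq a
  have : Nonempty U := ⟨⟨_, hU⟩⟩
  have : Nonempty (h ⁻¹ᵁ U) := ⟨⟨x, hU⟩⟩
  rw [Scheme.algebraMap_germ_eq_germToFunctionField, Scheme.Hom.germ_stalkMap_apply,
    Scheme.algebraMap_germ_eq_germToFunctionField]
  exact congr($(pullFun_germ h U _ _) s)

lemma pullFun_mem_stalk {x : X} {f : Z.functionField}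
    (hf : f ∈ (algebraMap (Z.presheaf.stalk (h x)) Z.functionField).range) :
    pullFun h f ∈ (algebraMap (X.presheaf.stalk x) X.functionField).range := by
  obtain ⟨a, rfl⟩ := hf
  exact ⟨_, (pullFun_algebraMap h x a).symm⟩

end pull

section sections

variable {X : Scheme.{u}} [IsIntegral X]

lemma exists_section_of_mem_stalk (W : X.Opens) (hW : genericPoint X ∈ W) (f : X.functionField)
    (hf : ∀ x ∈ W, f ∈ (algebraMap (X.presheaf.stalk x) X.functionField).range) :
    ∃ s : Γ(X, W), X.presheaf.germ W _ hW s = f := by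
  have H (x : W) : ∃ (V : X.Opens) (_ : x.1 ∈ V) (_ : V ≤ W) (hV : genericPoint X ∈ V)
      (s : Γ(X, V)), X.presheaf.germ V _ hV s = f := by
    obtain ⟨a, rfl⟩ := hf x.1 x.2
    obtain ⟨V, hV, s, rfl⟩ := X.presheaf.exists_germ_eq a
    have : Nonempty V := ⟨⟨_, hV⟩⟩
    refine ⟨V ⊓ W, ⟨hV, x.2⟩, inf_le_right, genericPoint_mem ⟨x.1, hV, x.2⟩,
      X.presheaf.map (homOfLE inf_le_left).op s, ?_⟩
    rw [TopCat.Presheaf.germ_res_apply, Scheme.algebraMap_germ_eq_germToFunctionField]
  choose V hxV hVW hV s hs using H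
  have hcov : W ≤ iSup V := fun x hx => TopologicalSpace.Opens.mem_iSup.mpr ⟨⟨x, hx⟩, hxV _⟩
  obtain ⟨t, ht, -⟩ := X.sheaf.existsUnique_gluing' V W (fun x => homOfLE (hVW x)) hcov s (by
    intro x y
    apply germ_injective_of_isIntegral X (genericPoint X) (U := V x ⊓ V y) ⟨hV x, hV y⟩
    erw [TopCat.Presheaf.germ_res_apply, TopCat.Presheaf.germ_res_apply]
    exact (hs x).trans (hs y).symm)
  refine ⟨t, ?_⟩
  rw [← hs ⟨_, hW⟩, ← ht]
  erw [TopCat.Presheaf.germ_res_apply]

end sections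

section proper

lemma isProper_of_isProjective {k : Type u} [Field k] {X : Scheme.{u}} {π : X ⟶ Spec (.of k)}
    (h : IsProjective π) : IsProper π := by
  obtain ⟨n, ι, hι, rfl⟩ := h
  have hbij : Function.Bijective
      (algebraMap k (MvPolynomial.homogeneousSubmodule (Fin (n + 1)) k 0)) := by
    constructor
    · intro a b hab
      exact MvPolynomial.C_injective (Fin (n + 1)) k congr(($hab).1)
    · rintro ⟨a, ha⟩
      have ha' : a.IsHomogeneous 0 := ha
      rw [← MvPolynomial.totalDegree_zero_iff_isHomogeneous,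
        MvPolynomial.totalDegree_eq_zero_iff_eq_C] at ha'
      exact ⟨_, Subtype.ext ha'.symm⟩
  have : IsIso (CommRingCat.ofHom
      (algebraMap k (MvPolynomial.homogeneousSubmodule (Fin (n + 1)) k 0))) :=
    (ConcreteCategory.isIso_iff_bijective _).mpr hbij
  have : Algebra.FiniteType (MvPolynomial.homogeneousSubmodule (Fin (n + 1)) k 0)
      (MvPolynomial (Fin (n + 1)) k) :=
    have : IsScalarTower k (MvPolynomial.homogeneousSubmodule (Fin (n + 1)) k 0)
      (MvPolynomial (Fin (n + 1)) k) := IsScalarTower.of_algebraMap_eq (R := k)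
        (S := MvPolynomial.homogeneousSubmodule (Fin (n + 1)) k 0)
        (A := MvPolynomial (Fin (n + 1)) k) fun _ => rfl
    Algebra.FiniteType.of_restrictScalars_finiteType k _ _
  infer_instance

end proper

namespace Model

variable {k K : Type u} [Field k] [Field K] [Algebra k K] {J : Type} {A : J → Subalgebra k K}
  (M : Model k K J A)

instance : IsIntegral M.X := M.int
instance : IsDominant M.γ := M.dom
instance : IsProper M.π := isProper_of_isProjective M.proj
instance : IsLocallyNoetherian M.X := LocallyOfFiniteType.isLocallyNoetherian M.π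
instance : M.X.IsSeparated := ⟨by
  rw [← terminal.comp_from M.π]; infer_instance⟩

lemma γ_specializes : M.γ (closedPoint K) ⤳ genericPoint M.X := by
  have h1 : Set.range M.γ = {M.γ (closedPoint K)} := by
    ext x
    constructor
    · rintro ⟨t, rfl⟩
      have : t = closedPoint K := Subsingleton.elim (α := PrimeSpectrum K) _ _
      rw [this]; rfl
    · rintro rfl; exact ⟨_, rfl⟩
  rw [specializes_iff_mem_closure, ← h1]
  exact M.γ.denseRange _

lemma top_le {U : M.X.Opens} (hU : genericPoint M.X ∈ U) : ⊤ ≤ M.γ ⁻¹ᵁ U :=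
  (Scheme.preimage_eq_top_of_closedPoint_mem M.γ (M.γ_specializes.mem_open U.isOpen hU)).ge

lemma generic_mem (j : J) : genericPoint M.X ∈ M.U j :=
  genericPoint_mem ⟨_, M.mem j (Set.mem_univ (closedPoint K))⟩

/-- The embedding of the function field into `K`. -/
noncomputable def emb : M.X.functionField →+* K :=
  (M.X.presheaf.stalkSpecializes M.γ_specializes ≫ Scheme.stalkClosedPointTo M.γ).hom

lemma emb_germ (U : M.X.Opens) (hU : genericPoint M.X ∈ U) (s : Γ(M.X, U)) :
    M.emb (M.X.presheaf.germ U _ hU s) = evalAt M.γ U (M.top_le hU) s := by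
  have : M.X.presheaf.germ U _ hU ≫ M.X.presheaf.stalkSpecializes M.γ_specializes ≫
      Scheme.stalkClosedPointTo M.γ = evalAt M.γ U (M.top_le hU) := by
    rw [TopCat.Presheaf.germ_stalkSpecializes_assoc, Scheme.germ_stalkClosedPointTo, evalAt]
    simp [Scheme.Hom.app_eq_appLE]
  exact congr($this s)

lemma evalAt_injective (U : M.X.Opens) (hU : genericPoint M.X ∈ U) :
    Function.Injective (evalAt M.γ U (M.top_le hU)) := by
  intro a b hab
  rw [← emb_germ M U hU, ← emb_germ M U hU] at hab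
  exact germ_injective_of_isIntegral _ _ _ (M.emb.injective hab)

/-- The constants. -/
noncomputable def const : k →+* M.X.functionField :=
  ((Scheme.ΓSpecIso (.of k)).inv ≫ M.π.appTop ≫
      M.X.presheaf.germ ⊤ (genericPoint M.X) trivial).hom

lemma evalAt_const (U : M.X.Opens) (h : ⊤ ≤ M.γ ⁻¹ᵁ U) :
    (Scheme.ΓSpecIso (.of k)).inv ≫ M.π.appLE ⊤ U le_top ≫ evalAt M.γ U h =
      CommRingCat.ofHom (algebraMap k K) := by
  rw [appLE_evalAt M.γ M.π ⊤ U le_top h le_top, evalAt, Iso.inv_comp_eq]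
  simp only [M.γπ]
  rw [← Scheme.ΓSpecIso_naturality]
  congr 1

lemma emb_const (c : k) : M.emb (M.const c) = algebraMap k K c := by
  have h1 := M.emb_germ ⊤ trivial (M.π.appTop ((Scheme.ΓSpecIso (.of k)).inv c))
  have h2 := congr($(M.evalAt_const ⊤ le_top) c)
  refine h1.trans (Eq.trans ?_ h2)
  have : M.π.appLE ⊤ ⊤ le_top = M.π.appTop := (Scheme.Hom.app_eq_appLE _).symm
  rw [this]
  rfl

/-- The coordinate ring of a chart. -/
noncomputable def chartEquiv (j : J) : Γ(M.X, M.U j) ≃+* A j :=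
  RingEquiv.ofBijective ((evalAt M.γ (M.U j) (M.mem j)).hom.codRestrict (A j) (fun s => by
    rw [← SetLike.mem_coe, ← M.range j]; exact ⟨s, rfl⟩)) (by
    constructor
    · intro a b hab
      exact M.evalAt_injective _ (M.generic_mem j) congr(($hab).1)
    · rintro ⟨a, ha⟩
      rw [← SetLike.mem_coe, ← M.range j] at ha
      obtain ⟨s, rfl⟩ := ha
      exact ⟨s, rfl⟩)

lemma coe_chartEquiv (j : J) (s : Γ(M.X, M.U j)) :
    (M.chartEquiv j s : K) = evalAt M.γ (M.U j) (M.mem j) s := rfl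

lemma emb_germ_chartEquiv_symm (j : J) (a : A j) :
    M.emb (M.X.presheaf.germ _ _ (M.generic_mem j) ((M.chartEquiv j).symm a)) = a := by
  rw [emb_germ, ← coe_chartEquiv, RingEquiv.apply_symm_apply]

lemma smooth (hA : ∀ j, Algebra.Smooth k (A j)) : Smooth M.π := by
  have hcov : ⨆ j, M.U j = ⊤ := by
    rw [eq_top_iff]
    intro x _
    exact TopologicalSpace.Opens.mem_iSup.mpr (M.cov x)
  refine HasRingHomProperty.of_iSup_eq_top (P := @Smooth) (fun j => ⟨M.U j, M.aff j⟩) hcov
    fun j => ?_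
  have h1 : (M.π.appLE ⊤ (M.U j) le_top).hom =
      ((M.chartEquiv j).symm.toRingHom.comp (algebraMap k (A j))).comp
        (Scheme.ΓSpecIso (.of k)).commRingCatIsoToRingEquiv.toRingHom := by
    ext c
    obtain ⟨c, rfl⟩ := (Scheme.ΓSpecIso (.of k)).commRingCatIsoToRingEquiv.symm.surjective c
    apply (M.chartEquiv j).injective
    apply Subtype.ext
    simp only [RingEquiv.toRingHom_eq_coe, RingHom.coe_comp, RingHom.coe_coe, Function.comp_apply,
      RingEquiv.apply_symm_apply]
    exact congr($(M.evalAt_const (M.U j) (M.mem j)) c)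
  change (M.π.appLE ⊤ (M.U j) le_top).hom.Smooth
  rw [h1]
  refine RingHom.Smooth.respectsIso.2 _ _ (RingHom.Smooth.respectsIso.1 _ _ ?_)
  exact RingHom.smooth_algebraMap.mpr (hA j)

lemma normal (hA : ∀ j, IsIntegrallyClosed (A j)) (x : M.X) :
    IsIntegrallyClosed (M.X.presheaf.stalk x) := by
  obtain ⟨j, hj⟩ := M.cov x
  have : Nonempty (M.U j) := ⟨⟨x, hj⟩⟩
  have : IsIntegrallyClosed Γ(M.X, M.U j) := IsIntegrallyClosed.of_equiv (M.chartEquiv j).symm
  let _ := TopCat.Presheaf.algebra_section_stalk M.X.presheaf (⟨x, hj⟩ : M.U j)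
  have := (M.aff j).isLocalization_stalk ⟨x, hj⟩
  exact isIntegrallyClosed_of_isLocalization _ ((M.aff j).primeIdealOf ⟨x, hj⟩).asIdeal.primeCompl
    (Ideal.primeCompl_le_nonZeroDivisors _)

end Model

end Pool.Agent.Lib.MP_99f32e_ag
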