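import Pool.Agent.Lib.MP_99f32e_ag.Jac

open MvPolynomial Matrix

namespace Pool.Agent.Lib.MP_99f32e_ag

variable {k K : Type*} [Field k] [Field K] [Algebra k K] {ι ρ : Type*} [Fintype ι] [DecidableEq ι]
  [Fintype ρ] [DecidableEq ρ] {N : ℕ}

/-- coordinates of the differentials of `c` in the basis `b` -/
noncomputable def coordMat (b : Module.Basis (Fin N) K (KaehlerDifferential k K)) (c : ι → K) :
    Matrix (Fin N) ι K :=
  Matrix.of fun j i => b.repr (KaehlerDifferential.D k K (c i)) j

/-- Jacobian matrix of the relations -/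
noncomputable def gradMat (c : ι → K) (g : ρ → MvPolynomial ι k) : Matrix ρ ι K :=
  Matrix.of fun l i => aeval c (pderiv i (g l))

variable (b : Module.Basis (Fin N) K (KaehlerDifferential k K))

omit [DecidableEq ι] in
lemma det_eq_coordMat (c : ι → K) (a : Fin N → K) (C : Matrix ι (Fin N) K)
    (hC : ∀ j, KaehlerDifferential.D k K (a j) = ∑ i, C i j • KaehlerDifferential.D k K (c i)) :
    b.det (fun j => KaehlerDifferential.D k K (a j)) = (coordMat b c * C).det := by
  rw [Module.Basis.det_apply]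
  congr 1
  ext j j'
  simp [Module.Basis.toMatrix_apply, hC, coordMat, Matrix.mul_apply, mul_comm]

omit [DecidableEq ι] [Fintype ρ] [DecidableEq ρ] in
lemma coordMat_mul_gradMat (c : ι → K) (g : ρ → MvPolynomial ι k) (hg : ∀ l, aeval c (g l) = 0) :
    coordMat b c * (gradMat c g)ᵀ = 0 := by
  ext j l
  have := congr(b.repr $(derivation_aeval (KaehlerDifferential.D k K) c (g l)) j)
  rw [hg, map_zero, map_zero, map_sum] at this
  simpa [coordMat, gradMat, Matrix.mul_apply, mul_comm] using this.symm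

lemma exists_det_ne_zero :
    ∃ a : Fin N → K, b.det (fun j => KaehlerDifferential.D k K (a j)) ≠ 0 := by
  by_contra H
  push Not at H
  have h1 : b.det.toMultilinearMap = 0 := by
    refine MultilinearMap.ext_of_span_eq_top
      (γ := fun _ => K) (g := fun _ a => KaehlerDifferential.D k K a)
      (fun _ => KaehlerDifferential.span_range_derivation k K) fun a => ?_
    exact H a
  have h2 : b.det b = 0 := congr($h1 b)
  rw [Module.Basis.det_self] at h2
  exact one_ne_zero h2

omit [DecidableEq ι] in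
theorem chart_jac (c : ι → K) (g : ρ → MvPolynomial ι k) (hg : ∀ l, aeval c (g l) = 0)
    (hK : ∀ f : K, ∃ p q : MvPolynomial ι k, aeval c q ≠ 0 ∧ f = aeval c p / aeval c q)
    (r : ρ → ι → MvPolynomial ι k)
    (hr : (Matrix.of fun l i => aeval c (r l i)) * (gradMat c g)ᵀ = 1) (e : Fin N ⊕ ρ ≃ ι) :
    ∃ η : K, η ≠ 0 ∧
      (∀ R : Matrix ρ ι K, ((fromRows (coordMat b c) R).submatrix id e).det =
        η * (R * (gradMat c g)ᵀ).det) ∧
      ∀ (O : Type*) [CommRing O] [IsLocalRing O] (φ : O →+* K), Function.Injective φ →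
        (∀ p : MvPolynomial ι k, aeval c p ∈ φ.range) →
        (∀ a : O, ∃ (p q : MvPolynomial ι k) (w : Oˣ), φ w = aeval c q ∧
          φ a = aeval c p / aeval c q) →
        (∀ a : Fin N → O, ∃ o : O,
          b.det (fun j => KaehlerDifferential.D k K (φ (a j))) = η * φ o) ∧
        ∃ (a : Fin N → O) (o : Oˣ),
          b.det (fun j => KaehlerDifferential.D k K (φ (a j))) = η * φ o := by
  classical
  set R₀ : Matrix ρ ι K := Matrix.of fun l i => aeval c (r l i) with hR₀
  have h0 := coordMat_mul_gradMat b c g hg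
  set η := ((fromRows (coordMat b c) R₀).submatrix id e).det with hη
  have hstar (C : Matrix ι (Fin N) K) : (coordMat b c * C).det =
      η * ((fromCols C (gradMat c g)ᵀ).submatrix e id).det := by
    rw [hη, det_fromRows_mul e _ R₀ _ C h0, hr]; simp
  obtain ⟨a₀, ha₀⟩ := exists_det_ne_zero b
  have H (j : Fin N) : ∃ C : ι → K, KaehlerDifferential.D k K (a₀ j) =
      ∑ i, C i • KaehlerDifferential.D k K (c i) := by
    obtain ⟨p, q, hq, h⟩ := hK (a₀ j)
    obtain ⟨C, -, hC⟩ := exists_grad (KaehlerDifferential.D k K) c ⊤ (fun _ => trivial) _ trivial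
      p q hq trivial h
    exact ⟨C, hC⟩
  choose C₀ hC₀ using H
  rw [det_eq_coordMat b c a₀ (Matrix.of fun i j => C₀ j i) hC₀, hstar] at ha₀
  have hη0 : η ≠ 0 := left_ne_zero_of_mul ha₀
  refine ⟨η, hη0, fun R => ?_, fun O _ _ φ hφ hp hO => ?_⟩
  · apply mul_right_cancel₀ (right_ne_zero_of_mul ha₀)
    rw [det_fromRows_mul e _ R _ _ h0, hstar]
    ring
  have hall (a : Fin N → O) : ∃ o : O,
      b.det (fun j => KaehlerDifferential.D k K (φ (a j))) = η * φ o := by
    have H (j : Fin N) : ∃ C : ι → K, (∀ i, C i ∈ φ.range) ∧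
        KaehlerDifferential.D k K (φ (a j)) = ∑ i, C i • KaehlerDifferential.D k K (c i) := by
      obtain ⟨p, q, w, hw, h⟩ := hO (a j)
      refine exists_grad _ c _ hp _ ⟨_, rfl⟩ p q ?_ ?_ h
      · rw [← hw]; exact (w.isUnit.map φ).ne_zero
      · exact ⟨↑w⁻¹, by rw [← hw, map_units_inv]⟩
    choose C hC hC' using H
    rw [det_eq_coordMat b c _ (Matrix.of fun i j => C j i) hC', hstar]
    have : ((fromCols (Matrix.of fun i j => C j i) (gradMat c g)ᵀ).submatrix e id).det ∈
        φ.range := by
      rw [Matrix.det_apply']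
      refine sum_mem fun σ _ => mul_mem (intCast_mem _ _) (prod_mem fun i _ => ?_)
      cases i with
      | inl i => exact hC _ _
      | inr l => exact hp _
    obtain ⟨o, ho⟩ := this
    exact ⟨o, by rw [ho]⟩
  refine ⟨hall, ?_⟩
  by_contra H
  push Not at H
  have hc (i : ι) : c i ∈ φ.range := by simpa using hp (X i)
  choose c' hc' using hc
  have hspan := det_fromRows_mem_span φ.range (coordMat b c) R₀ (fun l j => hp _) e
  have key : ∀ x ∈ Submodule.span φ.range (Set.range fun σ : Fin N → ι =>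
      ((coordMat b c).submatrix id σ).det), ∃ m ∈ IsLocalRing.maximalIdeal O, x = η * φ m := by
    intro x hx
    induction hx using Submodule.span_induction with
    | mem x hx =>
      obtain ⟨σ, rfl⟩ := hx
      obtain ⟨o, ho⟩ := hall fun j => c' (σ j)
      refine ⟨o, fun hu => H _ hu.unit ho, ?_⟩
      rw [← ho, Module.Basis.det_apply]
      simp only [hc']
      rfl
    | zero => exact ⟨0, zero_mem _, by simp⟩
    | add x y _ _ hx hy =>
      obtain ⟨m, hm, rfl⟩ := hx
      obtain ⟨m', hm', rfl⟩ := hy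
      exact ⟨m + m', add_mem hm hm', by rw [map_add, mul_add]⟩
    | smul s x _ hx =>
      obtain ⟨m, hm, rfl⟩ := hx
      obtain ⟨_, o, rfl⟩ := s
      refine ⟨o * m, Ideal.mul_mem_left _ _ hm, ?_⟩
      change φ o * _ = _
      rw [map_mul]; ring
  obtain ⟨m, hm, e1⟩ := key _ hspan
  have : m = 1 := by
    apply hφ
    rw [map_one]
    exact (mul_left_cancel₀ hη0 ((mul_one η).trans e1)).symm
  exact hm (this ▸ isUnit_one)

end Pool.Agent.Lib.MP_99f32e_ag
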