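import Pool.Agent.Lib.MP_99f32e_ag.Glue
import Pool.Agent.Lib.MP_99f32e_ag.Jac2

open AlgebraicGeometry CategoryTheory IsLocalRing MvPolynomial Matrix

universe u

namespace Pool.Agent.Lib.MP_99f32e_ag

lemma stalk_frac {X : Scheme.{u}} {U : X.Opens} (hU : IsAffineOpen U) {x : X} (hx : x ∈ U)
    (a : X.presheaf.stalk x) : ∃ s t : Γ(X, U), IsUnit (X.presheaf.germ U x hx s) ∧
      a * X.presheaf.germ U x hx s = X.presheaf.germ U x hx t := by
  let _ := TopCat.Presheaf.algebra_section_stalk X.presheaf (⟨x, hx⟩ : U)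
  have := hU.isLocalization_stalk ⟨x, hx⟩
  obtain ⟨⟨t, s⟩, e⟩ := IsLocalization.surj (hU.primeIdealOf ⟨x, hx⟩).asIdeal.primeCompl a
  exact ⟨s, t, IsLocalization.map_units (X.presheaf.stalk x) s, e⟩

namespace Model

variable {k K : Type u} [Field k] [Field K] [Algebra k K] {J : Type}

/-- The function field as an algebra over the constants. -/
noncomputable abbrev constAlg {A : J → Subalgebra k K} (M : Model k K J A) :
    Algebra k M.X.functionField := M.const.toAlgebra

attribute [local instance] constAlg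

lemma emb_aeval {A : J → Subalgebra k K} (M : Model k K J A) {ι : Type*}
    (c' : ι → M.X.functionField) (c : ι → K) (hc : ∀ i, M.emb (c' i) = c i)
    (p : MvPolynomial ι k) : M.emb (aeval c' p) = aeval c p := by
  induction p using MvPolynomial.induction_on with
  | C a => rw [algHom_C, algHom_C]; exact M.emb_const a
  | add p r hp hr => simp only [map_add, hp, hr]
  | mul_X p i hp => simp only [map_mul, hp, aeval_X, hc]

lemma exists_emb_eq {A : J → Subalgebra k K} (M : Model k K J A) {j : J} {a : K} (ha : a ∈ A j) :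
    ∃ f : M.X.functionField, M.emb f = a ∧ ∀ x ∈ M.U j,
      f ∈ (algebraMap (M.X.presheaf.stalk x) M.X.functionField).range :=
  ⟨_, M.emb_germ_chartEquiv_symm j ⟨a, ha⟩, fun _ hx =>
    ⟨_, (germ_mem_stalk (M.generic_mem j) _ hx).symm⟩⟩

lemma mem_stalk {A : J → Subalgebra k K} (M : Model k K J A) {j : J} {f : M.X.functionField}
    (hf : M.emb f ∈ A j) {x : M.X} (hx : x ∈ M.U j) :
    f ∈ (algebraMap (M.X.presheaf.stalk x) M.X.functionField).range := by
  obtain ⟨f', h1, h2⟩ := M.exists_emb_eq hf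
  exact M.emb.injective h1 ▸ h2 x hx

lemma emb_mem {A : J → Subalgebra k K} (M : Model k K J A) {j : J} {f : M.X.functionField}
    (hf : ∀ x ∈ M.U j, f ∈ (algebraMap (M.X.presheaf.stalk x) M.X.functionField).range) :
    M.emb f ∈ A j := by
  obtain ⟨s, rfl⟩ := exists_section_of_mem_stalk _ (M.generic_mem j) f hf
  rw [emb_germ]
  exact (M.chartEquiv j s).2

variable {ι ρ : Type} [Fintype ι] [Fintype ρ] [DecidableEq ρ] {c : J → ι → K}
  (M : Model k K J fun j => (aeval (c j) : MvPolynomial ι k →ₐ[k] K).range)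

omit [Fintype ι] in
lemma exists_lift : ∃ c' : J → ι → M.X.functionField, ∀ j i, M.emb (c' j i) = c j i := by
  have H (j : J) (i : ι) : ∃ f, M.emb f = c j i :=
    (M.exists_emb_eq (j := j) ⟨MvPolynomial.X i, by simp⟩).imp fun _ h => h.1
  choose c' hc' using H
  exact ⟨c', hc'⟩

variable {c' : J → ι → M.X.functionField} (hc' : ∀ j i, M.emb (c' j i) = c j i)
include hc'

omit [Fintype ι] in
lemma germ_eq_aeval (j : J) (s : Γ(M.X, M.U j)) :
    ∃ p : MvPolynomial ι k, M.X.presheaf.germ _ _ (M.generic_mem j) s = aeval (c' j) p := by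
  obtain ⟨p, hp⟩ := (M.chartEquiv j s).2
  refine ⟨p, M.emb.injective ?_⟩
  rw [emb_germ, M.emb_aeval _ _ (hc' j)]
  exact hp.symm

omit [Fintype ι] in
lemma field_frac (j : J) (f : M.X.functionField) : ∃ p r : MvPolynomial ι k,
    aeval (c' j) r ≠ 0 ∧ f = aeval (c' j) p / aeval (c' j) r := by
  obtain ⟨s, t, hs, e⟩ := stalk_frac (M.aff j) (M.generic_mem j) f
  obtain ⟨r, hr⟩ := M.germ_eq_aeval hc' j s
  obtain ⟨p, hp⟩ := M.germ_eq_aeval hc' j t
  have h0 : aeval (c' j) r ≠ 0 := hr ▸ IsUnit.ne_zero (M₀ := M.X.functionField) hs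
  refine ⟨p, r, h0, ?_⟩
  rw [eq_div_iff h0, ← hr, ← hp]
  exact e

lemma exists_basis :
    ∃ n, Nonempty (Module.Basis (Fin n) M.X.functionField
      (KaehlerDifferential k M.X.functionField)) := by
  obtain ⟨j, -⟩ := M.cov (genericPoint M.X)
  have : Module.Finite M.X.functionField (KaehlerDifferential k M.X.functionField) :=
    Module.Finite.of_fg_top (span_D_eq_top (c' j) (M.field_frac hc' j) ▸
      Submodule.fg_span (Set.finite_range _))
  exact ⟨_, ⟨Module.finBasis _ _⟩⟩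

theorem canon (g : J → ρ → MvPolynomial ι k)
    (hker : ∀ j p, aeval (c j) p = 0 → p ∈ Ideal.span (Set.range (g j)))
    (hg : ∀ j l, aeval (c j) (g j l) = 0) (r : J → ρ → ι → MvPolynomial ι k)
    (hr : ∀ j, (Matrix.of fun l i => aeval (c j) (r j l i)) * (gradMat (c j) (g j))ᵀ = 1) {n : ℕ}
    (b : Module.Basis (Fin n) M.X.functionField (KaehlerDifferential k M.X.functionField)) :
    ∃ (e : Fin n ⊕ ρ ≃ ι) (η : J → M.X.functionField), (∀ j, η j ≠ 0) ∧
      (∀ j (R : Matrix ρ ι M.X.functionField),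
        ((fromRows (coordMat b (c' j)) R).submatrix id e).det =
          η j * (R * (gradMat (c' j) (g j))ᵀ).det) ∧
      ∀ j, ∀ x ∈ M.U j, IsLeast {r : ℚ | ∃ (a : Fin n → M.X.presheaf.stalk x)
        (f : M.X.functionField), f = b.det (fun i => KaehlerDifferential.D k M.X.functionField
          (algebraMap _ _ (a i))) ∧ f ≠ 0 ∧ r = M.X.ord f x} (M.X.ord (η j) x) := by
  have he (j) := M.emb_aeval _ _ (hc' j)
  have hg' (j l) : aeval (c' j) (g j l) = 0 := M.emb.injective (by rw [he, hg, map_zero])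
  have hr' (j) : (Matrix.of fun l i => aeval (c' j) (r j l i)) * (gradMat (c' j) (g j))ᵀ = 1 := by
    ext l m
    apply M.emb.injective
    have := congr($(hr j) l m)
    simp only [Matrix.mul_apply, of_apply, transpose_apply, gradMat, map_sum, map_mul, he,
      Matrix.one_apply] at this ⊢
    rw [this]
    split_ifs <;> simp
  obtain ⟨j₀, -⟩ := M.cov (genericPoint M.X)
  have hn := finrank_kaehler (c' j₀) (g j₀) (fun p hp => hker j₀ p (by rw [← he, hp, map_zero]))
    (hg' j₀) (M.field_frac hc' j₀) _ (hr' j₀)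
  rw [Module.finrank_eq_card_basis b, ← Fintype.card_sum] at hn
  let e := Fintype.equivOfCardEq hn
  have H (j) := chart_jac.{u, u, 0, 0, u} b (c' j) (g j) (hg' j) (M.field_frac hc' j) (r j) (hr' j) e
  choose η hη0 hη hη' using H
  refine ⟨e, η, hη0, hη, fun j x hx => ?_⟩
  obtain ⟨h1, a₀, o₀, h2⟩ := hη' j (M.X.presheaf.stalk x) (algebraMap _ M.X.functionField)
    (IsFractionRing.injective _ _)
    (fun p => M.mem_stalk (j := j) (by rw [he]; exact ⟨p, rfl⟩) hx) (fun a => by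
      obtain ⟨s, t, ⟨w, hw⟩, e⟩ := stalk_frac (M.aff j) hx a
      obtain ⟨r, hr⟩ := M.germ_eq_aeval hc' j s
      obtain ⟨p, hp⟩ := M.germ_eq_aeval hc' j t
      rw [germ_mem_stalk _ _ hx] at hr hp
      rw [← hw] at hr e
      refine ⟨p, r, w, hr, ?_⟩
      rw [← hr, ← hp, ← e, map_mul, mul_div_cancel_right₀ _ (w.isUnit.map _).ne_zero])
  constructor
  · refine ⟨a₀, _, rfl, ?_, ?_⟩
    · rw [h2]; exact mul_ne_zero (hη0 j) (o₀.isUnit.map _).ne_zero
    · rw [h2, Scheme.ord_mul (hη0 j) (o₀.isUnit.map _).ne_zero, ord_of_isUnit_stalk o₀.isUnit,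
        add_zero]
  · rintro _ ⟨a, _, rfl, h0, rfl⟩
    obtain ⟨o, ho⟩ := h1 a
    rw [ho] at h0 ⊢
    rw [Scheme.ord_mul (hη0 j) (right_ne_zero_of_mul h0)]
    have := ord_nonneg_of_mem (x := x) (f := algebraMap _ M.X.functionField o) ⟨o, rfl⟩
    exact_mod_cast (by omega)

theorem exists_isCanonicalDiv (g : J → ρ → MvPolynomial ι k)
    (hker : ∀ j p, aeval (c j) p = 0 → p ∈ Ideal.span (Set.range (g j)))
    (hg : ∀ j l, aeval (c j) (g j l) = 0) (r : J → ρ → ι → MvPolynomial ι k)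
    (hr : ∀ j, (Matrix.of fun l i => aeval (c j) (r j l i)) * (gradMat (c j) (g j))ᵀ = 1) :
    ∃ D, IsCanonicalDiv M.π D := by
  obtain ⟨n, ⟨b⟩⟩ := M.exists_basis hc'
  obtain ⟨e, η, -, -, h⟩ := M.canon hc' g hker hg r hr b
  choose j hj using M.cov
  refine ⟨fun x => -M.X.ord (η (j x)) x, n,
    fun a => b.det fun i => KaehlerDifferential.D k M.X.functionField (a i), ⟨b, fun _ => rfl⟩,
    fun x => ?_⟩
  rw [neg_neg]
  exact h _ x (hj x)

theorem of_isCanonicalDiv (g : J → ρ → MvPolynomial ι k)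
    (hker : ∀ j p, aeval (c j) p = 0 → p ∈ Ideal.span (Set.range (g j)))
    (hg : ∀ j l, aeval (c j) (g j l) = 0) (r : J → ρ → ι → MvPolynomial ι k)
    (hr : ∀ j, (Matrix.of fun l i => aeval (c j) (r j l i)) * (gradMat (c j) (g j))ᵀ = 1)
    {D : M.X → ℚ} (hD : IsCanonicalDiv M.π D) :
    ∃ (n : ℕ) (b : Module.Basis (Fin n) M.X.functionField
      (KaehlerDifferential k M.X.functionField)) (e : Fin n ⊕ ρ ≃ ι)
      (η : J → M.X.functionField), (∀ j, η j ≠ 0) ∧
      (∀ j (R : Matrix ρ ι M.X.functionField),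
        ((fromRows (coordMat b (c' j)) R).submatrix id e).det =
          η j * (R * (gradMat (c' j) (g j))ᵀ).det) ∧
      ∀ j, ∀ x ∈ M.U j, D x = -M.X.ord (η j) x := by
  obtain ⟨n, F, ⟨b, hb⟩, h⟩ := hD
  obtain ⟨e, η, h0, h1, h2⟩ := M.canon hc' g hker hg r hr b
  refine ⟨n, b, e, η, h0, h1, fun j x hx => ?_⟩
  have h3 := h x
  simp only [hb] at h3
  rw [← h3.unique (h2 j x hx), neg_neg]

end Model

end Pool.Agent.Lib.MP_99f32e_ag
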