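import Pool.Agent.Lib.MP_99f32e_ag.Grad

open MvPolynomial Sum

namespace Pool.Agent.Lib.MP_99f32e_ag

lemma clear_denom {k S τ : Type*} [CommRing k] [CommRing S] [Algebra k S]
    (ψ : MvPolynomial τ k →ₐ[k] S) (c : τ → S) (J : Ideal (MvPolynomial τ k))
    (d : MvPolynomial τ k) (hd : d - 1 ∈ J) (n : τ → MvPolynomial τ k) (hn : ∀ v, n v - X v ∈ J)
    (hc : ∀ v, ψ d * c v = ψ (n v)) (f : MvPolynomial τ k) :
    ∃ (N : ℕ) (f' : MvPolynomial τ k), ψ d ^ N * aeval c f = ψ f' ∧ f' - f ∈ J := by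
  have hdN (N : ℕ) : d ^ N - 1 ∈ J := by
    simpa using J.mem_of_dvd (sub_dvd_pow_sub_pow d 1 N) hd
  induction f using MvPolynomial.induction_on with
  | C a => exact ⟨0, C a, by simp [← MvPolynomial.algebraMap_eq], by simp⟩
  | add p r hp hr =>
    obtain ⟨N, p', h1, h2⟩ := hp
    obtain ⟨M, r', h3, h4⟩ := hr
    refine ⟨N + M, d ^ M * p' + d ^ N * r', ?_, ?_⟩
    · simp only [map_add, map_mul, map_pow, ← h1, ← h3]; ring
    · convert add_mem (add_mem (J.mul_mem_right p' (hdN M)) (J.mul_mem_right r' (hdN N)))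
        (add_mem h2 h4) using 1
      ring
  | mul_X p v hp =>
    obtain ⟨N, p', h1, h2⟩ := hp
    refine ⟨N + 1, p' * n v, ?_, ?_⟩
    · simp only [map_mul, aeval_X, ← h1, ← hc]; ring
    · convert add_mem (J.mul_mem_left p' (hn v)) (J.mul_mem_right (X v) h2) using 1
      ring

lemma dvd_of_pow_dvd {R : Type*} [CommRing R] [IsDomain R] {s t : R} (hs : s ≠ 0)
    (h : ∀ r, s ∣ t * r → s ∣ r) (N M : ℕ) (r : R) (hr : s ^ N ∣ t ^ M * r) : s ^ N ∣ r := by
  have h1 (M : ℕ) (r : R) (hr : s ∣ t ^ M * r) : s ∣ r := by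
    induction M with
    | zero => simpa using hr
    | succ M ih => exact ih (h _ (by rwa [pow_succ', mul_assoc] at hr))
  induction N generalizing r with
  | zero => simp
  | succ N ih =>
    obtain ⟨r', rfl⟩ := h1 M r ((dvd_pow_self s (Nat.succ_ne_zero N)).trans hr)
    rw [pow_succ', mul_left_comm, mul_dvd_mul_iff_left hs] at hr
    rw [pow_succ']
    exact mul_dvd_mul_left _ (ih _ hr)

variable {K : Type*} [Field K] {I : Type}

/-- the two by two minors -/
def ww {A : Type*} [CommRing A] (z x : I → A) (j l : I) : A := z j ^ 2 * x l - z l ^ 2 * x j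

/-- coordinates on a chart of the base -/
def cZ (z : I → K) (a : I) : I → K := fun i => z i / z a

/-- coordinates on a chart of the total space -/
def cX (z x : I → K) (a b : I) : I ⊕ I → K :=
  Sum.elim (cZ z a) fun i => ww z x a i / ww z x a b

/-- coordinates on the relative cone -/
def cU (z x : I → K) (a : I) : I ⊕ I → K :=
  Sum.elim (cZ z a) fun i => ww z x a i / z a ^ 2

variable [Fintype I] [DecidableEq I]

/-- a generic point of the cone -/
structure Generic (k : Type*) [Field k] [Algebra k K] (q : ℕ) (z x : I → K) : Prop where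
  ker : ∀ f, aeval (Sum.elim z x) f = 0 ↔ f ∈ Ideal.span {FF k I q, ss k I q}
  frob : ∀ s t : K, (s + t) ^ q = s ^ q + t ^ q
  q0 : q ≠ 0
  big : ∀ a b c : I, ∃ d, d ≠ a ∧ d ≠ b ∧ d ≠ c

/-- a rational point -/
def pt (k : Type*) [Field k] (a b d : I) : I ⊕ I → k :=
  Sum.elim (fun i => (Pi.single a 1 : I → k) i - (Pi.single d 1 : I → k) i) (Pi.single b 1)

variable {k : Type*} [Field k] [Algebra k K] {q : ℕ} {z x : I → K}

lemma aeval_pt_FF {a b d : I} (h : a ≠ d) : aeval (pt k a b d) (FF k I q) = 0 := by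
  rw [aeval_FF]; exact sum_pow_two_pt h

lemma aeval_pt_ss (hq : q ≠ 0) {a b d : I} (h : a ≠ b) (h' : d ≠ b) :
    aeval (pt k a b d) (ss k I q) = 0 := by
  rw [aeval_ss]
  simp only [pt, elim_inl, elim_inr]
  rw [sum_mul_single hq]
  simp [Pi.single_eq_of_ne' h, Pi.single_eq_of_ne' h']

namespace Generic

variable (H : Generic k q z x)
include H

omit [DecidableEq I] in
lemma hF : ∑ i, z i ^ (2 * q + 1) = 0 := by
  have := (H.ker (FF k I q)).mpr (Ideal.subset_span (by simp))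
  simpa [aeval_FF] using this

omit [DecidableEq I] in
lemma hs : ∑ i, z i * x i ^ q = 0 := by
  have := (H.ker (ss k I q)).mpr (Ideal.subset_span (by simp))
  simpa [aeval_ss] using this

lemma pt_eq_zero {a b d : I} (hab : a ≠ b) (hdb : d ≠ b) (had : a ≠ d)
    {f : MvPolynomial (I ⊕ I) k} (hf : aeval (Sum.elim z x) f = 0) :
    aeval (pt k a b d) f = 0 := by
  obtain ⟨A, B, rfl⟩ := Ideal.mem_span_pair.mp ((H.ker f).mp hf)
  rw [map_add, map_mul, map_mul, aeval_pt_FF had, aeval_pt_ss H.q0 hab hdb]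
  simp

lemma z_ne (a : I) : z a ≠ 0 := by
  intro h
  obtain ⟨b, hb, -, -⟩ := H.big a a a
  obtain ⟨d, hd, hdb, -⟩ := H.big a b b
  have := H.pt_eq_zero hb.symm hdb hd.symm (f := X (inl a)) (by simpa using h)
  simp [pt, Pi.single_eq_of_ne' hd] at this

lemma w_ne {a b : I} (hab : a ≠ b) : ww z x a b ≠ 0 := by
  intro h
  obtain ⟨d, hd, hdb, -⟩ := H.big a b b
  have := H.pt_eq_zero hab hdb hd.symm (f := ww (fun i => X (inl i)) (fun i => X (inr i)) a b)
    (by simpa [ww] using h)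
  simp [ww, pt, Pi.single_eq_of_ne' hd, Pi.single_eq_of_ne hab] at this

omit [DecidableEq I] in
lemma hF_mul (l : K) : ∑ i, (l * z i) ^ (2 * q + 1) = 0 := by
  simp only [mul_pow, ← Finset.mul_sum, H.hF, mul_zero]

omit [DecidableEq I] in
lemma hs_mul (l m v : K) : ∑ i, l * z i * (m * x i + v * z i ^ 2) ^ q = 0 := by
  have : ∑ i, l * z i * (m * x i + v * z i ^ 2) ^ q =
      l * (m ^ q * ∑ i, z i * x i ^ q + v ^ q * ∑ i, z i ^ (2 * q + 1)) := by
    rw [Finset.mul_sum, Finset.mul_sum, ← Finset.sum_add_distrib, Finset.mul_sum]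
    exact Finset.sum_congr rfl fun i _ => by rw [H.frob]; ring
  rw [this, H.hF, H.hs]; simp

lemma cZ_self (a : I) : cZ z a a = 1 := div_self (H.z_ne a)

lemma hF_cZ (a : I) : ∑ i, cZ z a i ^ (2 * q + 1) = 0 := by
  simpa [cZ, div_eq_inv_mul] using H.hF_mul (z a)⁻¹

lemma hs_div (a : I) (t : K) : ∑ i, cZ z a i * (ww z x a i / t) ^ q = 0 := by
  rw [← H.hs_mul (z a)⁻¹ (z a ^ 2 / t) (-x a / t)]
  refine Finset.sum_congr rfl fun i _ => ?_
  simp only [cZ, ww]
  congr 1
  · rw [div_eq_inv_mul]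
  · congr 1; ring

lemma aeval_gZ (a : I) (l : Fin 2) : aeval (cZ z a) (gZ k q a l) = 0 := by
  fin_cases l
  · simp [gZ, H.cZ_self]
  · simpa [gZ, aeval_FZ] using H.hF_cZ a

lemma aeval_gX {a b : I} (hab : a ≠ b) (l : Fin 3 ⊕ Fin 2) :
    aeval (cX z x a b) (gX k q a b l) = 0 := by
  rcases l with l | l <;> fin_cases l
  · simp [gX, cX, H.cZ_self]
  · simp [gX, cX, ww]
  · simp [gX, cX, H.w_ne hab]
  · simpa [gX, cX, aeval_FF] using H.hF_cZ a
  · simpa [gX, cX, aeval_ss] using H.hs_div a (ww z x a b)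

omit [DecidableEq I] in
lemma ker_z (f : MvPolynomial I k) (hf : aeval z f = 0) : FZ k I q ∣ f := by
  have h1 : aeval (Sum.elim z x) (rename (inl : I → I ⊕ I) f) = 0 := by
    rw [aeval_rename]; exact hf
  obtain ⟨A, B, h2⟩ := Ideal.mem_span_pair.mp ((H.ker _).mp h1)
  have h3 := congr(aeval (Sum.elim X 0 : I ⊕ I → MvPolynomial I k) $h2)
  rw [aeval_rename, map_add, map_mul, map_mul, aeval_FF, aeval_ss] at h3
  simp only [elim_inl, elim_inr, Pi.zero_apply, zero_pow H.q0, mul_zero, Finset.sum_const_zero,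
    add_zero, elim_comp_inl, aeval_X_left, AlgHom.id_apply] at h3
  exact ⟨_, by rw [← h3, mul_comm]; rfl⟩

lemma ker_cZ (a : I) (f : MvPolynomial I k) (hf : aeval (cZ z a) f = 0) :
    f ∈ Ideal.span (Set.range (gZ k q a)) := by
  set J := Ideal.span (Set.range (gZ k q a)) with hJ
  have h0 : X a - 1 ∈ J := Ideal.subset_span ⟨0, rfl⟩
  have h1 : FZ k I q ∈ J := Ideal.subset_span ⟨1, rfl⟩
  obtain ⟨N, f', e1, e2⟩ := clear_denom (aeval z) (cZ z a) J (X a) h0 X (by simp) (fun v => by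
    simp [cZ, mul_div_cancel₀ _ (H.z_ne a)]) f
  rw [hf, mul_zero] at e1
  simpa using sub_mem (J.mem_of_dvd (H.ker_z f' e1.symm) h1) e2

lemma ker_aux (a : I) (c : I ⊕ I → K) (J : Ideal (MvPolynomial (I ⊕ I) k))
    (h0 : X (inl a) - 1 ∈ J) (h1 : X (inr a) ∈ J) (h2 : FF k I q ∈ J) (h3 : ss k I q ∈ J)
    (W : MvPolynomial (I ⊕ I) k) (hW : W - 1 ∈ J) (hW0 : aeval (Sum.elim z x) W ≠ 0)
    (hc : c = Sum.elim (cZ z a) fun i => ww z x a i / aeval (Sum.elim z x) W)
    (f : MvPolynomial (I ⊕ I) k) (hf : aeval c f = 0) : f ∈ J := by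
  obtain ⟨N, f', e1, e2⟩ := clear_denom (aeval (Sum.elim z x)) c J (X (inl a) * W)
    (by convert add_mem (J.mul_mem_right W h0) hW using 1; ring)
    (Sum.elim (fun i => X (inl i) * W)
      fun i => X (inl a) * ww (fun i => X (inl i)) (fun i => X (inr i)) a i)
    (by
      rintro (i | i)
      · convert J.mul_mem_left (X (inl i)) hW using 1
        simp only [elim_inl]; ring
      · convert sub_mem (J.mul_mem_left ((X (inl a) ^ 2 + X (inl a) + 1) * X (inr i)) h0)
          (J.mul_mem_left (X (inl a) * X (inl i) ^ 2) h1) using 1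
        simp only [elim_inr, ww]; ring)
    (by
      have := H.z_ne a
      rintro (i | i)
      · simp only [hc, map_mul, aeval_X, elim_inl, cZ]; field_simp
      · simp only [hc, map_mul, aeval_X, elim_inl, elim_inr, ww, map_sub, map_pow]; field_simp) f
  rw [hf, mul_zero] at e1
  obtain ⟨A, B, e3⟩ := Ideal.mem_span_pair.mp ((H.ker _).mp e1.symm)
  have : f' ∈ J := e3 ▸ add_mem (J.mul_mem_left _ h2) (J.mul_mem_left _ h3)
  simpa using sub_mem this e2

lemma ker_cX {a b : I} (hab : a ≠ b) (f : MvPolynomial (I ⊕ I) k)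
    (hf : aeval (cX z x a b) f = 0) : f ∈ Ideal.span (Set.range (gX k q a b)) := by
  set J := Ideal.span (Set.range (gX k q a b)) with hJ
  have h0 : X (inl a) - 1 ∈ J := Ideal.subset_span ⟨inl 0, rfl⟩
  have h1 : X (inr a) ∈ J := Ideal.subset_span ⟨inl 1, rfl⟩
  have h2 : X (inr b) - 1 ∈ J := Ideal.subset_span ⟨inl 2, rfl⟩
  have hW : aeval (Sum.elim z x)
      (ww (fun i => X (inl i)) (fun i => X (inr i)) a b : MvPolynomial (I ⊕ I) k) =
      ww z x a b := by simp [ww]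
  refine H.ker_aux a _ J h0 h1 (Ideal.subset_span ⟨inr 0, rfl⟩) (Ideal.subset_span ⟨inr 1, rfl⟩)
    (ww (fun i => X (inl i)) (fun i => X (inr i)) a b) ?_ (hW ▸ H.w_ne hab) (by rw [hW]; rfl) f hf
  convert sub_mem (add_mem (J.mul_mem_left ((X (inl a) + 1) * X (inr b)) h0) h2)
    (J.mul_mem_left (X (inl b) ^ 2) h1) using 1
  simp only [ww]; ring

lemma ker_cU (a : I) {S : Type*} [CommRing S] [Algebra k S] (c : I ⊕ I → S)
    (h0 : c (inl a) = 1) (h2 : ∑ i, c (inl i) ^ (2 * q + 1) = 0) (h1 : c (inr a) = 0)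
    (f : MvPolynomial (I ⊕ I) k) (hf : aeval (cU z x a) f = 0) :
    (∑ i, c (inl i) * c (inr i) ^ q) ∣ aeval c f := by
  set J := (Ideal.span {∑ i, c (inl i) * c (inr i) ^ q}).comap
    (aeval c : MvPolynomial (I ⊕ I) k →ₐ[k] S) with hJ
  have h0' : X (inl a) - 1 ∈ J := by simp [hJ, h0]
  rw [← Ideal.mem_span_singleton]
  refine H.ker_aux a _ J h0' (by simp [hJ, h1]) (by simp [hJ, aeval_FF, h2])
    (by simp [hJ, aeval_ss]) (X (inl a) ^ 2) ?_ (by simpa using H.z_ne a) ?_ f hf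
  · convert J.mul_mem_left (X (inl a) + 1) h0' using 1
    ring
  · simp [cU]

end Generic

end Pool.Agent.Lib.MP_99f32e_ag
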