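import Mathlib

open AlgebraicGeometry CategoryTheory

universe u

namespace Pool.Agent.Lib.MP_99f32e_ag

attribute [local instance] MvPolynomial.gradedAlgebra

/-- `π : X ⟶ Spec k` is a closed subscheme of some projective space over `k`. -/
def IsProjective {k : Type u} [Field k] {X : Scheme.{u}} (π : X ⟶ Spec (.of k)) : Prop :=
  ∃ (n : ℕ) (ι : X ⟶ Proj (MvPolynomial.homogeneousSubmodule (Fin (n + 1)) k)),
    IsClosedImmersion ι ∧
      ι ≫ Proj.toSpecZero _ ≫ Spec.map (CommRingCat.ofHom (algebraMap k _)) = π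

/-- The map on function fields induced by a dominant morphism. -/
noncomputable def pullFun {X Z : Scheme.{u}} [IsIntegral X] [IsIntegral Z] (h : X ⟶ Z)
    [IsDominant h] : Z.functionField ⟶ X.functionField :=
  Z.presheaf.stalkSpecializes
      ((((genericPoint_spec X).image h.continuous).specializes
        (by simpa using h.denseRange (genericPoint Z)))) ≫
    h.stalkMap (genericPoint X)

/-- `D` is `ℚ`-linearly equivalent to `D'`. -/
def QLinEq {X : Scheme.{u}} [IsIntegral X] [IsLocallyNoetherian X] (D D' : X → ℚ) : Prop :=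
  ∃ (m : ℕ) (f : X.functionField), 0 < m ∧ f ≠ 0 ∧ ∀ x, m * (D x - D' x) = X.ord f x

/-- `D` is a `ℚ`-Cartier `ℚ`-divisor on `Z` and `E` is its pull-back under `h`. -/
def IsPullbackDiv {X Z : Scheme.{u}} [IsIntegral X] [IsIntegral Z] [IsLocallyNoetherian X]
    [IsLocallyNoetherian Z] (h : X ⟶ Z) [IsDominant h] (D : Z → ℚ) (E : X → ℚ) : Prop :=
  ∃ m : ℕ, 0 < m ∧ ∀ z : Z, ∃ (U : Z.Opens) (f : Z.functionField), z ∈ U ∧ f ≠ 0 ∧
    (∀ y ∈ U, m * D y = Z.ord f y) ∧ ∀ x : X, h x ∈ U → m * E x = X.ord (pullFun h f) x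

/-- `J a` is the coefficient of `da₁ ∧ ⋯ ∧ daₙ` with respect to a fixed nonzero top form. -/
def IsTopFormCoeff {k K : Type u} [Field k] [Field K] (φ : k →+* K) {n : ℕ}
    (J : (Fin n → K) → K) : Prop :=
  letI := φ.toAlgebra
  ∃ b : Module.Basis (Fin n) K (KaehlerDifferential k K),
    ∀ a, J a = b.det fun i => KaehlerDifferential.D k K (a i)

/-- `K` is the divisor of a nonzero rational differential form of top degree. -/
def IsCanonicalDiv {k : Type u} [Field k] {X : Scheme.{u}} [IsIntegral X]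
    [IsLocallyNoetherian X] (π : X ⟶ Spec (.of k)) (K : X → ℚ) : Prop :=
  ∃ (n : ℕ) (J : (Fin n → X.functionField) → X.functionField),
    IsTopFormCoeff ((Scheme.ΓSpecIso (.of k)).inv ≫ π.appTop ≫
      X.presheaf.germ ⊤ (genericPoint X) trivial).hom J ∧
    ∀ x : X, IsLeast {r : ℚ | ∃ (a : Fin n → X.presheaf.stalk x) (g : X.functionField),
      g = J (fun i => algebraMap _ _ (a i)) ∧ g ≠ 0 ∧ r = X.ord g x} (-K x)

end Pool.Agent.Lib.MP_99f32e_ag
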