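import Mathlib

open MvPolynomial

namespace Pool.Agent.Lib.MP_99f32e_ag

theorem prime_fermat {k σ : Type*} [Field k] (T : Finset σ) {n : ℕ} (hn : (n : k) ≠ 0)
    {i₀ i₁ i₂ : σ} (h₀ : i₀ ∈ T) (h₁ : i₁ ∈ T) (h₂ : i₂ ∈ T) (h₀₁ : i₁ ≠ i₀) (h₀₂ : i₂ ≠ i₀)
    (h₁₂ : i₁ ≠ i₂) : Prime (∑ v ∈ T, X v ^ n : MvPolynomial σ k) := by
  classical
  have hn0 : n ≠ 0 := by rintro rfl; simp at hn
  let e : MvPolynomial σ k ≃ₐ[k] Polynomial (MvPolynomial {v // v ≠ i₀} k) :=
    (renameEquiv k (Equiv.optionSubtypeNe i₀).symm).trans (optionEquivLeft k _)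
  let G : MvPolynomial {v // v ≠ i₀} k := ∑ v ∈ T.subtype (· ≠ i₀), X v ^ n
  have he : e (∑ v ∈ T, X v ^ n) = Polynomial.X ^ n + Polynomial.C G := by
    rw [← Finset.add_sum_erase T _ h₀, map_add, map_sum, map_sum]
    congr 1
    · simp [e, optionEquivLeft_X_none]
    · rw [← Finset.filter_ne', ← Finset.sum_subtype_eq_sum_filter]
      refine Finset.sum_congr rfl fun v _ => ?_
      simp [e, Equiv.optionSubtypeNe_symm_of_ne v.2, optionEquivLeft_X_some]
  have hd (j : {v // v ≠ i₀}) (hj : j.1 ∈ T) : pderiv j G = C (n : k) * X j ^ (n - 1) := by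
    rw [map_sum, Finset.sum_eq_single j]
    · simp [Derivation.leibniz_pow]
    · intro v _ hv
      simp [Derivation.leibniz_pow, pderiv_X, Pi.single_eq_of_ne' hv.symm]
    · intro h
      exact absurd (Finset.mem_subtype.mpr hj) h
  have hG0 : G ≠ 0 := by
    intro h
    have := hd ⟨i₁, h₀₁⟩ h₁
    rw [h, map_zero] at this
    exact mul_ne_zero ((map_ne_zero_iff _ (C_injective _ _)).mpr hn) (pow_ne_zero _ (X_ne_zero _)) this.symm
  have hGu : ¬ IsUnit G := by
    intro h
    have := h.map (constantCoeff (R := k))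
    simp [G, hn0] at this
  obtain ⟨π, hπ, hπG⟩ := WfDvdMonoid.exists_irreducible_factor hGu hG0
  have hπ' : Prime π := hπ.prime
  have hsq : ¬ π ^ 2 ∣ G := by
    rintro ⟨h, hh⟩
    have H (j : {v // v ≠ i₀}) (hj : j.1 ∈ T) : Associated π (X j) := by
      have h1 : π ∣ pderiv j G := by
        rw [hh, Derivation.leibniz, Derivation.leibniz_pow]
        simp only [smul_eq_mul, nsmul_eq_mul]
        exact dvd_add (Dvd.dvd.mul_right (dvd_pow_self _ two_ne_zero) _)
          (Dvd.dvd.mul_left (Dvd.dvd.mul_left (Dvd.dvd.mul_right (by simp) _) _) _)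
      rw [hd j hj] at h1
      have h2 : π ∣ X j ^ (n - 1) :=
        (IsUnit.dvd_mul_left ((isUnit_iff_ne_zero.mpr hn).map C)).mp h1
      exact hπ.associated_of_dvd X_prime.irreducible (hπ'.dvd_of_dvd_pow h2)
    have := ((H ⟨i₁, h₀₁⟩ h₁).symm.trans (H ⟨i₂, h₀₂⟩ h₂)).dvd
    rw [X_dvd_X] at this
    exact h₁₂ congr(($this).1)
  have hmon : (Polynomial.X ^ n + Polynomial.C G).Monic := Polynomial.monic_X_pow_add_C _ hn0
  have hdeg : (Polynomial.X ^ n + Polynomial.C G).natDegree = n := Polynomial.natDegree_X_pow_add_C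
  have hP : (Ideal.span {π}).IsPrime := (Ideal.span_singleton_prime hπ'.ne_zero).mpr hπ'
  have hirr : Irreducible (Polynomial.X ^ n + Polynomial.C G) := by
    refine Polynomial.IsEisensteinAt.irreducible (𝓟 := Ideal.span {π}) ⟨?_, ?_, ?_⟩ hP
      hmon.isPrimitive (by rw [hdeg]; omega)
    · rw [hmon.leadingCoeff]
      exact (Ideal.ne_top_iff_one _).mp hP.ne_top
    · intro m hm
      rw [hdeg] at hm
      rw [Polynomial.coeff_add, Polynomial.coeff_X_pow, if_neg hm.ne, zero_add,
        Polynomial.coeff_C]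
      split_ifs
      · exact Ideal.mem_span_singleton.mpr hπG
      · exact zero_mem _
    · rw [Polynomial.coeff_add, Polynomial.coeff_X_pow, if_neg hn0.symm, zero_add,
        Polynomial.coeff_C_zero, Ideal.span_singleton_pow, Ideal.mem_span_singleton]
      exact hsq
  rw [← he] at hirr
  exact ((MulEquiv.irreducible_iff e).mp hirr).prime

theorem irreducible_X_pow_char_pow_sub_C {E : Type*} [Field E] (p : ℕ) [Fact p.Prime] [CharP E p]
    (e : ℕ) (a : E) (ha : ∀ b : E, b ^ p ≠ a) :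
    Irreducible (Polynomial.X ^ p ^ e - Polynomial.C a) := by
  have hp : p.Prime := Fact.out
  have hq : 0 < p ^ e := pow_pos hp.pos _
  obtain ⟨α, hα⟩ := IsAlgClosed.exists_pow_nat_eq (algebraMap E (AlgebraicClosure E) a) hq
  obtain ⟨m, y, hm⟩ := (minpoly.natSepDegree_eq_one_iff_eq_X_pow_sub_C p).mp
    ((minpoly.natSepDegree_eq_one_iff_pow_mem p (F := E) (x := α)).mpr ⟨e, a, hα.symm⟩)
  have hint : IsIntegral E α := Algebra.IsIntegral.isIntegral α
  have hy : α ^ p ^ m = algebraMap E _ y := by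
    have := minpoly.aeval E α
    rw [hm] at this
    simpa [sub_eq_zero] using this
  have hle : m ≤ e := by
    have h1 : minpoly E α ∣ Polynomial.X ^ p ^ e - Polynomial.C a :=
      minpoly.dvd E α (by simp [hα])
    have h2 := Polynomial.natDegree_le_of_dvd h1 (Polynomial.X_pow_sub_C_ne_zero hq a)
    rw [hm, Polynomial.natDegree_X_pow_sub_C, Polynomial.natDegree_X_pow_sub_C] at h2
    exact (Nat.pow_le_pow_iff_right hp.one_lt).mp h2
  have hya : y ^ p ^ (e - m) = a := by
    apply (algebraMap E (AlgebraicClosure E)).injective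
    rw [map_pow, ← hy, ← pow_mul, ← pow_add, Nat.add_sub_cancel' hle, hα]
  have hme : m = e := by
    by_contra hne
    obtain ⟨d, hd⟩ : ∃ d, e - m = d + 1 := ⟨e - m - 1, by omega⟩
    apply ha (y ^ p ^ d)
    rw [← pow_mul, ← pow_succ, ← hd, hya]
  subst hme
  rw [Nat.sub_self, pow_zero, pow_one] at hya
  rw [← hya, ← hm]
  exact minpoly.irreducible hint

lemma sub_aeval_update_mem {R σ : Type*} [CommRing R] [DecidableEq σ] (v : σ)
    (f : MvPolynomial σ R) :
    X v ∣ f - aeval (Function.update X v (0 : MvPolynomial σ R)) f := by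
  induction f using MvPolynomial.induction_on with
  | C a => simp
  | add p q hp hq =>
    rw [map_add, add_sub_add_comm]
    exact dvd_add hp hq
  | mul_X p i hp =>
    rw [map_mul, aeval_X]
    by_cases h : i = v
    · subst h
      simp
    · rw [Function.update_of_ne h, ← sub_mul]
      exact hp.mul_right _

end Pool.Agent.Lib.MP_99f32e_ag
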