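import Pool.Agent.Lib.MP_99f32e_ag.Glue

open AlgebraicGeometry CategoryTheory

universe u

namespace Pool.Agent.Lib.MP_99f32e_ag

variable {X Z : Scheme.{u}} [IsIntegral X] [IsIntegral Z] [IsLocallyNoetherian X]
  [IsLocallyNoetherian Z] (h : X ⟶ Z) [IsDominant h]

lemma ord_eq_zero_of_nonneg (hn : ∀ x : X, IsIntegrallyClosed (X.presheaf.stalk x))
    (hF : IsField Γ(X, ⊤)) {f : X.functionField} (hf : f ≠ 0) (h : ∀ x, 0 ≤ X.ord f x) (x : X) :
    X.ord f x = 0 := by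
  obtain ⟨s, rfl⟩ := exists_section_of_mem_stalk ⊤ trivial f fun x _ =>
    hartogs hn x f fun y _ => h y
  have hs : s ≠ 0 := by rintro rfl; exact hf (map_zero _)
  obtain ⟨t, ht⟩ := hF.mul_inv_cancel hs
  rw [germ_mem_stalk _ s (x := x) trivial]
  exact ord_of_isUnit_stalk ((IsUnit.of_mul_eq_one t ht).map _)

variable {I : Type*} (V : I → Z.Opens) (hV : ∀ y, ∃ a, y ∈ V a) (l : I → Z.functionField)
  (hl0 : ∀ a, l a ≠ 0) (q : ℕ) (KX : X → ℚ) (KZ : Z → ℚ) (PX : X.functionField) (hPX : PX ≠ 0)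
  (PZ : Z.functionField) (hPZ : PZ ≠ 0)
  (hKX : ∀ a x, h x ∈ V a → KX x = -X.ord PX x + q * X.ord (pullFun h (l a)) x)
  (hKZ : ∀ a, ∀ y ∈ V a, KZ y = -Z.ord PZ y + (q + 1) * Z.ord (l a) y)

include hV hl0 hPX hKX hKZ in
theorem exists_pullbackDiv : ∃ D E, IsPullbackDiv h D E ∧ QLinEq KX E := by
  refine ⟨fun y => q / (q + 1) * (KZ y + Z.ord PZ y), fun x => KX x + X.ord PX x,
    ⟨1, one_pos, fun y => ?_⟩, 1, PX⁻¹, one_pos, inv_ne_zero hPX, fun x => ?_⟩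
  · obtain ⟨a, ha⟩ := hV y
    refine ⟨V a, l a ^ q, ha, pow_ne_zero _ (hl0 a), fun y hy => ?_, fun x hx => ?_⟩
    · dsimp only
      rw [hKZ a y hy, ord_pow' (hl0 a)]
      push_cast
      field_simp
      ring
    · dsimp only
      rw [hKX a x hx, map_pow, ord_pow' ((map_ne_zero (pullFun h).hom).mpr (hl0 a))]
      push_cast
      ring
  · rw [ord_inv' hPX]
    push_cast
    ring

include hV hl0 hPX hPZ hKX hKZ in
theorem not_exists_effective (hnX : ∀ x : X, IsIntegrallyClosed (X.presheaf.stalk x))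
    (hnZ : ∀ y : Z, IsIntegrallyClosed (Z.presheaf.stalk y)) (hF : IsField Γ(X, ⊤))
    (hl : ∀ a, ∀ y ∈ V a, l a ∈ (algebraMap (Z.presheaf.stalk y) Z.functionField).range) (a₀ : I)
    (hnu : ¬ ∀ x, h x ∈ V a₀ →
      (pullFun h (l a₀))⁻¹ ∈ (algebraMap (X.presheaf.stalk x) X.functionField).range) :
    ¬ ∃ Δ E, 0 ≤ Δ ∧ IsPullbackDiv h (KZ + Δ) E ∧ QLinEq KX E := by
  rintro ⟨Δ, E, hΔ, ⟨m, hm, H⟩, m', g, hm', hg, hE⟩
  have hne {f : Z.functionField} (hf : f ≠ 0) : pullFun h f ≠ 0 :=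
    (map_ne_zero (pullFun h).hom).mpr hf
  set Ψ := pullFun h PZ ^ (m * m') * (g ^ m * PX ^ (m * m'))⁻¹ with hΨ
  have h1 : g ^ m * PX ^ (m * m') ≠ 0 := mul_ne_zero (pow_ne_zero _ hg) (pow_ne_zero _ hPX)
  have hΨ0 : Ψ ≠ 0 := mul_ne_zero (pow_ne_zero _ (hne hPZ)) (inv_ne_zero h1)
  have key (a : I) (x : X) (hx : h x ∈ V a) :
      (m * m' : ℕ) * X.ord (pullFun h (l a)) x ≤ X.ord Ψ x := by
    obtain ⟨U, f, hU, hf, hf1, hf2⟩ := H (h x)
    have h2 : l a ^ ((q + 1) * m) ≠ 0 := pow_ne_zero _ (hl0 a)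
    have h3 : f * PZ ^ m ≠ 0 := mul_ne_zero hf (pow_ne_zero _ hPZ)
    have h4 := hartogs hnZ (h x) (f * PZ ^ m * (l a ^ ((q + 1) * m))⁻¹) fun y hy => by
      have e1 := hf1 y (hy.mem_open U.isOpen hU)
      have e2 := hKZ a y (hy.mem_open (V a).isOpen hx)
      have e3 : (0 : ℚ) ≤ m * Δ y := mul_nonneg (Nat.cast_nonneg _) (hΔ y)
      rw [Scheme.ord_mul h3 (inv_ne_zero h2), Scheme.ord_mul hf (pow_ne_zero _ hPZ), ord_inv' h2,
        ord_pow' hPZ, ord_pow' (hl0 a)]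
      rw [Pi.add_apply, e2] at e1
      qify
      linarith
    have h5 := ord_nonneg_of_mem (pullFun_mem_stalk h h4)
    rw [map_mul, map_inv₀, Scheme.ord_mul (hne h3) (inv_ne_zero (hne h2)), map_mul,
      Scheme.ord_mul (hne hf) (hne (pow_ne_zero _ hPZ)), ord_inv' (hne h2), map_pow, map_pow,
      ord_pow' (hne hPZ), ord_pow' (hne (hl0 a))] at h5
    rw [hΨ, Scheme.ord_mul (pow_ne_zero _ (hne hPZ)) (inv_ne_zero h1), ord_inv' h1,
      Scheme.ord_mul (pow_ne_zero _ hg) (pow_ne_zero _ hPX), ord_pow' hg, ord_pow' hPX,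
      ord_pow' (hne hPZ)]
    have e1 := hE x
    have e2 := hf2 x hU
    rw [hKX a x hx] at e1
    qify at h5 ⊢
    have e3 := mul_nonneg (Nat.cast_nonneg (α := ℚ) m') h5
    rw [← e1]
    rw [← e2] at e3
    linarith
  have hpos (a : I) (x : X) (hx : h x ∈ V a) : 0 ≤ X.ord (pullFun h (l a)) x :=
    ord_nonneg_of_mem (pullFun_mem_stalk h (hl a _ hx))
  have h0 := ord_eq_zero_of_nonneg hnX hF hΨ0 fun x => by
    obtain ⟨a, ha⟩ := hV (h x)
    exact (mul_nonneg (Nat.cast_nonneg _) (hpos a x ha)).trans (key a x ha)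
  refine hnu fun x hx => hartogs hnX x _ fun y hy => ?_
  have := key a₀ y ((hy.map h.continuous).mem_open (V a₀).isOpen hx)
  rw [h0] at this
  rw [ord_inv' (hne (hl0 a₀)), neg_nonneg]
  exact nonpos_of_mul_nonpos_right this (by exact_mod_cast Nat.mul_pos hm hm')

end Pool.Agent.Lib.MP_99f32e_ag
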