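import Pool.Agent.Lib.MP_99f32e_ag.Sch

open AlgebraicGeometry CategoryTheory IsLocalRing Limits

universe u

namespace Pool.Agent.Lib.MP_99f32e_ag

lemma evalAt_congr {K : Type u} [Field K] {X : Scheme.{u}} {γ γ' : Spec (.of K) ⟶ X} (e : γ = γ')
    (U : X.Opens) (h : ⊤ ≤ γ ⁻¹ᵁ U) (h' : ⊤ ≤ γ' ⁻¹ᵁ U) : evalAt γ U h = evalAt γ' U h' := by
  subst e; rfl

lemma germ_mem_stalk {X : Scheme.{u}} [IsIntegral X] {U : X.Opens} (hU : genericPoint X ∈ U)
    (s : Γ(X, U)) {x : X} (hx : x ∈ U) :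
    X.presheaf.germ U _ hU s = algebraMap (X.presheaf.stalk x) X.functionField
      (X.presheaf.germ U x hx s) := by
  have : Nonempty U := ⟨⟨_, hU⟩⟩
  rw [Scheme.algebraMap_germ_eq_germToFunctionField]

lemma exists_pow_mul_mem {X : Scheme.{u}} [IsIntegral X] {U : X.Opens} (hU : IsAffineOpen U)
    (hU' : genericPoint X ∈ U) (t : Γ(X, U)) (ht : genericPoint X ∈ X.basicOpen t)
    (f : X.functionField)
    (hf : ∀ x ∈ X.basicOpen t, f ∈ (algebraMap (X.presheaf.stalk x) X.functionField).range) :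
    ∃ (N : ℕ) (s : Γ(X, U)), X.presheaf.germ U _ hU' s = X.presheaf.germ U _ hU' t ^ N * f := by
  obtain ⟨σ, rfl⟩ := exists_section_of_mem_stalk _ ht f hf
  have := hU.isLocalization_basicOpen t
  obtain ⟨⟨s, _, N, rfl⟩, e⟩ := IsLocalization.surj (Submonoid.powers t) σ
  refine ⟨N, s, ?_⟩
  have e' := congr(X.presheaf.germ _ _ ht $e)
  have h1 (r : Γ(X, U)) : X.presheaf.germ _ _ ht (algebraMap Γ(X, U) Γ(X, X.basicOpen t) r) =
      X.presheaf.germ U _ hU' r := TopCat.Presheaf.germ_res_apply _ _ _ _ _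
  rw [map_mul, h1, h1, map_pow] at e'
  rw [← e', mul_comm]

namespace Model

variable {k K : Type u} [Field k] [Field K] [Algebra k K] {J J' : Type} {A : J → Subalgebra k K}
  {B : J' → Subalgebra k K} (M : Model k K J A) (N : Model k K J' B)

theorem exists_hom (τ : J → J') (hτ : ∀ j, B (τ j) ≤ A j) :
    ∃ h : M.X ⟶ N.X, M.γ ≫ h = N.γ ∧ ∀ j, M.U j ≤ h ⁻¹ᵁ N.U (τ j) := by
  let 𝒰 : M.X.OpenCover := Scheme.Cover.mkOfCovers J (fun j => Spec Γ(M.X, M.U j))
    (fun j => (M.aff j).fromSpec) (fun x => by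
      obtain ⟨j, hj⟩ := M.cov x
      obtain ⟨y, hy⟩ : x ∈ Set.range (M.aff j).fromSpec := by
        rw [IsAffineOpen.range_fromSpec]; exact hj
      exact ⟨j, y, hy⟩)
  let ψ (j : J) : Γ(N.X, N.U (τ j)) ⟶ Γ(M.X, M.U j) := CommRingCat.ofHom
    (((M.chartEquiv j).symm.toRingHom.comp (Subalgebra.inclusion (hτ j)).toRingHom).comp
      (N.chartEquiv (τ j)).toRingHom)
  have hψ (j : J) : ψ j ≫ evalAt M.γ (M.U j) (M.mem j) = evalAt N.γ (N.U (τ j)) (N.mem _) := by
    ext s
    change evalAt M.γ (M.U j) (M.mem j) ((M.chartEquiv j).symm _) = _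
    rw [← coe_chartEquiv, RingEquiv.apply_symm_apply]
    rfl
  let f (j : J) : Spec Γ(M.X, M.U j) ⟶ N.X := Spec.map (ψ j) ≫ (N.aff (τ j)).fromSpec
  have hf (j : J) : Spec.map (evalAt M.γ (M.U j) (M.mem j)) ≫ f j = N.γ := by
    rw [← Spec.map_comp_assoc, hψ, SpecMap_evalAt]
  have hc (i j : J) : pullback.fst (M.aff i).fromSpec (M.aff j).fromSpec ≫ f i =
      pullback.snd _ _ ≫ f j := by
    have : IsReduced (pullback (M.aff i).fromSpec (M.aff j).fromSpec) :=
      isReduced_of_isOpenImmersion (pullback.fst _ _ ≫ (M.aff i).fromSpec)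
    let γ' : Spec (.of K) ⟶ pullback (M.aff i).fromSpec (M.aff j).fromSpec :=
      pullback.lift (Spec.map (evalAt M.γ (M.U i) (M.mem i)))
        (Spec.map (evalAt M.γ (M.U j) (M.mem j))) (by rw [SpecMap_evalAt, SpecMap_evalAt])
    have : IsDominant (γ' ≫ pullback.fst _ _ ≫ (M.aff i).fromSpec) := by
      rw [pullback.lift_fst_assoc, SpecMap_evalAt]; infer_instance
    have : IsDominant γ' :=
      IsDominant.of_comp_of_isOpenImmersion γ' (pullback.fst _ _ ≫ (M.aff i).fromSpec)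
    refine ext_of_isDominant γ' ?_
    rw [pullback.lift_fst_assoc, pullback.lift_snd_assoc, hf, hf]
  have hι (j : J) : (M.aff j).fromSpec ≫ 𝒰.glueMorphisms f hc = f j := 𝒰.ι_glueMorphisms f hc j
  refine ⟨𝒰.glueMorphisms f hc, ?_, fun j x hx => ?_⟩
  · obtain ⟨j, -⟩ := M.cov (genericPoint M.X)
    rw [← SpecMap_evalAt M.γ (M.aff j) (M.mem j), Category.assoc, hι, hf]
  · obtain ⟨y, rfl⟩ : x ∈ Set.range (M.aff j).fromSpec := by
      rw [IsAffineOpen.range_fromSpec]; exact hx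
    change ((M.aff j).fromSpec ≫ 𝒰.glueMorphisms f hc) y ∈ (N.U (τ j) : Set N.X)
    rw [hι, ← (N.aff (τ j)).range_fromSpec]
    exact ⟨_, rfl⟩

variable {M N} {h : M.X ⟶ N.X} (hγ : M.γ ≫ h = N.γ)
include hγ

lemma comp_π : h ≫ N.π = M.π :=
  ext_of_isDominant M.γ (by rw [reassoc_of% hγ, N.γπ, M.γπ])

lemma isDominant_hom : IsDominant h :=
  have : IsDominant (M.γ ≫ h) := hγ ▸ N.dom
  IsDominant.of_comp M.γ h

lemma surjective_hom : Surjective h := by
  have := isDominant_hom hγ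
  have : IsProper (h ≫ N.π) := comp_π hγ ▸ inferInstanceAs (IsProper M.π)
  have : IsProper h := IsProper.of_comp h N.π
  infer_instance

lemma emb_pullFun [IsDominant h] (f : N.X.functionField) : M.emb (pullFun h f) = N.emb f := by
  obtain ⟨U, hU, s, rfl⟩ := N.X.presheaf.exists_germ_eq f
  have hU' := genericPoint_mem_preimage h hU
  have h1 := congr($(pullFun_germ h U hU hU') s)
  simp only [CommRingCat.hom_comp, RingHom.coe_comp, Function.comp_apply] at h1
  rw [h1, emb_germ, emb_germ]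
  have h2 := congr($(app_evalAt M.γ h U (M.top_le hU')) s)
  simp only [CommRingCat.hom_comp, RingHom.coe_comp, Function.comp_apply] at h2
  rw [h2, evalAt_congr hγ]

theorem isIso_app [Finite J] (τ : J → J') (hU : ∀ j, M.U j ≤ h ⁻¹ᵁ N.U (τ j))
    (hint : ∀ a φ, (∀ j, τ j = a → φ ∈ A j) → φ ∈ B a) (U : N.X.Opens) : IsIso (h.app U) := by
  have := isDominant_hom hγ
  by_cases hU0 : U = ⊥
  · subst hU0
    exact isIso_of_isTerminal N.X.sheaf.isTerminalOfEmpty
      (M.X.sheaf.isTerminalOfEqEmpty (Scheme.Hom.preimage_bot h)) _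
  have hg : genericPoint N.X ∈ U := genericPoint_mem (by
    rw [Set.nonempty_iff_ne_empty]; exact fun e => hU0 (TopologicalSpace.Opens.ext e))
  have hg' := genericPoint_mem_preimage h hg
  have happ {V : N.X.Opens} (hV : genericPoint N.X ∈ V) (s : Γ(N.X, V)) :
      M.X.presheaf.germ _ _ (genericPoint_mem_preimage h hV) (h.app V s) =
      pullFun h (N.X.presheaf.germ V _ hV s) := congr($(pullFun_germ h V hV _) s).symm
  rw [ConcreteCategory.isIso_iff_bijective]
  constructor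
  · intro s t e
    apply germ_injective_of_isIntegral _ _ hg
    apply (pullFun h).hom.injective
    exact (happ hg s).symm.trans ((congrArg _ e).trans (happ hg t))
  intro s
  set φ := M.X.presheaf.germ _ _ hg' s with hφ
  have key (y : N.X) (hy : y ∈ U) :
      ∃ f ∈ (algebraMap (N.X.presheaf.stalk y) N.X.functionField).range, N.emb f = M.emb φ := by
    obtain ⟨a, ha⟩ := N.cov y
    obtain ⟨t, ht, hyt⟩ := (N.aff a).exists_basicOpen_le ⟨y, hy⟩ ha
    have hgt : genericPoint N.X ∈ N.X.basicOpen t := genericPoint_mem ⟨y, hyt⟩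
    set T := N.emb (N.X.presheaf.germ _ _ (N.generic_mem a) t) with hT
    have H (j : J) : ∃ n : ℕ, τ j = a → ∀ m, n ≤ m → T ^ m * M.emb φ ∈ A j := by
      by_cases hj : τ j = a
      swap
      · exact ⟨0, fun e => absurd e hj⟩
      subst hj
      let t' := h.appLE _ _ (hU j) t
      have ht' : M.X.basicOpen t' = M.U j ⊓ h ⁻¹ᵁ N.X.basicOpen t :=
        Scheme.basicOpen_appLE _ _ _ _ _
      obtain ⟨n, σ, e⟩ := exists_pow_mul_mem (M.aff j) (M.generic_mem j) t'
        (ht' ▸ ⟨M.generic_mem j, genericPoint_mem_preimage h hgt⟩) φ (fun x hx => by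
          rw [ht'] at hx
          exact ⟨_, (germ_mem_stalk hg' s (ht hx.2)).symm⟩)
      have hT' : M.emb (M.X.presheaf.germ _ _ (M.generic_mem j) t') = T := by
        rw [hT, ← emb_pullFun hγ, ← happ]
        congr 1
        exact TopCat.Presheaf.germ_res_apply _ _ _ _ _
      have hmem (r : Γ(M.X, M.U j)) : M.emb (M.X.presheaf.germ _ _ (M.generic_mem j) r) ∈ A j := by
        rw [emb_germ]; exact (M.chartEquiv j r).2
      refine ⟨n, fun _ m hm => ?_⟩
      obtain ⟨d, rfl⟩ := Nat.exists_eq_add_of_le hm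
      have := mul_mem (pow_mem (hmem t') d) (hmem σ)
      rw [e, map_mul, map_pow, hT'] at this
      convert this using 1
      ring
    choose n hn using H
    obtain ⟨m, hm⟩ := (Set.finite_range n).bddAbove
    have hB : T ^ m * M.emb φ ∈ B a := hint a _ fun j hj => hn j hj m (hm ⟨j, rfl⟩)
    obtain ⟨w, hw⟩ := (N.X.mem_basicOpen t y ha).mp hyt
    have hwT : N.emb (algebraMap (N.X.presheaf.stalk y) N.X.functionField w) = T := by
      rw [hw, ← germ_mem_stalk (N.generic_mem a)]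
    have hT0 : T ≠ 0 := hwT ▸ ((w.isUnit.map _).map N.emb).ne_zero
    refine ⟨_, ⟨(↑w⁻¹) ^ m * N.X.presheaf.germ _ y ha ((N.chartEquiv a).symm ⟨_, hB⟩), rfl⟩, ?_⟩
    rw [map_mul, map_mul, ← germ_mem_stalk (N.generic_mem a), emb_germ_chartEquiv_symm, map_pow,
      map_pow, map_units_inv, map_inv₀, hwT, inv_pow]
    exact inv_mul_cancel_left₀ (pow_ne_zero _ hT0) _
  obtain ⟨f, -, hf⟩ := key _ hg
  obtain ⟨σ, hσ⟩ := exists_section_of_mem_stalk U hg f fun y hy => by
    obtain ⟨f', hf', e⟩ := key y hy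
    rwa [N.emb.injective (hf.trans e.symm)]
  refine ⟨σ, germ_injective_of_isIntegral _ _ hg' (M.emb.injective ?_)⟩
  rw [happ hg, emb_pullFun hγ, hσ, hf]

end Model

end Pool.Agent.Lib.MP_99f32e_ag
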