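import Pool.Agent.Lib.MP_99f32e_ag.Fermat

open MvPolynomial Sum

namespace Pool.Agent.Lib.MP_99f32e_ag

variable (k : Type*) [Field k] (I : Type) [Fintype I] [DecidableEq I] (q : ℕ)

/-- The Fermat equation -/
noncomputable def FF : MvPolynomial (I ⊕ I) k := ∑ i, X (inl i) ^ (2 * q + 1)

/-- The relative equation -/
noncomputable def ss : MvPolynomial (I ⊕ I) k := ∑ i, X (inl i) * X (inr i) ^ q

variable {k I q}

omit [DecidableEq I] in
lemma aeval_FF {A : Type*} [CommRing A] [Algebra k A] (c : I ⊕ I → A) :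
    aeval c (FF k I q) = ∑ i, c (inl i) ^ (2 * q + 1) := by simp [FF]

omit [DecidableEq I] in
lemma aeval_ss {A : Type*} [CommRing A] [Algebra k A] (c : I ⊕ I → A) :
    aeval c (ss k I q) = ∑ i, c (inl i) * c (inr i) ^ q := by simp [ss]

lemma sum_pow_two_pt {A : Type*} [CommRing A] {a c : I} (h : a ≠ c) :
    ∑ i, ((Pi.single a 1 : I → A) i - (Pi.single c 1 : I → A) i) ^ (2 * q + 1) = 0 := by
  rw [Finset.sum_eq_add_of_mem a c (Finset.mem_univ _) (Finset.mem_univ _) h]
  · simp [Pi.single_eq_of_ne h, Pi.single_eq_of_ne' h, Odd.neg_pow (odd_two_mul_add_one q)]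
  · intro i _ hi
    simp [Pi.single_eq_of_ne hi.1, Pi.single_eq_of_ne hi.2]

lemma sum_mul_single {A : Type*} [CommRing A] (hq : q ≠ 0) (z : I → A) (b : I) :
    ∑ i, z i * (Pi.single b 1 : I → A) i ^ q = z b := by
  rw [Finset.sum_eq_single b]
  · simp
  · intro i _ hi
    simp [Pi.single_eq_of_ne hi, hq]
  · simp

section

variable (hn : ((2 * q + 1 : ℕ) : k) ≠ 0) (hI : ∀ a b c : I, ∃ d, d ≠ a ∧ d ≠ b ∧ d ≠ c)
include hn hI

lemma prime_FF_erase (a : I) :
    Prime (∑ i ∈ Finset.univ.erase a, X (inl i) ^ (2 * q + 1) : MvPolynomial (I ⊕ I) k) := by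
  obtain ⟨b, hb, -, -⟩ := hI a a a
  obtain ⟨c, hc, hcb, -⟩ := hI a b b
  obtain ⟨d, hd, hdb, hdc⟩ := hI a b c
  have := prime_fermat (k := k) ((Finset.univ.erase a).map ⟨(inl : I → I ⊕ I), inl_injective⟩) hn
    (i₀ := inl b) (i₁ := inl c) (i₂ := inl d) (by simpa using hb) (by simpa using hc)
    (by simpa using hd) (by simpa using hcb) (by simpa using hdb) (by simpa using hdc.symm)
  rwa [Finset.sum_map] at this

omit [DecidableEq I] in
lemma prime_FF (a : I) : Prime (FF k I q) := by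
  obtain ⟨b, hb, -, -⟩ := hI a a a
  obtain ⟨c, hc, hcb, -⟩ := hI a b b
  have := prime_fermat (k := k) (Finset.univ.map ⟨(inl : I → I ⊕ I), inl_injective⟩) hn
    (i₀ := inl a) (i₁ := inl b) (i₂ := inl c) (by simp) (by simp)
    (by simp) (by simpa using hb) (by simpa using hc) (by simpa using hcb.symm)
  rwa [Finset.sum_map] at this

lemma mem_of_X_mul_mem (hq : q ≠ 0) (a : I) (f : MvPolynomial (I ⊕ I) k)
    (hf : X (inl a) * f ∈ Ideal.span {FF k I q, ss k I q}) :
    f ∈ Ideal.span {FF k I q, ss k I q} := by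
  obtain ⟨A, B, hAB⟩ := Ideal.mem_span_pair.mp hf
  set κ : MvPolynomial (I ⊕ I) k →ₐ[k] MvPolynomial (I ⊕ I) k :=
    aeval (Function.update X (inl a) 0) with hκ
  set F₀ : MvPolynomial (I ⊕ I) k := ∑ i ∈ Finset.univ.erase a, X (inl i) ^ (2 * q + 1) with hF₀
  set s₀ : MvPolynomial (I ⊕ I) k := ∑ i ∈ Finset.univ.erase a, X (inl i) * X (inr i) ^ q with hs₀
  have hF : FF k I q = X (inl a) ^ (2 * q + 1) + F₀ :=
    (Finset.add_sum_erase _ _ (Finset.mem_univ a)).symm
  have hs : ss k I q = X (inl a) * X (inr a) ^ q + s₀ :=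
    (Finset.add_sum_erase _ _ (Finset.mem_univ a)).symm
  have hκF : κ (FF k I q) = F₀ := by
    rw [hF, map_add, hF₀, map_sum]
    simp only [hκ, map_pow, aeval_X, Function.update_self, ne_eq, Nat.add_eq_zero_iff, one_ne_zero,
      and_false, not_false_eq_true, zero_pow, zero_add]
    refine Finset.sum_congr rfl fun i hi => ?_
    rw [Function.update_of_ne (by simpa using hi)]
  have hκs : κ (ss k I q) = s₀ := by
    rw [hs, map_add, hs₀, map_sum]
    simp only [hκ, map_pow, map_mul, aeval_X, Function.update_self, zero_mul, zero_add]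
    refine Finset.sum_congr rfl fun i hi => ?_
    rw [Function.update_of_ne (by simpa using hi), Function.update_of_ne (by simp)]
  have hprime : Prime F₀ := prime_FF_erase hn hI a
  have hndvd : ¬ F₀ ∣ s₀ := by
    rintro ⟨t, ht⟩
    obtain ⟨b, hb, -, -⟩ := hI a a a
    obtain ⟨c, hc, hcb, -⟩ := hI a b b
    let pt : I ⊕ I → k := Sum.elim (Pi.single b 1 - Pi.single c 1) (Pi.single b 1)
    have hpa : pt (inl a) = 0 := by
      simp [pt, Pi.single_eq_of_ne' hb, Pi.single_eq_of_ne' hc]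
    have h1 : aeval pt F₀ = 0 := by
      have := congr(aeval pt $hF)
      rw [aeval_FF, map_add, map_pow, aeval_X, hpa] at this
      simpa [pt, sum_pow_two_pt hcb.symm] using this.symm
    have h2 : aeval pt s₀ = 1 := by
      have := congr(aeval pt $hs)
      rw [aeval_ss, map_add, map_mul, aeval_X, hpa] at this
      simpa [pt, sum_mul_single hq, Pi.single_eq_of_ne' hcb] using this.symm
    rw [ht, map_mul, h1, zero_mul] at h2
    exact zero_ne_one h2
  have h0 : κ A * F₀ + κ B * s₀ = 0 := by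
    have := congr(κ $hAB)
    rw [map_add, map_mul, map_mul, map_mul, hκF, hκs] at this
    simpa [hκ] using this
  obtain ⟨C, hC⟩ : F₀ ∣ κ B := by
    have : F₀ ∣ κ B * s₀ := ⟨-κ A, by linear_combination h0⟩
    exact (hprime.dvd_or_dvd this).resolve_right hndvd
  have hA : κ A = -s₀ * C := by
    apply mul_right_cancel₀ hprime.ne_zero
    rw [hC] at h0
    linear_combination h0
  obtain ⟨A', hA'⟩ := sub_aeval_update_mem (inl a) A
  obtain ⟨B', hB'⟩ := sub_aeval_update_mem (inl a) B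
  rw [← hκ] at hA' hB'
  refine Ideal.mem_span_pair.mpr ⟨A' + C * X (inr a) ^ q, B' - C * X (inl a) ^ (2 * q), ?_⟩
  apply mul_left_cancel₀ (X_ne_zero (inl a : I ⊕ I))
  rw [← hAB, sub_eq_iff_eq_add.mp hA', sub_eq_iff_eq_add.mp hB', hA, hC, hF, hs]
  ring

end

theorem isPrime_span (p : ℕ) [Fact p.Prime] [CharP k p] (e : ℕ) (hq : q = p ^ (e + 1))
    (hI : ∀ a b c : I, ∃ d, d ≠ a ∧ d ≠ b ∧ d ≠ c) (a : I) :
    (Ideal.span {FF k I q, ss k I q}).IsPrime := by
  have hp : p.Prime := Fact.out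
  have hq0 : q ≠ 0 := hq ▸ pow_ne_zero _ hp.ne_zero
  have hqk : (q : k) = 0 := by rw [hq]; simp
  have hn : ((2 * q + 1 : ℕ) : k) ≠ 0 := by push_cast; rw [hqk]; simp
  have hF := prime_FF hn hI a
  have hFI : (Ideal.span {FF k I q}).IsPrime := (Ideal.span_singleton_prime hF.ne_zero).mpr hF
  obtain ⟨b, hb, -, -⟩ := hI a a a
  obtain ⟨c, hc, hcb, -⟩ := hI a b b
  obtain ⟨d, hd, hdb, hdc⟩ := hI a b c
  let S := MvPolynomial (I ⊕ I) k ⧸ Ideal.span {FF k I q}
  let E := FractionRing S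
  let ι₀ : MvPolynomial (I ⊕ I) k →ₐ[k] S := Ideal.Quotient.mkₐ k _
  have hι₀ (f) : ι₀ f = 0 ↔ FF k I q ∣ f :=
    Ideal.Quotient.eq_zero_iff_mem.trans Ideal.mem_span_singleton
  have hev (f) (pt : I ⊕ I → k) (h1 : aeval pt (FF k I q) = 0) (h2 : aeval pt f ≠ 0) :
      ι₀ f ≠ 0 := by
    rw [Ne, hι₀]
    rintro ⟨t, rfl⟩
    exact h2 (by rw [map_mul, h1, zero_mul])
  have hz : ι₀ (X (inl a)) ≠ 0 :=
    hev _ (Sum.elim (Pi.single a 1 - Pi.single b 1) 0)
      (by simp [aeval_FF, sum_pow_two_pt hb.symm]) (by simp [Pi.single_eq_of_ne' hb])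
  have hSE : Function.Injective (algebraMap S E) := IsFractionRing.injective S E
  let ι₁ : MvPolynomial (I ⊕ I) k →ₐ[k] E := (IsScalarTower.toAlgHom k S E).comp ι₀
  have hι₁ (f) : ι₁ f = 0 ↔ FF k I q ∣ f := by
    rw [← hι₀]; exact map_eq_zero_iff _ hSE
  have hz₁ : ι₁ (X (inl a)) ≠ 0 := (map_ne_zero_iff _ hSE).mpr hz
  set z := ι₁ (X (inl a)) with hzdef
  have : CharP E p := charP_of_injective_algebraMap (algebraMap k E).injective p
  set s₀ : MvPolynomial (I ⊕ I) k := ∑ i ∈ Finset.univ.erase a, X (inl i) * X (inr i) ^ q with hs₀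
  have hs : ss k I q = X (inl a) * X (inr a) ^ q + s₀ :=
    (Finset.add_sum_erase _ _ (Finset.mem_univ a)).symm
  -- the element is not a `p`-th power
  have hpow (y : E) : y ^ p ≠ -(ι₁ s₀ / z) := by
    intro hy
    obtain ⟨v, w, hw, rfl⟩ := IsFractionRing.div_surjective (A := S) y
    obtain ⟨v, rfl⟩ := Ideal.Quotient.mk_surjective v
    obtain ⟨w, rfl⟩ := Ideal.Quotient.mk_surjective w
    have hw0 : ι₁ w ≠ 0 := (map_ne_zero_iff _ hSE).mpr (nonZeroDivisors.ne_zero hw)
    have hy' : (ι₁ v / ι₁ w) ^ p = -(ι₁ s₀ / z) := hy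
    have h1 : ι₁ (X (inl a) * v ^ p + s₀ * w ^ p) = 0 := by
      rw [div_pow, ← neg_div, div_eq_div_iff (pow_ne_zero _ hw0) hz₁] at hy'
      simp only [map_add, map_mul, map_pow, ← hzdef]
      linear_combination hy'
    obtain ⟨g, hg⟩ := (hι₁ _).mp h1
    let δ : Derivation k (MvPolynomial (I ⊕ I) k) (MvPolynomial (I ⊕ I) k) :=
      (X (inl c) ^ (2 * q) : MvPolynomial (I ⊕ I) k) • pderiv (inl b) -
        (X (inl b) ^ (2 * q) : MvPolynomial (I ⊕ I) k) • pderiv (inl c)
    have hqP : (q : MvPolynomial (I ⊕ I) k) = 0 := by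
      rw [← map_natCast (C : k →+* MvPolynomial (I ⊕ I) k), hqk, map_zero]
    have hpP : (p : MvPolynomial (I ⊕ I) k) = 0 := CharP.cast_eq_zero _ p
    have hdF (i : I) : pderiv (inl i) (FF k I q) = X (inl i) ^ (2 * q) := by
      rw [FF, map_sum, Finset.sum_eq_single i]
      · simp [Derivation.leibniz_pow, hqP]
      · intro j _ hj
        simp [Derivation.leibniz_pow, pderiv_X, hj]
      · simp
    have hds (i : I) (hi : i ≠ a) : pderiv (inl i) s₀ = X (inr i) ^ q := by
      rw [hs₀, map_sum, Finset.sum_eq_single i]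
      · simp [Derivation.leibniz_pow]
      · intro j _ hj
        simp [Derivation.leibniz_pow, pderiv_X, hj]
      · simp [hi]
    have hδF : δ (FF k I q) = 0 := by simp [δ, hdF, mul_comm]
    have hδa : δ (X (inl a)) = 0 := by simp [δ, pderiv_X, hb.symm, hc.symm]
    have hδs : δ s₀ = X (inl c) ^ (2 * q) * X (inr b) ^ q - X (inl b) ^ (2 * q) * X (inr c) ^ q := by
      simp [δ, hds b hb, hds c hc]
    have h2 := congr(δ $hg)
    simp only [map_add, Derivation.leibniz, Derivation.leibniz_pow, hδF, hδa, add_zero,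
      nsmul_eq_mul, smul_eq_mul, hpP, zero_mul, mul_zero, zero_add] at h2
    have h3 : ι₁ (w ^ p * δ s₀) = 0 := (hι₁ _).mpr ⟨_, h2⟩
    rw [map_mul, map_pow] at h3
    have h4 : ι₀ (δ s₀) ≠ 0 := by
      refine hev _ (Sum.elim (Pi.single c 1 - Pi.single d 1) (Pi.single b 1))
        (by simp [aeval_FF, sum_pow_two_pt hdc.symm]) ?_
      simp [hδs, Pi.single_eq_of_ne hcb, Pi.single_eq_of_ne' hdc, hq0]
    exact mul_ne_zero (pow_ne_zero _ hw0) ((map_ne_zero_iff _ hSE).mpr h4) h3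
  have hirr := irreducible_X_pow_char_pow_sub_C p (e + 1) _ hpow
  rw [← hq, map_neg, sub_neg_eq_add] at hirr
  let S' : Subalgebra k E :=
    { carrier := {x | ∃ (N : ℕ) (f : MvPolynomial (I ⊕ I) k), z ^ N * x = ι₁ f}
      mul_mem' := by
        rintro x y ⟨N, f, hf⟩ ⟨M, g, hg⟩
        exact ⟨N + M, f * g, by rw [map_mul, ← hf, ← hg]; ring⟩
      add_mem' := by
        rintro x y ⟨N, f, hf⟩ ⟨M, g, hg⟩
        exact ⟨N + M, X (inl a) ^ M * f + X (inl a) ^ N * g, by
          simp only [map_add, map_mul, map_pow, ← hf, ← hg, ← hzdef]; ring⟩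
      algebraMap_mem' := fun r => ⟨0, C r, by simp [ι₁, ι₀]⟩ }
  let ι₂ : MvPolynomial (I ⊕ I) k →ₐ[k] S' := ι₁.codRestrict S' fun f => ⟨0, f, by simp⟩
  let t : S' := ⟨ι₁ s₀ / z, 1, s₀, by rw [pow_one, mul_div_cancel₀ _ hz₁]⟩
  let Ψ : MvPolynomial (I ⊕ I) k →ₐ[k] Polynomial S' :=
    aeval (Function.update (fun v => Polynomial.C (ι₂ (X v))) (inr a) Polynomial.X)
  have hΨ (f) : (Ψ f).eval (ι₂ (X (inr a))) = ι₂ f := by
    have : ((Polynomial.aeval (ι₂ (X (inr a)))).restrictScalars k).comp Ψ = ι₂ := by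
      ext v
      by_cases h : v = inr a
      · subst h; simp [Ψ]
      · simp [Ψ, Function.update_of_ne h]
    exact congr($this f)
  let m : Polynomial S' := Polynomial.X ^ q + Polynomial.C t
  have hm : m.Monic := Polynomial.monic_X_pow_add_C _ hq0
  have hmE : m.map S'.val.toRingHom = Polynomial.X ^ q + Polynomial.C (ι₁ s₀ / z) := by
    simp [m, t]
  let Φ : MvPolynomial (I ⊕ I) k →+* Polynomial E :=
    (Polynomial.mapRingHom S'.val.toRingHom).comp Ψ.toRingHom
  have hprime : (Ideal.span {Polynomial.X ^ q + Polynomial.C (ι₁ s₀ / z)}).IsPrime :=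
    (Ideal.span_singleton_prime hirr.ne_zero).mpr hirr.prime
  have hΨC (f : MvPolynomial (I ⊕ I) k) (T : Finset (I ⊕ I)) (hT : inr a ∉ T)
      (hf : f ∈ Algebra.adjoin k (X '' (T : Set (I ⊕ I)))) : Ψ f = Polynomial.C (ι₂ f) := by
    induction hf using Algebra.adjoin_induction with
    | mem x hx =>
      obtain ⟨v, hv, rfl⟩ := hx
      have : v ≠ inr a := by rintro rfl; exact hT hv
      simp [Ψ, Function.update_of_ne this]
    | algebraMap r => simp [Ψ, Polynomial.C_eq_algebraMap]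
    | add x y _ _ hx hy => simp [hx, hy]
    | mul x y _ _ hx hy => simp [hx, hy]
  have hXmem (v : I ⊕ I) (hv : v ≠ inr a) : (X v : MvPolynomial (I ⊕ I) k) ∈
      Algebra.adjoin k (X '' ((Finset.univ.erase (inr a) : Finset (I ⊕ I)) : Set (I ⊕ I))) :=
    Algebra.subset_adjoin ⟨v, by simpa using hv, rfl⟩
  suffices H : Ideal.span {FF k I q, ss k I q} =
      (Ideal.span {Polynomial.X ^ q + Polynomial.C (ι₁ s₀ / z)}).comap Φ by
    rw [H]; exact Ideal.comap_isPrime _ _
  apply le_antisymm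
  · rw [Ideal.span_le]
    rintro _ (rfl | rfl)
    · have h1 : Ψ (FF k I q) = Polynomial.C (ι₂ (FF k I q)) :=
        hΨC _ (Finset.univ.erase (inr a)) (by simp)
          (sum_mem fun i _ => pow_mem (hXmem _ (by simp)) _)
      have h2 : ι₂ (FF k I q) = 0 := Subtype.ext ((hι₁ _).mpr dvd_rfl)
      have : Φ (FF k I q) = 0 := by simp [Φ, h1, h2]
      rw [SetLike.mem_coe, Ideal.mem_comap, this]
      exact zero_mem _
    · have h1 : Ψ s₀ = Polynomial.C (ι₂ s₀) :=
        hΨC _ (Finset.univ.erase (inr a)) (by simp)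
          (sum_mem fun i hi => mul_mem (hXmem _ (by simp))
            (pow_mem (hXmem _ (by simpa using hi)) _))
      have h2 : Ψ (X (inl a)) = Polynomial.C (ι₂ (X (inl a))) := by simp [Ψ]
      have h3 : Ψ (X (inr a)) = Polynomial.X := by simp [Ψ]
      have : Φ (ss k I q) =
          Polynomial.C z * (Polynomial.X ^ q + Polynomial.C (ι₁ s₀ / z)) := by
        rw [mul_add, ← Polynomial.C_mul, mul_div_cancel₀ _ hz₁, hs]
        simp [Φ, h1, h2, h3, ι₂, hzdef]
      rw [SetLike.mem_coe, Ideal.mem_comap, this]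
      exact Ideal.mul_mem_left _ _ (Ideal.mem_span_singleton_self _)
  · intro f hf
    rw [Ideal.mem_comap, Ideal.mem_span_singleton, ← hmE] at hf
    obtain ⟨g, hg⟩ := (Polynomial.map_dvd_map _ Subtype.val_injective hm).mp hf
    have h1 := hΨ f
    have hg' : Ψ f = m * g := hg
    rw [hg', Polynomial.eval_mul] at h1
    obtain ⟨N, f', hf'⟩ := (g.eval (ι₂ (X (inr a)))).2
    have h2 : z * (m.eval (ι₂ (X (inr a))) : S') = ι₁ (ss k I q) := by
      simp only [m, t, Polynomial.eval_add, Polynomial.eval_pow, Polynomial.eval_X,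
        Polynomial.eval_C, hs, map_add, map_mul, map_pow, ← hzdef]
      push_cast
      rw [mul_add, mul_div_cancel₀ _ hz₁]
      rfl
    have h3 : ι₁ (X (inl a) ^ (N + 1) * f - ss k I q * f') = 0 := by
      have h4 : ι₁ f = (m.eval (ι₂ (X (inr a))) : S') * (g.eval (ι₂ (X (inr a))) : S') :=
        congr(($h1).1).symm
      rw [map_sub, map_mul, map_mul, map_pow, ← hzdef, ← h2, ← hf', h4]
      ring
    obtain ⟨g', hg'⟩ := (hι₁ _).mp h3
    have h5 : X (inl a) ^ (N + 1) * f ∈ Ideal.span {FF k I q, ss k I q} :=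
      Ideal.mem_span_pair.mpr ⟨g', f', by linear_combination -hg'⟩
    generalize N + 1 = M at h5
    induction M with
    | zero => simpa using h5
    | succ M ih =>
      apply ih
      apply mem_of_X_mul_mem hn hI hq0 a
      rwa [← mul_assoc, ← pow_succ']

end Pool.Agent.Lib.MP_99f32e_ag
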