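import Pool.Agent.Lib.MP_99f32e_ag.Smooth
import Pool.Agent.Lib.MP_99f32e_ag.Prime

open MvPolynomial Matrix Sum

namespace Pool.Agent.Lib.MP_99f32e_ag

variable (k : Type*) [Field k] {I : Type} [Fintype I] [DecidableEq I] (q : ℕ)

/-- Fermat equation on the base -/
noncomputable def FZ (I : Type) [Fintype I] (q : ℕ) : MvPolynomial I k := ∑ i, X i ^ (2 * q + 1)

/-- relations for a chart of the base -/
noncomputable def gZ (a : I) : Fin 2 → MvPolynomial I k := ![X a - 1, FZ k I q]

/-- relations for a chart of the total space -/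
noncomputable def gX (a b : I) : Fin 3 ⊕ Fin 2 → MvPolynomial (I ⊕ I) k :=
  Sum.elim ![X (inl a) - 1, X (inr a), X (inr b) - 1] ![FF k I q, ss k I q]

/-- right inverse of the Jacobian matrix, base -/
noncomputable def rZ (a : I) : Fin 2 → I → MvPolynomial I k :=
  ![X, fun i => (Pi.single a 1 : I → MvPolynomial I k) i - X i]

/-- right inverse of the Jacobian matrix, total space -/
noncomputable def rX (a b : I) : Fin 3 ⊕ Fin 2 → I ⊕ I → MvPolynomial (I ⊕ I) k :=
  Sum.elim ![Sum.elim (fun i => X (inl i)) 0, Pi.single (inr a) 1, Pi.single (inr b) 1]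
    ![Sum.elim (fun i => (Pi.single a 1 : I → MvPolynomial (I ⊕ I) k) i - X (inl i)) 0,
      Sum.elim (fun i => (Pi.single b 1 : I → MvPolynomial (I ⊕ I) k) i -
        X (inl b) ^ (2 * q) * ((Pi.single a 1 : I → MvPolynomial (I ⊕ I) k) i - X (inl i))) 0]

variable {k q}
variable {K : Type*} [Field K] [Algebra k K]

omit [DecidableEq I] in
lemma aeval_FZ {A : Type*} [CommRing A] [Algebra k A] (c : I → A) :
    aeval c (FZ k I q) = ∑ i, c i ^ (2 * q + 1) := by simp [FZ]

lemma gradMat_gZ (hq : (q : k) = 0) (c : I → K) (a : I) :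
    gradMat c (gZ k q a) = Matrix.of ![Pi.single a 1, fun i => c i ^ (2 * q)] := by
  have hqK : (q : K) = 0 := by rw [← map_natCast (algebraMap k K), hq, map_zero]
  ext l i
  fin_cases l
  · by_cases h : i = a
    · subst h; simp [gradMat, gZ]
    · simp [gradMat, gZ, pderiv_X, Pi.single_eq_of_ne h, Pi.single_eq_of_ne' h]
  · simp only [gradMat, gZ, FZ, Fin.mk_one, Fin.isValue, of_apply, cons_val_one, cons_val_zero,
      map_sum]
    rw [Finset.sum_eq_single i]
    · simp [Derivation.leibniz_pow, hqK]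
    · intro j _ hj
      simp [Derivation.leibniz_pow, pderiv_X, hj]
    · simp

lemma gradMat_gX (hq : (q : k) = 0) (c : I ⊕ I → K) (a b : I) :
    gradMat c (gX k q a b) = Matrix.of (Sum.elim
      ![Pi.single (inl a) 1, Pi.single (inr a) 1, Pi.single (inr b) 1]
      ![Sum.elim (fun i => c (inl i) ^ (2 * q)) 0, Sum.elim (fun i => c (inr i) ^ q) 0]) := by
  have hqK : (q : K) = 0 := by rw [← map_natCast (algebraMap k K), hq, map_zero]
  have hX (v w : I ⊕ I) : aeval c (pderiv w (X v : MvPolynomial (I ⊕ I) k)) =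
      (Pi.single v 1 : I ⊕ I → K) w := by
    by_cases h : w = v
    · subst h; simp
    · simp [pderiv_X, Pi.single_eq_of_ne h, Pi.single_eq_of_ne' h]
  ext l v
  rcases l with l | l
  · fin_cases l <;> simp [gradMat, gX, hX, -pderiv_X]
  · fin_cases l
    · simp only [gradMat, gX, FF, Fin.zero_eta, Fin.isValue, of_apply, elim_inr, cons_val_zero,
        map_sum, Derivation.leibniz_pow, smul_eq_mul, nsmul_eq_mul, map_mul, map_pow, hX,
        map_natCast, aeval_X]
      rcases v with i | i
      · rw [Finset.sum_eq_single i]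
        · simp [hqK]
        · intro j _ hj
          simp [hj.symm]
        · simp
      · simp
    · simp only [gradMat, gX, ss, Fin.mk_one, Fin.isValue, of_apply, elim_inr, cons_val_one,
        cons_val_zero, map_sum, Derivation.leibniz, Derivation.leibniz_pow, smul_eq_mul,
        nsmul_eq_mul, map_mul, map_pow, hX, map_natCast, aeval_X, map_add, hqK, zero_mul, mul_zero,
        zero_add]
      rcases v with i | i
      · rw [Finset.sum_eq_single i]
        · simp
        · intro j _ hj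
          simp [hj.symm]
        · simp
      · simp

lemma aeval_single {σ τ : Type*} [DecidableEq τ] (c : σ → K) (a i : τ) :
    aeval c ((Pi.single a 1 : τ → MvPolynomial σ k) i) = (Pi.single a 1 : τ → K) i := by
  by_cases h : i = a
  · subst h; simp
  · simp [Pi.single_eq_of_ne h]

lemma rZ_mul (hq : (q : k) = 0) (c : I → K) (a : I) (ha : c a = 1)
    (hF : ∑ i, c i ^ (2 * q + 1) = 0) :
    (Matrix.of fun l i => aeval c (rZ k a l i)) * (gradMat c (gZ k q a))ᵀ = 1 := by
  have hF' : ∑ i, c i * c i ^ (2 * q) = 0 := by simpa only [pow_succ'] using hF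
  rw [gradMat_gZ hq]
  ext l m
  fin_cases l <;> fin_cases m <;>
    simp [Matrix.mul_apply, rZ, sub_mul, Pi.single_apply, ha, hF']

lemma rX_mul (hq : (q : k) = 0) (hq0 : q ≠ 0) (c : I ⊕ I → K) (a b : I) (hab : a ≠ b)
    (ha : c (inl a) = 1) (ha' : c (inr a) = 0) (hb : c (inr b) = 1)
    (hF : ∑ i, c (inl i) ^ (2 * q + 1) = 0) (hs : ∑ i, c (inl i) * c (inr i) ^ q = 0) :
    (Matrix.of fun l i => aeval c (rX k q a b l i)) * (gradMat c (gX k q a b))ᵀ = 1 := by
  have hF' : ∑ i, c (inl i) * c (inl i) ^ (2 * q) = 0 := by simpa only [pow_succ'] using hF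
  rw [gradMat_gX hq]
  ext l m
  rcases l with l | l <;> rcases m with m | m <;> fin_cases l <;> fin_cases m <;>
    simp [Matrix.mul_apply, rX, sub_mul, Pi.single_apply, ha, hF', hs, ha', hb,
      Fintype.sum_sum_type, hab, hab.symm, hq0, mul_assoc, ← Finset.mul_sum]

variable {N : ℕ} (bas : Module.Basis (Fin N) K (KaehlerDifferential k K))

lemma changeZ (hq : (q : k) = 0) (hI : Fintype.card I = q + 1) (e : Fin N ⊕ Fin 2 ≃ I)
    (z A : I → K) (hF : ∑ i, z i ^ (2 * q + 1) = 0) (hA : ∑ i, A i * z i ^ (2 * q) = 1)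
    (a : I) (l : K) (hl : l * z a = 1) (η : K)
    (hη : ∀ R : Matrix (Fin 2) I K,
      ((fromRows (coordMat bas fun i => l * z i) R).submatrix id e).det =
        η * (R * (gradMat (fun i => l * z i) (gZ k q a))ᵀ).det) :
    η * l ^ q = ((fromRows (coordMat bas z) (Matrix.of ![z, A])).submatrix id e).det := by
  have hl0 : l ≠ 0 := left_ne_zero_of_mul_eq_one hl
  have hF' : ∑ i, z i * z i ^ (2 * q) = 0 := by simpa only [pow_succ'] using hF
  have h1 := det_fromRows_change e (coordMat bas z) (coordMat bas fun i => l * z i)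
    (Matrix.of ![z, A])
    (Matrix.of fun j => ![bas.repr (KaehlerDifferential.D k K l) j / l, 0]) (l • 1) (by
      rw [Matrix.mul_smul, Matrix.mul_one]
      ext j i
      simp [coordMat, Matrix.mul_apply, Fin.sum_univ_two]
      field_simp)
  have h2 : (Matrix.of ![z, A] * (l • (1 : Matrix I I K))) *
      (gradMat (fun i => l * z i) (gZ k q a))ᵀ = !![1, 0; l * A a, l ^ (2 * q + 1)] := by
    rw [gradMat_gZ hq, Matrix.mul_smul, Matrix.mul_one]
    ext i j
    fin_cases i <;> fin_cases j
    · simp [Matrix.mul_apply, Pi.single_apply, hl]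
    · simp [Matrix.mul_apply, mul_pow, mul_left_comm _ (l ^ (2 * q)), mul_assoc, ← Finset.mul_sum,
        hF']
    · simp [Matrix.mul_apply, Pi.single_apply]
    · simp [Matrix.mul_apply, mul_pow, mul_left_comm _ (l ^ (2 * q)), mul_assoc, ← Finset.mul_sum,
        hA, pow_succ]
  rw [hη, h2, Matrix.det_smul, Matrix.det_one, hI, Matrix.det_fin_two_of] at h1
  apply mul_right_cancel₀ (pow_ne_zero (q + 1) hl0)
  linear_combination h1

lemma changeX (p : ℕ) [Fact p.Prime] [CharP k p] (n : ℕ) (hqp : q = p ^ (n + 1))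
    (hI : Fintype.card I = q + 1) (e : Fin N ⊕ (Fin 3 ⊕ Fin 2) ≃ I ⊕ I)
    (z x A B : I → K) (hF : ∑ i, z i ^ (2 * q + 1) = 0) (hs : ∑ i, z i * x i ^ q = 0)
    (hA : ∑ i, A i * z i ^ (2 * q) = 1) (hA' : ∑ i, A i * x i ^ q = 0)
    (hB : ∑ i, B i * z i ^ (2 * q) = 0) (hB' : ∑ i, B i * x i ^ q = 1)
    (a b : I) (l m v : K) (hl : l * z a = 1) (hma : m * x a + v * z a ^ 2 = 0)
    (hmb : m * x b + v * z b ^ 2 = 1) (η : K)
    (hη : ∀ R : Matrix (Fin 3 ⊕ Fin 2) (I ⊕ I) K,
      ((fromRows (coordMat bas (Sum.elim (fun i => l * z i) fun i => m * x i + v * z i ^ 2))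
        R).submatrix id e).det =
        η * (R * (gradMat (Sum.elim (fun i => l * z i) fun i => m * x i + v * z i ^ 2)
          (gX k q a b))ᵀ).det) :
    η * l ^ (q - 1) = -((fromRows (coordMat bas (Sum.elim z x)) (Matrix.of (Sum.elim
      ![Sum.elim z 0, Sum.elim 0 x, Sum.elim 0 fun i => z i ^ 2]
      ![Sum.elim A 0, Sum.elim B 0]))).submatrix id e).det := by
  have hp : p.Prime := Fact.out
  have hq : (q : k) = 0 := by rw [hqp]; simp
  have hq0 : q ≠ 0 := hqp ▸ pow_ne_zero _ hp.ne_zero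
  have : CharP K p := charP_of_injective_algebraMap (algebraMap k K).injective p
  have hl0 : l ≠ 0 := left_ne_zero_of_mul_eq_one hl
  have hkey : l ^ 2 * (m * (x b * z a ^ 2 - x a * z b ^ 2)) = 1 := by
    linear_combination (l ^ 2 * z a ^ 2) * hmb - (l ^ 2 * z b ^ 2) * hma + (l * z a + 1) * hl
  have hm0 : m ≠ 0 := by rintro rfl; simp at hkey
  have hF' : ∑ i, z i * z i ^ (2 * q) = 0 := by simpa only [pow_succ'] using hF
  have hfrob (i) : (m * x i + v * z i ^ 2) ^ q = m ^ q * x i ^ q + v ^ q * z i ^ (2 * q) := by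
    rw [hqp, add_pow_char_pow, mul_pow, mul_pow, ← pow_mul]
  set G : Matrix (I ⊕ I) (I ⊕ I) K :=
    fromBlocks (l • 1) (diagonal fun i => 2 * v * z i) 0 (m • 1) with hG
  set R : Matrix (Fin 3 ⊕ Fin 2) (I ⊕ I) K := Matrix.of (Sum.elim
      ![Sum.elim z 0, Sum.elim 0 x, Sum.elim 0 fun i => z i ^ 2]
      ![Sum.elim A 0, Sum.elim B 0]) with hR
  have hmul {τ : Type} (W : Matrix τ (I ⊕ I) K) (t : τ) (i : I) :
      (W * G) t (inl i) = l * W t (inl i) ∧
      (W * G) t (inr i) = 2 * v * z i * W t (inl i) + m * W t (inr i) := by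
    constructor
    · simp [hG, Matrix.mul_apply, Fintype.sum_sum_type, Matrix.one_apply, mul_comm]
    · simp [hG, Matrix.mul_apply, Fintype.sum_sum_type, Matrix.one_apply, Matrix.diagonal_apply,
        mul_comm]
  have h1 := det_fromRows_change e (coordMat bas (Sum.elim z x))
    (coordMat bas (Sum.elim (fun i => l * z i) fun i => m * x i + v * z i ^ 2)) R
    (Matrix.of fun j => Sum.elim ![bas.repr (KaehlerDifferential.D k K l) j / l,
      bas.repr (KaehlerDifferential.D k K m) j / m,
      (bas.repr (KaehlerDifferential.D k K v) j -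
        2 * v * bas.repr (KaehlerDifferential.D k K l) j / l) / m] 0) G (by
      ext j w
      rcases w with i | i
      · rw [(hmul _ j i).1]
        simp [coordMat, Matrix.mul_apply, Fintype.sum_sum_type, Fin.sum_univ_three, hR]
        field_simp
      · rw [(hmul _ j i).2]
        simp [coordMat, Matrix.mul_apply, Fintype.sum_sum_type, Fin.sum_univ_three, hR,
          Derivation.leibniz_pow]
        field_simp
        ring)
  have h2 : (R * G) * (gradMat (Sum.elim (fun i => l * z i) fun i => m * x i + v * z i ^ 2)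
      (gX k q a b))ᵀ = fromBlocks
        !![1, 2 * v * z a ^ 2, 2 * v * z b ^ 2; 0, m * x a, m * x b; 0, m * z a ^ 2, m * z b ^ 2]
        0 !![l * A a, 2 * v * z a * A a, 2 * v * z b * A b;
          l * B a, 2 * v * z a * B a, 2 * v * z b * B b]
        !![l ^ (2 * q + 1), l * v ^ q; 0, l * m ^ q] := by
    have s1 (W : I → K) : ∑ i, l * W i * (l * z i) ^ (2 * q) =
        l ^ (2 * q + 1) * ∑ i, W i * z i ^ (2 * q) := by
      rw [Finset.mul_sum]; exact Finset.sum_congr rfl fun i _ => by ring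
    have s2 (W : I → K) : ∑ i, l * W i * (m * x i + v * z i ^ 2) ^ q =
        l * (m ^ q * ∑ i, W i * x i ^ q + v ^ q * ∑ i, W i * z i ^ (2 * q)) := by
      rw [Finset.mul_sum, Finset.mul_sum, ← Finset.sum_add_distrib, Finset.mul_sum]
      exact Finset.sum_congr rfl fun i _ => by rw [hfrob]; ring
    rw [gradMat_gX hq]
    ext s t
    rw [Matrix.mul_apply, Fintype.sum_sum_type]
    simp only [(hmul _ _ _).1, (hmul _ _ _).2]
    rcases s with s | s <;> rcases t with t | t <;> fin_cases s <;> fin_cases t <;>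
      simp [hR, Pi.single_apply, hl, s1, s2, hF', hs, hA, hA', hB, hB']
    all_goals ring
  rw [hη, h2, Matrix.det_fromBlocks_zero₁₂, hG, Matrix.det_fromBlocks_zero₂₁, Matrix.det_smul,
    Matrix.det_smul, Matrix.det_one, hI, Matrix.det_fin_two_of, Matrix.det_fin_three] at h1
  simp only [Fin.isValue, of_apply, cons_val', cons_val_zero, cons_val_fin_one, cons_val_one,
    cons_val] at h1
  obtain ⟨q', rfl⟩ : ∃ q', q = q' + 1 := ⟨q - 1, by omega⟩
  apply mul_right_cancel₀ (mul_ne_zero (pow_ne_zero (q' + 1 + 1) hl0) (pow_ne_zero (q' + 1 + 1) hm0))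
  rw [Nat.add_sub_cancel]
  linear_combination -h1 - (η * l ^ (2 * q' + 2) * m ^ (q' + 2)) * hkey

end Pool.Agent.Lib.MP_99f32e_ag
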