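import Pool.Agent.Lib.MP_99f32e_ag.Charts

open MvPolynomial Sum

set_option linter.unusedSectionVars false

namespace Pool.Agent.Lib.MP_99f32e_ag

variable {K : Type*} [Field K] {I : Type} [Fintype I] [DecidableEq I]
variable {k : Type*} [Field k] [Algebra k K] {q : ℕ} {z x : I → K}

lemma range_le_of_elim (c : I → K) (u : I → K) :
    (aeval c : MvPolynomial I k →ₐ[k] K).range ≤
      (aeval (Sum.elim c u) : MvPolynomial (I ⊕ I) k →ₐ[k] K).range := by
  rintro _ ⟨f, rfl⟩
  exact ⟨rename inl f, by simp [aeval_rename]⟩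

namespace Generic

variable (H : Generic k q z x)
include H

lemma dvd_of_dvd_mul {a b c : I} (hac : a ≠ c) (hbc : b ≠ c)
    (r : (aeval (cU z x a) : MvPolynomial (I ⊕ I) k →ₐ[k] K).range)
    (hr : (aeval (cU z x a)).rangeRestrict (X (inr b)) ∣
      (aeval (cU z x a)).rangeRestrict (X (inr c)) * r) :
    (aeval (cU z x a)).rangeRestrict (X (inr b)) ∣ r := by
  set ρ := (aeval (cU z x a) : MvPolynomial (I ⊕ I) k →ₐ[k] K).rangeRestrict with hρ
  have hsurj : Function.Surjective ρ := AlgHom.rangeRestrict_surjective _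
  have hcoe (f) : (ρ f : K) = aeval (cU z x a) f := rfl
  obtain ⟨f, rfl⟩ := hsurj r
  obtain ⟨g, hg⟩ := hr
  obtain ⟨g, rfl⟩ := hsurj g
  have h1 : aeval (cU z x a) (X (inr c) * f - X (inr b) * g) = 0 := by
    rw [← hcoe, map_sub, map_mul, map_mul, hg, sub_self]; rfl
  let B := (aeval (cZ z a) : MvPolynomial I k →ₐ[k] K).range
  let ζ : I → B := fun i => ⟨cZ z a i, X i, by simp⟩
  let c' : I ⊕ I → MvPolynomial I B :=
    Sum.elim (fun i => C (ζ i)) fun i => if i = a ∨ i = b then 0 else X i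
  have hζa : ζ a = 1 := Subtype.ext (H.cZ_self a)
  have hζF : ∑ i, ζ i ^ (2 * q + 1) = 0 := Subtype.ext (by simpa [ζ] using H.hF_cZ a)
  obtain ⟨γ, hγ⟩ := H.ker_cU a c' (by simp [c', hζa]) (by
    simp only [c', elim_inl, ← map_pow, ← map_sum, hζF, map_zero]) (by simp [c']) _ h1
  set s' := ∑ i, c' (inl i) * c' (inr i) ^ q with hs'
  have h2 : X c * aeval c' f = s' * γ := by
    rw [← hγ]; simp [c', hac.symm, hbc.symm]
  obtain ⟨d, hda, hdb, hdc⟩ := H.big a b c
  let κ : MvPolynomial I B →ₐ[B] MvPolynomial I B := aeval (Function.update X c 0)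
  have h3 : κ s' ≠ 0 := by
    intro h0
    have h4 := congr(aeval (Pi.single d 1 : I → B) $h0)
    rw [hs', map_sum, map_sum, Finset.sum_eq_single d] at h4
    · simp only [c', κ, elim_inl, elim_inr, hda, hdb, or_self, ↓reduceIte, map_mul, algHom_C,
        map_pow, aeval_X, Function.update_of_ne hdc, Pi.single_eq_same, one_pow, mul_one,
        map_zero, MvPolynomial.algebraMap_eq, Algebra.algebraMap_self, RingHom.id_apply] at h4
      exact div_ne_zero (H.z_ne d) (H.z_ne a) congr(($h4).1)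
    · intro i _ hi
      by_cases h5 : i = a ∨ i = b
      · simp [c', h5, H.q0]
      · by_cases h6 : i = c
        · subst h6; simp [c', κ, h5, H.q0]
        · simp [c', κ, h5, H.q0, Function.update_of_ne h6, Pi.single_eq_of_ne hi]
    · simp
  have h4 : κ γ = 0 := by
    have := congr(κ $h2)
    rw [map_mul, map_mul] at this
    simp only [κ, aeval_X, Function.update_self, zero_mul] at this
    exact (mul_eq_zero.mp this.symm).resolve_left h3
  obtain ⟨γ', hγ'⟩ := sub_aeval_update_mem c γ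
  have h5 : γ = X c * γ' := by rw [← hγ']; exact (sub_eq_self.mpr h4).symm
  have h6 : aeval c' f = s' * γ' := by
    apply mul_left_cancel₀ (X_ne_zero c)
    rw [h2, h5]; ring
  let inc : B →ₐ[k] (aeval (cU z x a) : MvPolynomial (I ⊕ I) k →ₐ[k] K).range :=
    Subalgebra.inclusion (range_le_of_elim _ _)
  let ev := eval₂Hom inc.toRingHom fun i => ρ (X (inr i))
  have hua : ρ (X (inr a)) = 0 := Subtype.ext (by rw [hcoe]; simp [cU, ww])
  have hev (i) : ev (C (ζ i)) = ρ (X (inl i)) := by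
    apply Subtype.ext
    rw [hcoe, aeval_X, eval₂Hom_C]
    rfl
  have hev' (i) : ev (c' (inr i)) = Function.update (fun i => ρ (X (inr i))) b 0 i := by
    by_cases h : i = b
    · subst h; simp [c']
    · rw [Function.update_of_ne h]
      by_cases h' : i = a
      · subst h'; simp [c', hua]
      · simp [c', h, h', ev]
  have h7 (f : MvPolynomial (I ⊕ I) k) :
      ev (aeval c' f) = ρ (aeval (Function.update X (inr b) (0 : MvPolynomial (I ⊕ I) k)) f) := by
    induction f using MvPolynomial.induction_on with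
    | C r =>
      rw [algHom_C, algHom_C, AlgHom.commutes, IsScalarTower.algebraMap_apply k B,
        MvPolynomial.algebraMap_eq]
      simp [ev]
    | add p r hp hr => simp only [map_add, hp, hr]
    | mul_X p v hp =>
      simp only [map_mul, hp, aeval_X]
      congr 1
      rcases v with i | i
      · rw [Function.update_of_ne (by simp)]; exact hev i
      · rw [hev']
        by_cases h : i = b
        · subst h; simp
        · rw [Function.update_of_ne h, Function.update_of_ne (by simpa using h)]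
  have h8 : ev s' + ρ (X (inl b)) * ρ (X (inr b)) ^ q = 0 := by
    have h9 : ∑ i, ρ (X (inl i)) * ρ (X (inr i)) ^ q = 0 :=
      Subtype.ext (by
        simp only [AddSubmonoidClass.coe_finsetSum, MulMemClass.coe_mul, SubmonoidClass.coe_pow,
          hcoe, aeval_X]
        exact H.hs_div a (z a ^ 2))
    rw [← h9, hs', map_sum, ← Finset.add_sum_erase _ _ (Finset.mem_univ b),
      ← Finset.add_sum_erase _ _ (Finset.mem_univ b)]
    simp only [map_mul, map_pow, hev', Function.update_self, zero_pow H.q0, mul_zero, zero_add]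
    rw [add_comm]
    congr 1
    refine Finset.sum_congr rfl fun i hi => ?_
    rw [Function.update_of_ne (Finset.ne_of_mem_erase hi), ← hev]
    rfl
  have h10 := map_dvd ρ (sub_aeval_update_mem (inr b) f)
  rw [map_sub, ← h7, h6, map_mul, eq_neg_of_add_eq_zero_left h8] at h10
  have h11 : ρ (X (inr b)) ∣ -(ρ (X (inl b)) * ρ (X (inr b)) ^ q) * ev γ' :=
    ((dvd_neg.mpr ((dvd_pow_self _ H.q0).mul_left _))).mul_right _
  simpa using dvd_add h10 h11

theorem mem_of_mem_inter {a b c : I} (hab : a ≠ b) (hac : a ≠ c) (hbc : b ≠ c) (φ : K)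
    (hb : φ ∈ (aeval (cX z x a b) : MvPolynomial (I ⊕ I) k →ₐ[k] K).range)
    (hc : φ ∈ (aeval (cX z x a c) : MvPolynomial (I ⊕ I) k →ₐ[k] K).range) :
    φ ∈ (aeval (cZ z a) : MvPolynomial I k →ₐ[k] K).range := by
  let cσ : I ⊕ I → Polynomial K := Sum.elim (fun i => Polynomial.C (cZ z a i))
    fun i => Polynomial.C (cU z x a (inr i)) * Polynomial.X
  let σ : MvPolynomial (I ⊕ I) k →ₐ[k] Polynomial K := aeval cσ
  have hu {b : I} (hab : a ≠ b) : cU z x a (inr b) ≠ 0 :=
    div_ne_zero (H.w_ne hab) (pow_ne_zero _ (H.z_ne a))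
  have key {b : I} (hab : a ≠ b)
      (hb : φ ∈ (aeval (cX z x a b) : MvPolynomial (I ⊕ I) k →ₐ[k] K).range) :
      ∃ (N : ℕ) (F : MvPolynomial (I ⊕ I) k), σ (X (inr b)) ^ N * Polynomial.C φ = σ F := by
    obtain ⟨f, rfl⟩ := hb
    obtain ⟨N, F, h1, -⟩ := clear_denom σ (fun v => Polynomial.C (cX z x a b v)) ⊤ (X (inr b))
      trivial (Sum.elim (fun i => X (inr b) * X (inl i)) fun i => X (inr i)) (fun _ => trivial)
      (by
        rintro (i | i)
        · simp [σ, cσ, cX]
        · have h1 : cU z x a (inr b) * cX z x a b (inr i) = cU z x a (inr i) := by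
            have := H.w_ne hab
            simp only [cU, cX, elim_inr]
            field_simp
          simp only [σ, cσ, aeval_X, elim_inr]
          rw [mul_right_comm, ← map_mul, h1]) f
    refine ⟨N, F, ?_⟩
    rw [← h1]
    congr 1
    exact congr($(MvPolynomial.comp_aeval (R := k) (cX z x a b) (Polynomial.CAlgHom)) f)
  obtain ⟨N, F, hF⟩ := key hab hb
  obtain ⟨M, G, hG⟩ := key hac hc
  have hev (t : K) (f : MvPolynomial (I ⊕ I) k) : Polynomial.eval t (σ f) =
      aeval (Sum.elim (cZ z a) fun i => cU z x a (inr i) * t) f := by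
    have := congr($(MvPolynomial.comp_aeval (R := k) cσ
      ((Polynomial.aeval t).restrictScalars k)) f)
    refine this.trans ?_
    congr 2
    ext (i | i) <;> simp [cσ]
  have hev1 (f : MvPolynomial (I ⊕ I) k) : Polynomial.eval 1 (σ f) = aeval (cU z x a) f := by
    rw [hev]; simp [cU]
  set ρ := (aeval (cU z x a) : MvPolynomial (I ⊕ I) k →ₐ[k] K).rangeRestrict with hρ
  have hsurj : Function.Surjective ρ := AlgHom.rangeRestrict_surjective _
  have hcoe (f) : (ρ f : K) = aeval (cU z x a) f := rfl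
  have h1 : ρ (X (inr b)) ^ N ∣ ρ (X (inr c)) ^ M * ρ F := by
    refine ⟨ρ G, Subtype.ext ?_⟩
    have e1 := congr(Polynomial.eval 1 $hF)
    have e2 := congr(Polynomial.eval 1 $hG)
    simp only [Polynomial.eval_mul, Polynomial.eval_pow, hev1, Polynomial.eval_C] at e1 e2
    simp only [MulMemClass.coe_mul, SubmonoidClass.coe_pow, hcoe, ← e1, ← e2]
    ring
  obtain ⟨L, hL⟩ := dvd_of_pow_dvd (fun h => hu hab (by simpa [hcoe] using congr(($h).1)))
    (H.dvd_of_dvd_mul hac hbc) N M _ h1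
  obtain ⟨L, rfl⟩ := hsurj L
  have h2 : aeval (cU z x a) (F - X (inr b) ^ N * L) = 0 := by
    rw [← hcoe, map_sub, map_mul, map_pow, hL, sub_self]; rfl
  have h3 := H.ker_cU a cσ (by simp [cσ, H.cZ_self]) (by
    simp only [cσ, elim_inl, ← map_pow, ← map_sum, H.hF_cZ, map_zero]) (by simp [cσ, cU, ww]) _ h2
  have h4 : ∑ i, cσ (inl i) * cσ (inr i) ^ q = 0 := by
    simp only [cσ, elim_inl, elim_inr, mul_pow, ← mul_assoc, ← map_pow, ← map_mul,
      ← Finset.sum_mul, ← map_sum]
    have := H.hs_div a (z a ^ 2)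
    simp only [cU, elim_inr]
    rw [this]; simp
  rw [h4, zero_dvd_iff, map_sub, map_mul, map_pow, sub_eq_zero] at h3
  have h5 : Polynomial.C φ = σ L := by
    apply mul_left_cancel₀ (pow_ne_zero N (show σ (X (inr b)) ≠ 0 by
      simpa [σ, cσ] using hu hab))
    rw [hF]; exact h3
  have h6 := congr(Polynomial.eval 0 $h5)
  rw [hev, Polynomial.eval_C] at h6
  refine ⟨aeval (Sum.elim X 0 : I ⊕ I → MvPolynomial I k) L, ?_⟩
  rw [h6]
  refine congr($(MvPolynomial.comp_aeval (R := k) (Sum.elim X 0 : I ⊕ I → MvPolynomial I k)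
    (aeval (cZ z a))) L).trans ?_
  congr 2
  ext (i | i) <;> simp

lemma not_mem_range {a b : I} (hab : a ≠ b) :
    z a / z b ∉ (aeval (cX z x a b) : MvPolynomial (I ⊕ I) k →ₐ[k] K).range := by
  rintro ⟨f, hf⟩
  obtain ⟨d, hda, hdb, -⟩ := H.big a b b
  have h1 : aeval (cX z x a b) (X (inl b) * f - 1) = 0 := by
    have := H.z_ne a
    have := H.z_ne b
    rw [map_sub, map_mul]
    erw [hf]
    simp only [cX, cZ, aeval_X, elim_inl, map_one]
    field_simp
    simp
  have h2 : Ideal.span (Set.range (gX k q a b)) ≤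
      RingHom.ker (aeval (pt k a b d) : MvPolynomial (I ⊕ I) k →ₐ[k] k) := by
    rw [Ideal.span_le]
    rintro _ ⟨l, rfl⟩
    rw [SetLike.mem_coe, RingHom.mem_ker]
    rcases l with l | l <;> fin_cases l
    · simp [gX, pt, Pi.single_eq_of_ne' hda]
    · simp [gX, pt, Pi.single_eq_of_ne hab]
    · simp [gX, pt]
    · exact aeval_pt_FF hda.symm
    · exact aeval_pt_ss H.q0 hab hdb
  have h3 := h2 (H.ker_cX hab _ h1)
  rw [RingHom.mem_ker] at h3
  simp [pt, Pi.single_eq_of_ne' hab, Pi.single_eq_of_ne' hdb] at h3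

lemma adjoin_Z (a : I) : Algebra.adjoin k (Set.range fun i => z i / z a) =
    (aeval (cZ z a) : MvPolynomial I k →ₐ[k] K).range :=
  Algebra.adjoin_range_eq_range_aeval k _

lemma adjoin_X {a b : I} (hab : a ≠ b) :
    Algebra.adjoin k (Set.range fun v : I × I × I =>
      z v.1 * ww z x v.2.1 v.2.2 / (z a * ww z x a b)) =
    (aeval (cX z x a b) : MvPolynomial (I ⊕ I) k →ₐ[k] K).range := by
  have ha := H.z_ne a
  have hw := H.w_ne hab
  rw [← Algebra.adjoin_range_eq_range_aeval]
  apply le_antisymm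
  · rw [Algebra.adjoin_le_iff]
    rintro _ ⟨⟨i, j, l⟩, rfl⟩
    have hm (v) : cX z x a b v ∈ Algebra.adjoin k (Set.range (cX z x a b)) :=
      Algebra.subset_adjoin ⟨v, rfl⟩
    have := mul_mem (hm (inl i)) (sub_mem (mul_mem (pow_mem (hm (inl j)) 2) (hm (inr l)))
      (mul_mem (pow_mem (hm (inl l)) 2) (hm (inr j))))
    rw [SetLike.mem_coe]
    convert this using 1
    simp only [cX, cZ, elim_inl, elim_inr]
    field_simp
    simp only [ww]
    ring
  · rw [Algebra.adjoin_le_iff]
    rintro _ ⟨i | i, rfl⟩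
    · refine Algebra.subset_adjoin ⟨(i, a, b), ?_⟩
      simp only [cX, cZ, elim_inl]
      field_simp
    · refine Algebra.subset_adjoin ⟨(a, a, i), ?_⟩
      simp only [cX, elim_inr]
      field_simp

end Generic

lemma cover_X (𝔭 : Ideal (MvPolynomial (I × I × I) k)) (h𝔭 : 𝔭.IsPrime)
    (h : ∀ (d : ℕ) (G : MvPolynomial (I × I × I) k), 0 < d → G.IsHomogeneous d →
      aeval (fun v : I × I × I => z v.1 * ww z x v.2.1 v.2.2) G = 0 → G ∈ 𝔭)
    (h' : ∃ v, X v ∉ 𝔭) : ∃ j : {j : I × I // j.1 ≠ j.2}, X (j.1.1, j.1.1, j.1.2) ∉ 𝔭 := by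
  by_contra H
  push Not at H
  have H' (a b : I) : X (a, a, b) ∈ 𝔭 := by
    by_cases hab : a = b
    · subst hab
      exact h 1 _ one_pos (isHomogeneous_X _ _) (by simp [ww])
    · exact H ⟨(a, b), hab⟩
  obtain ⟨⟨i, j, l⟩, hv⟩ := h'
  have h1 := h 3 (X (i, j, l) ^ 3 - (X (i, i, l) * X (j, j, l) ^ 2 - X (i, i, j) * X (l, j, l) ^ 2))
    (by norm_num) (((isHomogeneous_X _ _).pow 3).sub
      (((isHomogeneous_X _ _).mul ((isHomogeneous_X _ _).pow 2)).sub
        ((isHomogeneous_X _ _).mul ((isHomogeneous_X _ _).pow 2)))) (by simp [ww]; ring)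
  apply hv
  apply h𝔭.mem_of_pow_mem 3
  convert add_mem h1 (sub_mem (𝔭.mul_mem_right (X (j, j, l) ^ 2) (H' i l))
    (𝔭.mul_mem_right (X (l, j, l) ^ 2) (H' i j))) using 1
  ring

end Pool.Agent.Lib.MP_99f32e_ag
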