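import Mathlib

open MvPolynomial Matrix

namespace Pool.Agent.Lib.MP_99f32e_ag

section laplace

variable {K : Type*} [CommRing K] {ι : Type*}

lemma det_mem_span_aux (S : Subring K) {N : ℕ} (M : Fin N → ι → K) (r : ℕ)
    (w : Fin (N + r) → ι → K) (hw : ∀ i, w (Fin.castAdd r i) = M i)
    (hS : ∀ l j, w (Fin.natAdd N l) j ∈ S) (τ : Fin (N + r) → ι) :
    (Matrix.of fun i j => w i (τ j)).det ∈
      Submodule.span S (Set.range fun σ : Fin N → ι => (Matrix.of fun i j => M i (σ j)).det) := by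
  induction r with
  | zero =>
    refine Submodule.subset_span ⟨τ, congrArg Matrix.det ?_⟩
    ext i j
    exact congr($(hw i) (τ j)).symm
  | succ r ih =>
    rw [Matrix.det_succ_row (n := N + r) _ (Fin.last _)]
    refine Submodule.sum_mem _ fun j _ => ?_
    have h1 := ih (fun i => w i.castSucc) (fun i => hw i) (fun l j => hS l.castSucc j)
      (fun i => τ (j.succAbove i))
    have h2 : (-1 : K) ^ ((Fin.last (N + r) : ℕ) + j) * w (Fin.last _) (τ j) ∈ S :=
      mul_mem (pow_mem (neg_mem (one_mem _)) _) (hS (Fin.last r) (τ j))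
    have h3 := Submodule.smul_mem _ (⟨_, h2⟩ : S) h1
    convert h3 using 1
    rw [Fin.succAbove_last]
    rfl

lemma det_fromRows_mem_span (S : Subring K) {N : ℕ} {ρ : Type*} [Fintype ρ] [DecidableEq ρ]
    (M : Matrix (Fin N) ι K) (R : Matrix ρ ι K) (hR : ∀ l j, R l j ∈ S) (τ : Fin N ⊕ ρ → ι) :
    ((fromRows M R).submatrix id τ).det ∈
      Submodule.span S (Set.range fun σ : Fin N → ι => (M.submatrix id σ).det) := by
  let f := Fintype.equivFin ρ
  let E : Fin (N + Fintype.card ρ) ≃ Fin N ⊕ ρ :=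
    finSumFinEquiv.symm.trans (Equiv.sumCongr (Equiv.refl _) f.symm)
  rw [← Matrix.det_submatrix_equiv_self E]
  refine det_mem_span_aux S M (Fintype.card ρ) (fun i => fromRows M R (E i)) ?_ ?_
    (fun i => τ (E i))
  · intro i
    simp only [E, Equiv.trans_apply, finSumFinEquiv_symm_apply_castAdd]
    rfl
  · intro l j
    simp only [E, Equiv.trans_apply, finSumFinEquiv_symm_apply_natAdd]
    exact hR _ _

lemma det_fromRows_mul {ν ρ : Type*} [Fintype ν] [DecidableEq ν] [Fintype ρ] [DecidableEq ρ]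
    [Fintype ι] (e : ν ⊕ ρ ≃ ι)
    (M : Matrix ν ι K) (R Φ : Matrix ρ ι K) (C : Matrix ι ν K) (h : M * Φᵀ = 0) :
    ((fromRows M R).submatrix id e).det * ((fromCols C Φᵀ).submatrix e id).det =
      (M * C).det * (R * Φᵀ).det := by
  rw [← Matrix.det_mul, Matrix.submatrix_mul_equiv, Matrix.submatrix_id_id,
    Matrix.fromRows_mul_fromCols, h, Matrix.det_fromBlocks_zero₁₂]

lemma det_fromRows_change {ν ρ : Type*} [Fintype ν] [DecidableEq ν] [Fintype ρ] [DecidableEq ρ]
    [Fintype ι] [DecidableEq ι] (e : ν ⊕ ρ ≃ ι)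
    (M M' : Matrix ν ι K) (R : Matrix ρ ι K) (T : Matrix ν ρ K) (G : Matrix ι ι K)
    (h : M' = (M + T * R) * G) :
    ((fromRows M' (R * G)).submatrix id e).det =
      ((fromRows M R).submatrix id e).det * G.det := by
  set B : Matrix (ν ⊕ ρ) (ν ⊕ ρ) K := fromBlocks 1 T 0 1 with hB
  have h1 : fromRows M' (R * G) = B * fromRows M R * G := by
    rw [hB, Matrix.fromBlocks_mul_fromRows, Matrix.fromRows_mul, h]
    simp
  have h2 : (B * fromRows M R * G).submatrix id e =
      B * (fromRows M R).submatrix id e * G.submatrix e e := by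
    rw [Matrix.mul_assoc, Matrix.mul_assoc, Matrix.submatrix_mul_equiv]
    rfl
  rw [h1, h2, Matrix.det_mul, Matrix.det_mul, hB, Matrix.det_fromBlocks_zero₂₁,
    Matrix.det_submatrix_equiv_self]
  simp

end laplace

section kaehler

variable {k K : Type*} [Field k] [Field K] [Algebra k K] {ι : Type*} [Fintype ι]

lemma derivation_aeval {M : Type*} [AddCommGroup M] [Module K M] [Module k M]
    [IsScalarTower k K M] (θ : Derivation k K M) (c : ι → K) (p : MvPolynomial ι k) :
    θ (aeval c p) = ∑ i, aeval c (pderiv i p) • θ (c i) := by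
  classical
  induction p using MvPolynomial.induction_on with
  | C a => simp
  | add p q hp hq => simp [hp, hq, add_smul, Finset.sum_add_distrib]
  | mul_X p i hp =>
    simp only [map_mul, aeval_X, Derivation.leibniz, hp, pderiv_X, smul_eq_mul, map_add, add_smul,
      Finset.sum_add_distrib, Finset.smul_sum, smul_smul]
    congr 1
    rw [Finset.sum_eq_single i]
    · simp
    · intro j _ hj
      simp [Pi.single_eq_of_ne' hj]
    · simp

/-- gradient of an element of a localisation of `k[c]` -/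
lemma exists_grad {M : Type*} [AddCommGroup M] [Module K M] [Module k M]
    [IsScalarTower k K M] (θ : Derivation k K M) (c : ι → K) (S : Subring K)
    (hS : ∀ p : MvPolynomial ι k, aeval c p ∈ S) (a : K) (ha : a ∈ S) (p q : MvPolynomial ι k)
    (hq : aeval c q ≠ 0) (hq' : (aeval c q)⁻¹ ∈ S) (h : a = aeval c p / aeval c q) :
    ∃ C : ι → K, (∀ i, C i ∈ S) ∧ θ a = ∑ i, C i • θ (c i) := by
  refine ⟨fun i => (aeval c q)⁻¹ * (aeval c (pderiv i p) - a * aeval c (pderiv i q)),
    fun i => mul_mem hq' (sub_mem (hS _) (mul_mem ha (hS _))), ?_⟩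
  have h1 : a * aeval c q = aeval c p := by rw [h]; field_simp
  have h2 := congr(θ $h1)
  rw [Derivation.leibniz, derivation_aeval, derivation_aeval] at h2
  have h3 : θ a = (aeval c q)⁻¹ • ((aeval c q) • θ a) := by
    rw [smul_smul, inv_mul_cancel₀ hq, one_smul]
  rw [h3, eq_sub_of_add_eq' h2, Finset.smul_sum, ← Finset.sum_sub_distrib, Finset.smul_sum]
  refine Finset.sum_congr rfl fun i _ => ?_
  rw [smul_smul, ← sub_smul, smul_smul]

lemma span_D_eq_top (c : ι → K)
    (hK : ∀ f : K, ∃ p q : MvPolynomial ι k, aeval c q ≠ 0 ∧ f = aeval c p / aeval c q) :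
    Submodule.span K (Set.range fun i => KaehlerDifferential.D k K (c i)) = ⊤ := by
  rw [eq_top_iff, ← KaehlerDifferential.span_range_derivation, Submodule.span_le]
  rintro _ ⟨f, rfl⟩
  obtain ⟨p, q, hq, h⟩ := hK f
  obtain ⟨C, -, hC⟩ := exists_grad (KaehlerDifferential.D k K) c ⊤ (fun _ => trivial) f trivial
    p q hq trivial h
  rw [SetLike.mem_coe, hC]
  exact Submodule.sum_mem _ fun i _ => Submodule.smul_mem _ _ (Submodule.subset_span ⟨i, rfl⟩)

lemma exists_derivation {ρ : Type*} (c : ι → K) (g : ρ → MvPolynomial ι k)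
    (hker : ∀ p : MvPolynomial ι k, aeval c p = 0 → p ∈ Ideal.span (Set.range g))
    (hg : ∀ l, aeval c (g l) = 0)
    (hK : ∀ f : K, ∃ p q : MvPolynomial ι k, aeval c q ≠ 0 ∧ f = aeval c p / aeval c q)
    (v : ι → K) (hv : ∀ l, ∑ i, aeval c (pderiv i (g l)) * v i = 0) :
    ∃ θ : Derivation k K K, ∀ i, θ (c i) = v i := by
  classical
  let ψ : MvPolynomial ι k →ₐ[k] TrivSqZeroExt K K :=
    aeval fun i => TrivSqZeroExt.inl (c i) + TrivSqZeroExt.inr (v i)
  have hψ (p : MvPolynomial ι k) : (ψ p).fst = aeval c p ∧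
      (ψ p).snd = ∑ i, aeval c (pderiv i p) * v i := by
    induction p using MvPolynomial.induction_on with
    | C a => simp [ψ, TrivSqZeroExt.algebraMap_eq_inl']
    | add p q hp hq => simp [hp, hq, add_mul, Finset.sum_add_distrib]
    | mul_X p i hp =>
      have h1 : ψ (X i) = TrivSqZeroExt.inl (c i) + TrivSqZeroExt.inr (v i) := by simp [ψ]
      rw [map_mul, h1]
      refine ⟨by simp [hp], ?_⟩
      simp only [TrivSqZeroExt.snd_mul, hp, TrivSqZeroExt.snd_add, TrivSqZeroExt.snd_inl,
        TrivSqZeroExt.snd_inr, zero_add, smul_eq_mul, TrivSqZeroExt.fst_add, TrivSqZeroExt.fst_inl,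
        TrivSqZeroExt.fst_inr, add_zero, MulOpposite.smul_eq_mul_unop, MulOpposite.unop_op,
        Derivation.leibniz, pderiv_X, map_add, map_mul, aeval_X, add_mul, Finset.sum_add_distrib,
        Finset.sum_mul]
      congr 1
      · rw [Finset.sum_eq_single i]
        · simp
        · intro j _ hj
          simp [Pi.single_eq_of_ne' hj]
        · simp
      · exact Finset.sum_congr rfl fun j _ => by ring
  have hψ0 (p : MvPolynomial ι k) (hp : aeval c p = 0) : ψ p = 0 := by
    have h1 : Ideal.span (Set.range g) ≤ RingHom.ker ψ := by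
      rw [Ideal.span_le]
      rintro _ ⟨l, rfl⟩
      exact TrivSqZeroExt.ext ((hψ _).1.trans (hg l)) ((hψ _).2.trans (hv l))
    exact h1 (hker p hp)
  let A := (aeval c : MvPolynomial ι k →ₐ[k] K).range
  have : IsFractionRing A K := IsFractionRing.of_field A K fun f => by
    obtain ⟨p, q, -, h⟩ := hK f
    exact ⟨⟨_, p, rfl⟩, ⟨_, q, rfl⟩, h⟩
  have hsurj : Function.Surjective (aeval c : MvPolynomial ι k →ₐ[k] K).rangeRestrict :=
    AlgHom.rangeRestrict_surjective _
  let ψ' : A →+* TrivSqZeroExt K K :=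
    (aeval c : MvPolynomial ι k →ₐ[k] K).rangeRestrict.toRingHom.liftOfSurjective hsurj
      ⟨ψ.toRingHom, fun p hp => hψ0 p congr(($hp).1)⟩
  have hψ' (p : MvPolynomial ι k) : ψ' ⟨aeval c p, p, rfl⟩ = ψ p :=
    RingHom.liftOfSurjective_comp_apply _ hsurj _ p
  have hu (y : nonZeroDivisors A) : IsUnit (ψ' y) := by
    obtain ⟨⟨_, p, rfl⟩, hy⟩ := y
    have h0 : aeval c p ≠ 0 := fun h => nonZeroDivisors.ne_zero hy (Subtype.ext h)
    erw [hψ' p]
    rw [TrivSqZeroExt.isUnit_iff_isUnit_fst, (hψ p).1]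
    exact isUnit_iff_ne_zero.mpr h0
  let Ψ : K →+* TrivSqZeroExt K K := IsLocalization.lift hu
  have hΨ (p : MvPolynomial ι k) : Ψ (aeval c p) = ψ p :=
    (IsLocalization.lift_eq hu ⟨aeval c p, p, rfl⟩).trans (hψ' p)
  have hfst (f : K) : (Ψ f).fst = f := by
    obtain ⟨p, q, hq, h⟩ := hK f
    have h1 : f * aeval c q = aeval c p := by rw [h]; field_simp
    have h2 := congr((Ψ $h1).fst)
    rw [map_mul, TrivSqZeroExt.fst_mul, hΨ, hΨ, (hψ _).1, (hψ _).1] at h2
    exact mul_right_cancel₀ hq (h2.trans h1.symm)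
  have hc (a : k) : (Ψ (algebraMap k K a)).snd = 0 := by
    have := hΨ (C a)
    rw [aeval_C] at this
    rw [this, (hψ _).2]
    simp
  refine ⟨Derivation.mk' ⟨⟨fun f => (Ψ f).snd, fun a b => by simp⟩, fun a f => ?_⟩ ?_, fun i => ?_⟩
  · simp only [Algebra.smul_def, map_mul, TrivSqZeroExt.snd_mul, hc, hfst]
    simp
  · intro a b
    simp [TrivSqZeroExt.snd_mul, hfst, mul_comm]
  · have := hΨ (X i)
    rw [aeval_X] at this
    change (Ψ (c i)).snd = _
    rw [this]
    simp [ψ]

lemma finrank_kaehler {ρ : Type*} [Fintype ρ] [DecidableEq ρ] (c : ι → K)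
    (g : ρ → MvPolynomial ι k)
    (hker : ∀ p : MvPolynomial ι k, aeval c p = 0 → p ∈ Ideal.span (Set.range g))
    (hg : ∀ l, aeval c (g l) = 0)
    (hK : ∀ f : K, ∃ p q : MvPolynomial ι k, aeval c q ≠ 0 ∧ f = aeval c p / aeval c q)
    (R : Matrix ρ ι K)
    (hR : R * (Matrix.of fun l i => aeval c (pderiv i (g l)))ᵀ = 1) :
    Module.finrank K (KaehlerDifferential k K) + Fintype.card ρ = Fintype.card ι := by
  set Φ : Matrix ρ ι K := Matrix.of fun l i => aeval c (pderiv i (g l)) with hΦ
  let δ : Module.Dual K (KaehlerDifferential k K) →ₗ[K] (ι → K) :=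
    LinearMap.pi fun i => LinearMap.applyₗ (KaehlerDifferential.D k K (c i))
  have hinj : Function.Injective δ := by
    rw [injective_iff_map_eq_zero]
    intro φ hφ
    refine LinearMap.ext_on_range (span_D_eq_top c hK) fun i => ?_
    exact congr($hφ i)
  have hrange : LinearMap.range δ = LinearMap.ker Φ.mulVecLin := by
    apply le_antisymm
    · rintro _ ⟨φ, rfl⟩
      ext l
      have := congr(φ $(derivation_aeval (KaehlerDifferential.D k K) c (g l)))
      rw [hg, map_zero, map_zero, map_sum] at this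
      simp only [map_smul, smul_eq_mul] at this
      simpa [Φ, δ, Matrix.mulVec, dotProduct] using this.symm
    · intro v hv
      obtain ⟨θ, hθ⟩ := exists_derivation c g hker hg hK v (fun l => by
        simpa [Φ, Matrix.mulVec, dotProduct] using congr($hv l))
      refine ⟨θ.liftKaehlerDifferential, ?_⟩
      ext i
      simp [δ, hθ]
  have hsurj : LinearMap.range Φ.mulVecLin = ⊤ := by
    rw [eq_top_iff]
    intro w _
    refine ⟨Rᵀ.mulVec w, ?_⟩
    have : Φ * Rᵀ = 1 := by simpa using congr(($hR)ᵀ)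
    simp [Matrix.mulVec_mulVec, this]
  have h1 := LinearMap.finrank_range_add_finrank_ker Φ.mulVecLin
  rw [hsurj, ← hrange, LinearMap.finrank_range_of_inj hinj, Subspace.dual_finrank_eq] at h1
  simp only [finrank_top, Module.finrank_fintype_fun_eq_card] at h1
  omega

end kaehler

end Pool.Agent.Lib.MP_99f32e_ag
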