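import Pool.Agent.Lib.MP_99f32e_ag.MEst

open AlgebraicGeometry CategoryTheory MvPolynomial Sum Matrix WithZero

set_option linter.unusedSectionVars false

universe u

namespace Pool.Agent.Lib.MP_99f32e_ag

attribute [local instance] Model.constAlg

lemma dvr_of_coheight {X : Scheme.{u}} [IsIntegral X] [IsLocallyNoetherian X] {x : X}
    (hn : IsIntegrallyClosed (X.presheaf.stalk x)) (hx : Order.coheight x = 1) :
    IsDiscreteValuationRing (X.presheaf.stalk x) := by
  have h1 : Ring.KrullDimLE 1 (X.presheaf.stalk x) := krullDimLE_of_coheight_le hx.le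
  have h2 : ¬ IsField (X.presheaf.stalk x) := fun h => by
    have h3 := ringKrullDim_eq_zero_of_isField h
    rw [ringKrullDim_stalk_eq_coheight, hx] at h3
    exact absurd h3 (by decide)
  have h3 : IsIntegrallyClosed (X.presheaf.stalk x) ∧
      ∃! P : Ideal (X.presheaf.stalk x), P ≠ ⊥ ∧ P.IsPrime := ⟨hn, IsLocalRing.maximalIdeal _,
    ⟨IsLocalRing.isField_iff_maximalIdeal_eq.not.mp h2, inferInstance⟩, fun P hP =>
      IsLocalRing.eq_maximalIdeal (Ring.krullDimLE_one_iff_of_isPrime_bot.mp h1 P hP.1 hP.2)⟩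
  exact ((IsDiscreteValuationRing.TFAE _ h2).out 3 0).mp h3

variable {Y I : Type} [Fintype Y] [DecidableEq Y] [Fintype I] [DecidableEq I] {q : ℕ}
  {k K : Type u} [Field k] [Field K] [Algebra k K]

namespace MSetup

variable {z : Fin 3 → K} {β : Fin 2 → Fin 3 → K} {g T : Fin 2 → MvPolynomial (Fin 3) k}
  {x : Fin 2 → I → Y ⊕ Fin 2 → K} {l r : Fin 2 → K} (H : MSetup q z β g T x l r)
include H

theorem canon (hq : (q : k) = 0) (hY : Fintype.card Y + 1 = q) (h5 : 5 ≤ Fintype.card Y)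
    (hI : Fintype.card I ≤ q) (hfr : ∀ a b : K, (a - b) ^ q = a ^ q - b ^ q) (t₀ : I) {α : ℕ}
    (hα : q * (q + 1) = α + Fintype.card Y * Fintype.card I) (M : MTotal k β x)
    (hn : ∀ y : M.X, IsIntegrallyClosed (M.X.presheaf.stalk y))
    (l' : Fin 2 → M.X.functionField) (hl : ∀ j, M.emb (l' j) = l j) {n : ℕ}
    (b : Module.Basis (Fin n) M.X.functionField (KaehlerDifferential k M.X.functionField)) :
    ∃ P : M.X.functionField, P ≠ 0 ∧ ∀ j, ∀ y ∈ M.U j,
      IsLeast {r : ℤ | ∃ (a : Fin n → M.X.presheaf.stalk y) (f : M.X.functionField),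
        f = b.det (fun i => KaehlerDifferential.D k M.X.functionField (algebraMap _ _ (a i))) ∧
          f ≠ 0 ∧ r = M.X.ord f y} (M.X.ord (P / l' j.1 ^ α) y) ∧
      ∀ v : Valuation M.X.functionField ℤᵐ⁰, Function.Surjective v →
        (∀ o : M.X.presheaf.stalk y, v (algebraMap _ _ o) ≤ 1) → P / l' j.1 ^ α ∈ topLat b v := by
  have H₀ := H.one t₀
  obtain ⟨c', hc'⟩ := M.exists_lift
  let β' (j) (i : Fin 3) := c' j (inl i)
  let w (j) (t : I) (a : Y ⊕ Fin 2) := c' j (inr (a, t))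
  have hcw (j) : c' j = Sum.elim (β' j) fun v => w j v.2 v.1 := by ext (i | a) <;> rfl
  have hβ (j i) : M.emb (β' j i) = β j.1 i := hc' j (inl i)
  have hw (j t a) : M.emb (w j t a) = x j.1 t a / x j.1 t (j.2 t) := hc' j (inr (a, t))
  have he (j) := M.emb_aeval _ _ (hβ j)
  have he' (j) := M.emb_aeval _ _ (hc' j)
  have hch (j) : Chart (β' j) (g j.1) (T j.1) := (chart_iff M.emb (he j)).mp (H₀.chart j.1)
  have hl0 (j) : l' j ≠ 0 := by rw [← map_ne_zero M.emb, hl]; exact H₀.l_ne j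
  have hw0 (j t a) : w j t a ≠ 0 := by
    rw [← map_ne_zero M.emb, hw]; exact div_ne_zero (H.ne _ _ _) (H.ne _ _ _)
  have hb (j t) : w j t (j.2 t) = 1 := M.emb.injective (by rw [hw, div_self (H.ne _ _ _), map_one])
  have hF (j t) : fF q (β' j 2) (w j t) = 0 := M.emb.injective (by
    simpa only [map_fF, hw, hβ, map_zero] using ((H.one t).cone j.1).eq_div (j.2 t))
  have h4 (j) : aeval (β' j) (jac (g j.1) (T j.1)) ≠ 0 :=
    right_ne_zero_of_mul_eq_one (hch j).unit.choose_spec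
  have hg (j u) : aeval (c' j) (gM q (g j.1) (T j.1) j.2 u) = 0 :=
    M.emb.injective (by rw [he', H.aeval_gM t₀, map_zero])
  have hR (j) : ∃ R : Matrix (Fin 2 ⊕ Fin 2 × I) (Fin 3 ⊕ (Y ⊕ Fin 2) × I) M.X.functionField,
      R * (gradMat (c' j) (gM q (g j.1) (T j.1) j.2))ᵀ = 1 := by
    choose c _ _ _ _ _ hc _ using fun t => exists_four (by omega) (j.2 t)
    refine ⟨_, (Matrix.mul_assoc _ _ _).trans (Matrix.nonsing_inv_mul (RM (fun t =>
      ![Pi.single (j.2 t) 1, Pi.single (inl (c t)) 1]) * _) (isUnit_iff_ne_zero.mpr ?_))⟩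
    rw [hcw, det_RM (hch j) hq]
    refine mul_ne_zero (neg_ne_zero.mpr (h4 j)) (Finset.prod_ne_zero_iff.mpr fun t _ => ?_)
    simp [Pi.single_eq_of_ne' (hc t), dF, hw0]
  choose R hR using hR
  have hrk := finrank_kaehler (c' (0, fun _ => inr 0)) _ (fun p hp => (H.mod _ _).ker (H₀.chart _) p
    (by rw [← he' (0, fun _ => inr 0), hp, map_zero])) (hg _) (M.field_frac hc' _) _ (hR _)
  rw [Module.finrank_eq_card_basis b, ← Fintype.card_sum] at hrk
  let e := Fintype.equivOfCardEq hrk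
  choose η h0 h1 hσ hO using fun j =>
    chart_jac' b (c' j) _ (hg j) (M.field_frac hc' j) (R j) (hR j) e
  obtain ⟨j₀⟩ : Nonempty Y := Fintype.card_pos_iff.mp (by omega)
  let o : Fin 2 × (I → Y ⊕ Fin 2) := (0, fun _ => inr 0)
  have h3 (j) : η j * aeval (β' j) (jac (g j.1) (T j.1)) * l' j.1 ^ (q * (q + 1)) *
      ∏ t, w o t (inl j₀) ^ q = -((fromRows (coordMat b (Sum.elim (β' o) fun v => w o v.2 v.1))
        (RM fun t => ![w o t, Pi.single (inl j₀) 1])).submatrix id e).det *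
          l' j.1 ^ (Fintype.card Y * Fintype.card I) := by
    obtain ⟨f, hf⟩ := H₀.r_mem j.1
    obtain ⟨f', hf'⟩ := H₀.l_mem j.1
    have hr : M.emb (aeval (β' j) f)⁻¹ = r j.1 := by
      rw [map_inv₀, he, ← inv_inv (r j.1), ← hf]; rfl
    have hl' : l' j.1 = aeval (β' j) f' := M.emb.injective (by rw [hl, he, ← hf']; rfl)
    obtain ⟨γ, hγ⟩ := (hch j).exists_D (KaehlerDifferential.D k _) f
    obtain ⟨γ', hγ'⟩ := (hch j).exists_D (KaehlerDifferential.D k _) f'
    refine changeM b e (β₀ := β' o) (hch j) hq hY (w o) (w j) (l' j.1) (aeval (β' j) f)⁻¹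
      (fun t => (tw q (l' j.1) (aeval (β' j) f)⁻¹ (w o t) (j.2 t))⁻¹) (hl0 _)
      (fun t a => M.emb.injective ?_) j.2 (hb j) (hF j) γ' (-(aeval (β' j) f)⁻¹ ^ 2 * γ)
      (Setup.D_eq (r := (aeval (β' j) f)⁻¹) hq (M.emb.injective ?_)) (hl' ▸ hγ') ?_ j₀ _
      (hcw j ▸ h1 j)
    · obtain ⟨m, hm⟩ := (H.one t).x_eq j.1
      have h4 := H.ne j.1 t (j.2 t)
      have h5 := H.ne 0 t (inr 0)
      simp only [map_mul, map_inv₀ M.emb (tw ..), map_tw, hw, hr, hl, tw_div, hm, o] at h4 ⊢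
      have := left_ne_zero_of_mul h4
      have := right_ne_zero_of_mul h4
      field_simp
    · rw [map_add, map_mul, map_pow, map_pow, hr, hβ, hβ, hl, H₀.s_eq j.1]
    · rw [Derivation.leibniz_inv, hγ, smul_smul]
  obtain ⟨P, hP⟩ : ∃ P, ∀ j, P / l' j.1 ^ α = η j * aeval (β' j) (jac (g j.1) (T j.1)) := by
    refine ⟨-((fromRows (coordMat b (Sum.elim (β' o) fun v => w o v.2 v.1)) (RM fun t =>
      ![w o t, Pi.single (inl j₀) 1])).submatrix id e).det / ∏ t, w o t (inl j₀) ^ q, fun j => ?_⟩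
    have h6 := h3 j
    rw [hα, pow_add, mul_right_comm _ _ (∏ t, _), ← mul_assoc,
      mul_left_inj' (pow_ne_zero _ (hl0 _))] at h6
    rw [← h6, div_div, div_eq_iff (mul_ne_zero
      (Finset.prod_ne_zero_iff.mpr fun t _ => pow_ne_zero _ (hw0 _ _ _)) (pow_ne_zero _ (hl0 _)))]
    ring
  have hP0 (j : Fin 2 × (I → Y ⊕ Fin 2)) : P / l' j.1 ^ α ≠ 0 := hP j ▸ mul_ne_zero (h0 j) (h4 j)
  refine ⟨P, (div_ne_zero_iff.mp (hP0 o)).1, fun j y hy => ?_⟩
  have hst (p) : aeval (c' j) p ∈ (algebraMap (M.X.presheaf.stalk y) M.X.functionField).range :=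
    M.mem_stalk (j := j) (by rw [he']; exact ⟨p, rfl⟩) hy
  have hB (v : Valuation M.X.functionField ℤᵐ⁰) (hv : Function.Surjective v)
      (ho : ∀ o : M.X.presheaf.stalk y, v (algebraMap _ _ o) ≤ 1) : P / l' j.1 ^ α ∈ topLat b v := by
    obtain ⟨π, hπ⟩ := hv (exp (-1))
    have hb' (t) : ∃ a, (∀ a', v (w j t a') ≤ v (w j t a)) ∧
        (a = inr 1 ∨ v (w j t (inr 1)) < v (w j t a)) := by
      obtain ⟨a, -, ha⟩ := Finset.exists_max_image Finset.univ (fun a => v (w j t a))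
        ⟨inr 0, Finset.mem_univ _⟩
      rcases (ha (inr 1) (Finset.mem_univ _)).eq_or_lt with h | h
      · exact ⟨inr 1, fun a' => h ▸ ha a' (Finset.mem_univ _), .inl rfl⟩
      · exact ⟨a, fun a' => ha a' (Finset.mem_univ _), .inr h⟩
    choose b' hb1 hb2 using hb'
    have h6 (t a) : w (j.1, b') t a = w j t a / w j t (b' t) := M.emb.injective (by
      rw [map_div₀, hw, hw, hw, div_div_div_cancel_right₀ (H.ne _ _ _)])
    have h7 (f : MvPolynomial (Fin 3) k) : v (aeval (β' (j.1, b')) f) ≤ 1 := by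
      obtain ⟨o, h⟩ := M.mem_stalk (j := j) (f := aeval (β' (j.1, b')) f)
        (le_cM _ _ _ ⟨f, (he (j.1, b') f).symm⟩) hy
      exact h ▸ ho o
    have : Nonempty Y := ⟨j₀⟩
    have h8 := estimate b e (hch (j.1, b')) hq hY hI
      (fun a a' => M.emb.injective (by simp only [map_sub, map_pow, hfr])) (w _) b' (hb _) (hF _)
      (fun _ _ => hw0 _ _ _) hπ h7
      (fun t a => by rw [h6, map_div₀]; exact div_le_one_of_le₀ (hb1 t a) zero_le)
      (fun t => (hb2 t).imp_right fun h => by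
        rw [h6, map_div₀]; exact (div_lt_one₀ (zero_le.trans_lt h)).mpr h)
      (h0 _) (hcw _ ▸ h1 _)
    rw [hP (j.1, b'), mul_comm]
    exact Submodule.smul_mem _ (⟨_, h7 _⟩ : v.integer) h8
  have hlow (a : Fin n → M.X.presheaf.stalk y)
      (ha : b.det (fun i => KaehlerDifferential.D k M.X.functionField (algebraMap _ _ (a i))) ≠ 0) :
      M.X.ord (P / l' j.1 ^ α) y ≤ M.X.ord (b.det fun i =>
        KaehlerDifferential.D k M.X.functionField (algebraMap _ _ (a i))) y := by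
    obtain ⟨o, ho, h6⟩ := hO j _ hst (fun i => algebraMap _ _ (a i)) fun i => by
      obtain ⟨s, t, ⟨u, hu⟩, e⟩ := stalk_frac (M.aff j) hy (a i)
      obtain ⟨r, hr⟩ := M.germ_eq_aeval hc' j s
      obtain ⟨p, hp⟩ := M.germ_eq_aeval hc' j t
      rw [germ_mem_stalk _ _ hy] at hr hp
      rw [← hu] at hr e
      refine ⟨p, r, hr ▸ (u.isUnit.map _).ne_zero, ⟨↑u⁻¹, by rw [← hr, map_units_inv]⟩, ?_⟩
      rw [← hr, ← hp, ← e, map_mul, mul_div_cancel_right₀ _ (u.isUnit.map _).ne_zero]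
    rw [h6] at ha ⊢
    rw [hP, Scheme.ord_mul (h0 j) (h4 j), Scheme.ord_mul (h0 j) (right_ne_zero_of_mul ha),
      M.ord_eq_zero (j := j) (le_cM _ _ _ ⟨_, (he j _).symm⟩) (le_cM _ _ _ ⟨_, (he j _).symm⟩)
      (hch j).unit.choose_spec hy]
    exact add_le_add_right (ord_nonneg_of_mem ho) _
  refine ⟨⟨?_, by rintro _ ⟨a, _, rfl, ha, rfl⟩; exact hlow a ha⟩, hB⟩
  by_cases hc : Order.coheight y = 1
  · have := dvr_of_coheight (hn y) hc
    obtain ⟨a, h6, h7⟩ := hB ((IsDiscreteValuationRing.maximalIdeal (M.X.presheaf.stalk y)).valuation _)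
      (IsDedekindDomain.HeightOneSpectrum.valuation_surjective _ _)
      (IsDedekindDomain.HeightOneSpectrum.valuation_le_one _)
    choose a' ha' using fun i => IsDiscreteValuationRing.exists_lift_of_le_one (h6 i)
    have h8 := (Valuation.pos_iff ((IsDiscreteValuationRing.maximalIdeal
      (M.X.presheaf.stalk y)).valuation M.X.functionField)).mpr (hP0 j)
    have h9 := (Valuation.pos_iff _).mp (h8.trans_le h7)
    simp only [← ha'] at h7 h9
    refine ⟨a', _, rfl, h9, (hlow a' h9).antisymm ?_⟩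
    rw [Scheme.ord_le_ord_iff hc hc h9 (hP0 j)]
    exact ((Ring.ordFrac_eq_valuation_inv _).trans_le (inv_anti₀ h8 h7)).trans_eq
      (Ring.ordFrac_eq_valuation_inv _).symm
  · obtain ⟨σ, h6⟩ := hσ j
    choose a ha using fun i => hst (X (σ i))
    simp only [aeval_X] at ha
    exact ⟨a, _, rfl, by simpa only [ha] using h6, by simp [hc]⟩

end MSetup

end Pool.Agent.Lib.MP_99f32e_ag
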