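import Pool.Agent.Lib.MP_99f32e_ag.RFib

universe u

namespace Pool.Agent.Lib.MP_99f32e_ag

section cyclic

open Polynomial

variable {R : Type*} [CommRing R] [IsDomain R] {n : ℕ} {G : R}

omit [IsDomain R] in
lemma prime_of_map_prime {S : Type*} [CommRing S] (φ : R →+* S) (hφ : Function.Injective φ)
    {f : R[X]} (hf : f.Monic) (h : Prime (f.map φ)) : Prime f :=
  ⟨fun h0 => h.ne_zero (by rw [h0, Polynomial.map_zero]),
    fun hu => h.not_isUnit (hu.map (mapRingHom φ)), fun a b hab => by
      rw [← map_dvd_map φ hφ hf, ← map_dvd_map φ hφ hf]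
      exact h.dvd_or_dvd (by rw [← Polynomial.map_mul]; exact map_dvd φ hab)⟩

theorem normal_cyclic [IsIntegrallyClosed R] (hn : IsUnit (n : R)) (hpG : Prime G) :
    Prime (X ^ n + C G : R[X]) ∧ IsIntegrallyClosed (AdjoinRoot (X ^ n + C G : R[X])) := by
  have hn0 : n ≠ 0 := by rintro rfl; simp at hn
  have hE := eisenstein_of_dvd hn0 hpG.squarefree hpG dvd_rfl
  set f : R[X] := X ^ n + C G with hf
  have hmon : f.Monic := monic_X_pow_add_C _ hn0
  let K := FractionRing R
  have hRK : Function.Injective (algebraMap R K) := IsFractionRing.injective R K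
  let f' : K[X] := f.map (algebraMap R K)
  have hf' : f' = X ^ n + C (algebraMap R K G) := by simp [f', hf]
  have hmon' : f'.Monic := hmon.map _
  have hirr : Fact (Irreducible f') :=
    ⟨(hmon.irreducible_iff_irreducible_map_fraction_map).mp (hE.irreducible
      ((Ideal.span_singleton_prime hpG.ne_zero).mpr hpG) hmon.isPrimitive
      (by rw [natDegree_X_pow_add_C]; omega))⟩
  have hpr : Prime f := prime_of_map_prime _ hRK hmon hirr.out.prime
  refine ⟨hpr, ?_⟩
  have hdom := AdjoinRoot.isDomain_of_prime hpr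
  let L := AdjoinRoot f'
  let φ : AdjoinRoot f →+* L := AdjoinRoot.map (algebraMap R K) f f' dvd_rfl
  have hφo (r : R) : φ (AdjoinRoot.of f r) = algebraMap K L (algebraMap R K r) :=
    AdjoinRoot.map_of _ _ _ _ r
  have hφ (g : R[X]) : φ (AdjoinRoot.mk f g) = AdjoinRoot.mk f' (g.map (algebraMap R K)) := by
    have : φ.comp (AdjoinRoot.mk f) = (AdjoinRoot.mk f').comp (mapRingHom (algebraMap R K)) := by
      ext r
      · simp only [RingHom.coe_comp, Function.comp_apply, AdjoinRoot.mk_C, coe_mapRingHom, map_C]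
        exact hφo r
      · simp only [RingHom.coe_comp, Function.comp_apply, AdjoinRoot.mk_X, coe_mapRingHom, map_X]
        exact AdjoinRoot.map_root (algebraMap R K) f f' dvd_rfl
    exact congr($this g)
  have hinj : Function.Injective φ := by
    rw [injective_iff_map_eq_zero]
    intro a ha
    obtain ⟨g, rfl⟩ := AdjoinRoot.mk_surjective a
    rw [hφ, AdjoinRoot.mk_eq_zero, map_dvd_map _ hRK hmon] at ha
    exact AdjoinRoot.mk_eq_zero.mpr ha
  let _ : Algebra (AdjoinRoot f) L := φ.toAlgebra
  have : IsScalarTower R (AdjoinRoot f) L := IsScalarTower.of_algebraMap_eq fun r =>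
    (hφo r).symm
  have : FaithfulSMul (AdjoinRoot f) L := (faithfulSMul_iff_algebraMap_injective _ _).mpr hinj
  have hfrac : IsFractionRing (AdjoinRoot f) L := IsFractionRing.of_field _ _ fun z => by
    obtain ⟨g, rfl⟩ := AdjoinRoot.mk_surjective z
    obtain ⟨b, hb, e⟩ := IsLocalization.integerNormalization_spec (nonZeroDivisors R) g
    refine ⟨AdjoinRoot.mk f (IsLocalization.integerNormalization (nonZeroDivisors R) g),
      AdjoinRoot.of f b, ?_⟩
    have hb0 : algebraMap K L (algebraMap R K b) ≠ 0 :=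
      (_root_.map_ne_zero _).mpr ((map_ne_zero_iff _ hRK).mpr (nonZeroDivisors.ne_zero hb))
    change _ = φ _ / φ _
    rw [hφ, e, hφo, eq_div_iff hb0, Algebra.smul_def, map_mul, mul_comm]
    rfl
  let B : PowerBasis K L := AdjoinRoot.powerBasis hmon'.ne_zero
  have hgen : B.gen = AdjoinRoot.root f' := rfl
  have hroot : aeval B.gen f = 0 := by
    rw [← aeval_map_algebraMap K, hgen, AdjoinRoot.aeval_eq, AdjoinRoot.mk_self]
  have hint : IsIntegral R B.gen := ⟨f, hmon, hroot⟩
  have hminK : minpoly K B.gen = f' := AdjoinRoot.minpoly_powerBasis_gen_of_monic hmon'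
  have hmin : minpoly R B.gen = f := by
    apply map_injective _ hRK
    rw [← minpoly.isIntegrallyClosed_eq_field_fractions' K hint, hminK]
  have hG : algebraMap R K G ≠ 0 := (map_ne_zero_iff _ hRK).mpr hpG.ne_zero
  have hnK : (n : K) ≠ 0 := by simpa using (hn.map (algebraMap R K)).ne_zero
  have hfin := B.finite
  have hsep : Algebra.IsSeparable K L := by
    have h1 : f'.Separable := by
      rw [hf', ← sub_neg_eq_add, ← map_neg]
      exact separable_X_pow_sub_C _ hnK (neg_ne_zero.mpr hG)
    have h2 : IsSeparable K B.gen := by rw [IsSeparable, hminK]; exact h1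
    have h3 := IntermediateField.isSeparable_adjoin_simple_iff_isSeparable K L (x := B.gen)
    have h4 : IntermediateField.adjoin K {B.gen} = ⊤ := by
      rw [← IntermediateField.toSubalgebra_inj,
        IntermediateField.adjoin_simple_toSubalgebra_of_isAlgebraic (Algebra.IsAlgebraic.isAlgebraic _),
        B.adjoin_gen_eq_top]
      rfl
    have h5 := h3.mpr h2
    rw [h4] at h5
    exact Algebra.IsSeparable.of_algHom K _ IntermediateField.topEquiv.symm.toAlgHom
  rw [isIntegrallyClosed_iff L]
  intro x hx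
  have : Algebra.IsIntegral R (AdjoinRoot f) := by
    have := hmon.finite_adjoinRoot
    infer_instance
  have hxR : IsIntegral R x := isIntegral_trans x hx
  have h1 := Algebra.discr_mul_isIntegral_mem_adjoin K hint hxR
  obtain ⟨u, hu'⟩ := hn
  have h2 : ∃ (v : Rˣ) (N : ℕ), Algebra.discr K B.basis = algebraMap R K (v * G ^ N) := by
    refine ⟨(-1) ^ (Module.finrank K L * (Module.finrank K L - 1) / 2) * u ^ Module.finrank K L *
      ((-1) ^ B.dim) ^ (n - 1), n - 1, ?_⟩
    rw [Algebra.discr_powerBasis_eq_norm, hminK.trans hf']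
    simp only [derivative_add, derivative_X_pow, derivative_C, add_zero, map_mul, aeval_C, map_pow,
      aeval_X, Algebra.norm_algebraMap, Algebra.PowerBasis.norm_gen_eq_coeff_zero_minpoly,
      hminK.trans hf', coeff_add, coeff_X_pow, if_neg hn0.symm, zero_add, coeff_C_zero, Units.val_mul,
      Units.val_pow_eq_pow_val, Units.val_neg, Units.val_one, hu', map_neg, map_one]
    rw [map_natCast (algebraMap R K)]
    ring
  obtain ⟨v, N, hv⟩ := h2
  rw [hv, algebraMap_smul] at h1
  have h4 := Subalgebra.smul_mem _ h1 (↑v⁻¹ : R)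
  rw [smul_smul, Units.inv_mul_cancel_left] at h4
  have h3 := mem_adjoin_of_smul_prime_pow_smul_of_minpoly_isEisensteinAt hpG hint hxR h4
    (hmin ▸ hE)
  rw [Algebra.adjoin_singleton_eq_range_aeval] at h3
  obtain ⟨g, rfl⟩ := h3
  refine ⟨AdjoinRoot.mk f g, ?_⟩
  change φ _ = aeval B.gen g
  rw [hφ, ← aeval_map_algebraMap K, hgen, AdjoinRoot.aeval_eq]

end cyclic

open MvPolynomial Sum

lemma normal_mvPolynomial (R : Type*) [CommRing R] [IsDomain R] [IsIntegrallyClosed R]
    (σ : Type) [Finite σ] : IsIntegrallyClosed (MvPolynomial σ R) := by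
  refine Finite.induction_empty_option (P := fun σ => IsIntegrallyClosed (MvPolynomial σ R))
    (fun e h => .of_equiv (renameEquiv R e).toRingEquiv)
    (.of_equiv (isEmptyRingEquiv R PEmpty).symm)
    (fun {α} _ h => .of_equiv (optionEquivLeft R α).symm.toRingEquiv) σ

variable {Y : Type} [Fintype Y] [DecidableEq Y] {q : ℕ}

lemma prime_fF {R σ : Type*} [CommRing R] [IsDomain R] [DecidableEq σ] (hq : (q : R) = 0) (s : R)
    (w : Y ⊕ Fin 2 → σ ⊕ Bool) (hw : ∀ a a' v, w a = inl v → w a' = inl v → a = a') {c i j : Y}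
    {c' i' j' : σ} (hc : w (inl c) = inl c') (hi : w (inl i) = inl i') (hj : w (inl j) = inl j')
    (hic : i ≠ c) (hjc : j ≠ c) (hij : i ≠ j) :
    Prime (fF q (C s) fun a => Sum.elim X (fun t => if t then 1 else 0) (w a) :
      MvPolynomial σ R) := by
  let L := FractionRing R
  have hRL : Function.Injective (algebraMap R L) := IsFractionRing.injective R L
  let w' (S : Type _) [CommRing S] (a : Y ⊕ Fin 2) : MvPolynomial σ S :=
    if a = inl c then 0 else Sum.elim X (fun t => if t then 1 else 0) (w a)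
  have hqP : (q : MvPolynomial σ L) = 0 := by
    rw [← map_natCast ((C : L →+* MvPolynomial σ L).comp (algebraMap R L)), hq, map_zero]
  have hd (l : Y) (l' : σ) (hl : w (inl l) = inl l') (hlc : l ≠ c) :
      pderiv l' (fF q (C (algebraMap R L s)) (w' L)) = X l' ^ q := by
    have h1 (a : Y ⊕ Fin 2) (ha : a ≠ inl l) : pderiv l' (w' L a) = 0 := by
      simp only [w']
      split_ifs
      · simp
      · rcases h : w a with v | t
        · exact pderiv_X_of_ne fun h' => ha (hw _ _ l' (h' ▸ h) hl)
        · cases t <;> simp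
    rw [der_fF hqP, h1 _ (by simp), Finset.sum_eq_single l]
    · simp [w', hl, hlc]
    · intro m _ hm
      rw [h1 _ (by simpa using hm), smul_zero]
    · simp
  obtain ⟨hsq, hu⟩ := squarefree_of_pderiv (i := i') (j := j')
    (fun h => hij (inl_injective (hw _ _ j' (h ▸ hi) hj))) (hd i i' hi hic) (hd j j' hj hjc)
  have h1 : Prime (Polynomial.X ^ (q + 1) + Polynomial.C (fF q (C s) (w' R))) := by
    refine prime_of_map_prime (map (algebraMap R L)) (map_injective _ hRL)
      (Polynomial.monic_X_pow_add_C _ (Nat.succ_ne_zero q)) ?_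
    convert prime_cyclic (Nat.succ_ne_zero q) hsq hu
    rw [Polynomial.map_add, Polynomial.map_pow, Polynomial.map_X, Polynomial.map_C, map_fF, map_C]
    congr 3
    ext a : 1
    simp only [w']
    split_ifs
    · simp
    · rcases w a with v | t
      · simp
      · cases t <;> simp
  let Θ : MvPolynomial σ R →ₐ[R] Polynomial (MvPolynomial σ R) :=
    aeval fun v => if v = c' then Polynomial.X else Polynomial.C (X v)
  have h2 (g) : (Θ g).eval (X c') = g := by
    have : (Polynomial.evalRingHom (X c')).comp Θ.toRingHom = RingHom.id _ := by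
      ext v : 1
      · ext r : 1; simp [Θ, Polynomial.algebraMap_apply]
      · by_cases h : v = c' <;> simp [Θ, h]
    exact congr($this g)
  have h3 : Θ (fF q (C s) fun a => Sum.elim X (fun t => if t then 1 else 0) (w a)) =
      Polynomial.X ^ (q + 1) + Polynomial.C (fF q (C s) (w' R)) := by
    rw [map_fF, map_fF, ← fF_update _ _ _ c (by simp [w'])]
    congr 1
    · simp [Θ, Polynomial.algebraMap_apply]
    · ext a : 1
      by_cases h : a = inl c
      · simp [h, hc, Θ]
      · rw [Function.update_of_ne h]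
        simp only [w', if_neg h]
        rcases h' : w a with v | t
        · have : v ≠ c' := fun e => h (hw _ _ c' (e ▸ h') hc)
          simp [Θ, this]
        · cases t <;> simp
  rw [← h3] at h1
  refine ⟨fun h => h1.ne_zero (by rw [h, map_zero]), fun h => h1.not_isUnit (h.map Θ),
    fun a b h => ?_⟩
  refine (h1.dvd_or_dvd (map_mul Θ a b ▸ map_dvd Θ h)).imp (fun h => ?_) fun h => ?_ <;>
    simpa only [h2] using Polynomial.eval_dvd (x := X c') h

/-- `W` is the coordinate ring over `R` of a product of fibres, some coordinates being set to one -/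
structure IsMod (q : ℕ) {R W : Type u} [CommRing R] [CommRing W] {I : Type} (ι : R →+* W) (s : R)
    (fx : I → Y ⊕ Fin 2 → Prop) (w : I → Y ⊕ Fin 2 → W) : Prop where
  inj : Function.Injective ι
  one : ∀ i a, fx i a → w i a = 1
  eq : ∀ i, fF q (ι s) (w i) = 0
  ne : ∀ i a, w i a ≠ 0
  gen : ∀ S : Subring W, (∀ r, ι r ∈ S) → (∀ i a, w i a ∈ S) → ∀ t, t ∈ S
  lift : ∀ (T : Type u) [CommRing T] (φ : R →+* T) (x : I → Y ⊕ Fin 2 → T),
    (∀ i a, fx i a → x i a = 1) → (∀ i, fF q (φ s) (x i) = 0) →
      ∃ ψ : W →+* T, (∀ r, ψ (ι r) = φ r) ∧ ∀ i a, ψ (w i a) = x i a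

theorem exists_one_mod (R : Type u) [CommRing R] [IsDomain R] [IsIntegrallyClosed R]
    (hq : (q : R) = 0) (hY : 5 ≤ Fintype.card Y) (hq0 : q ≠ 0) (s : R) (fx : Y ⊕ Fin 2 → Prop)
    (b : Y ⊕ Fin 2) (hb : ∀ a, fx a → a = b) :
    ∃ (W : Type u) (_ : CommRing W) (_ : IsDomain W) (_ : IsIntegrallyClosed W) (ι : R →+* W)
      (w : Y ⊕ Fin 2 → W), IsMod q ι s (fun _ : Unit => fx) fun _ => w := by
  classical
  obtain ⟨e, he⟩ : ∃ e : Fin 4 ↪ Y, ∀ t, ¬ fx (inl (e t)) := by
    have h2 : (Finset.univ.filter fun i : Y => ¬¬ fx (inl i)).card ≤ 1 :=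
      Finset.card_le_one.mpr fun i hi j hj => by
        simp only [not_not, Finset.mem_filter] at hi hj
        exact inl_injective ((hb _ hi.2).trans (hb _ hj.2).symm)
    have h3 := Finset.card_filter_add_card_filter_not (s := Finset.univ) fun i : Y => ¬ fx (inl i)
    rw [Finset.card_univ] at h3
    obtain ⟨e, he⟩ := Function.Embedding.exists_of_card_le_finset (α := Fin 4)
      (s := Finset.univ.filter fun i : Y => ¬ fx (inl i)) (by rw [Fintype.card_fin]; omega)
    exact ⟨e, fun t => by simpa using he ⟨t, rfl⟩⟩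
  set c := e 0
  have hc := he 0
  let G := fF q (C s) (w0 R c fx)
  have hfree (t : Fin 4) (ht : t ≠ 0) : (inl (e t) : Y ⊕ Fin 2) ≠ inl c ∧ ¬ fx (inl (e t)) :=
    ⟨fun h => ht (e.injective (inl_injective h)), he t⟩
  have hG : Prime G := by
    convert prime_fF hq s (σ := FreeIdx c fx) (fun a => if h : a ≠ inl c ∧ ¬ fx a then inl ⟨a, h⟩
      else inr (decide (a ≠ inl c))) (fun a a' v h h' => by
        split_ifs at h h'
        exact congr($((inl_injective h).trans (inl_injective h').symm).1))
      (dif_pos (hfree 1 (by decide))) (dif_pos (hfree 2 (by decide)))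
      (dif_pos (hfree 3 (by decide))) (e.injective.ne (by decide)) (e.injective.ne (by decide))
      (e.injective.ne (by decide)) using 1
    refine congrArg (fF q (C s)) (funext fun a => ?_)
    unfold w0
    split_ifs <;> simp [*]
  have hqP : (q : MvPolynomial (FreeIdx c fx) R) = 0 := by
    rw [← map_natCast (C : R →+* MvPolynomial (FreeIdx c fx) R), hq, map_zero]
  have := normal_mvPolynomial R (FreeIdx c fx)
  obtain ⟨hpr, hnor⟩ := normal_cyclic (n := q + 1) (by simp [hqP]) hG
  set f : Polynomial (MvPolynomial (FreeIdx c fx) R) := Polynomial.X ^ (q + 1) + Polynomial.C G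
  have hmon : f.Monic := Polynomial.monic_X_pow_add_C _ (Nat.succ_ne_zero q)
  have hf : fF q (Polynomial.C (C s)) (wP R c fx) = f := fF_wP c fx s
  have h1 : f.natDegree = q + 1 := Polynomial.natDegree_X_pow_add_C
  refine ⟨AdjoinRoot f, inferInstance, AdjoinRoot.isDomain_of_prime hpr, hnor,
    (AdjoinRoot.mk f).comp (Polynomial.C.comp C), fun a => AdjoinRoot.mk f (wP R c fx a),
    (injective_iff_map_eq_zero _).mpr fun r hr => ?_, fun _ a ha => ?_, fun _ => ?_, fun _ a => ?_,
    fun S hS hw g => ?_, fun T _ φ x hx hF => ?_⟩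
  · by_contra h0
    exact AdjoinRoot.mk_ne_zero_of_natDegree_lt hmon (by simpa using h0) (by simp [h1]) hr
  · have : a ≠ inl c := by rintro rfl; exact hc ha
    simp [wP, w0, ha, this]
  · rw [← AdjoinRoot.mk_self (f := f), ← hf, map_fF]
    rfl
  · by_cases h : a = inl c
    · subst h
      refine AdjoinRoot.mk_ne_zero_of_natDegree_lt hmon (by simp [wP]) ?_
      simp [wP, h1, Nat.pos_of_ne_zero hq0]
    · refine AdjoinRoot.mk_ne_zero_of_natDegree_lt hmon ?_ ?_
      · by_cases h' : fx a <;> simp [wP, w0, h, h']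
      · simp [wP, Function.update_of_ne h, h1]
  · have h2 (r : MvPolynomial (FreeIdx c fx) R) : AdjoinRoot.mk f (Polynomial.C r) ∈ S := by
      induction r using MvPolynomial.induction_on with
      | C a => exact hS a
      | add p r hp hr => rw [map_add, map_add]; exact add_mem hp hr
      | mul_X p a hp =>
        rw [map_mul, map_mul]
        exact mul_mem hp (by simpa [wP, w0, a.2] using hw () a.1)
    obtain ⟨g, rfl⟩ := AdjoinRoot.mk_surjective g
    induction g using Polynomial.induction_on' with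
    | add p r hp hr => rw [map_add]; exact add_mem hp hr
    | monomial m r =>
      rw [← Polynomial.C_mul_X_pow_eq_monomial, map_mul, map_pow]
      exact mul_mem (h2 r) (pow_mem (by simpa [wP] using hw () (inl c)) _)
  · let _ := φ.toAlgebra
    obtain ⟨ψ, hψ⟩ := exists_back (S := R) (c := c) (x ()) (hx ())
    have h2 : ψ f = 0 := by
      rw [← hf, map_fF, ← hF ()]
      simp only [hψ]
      congr 1
      exact ψ.commutes s
    refine ⟨Ideal.Quotient.lift _ ψ.toRingHom fun a ha => ?_, fun r => ψ.commutes r,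
      fun _ a => hψ a⟩
    obtain ⟨b, rfl⟩ := Ideal.mem_span_singleton.mp ha
    rw [map_mul]
    exact (congrArg (· * _) h2).trans (zero_mul _)

theorem exists_mod (R : Type u) [CommRing R] [IsDomain R] [IsIntegrallyClosed R]
    (hq : (q : R) = 0) (hY : 5 ≤ Fintype.card Y) (hq0 : q ≠ 0) (s : R) (I : Type) [Finite I]
    (fx : I → Y ⊕ Fin 2 → Prop) (hb : ∀ i, ∃ b, ∀ a, fx i a → a = b) :
    ∃ (W : Type u) (_ : CommRing W) (_ : IsDomain W) (_ : IsIntegrallyClosed W) (ι : R →+* W)
      (w : I → Y ⊕ Fin 2 → W), IsMod q ι s fx w := by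
  induction I using Finite.induction_empty_option with
  | of_equiv e ih =>
    obtain ⟨W, _, _, _, ι, w, H⟩ := ih (fun i => fx (e i)) fun i => hb (e i)
    refine ⟨W, _, ‹_›, ‹_›, ι, fun i => w (e.symm i), H.inj,
      fun i a h => H.one _ a (by simpa using h), fun i => H.eq _, fun i => H.ne _,
      fun S h1 h2 => H.gen S h1 fun i a => by simpa using h2 (e i) a, fun T _ φ x h1 h2 => ?_⟩
    obtain ⟨ψ, h3, h4⟩ := H.lift T φ (fun i => x (e i)) (fun i => h1 _) fun i => h2 _
    exact ⟨ψ, h3, fun i a => by simpa using h4 (e.symm i) a⟩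
  | h_empty =>
    exact ⟨R, _, ‹_›, ‹_›, RingHom.id R, fun i => i.elim, fun _ _ h => h, fun i => i.elim,
      fun i => i.elim, fun i => i.elim, fun S h _ => h,
      fun T _ φ _ _ _ => ⟨φ, fun _ => rfl, fun i => i.elim⟩⟩
  | h_option ih =>
    obtain ⟨W, _, _, _, ι, w, H⟩ := ih (fun i => fx (some i)) fun i => hb _
    obtain ⟨b, hb'⟩ := hb none
    obtain ⟨W', _, _, _, ι', w', H'⟩ := exists_one_mod W (by rw [← map_natCast ι, hq, map_zero])
      hY hq0 (ι s) (fx none) b hb'
    refine ⟨W', _, ‹_›, ‹_›, ι'.comp ι, fun i => i.elim w' fun i a => ι' (w i a),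
      H'.inj.comp H.inj, ?_, ?_, ?_, fun S h1 h2 => H'.gen S
        (H.gen (S.comap ι') h1 fun i => h2 (some i)) fun _ => h2 none, fun T _ φ x h1 h2 => ?_⟩
    · rintro (_ | i) a h
      · exact H'.one () a h
      · exact (congrArg ι' (H.one i a h)).trans (map_one _)
    · rintro (_ | i)
      · exact H'.eq ()
      · exact (map_fF ι' _ _).symm.trans ((congrArg ι' (H.eq i)).trans (map_zero _))
    · rintro (_ | i) a
      · exact H'.ne () a
      · exact (map_ne_zero_iff _ H'.inj).mpr (H.ne i a)
    · obtain ⟨ψ, h3, h4⟩ := H.lift T φ (fun i => x (some i)) (fun i => h1 _) fun i => h2 _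
      obtain ⟨ψ', h5, h6⟩ := H'.lift T ψ (fun _ => x none) (fun _ => h1 _)
        fun _ => h3 s ▸ h2 none
      refine ⟨ψ', fun r => (h5 _).trans (h3 r), ?_⟩
      rintro (_ | i) a
      · exact h6 () a
      · exact (h5 _).trans (h4 i a)

end Pool.Agent.Lib.MP_99f32e_ag
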