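import Pool.Agent.Lib.MP_99f32e_ag.MKer

open MvPolynomial Sum Matrix CategoryTheory

set_option linter.unusedSectionVars false

universe u

namespace Pool.Agent.Lib.MP_99f32e_ag

variable {Y I : Type} [Fintype Y] [DecidableEq Y] [Fintype I] [DecidableEq I] {q : ℕ}

theorem exists_base_field (k : Type u) [Field k] (D : ℕ) (hD : ((D + 3 : ℕ) : k) = 0) :
    ∃ (L : Type u) (_ : Field L) (_ : Algebra k L) (y : Fin 3 → L), (∀ i, y i ≠ 0) ∧ bΦ D y = 0 ∧
      (∀ j, Chart (bβ D y j) (bg k D j) (bT k D j)) ∧ ∀ j (f : L),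
        ∃ r s : MvPolynomial (Fin 3) k, f = aeval (bβ D y j) r / aeval (bβ D y j) s := by
  obtain ⟨R, _, _, _, ζ, hζ, hΦ, huniv⟩ := exists_base_model k D
  let L := FractionRing R
  let ψ := IsScalarTower.toAlgHom k R L
  have hψ : Function.Injective ψ := IsFractionRing.injective R L
  let z : Fin 3 → L := fun i => ψ (ζ i)
  have hz (i) : z i ≠ 0 := (map_ne_zero_iff ψ hψ).mpr (hζ i)
  have hzΦ : bΦ D z = 0 := by simpa [bΦ, z] using congrArg ψ hΦ
  have hch := chart_b huniv ψ hψ hD (z := z) (fun _ => rfl) hz hzΦ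
  let F (j) := IntermediateField.adjoin k (Set.range (bβ D z j))
  have hF (j i) : bβ D z j i ∈ F j := IntermediateField.subset_adjoin _ _ ⟨i, rfl⟩
  have h0 := hz 0
  have h1 := hz 1
  have hy (i) : z i / z 0 ∈ F 0 := by
    fin_cases i
    · exact div_self h0 ▸ one_mem _
    · exact hF 0 0
    · exact hF 0 1
  let y : Fin 3 → F 0 := fun i => ⟨_, hy i⟩
  have e (i j) : (y i : L) / y j = z i / z j := div_div_div_cancel_right₀ h0 _ _
  have eβ (j i) : (F 0).val (bβ D y j i) = bβ D z j i := by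
    fin_cases j <;> fin_cases i <;> simp [bβ, e]
  have he (j) (f : MvPolynomial (Fin 3) k) :
      (F 0).val (aeval (bβ D y j) f) = aeval (bβ D z j) f := by
    rw [comp_aeval_apply, funext (eβ j)]
  refine ⟨F 0, inferInstance, inferInstance, y, fun i h => div_ne_zero (hz i) h0 congr($h.1),
    Subtype.ext ?_, fun j => (chart_iff (F 0).val.toRingHom (he j)).mp (hch j), fun j f => ?_⟩
  · simpa [bΦ, y] using bΦ_div hzΦ (z 0)
  · have h2 : F 0 ≤ F j := by
      fin_cases j
      · exact le_rfl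
      · have h3 : z 1 / z 0 ∈ F 1 := inv_div (z 0) (z 1) ▸ inv_mem (hF 1 1)
        rw [IntermediateField.adjoin_le_iff]
        rintro _ ⟨i, rfl⟩
        fin_cases i
        · exact h3
        · change z 2 / z 0 ∈ F 1
          rw [← div_mul_div_cancel₀ h1]
          exact mul_mem (hF 1 0) h3
        · exact h3
    obtain ⟨r, s, h⟩ := (IntermediateField.mem_adjoin_range_iff _ _ _).mp (h2 f.2)
    exact ⟨r, s, Subtype.ext (h.trans (by rw [← he, ← he, ← map_div₀]; rfl))⟩

variable {k K : Type u} [Field k] [Field K] [Algebra k K] {D : ℕ}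

theorem setup_of_gen' {L : Type u} [Field L] [Algebra k L] [Algebra L K] [IsScalarTower k L K]
    {y : Fin 3 → L} (hy0 : ∀ i, y i ≠ 0) (hyΦ : bΦ D y = 0)
    (hch : ∀ j, Chart (bβ D y j) (bg k D j) (bT k D j)) (p : ℕ) [Fact p.Prime] [CharP k p] (n : ℕ)
    (hq : q = p ^ (n + 1)) (hD : q * (q + 1) = D + 3) (hD0 : D ≠ 0) (c : Y) {w : Y ⊕ Fin 2 → K}
    (H : Gen q (bβ D y 0 2) w) (hw : ∀ a, w a ≠ 0)
    (hF : fF q (algebraMap L K (bβ D y 0 2)) w = 0) :
    Setup q (fun i => algebraMap L K (y i)) (fun j i => algebraMap L K (bβ D y j i)) (bg k D)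
      (bT k D) (fun j a => algebraMap L K (bm q D y j) *
        tw q (algebraMap L K (bl y j)) (algebraMap L K (br q y j)) w a)
      (fun j => algebraMap L K (bl y j)) fun j => algebraMap L K (br q y j) := by
  have hp : p.Prime := Fact.out
  have hq0 : q ≠ 0 := hq ▸ pow_ne_zero _ hp.ne_zero
  have hfr (A : Type u) [CommRing A] [Nontrivial A] [Algebra k A] (a b : A) :
      (a + b) ^ q = a ^ q + b ^ q := by
    have : CharP A p := charP_of_injective_algebraMap (algebraMap k A).injective p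
    rw [hq, add_pow_char_pow]
  set z : Fin 3 → K := fun i => algebraMap L K (y i)
  have hz0 (i) : z i ≠ 0 := (map_ne_zero _).mpr (hy0 i)
  have hzΦ : bΦ D z = 0 := by simpa [bΦ, z] using congrArg (algebraMap L K) hyΦ
  have eβ (j) : (fun i => algebraMap L K (bβ D y j i)) = bβ D z j := by
    ext i; fin_cases j <;> fin_cases i <;> simp [bβ, z]
  have el (j) : algebraMap L K (bl y j) = bl z j := by fin_cases j <;> simp [bl, z]
  have er (j) : algebraMap L K (br q y j) = br q z j := by fin_cases j <;> simp [br, z]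
  have em (j) : algebraMap L K (bm q D y j) = bm q D z j := by fin_cases j <;> simp [bm, z]
  have hl0 (j) : bl y j ≠ 0 := by fin_cases j <;> simp [bl, hy0]
  have hm0 (j) : bm q D y j ≠ 0 := by fin_cases j <;> simp [bm, hy0]
  have hl1 (j) : bl z j ≠ 0 := el j ▸ (map_ne_zero _).mpr (hl0 j)
  have hm1 (j) : bm q D z j ≠ 0 := em j ▸ (map_ne_zero _).mpr (hm0 j)
  have hch' (j) : Chart (bβ D z j) (bg k D j) (bT k D j) :=
    (chart_iff (algebraMap L K) fun f => by
      rw [← eβ]; exact comp_aeval_apply _ (IsScalarTower.toAlgHom k L K) f).mpr (hch j)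
  rw [show (fun j i => algebraMap L K (bβ D y j i)) = bβ D z from funext eβ]
  simp only [el, er, em]
  refine ⟨hch', fun j => ?_, hz0,
    adj_b hz0, rel_b hz0 hzΦ, trans_b hz0 hzΦ w, fun j => ?_, hl1, fun j => ?_,
    s_eq_b hz0 hzΦ hq0 hD, fun j => ⟨bm q D z j, fun a => ?_⟩, nu_b hz0 hzΦ hD0 (hch' 1)⟩
  · have H' := H.twist (hfr _) (s_eq_b hy0 hyΦ hq0 hD j) (hl0 j) (hm0 j)
    rw [el, er, em] at H'
    rw [← eβ]
    refine H'.cone c ?_ fun a => ?_
    · rw [fF_mul, fF_tw (hfr K) (s₀ := algebraMap L K (bβ D y 0 2)), hF, mul_zero, mul_zero]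
      rw [s_eq_b hy0 hyΦ hq0 hD j, map_add, map_mul, map_pow, map_pow, el, er]
    · rcases a with a | a
      · exact mul_ne_zero (hm1 j) (mul_ne_zero (hl1 j) (hw _))
      · fin_cases a
        · exact H'.ne
        · exact mul_ne_zero (hm1 j) (mul_ne_zero (pow_ne_zero _ (hl1 j)) (hw _))
  · fin_cases j
    · exact one_mem _
    · have hu : z 2 / z 1 ∈ Rg k (bβ D z 1) := mem_Rg (bβ D z 1) 0
      change bl z 1 ∈ Rg k (bβ D z 1)
      rw [bl_eq hz0 hzΦ]
      exact mul_mem (pow_mem hu _) (inv_eps_mem hz0 hzΦ hu (mem_Rg (bβ D z 1) 1))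
  · fin_cases j
    · simp [br]
    · exact ⟨X 0 ^ (q + 1), by simp [bβ, br, ← inv_pow]⟩
  · congr 2
    ext b
    rcases b with b | b
    · simp [bm, bl, tw]
    · fin_cases b <;> simp [bm, bl, br, tw]

/-- the data of the fibre product -/
structure MSetup (q : ℕ) (z : Fin 3 → K) (β : Fin 2 → Fin 3 → K)
    (g T : Fin 2 → MvPolynomial (Fin 3) k) (x : Fin 2 → I → Y ⊕ Fin 2 → K) (l r : Fin 2 → K) :
    Prop where
  one (i) : Setup q z β g T (fun j => x j i) l r
  mod (j b) : IsChart k q (β j) (x j) b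

theorem exists_msetup (p : ℕ) [Fact p.Prime] (k : Type u) [Field k] [CharP k p] (n : ℕ)
    (hq : q = p ^ (n + 1)) (hY : 5 ≤ Fintype.card Y) :
    ∃ (K : Type u) (_ : Field K) (_ : Algebra k K) (z : Fin 3 → K) (β : Fin 2 → Fin 3 → K)
      (g T : Fin 2 → MvPolynomial (Fin 3) k) (x : Fin 2 → I → Y ⊕ Fin 2 → K) (l r : Fin 2 → K),
      MSetup q z β g T x l r := by
  have hp : p.Prime := Fact.out
  have hq2 : 2 ≤ q := hq ▸ hp.two_le.trans (Nat.le_self_pow (by omega) p)
  obtain ⟨D, hD⟩ : ∃ D, q * (q + 1) = D + 1 + 3 := ⟨q * (q + 1) - 4, by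
    have : 2 * 2 ≤ q * (q + 1) := Nat.mul_le_mul hq2 (by omega)
    omega⟩
  obtain ⟨L, _, _, y, hy0, hyΦ, hch, hfr⟩ := exists_base_field k (D + 1) (by rw [← hD, hq]; simp)
  obtain ⟨W, _, _, -, ι, w, H⟩ := exists_mod (q := q) L
    (by rw [← map_natCast (algebraMap k L) q, hq]; simp) hY (by omega) (bβ (D + 1) y 0 2) I
    (fun _ _ => False) fun _ => ⟨inr 0, fun _ => False.elim⟩
  let K := FractionRing W
  have hinj := IsFractionRing.injective W K
  let _ : Algebra L K := ((algebraMap W K).comp ι).toAlgebra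
  let _ : Algebra k K := ((algebraMap L K).comp (algebraMap k L)).toAlgebra
  have : IsScalarTower k L K := .of_algebraMap_eq' rfl
  obtain ⟨c⟩ : Nonempty Y := Fintype.card_pos_iff.mp (by omega)
  have H1 (i) := setup_of_gen' (K := K) hy0 hyΦ hch p n hq hD (by omega) c
    (w := fun a => algebraMap W K (w i a)) (fun f hf => by
      let π := Ideal.Quotient.mk (Ideal.span
        {(fF q (C (bβ (D + 1) y 0 2)) X : MvPolynomial (Y ⊕ Fin 2) L)})
      obtain ⟨θ, h1, h2⟩ := H.lift _ (π.comp C) (fun _ a => π (X a)) (fun _ _ => False.elim)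
        fun _ => (map_fF π _ _).symm.trans
          (Ideal.Quotient.eq_zero_iff_mem.mpr (Ideal.subset_span rfl))
      have h3 : eval₂Hom ι (w i) f = 0 := hinj (by
        rw [map_zero, ← hf, map_eval₂Hom]; rfl)
      have h4 : θ.comp (eval₂Hom ι (w i)) = π := by ext a : 1 <;> simp [h1, h2, RingHom.ext_iff]
      rw [← Ideal.mem_span_singleton, ← Ideal.Quotient.eq_zero_iff_mem]
      exact congr($h4 f).symm.trans ((congrArg θ h3).trans (map_zero _)))
    (fun a => (map_ne_zero_iff _ hinj).mpr (H.ne i a))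
    ((map_fF (algebraMap W K) _ _).symm.trans ((congrArg _ (H.eq i)).trans (map_zero _)))
  refine ⟨K, _, _, _, _, _, _, _, _, _, H1, fun j b => isChart_of_isMod (hch j) (hfr j) p n hq hY H
    (algebraMap W K) hinj (fun _ => rfl) (s_eq_b hy0 hyΦ (by omega) hD j) ?_ (m := bm q (D + 1) y j)
    ?_ (fun i a => ?_) (fun i => ((H1 i).cone j).ne) b⟩
  · fin_cases j <;> simp [bl, hy0]
  · fin_cases j <;> simp [bm, hy0]
  · rw [map_mul, map_tw]; rfl

end Pool.Agent.Lib.MP_99f32e_ag
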