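import Pool.Agent.Lib.MP_99f32e_ag.Defs

open AlgebraicGeometry CategoryTheory WithZero

universe u

namespace Pool.Agent.Lib.MP_99f32e_ag

/-- `X` is normal, a multiple `m K` of the canonical divisor is locally principal, and every
discrete valuation of the function field with a centre on `X` has discrepancy `> -1`. -/
def IsKlt {k : Type u} [Field k] {X : Scheme.{u}} [IsIntegral X] [IsLocallyNoetherian X]
    (π : X ⟶ Spec (.of k)) : Prop :=
  (∀ x : X, IsIntegrallyClosed (X.presheaf.stalk x)) ∧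
  ∃ (n : ℕ) (J : (Fin n → X.functionField) → X.functionField) (m : ℕ),
    IsTopFormCoeff ((Scheme.ΓSpecIso (.of k)).inv ≫ π.appTop ≫
      X.presheaf.germ ⊤ (genericPoint X) trivial).hom J ∧ 0 < m ∧
    ∀ x : X, ∃ f : X.functionField, f ≠ 0 ∧
      (∀ y : X, y ⤳ x → IsLeast {r : ℤ | ∃ (a : Fin n → X.presheaf.stalk y) (g : X.functionField),
        g = J (fun i => algebraMap _ _ (a i)) ∧ g ≠ 0 ∧ r = m * X.ord g y} (-X.ord f y)) ∧
      ∀ v : Valuation X.functionField ℤᵐ⁰, Function.Surjective v →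
        (∀ o : X.presheaf.stalk x, v (algebraMap _ _ o) ≤ 1) →
        ∃ a : Fin n → X.functionField, (∀ i, v (a i) ≤ 1) ∧ exp (-m : ℤ) < v (J a ^ m * f)

end Pool.Agent.Lib.MP_99f32e_ag
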