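import Pool.Agent.Lib.MP_99f32e_ag.MCanon

open AlgebraicGeometry CategoryTheory MvPolynomial

set_option linter.unusedSectionVars false

universe u

namespace Pool.Agent.Lib.MP_99f32e_ag

section curve

variable {k K : Type u} [Field k] [Field K] [Algebra k K]

lemma Chart.stdSmooth {β : Fin 3 → K} {g T : MvPolynomial (Fin 3) k} (H : Chart β g T) :
    Algebra.IsStandardSmoothOfRelativeDimension 1 k (Rg k β) := by
  let P := Algebra.PreSubmersivePresentation.naive (v := gB g T) Fin.castSucc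
    (Fin.castSucc_injective _)
  have hker : Ideal.span (Set.range (gB g T)) = RingHom.ker (aeval β).rangeRestrict := by
    apply le_antisymm
    · rw [Ideal.span_le]
      rintro _ ⟨l, rfl⟩
      exact Subtype.ext (H.aeval_gB l)
    · exact fun f hf => H.ker f congr(($hf).1)
  let e := (Ideal.quotientEquivAlgOfEq k hker).trans
    (Ideal.quotientKerAlgEquivOfSurjective (aeval β).rangeRestrict_surjective)
  have hu : IsUnit P.jacobian := by
    obtain ⟨δ, hδ⟩ := H.unit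
    have h1 : P.jacobiMatrix.det = -jac g T := by
      rw [Matrix.det_fin_two]
      simp only [P, Algebra.PreSubmersivePresentation.jacobiMatrix_naive]
      simp [gB, jac]
      ring
    rw [P.jacobian_eq_jacobiMatrix_det, h1]
    refine IsUnit.of_mul_eq_one (Ideal.Quotient.mk _ (-δ)) ?_
    change Ideal.Quotient.mk _ _ * _ = _
    rw [← map_mul, ← map_one (Ideal.Quotient.mk _), Ideal.Quotient.eq]
    exact H.ker _ (by simp [mul_comm, hδ])
  have := Algebra.SubmersivePresentation.isStandardSmoothOfRelativeDimension (n := 1) ⟨P, hu⟩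
    (by simp [Algebra.Presentation.dimension])
  exact .of_algEquiv 1 e

lemma Model.smoothDim {J : Type} {A : J → Subalgebra k K} (M : Model k K J A) (n : ℕ)
    (hA : ∀ j, Algebra.IsStandardSmoothOfRelativeDimension n k (A j)) :
    SmoothOfRelativeDimension n M.π := by
  refine ⟨fun x => ?_⟩
  obtain ⟨j, hj⟩ := M.cov x
  refine ⟨⊤, isAffineOpen_top _, M.U j, M.aff j, hj, le_top, ?_⟩
  have h1 : (M.π.appLE ⊤ (M.U j) le_top).hom =
      ((M.chartEquiv j).symm.toRingHom.comp (algebraMap k (A j))).comp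
        (Scheme.ΓSpecIso (.of k)).commRingCatIsoToRingEquiv.toRingHom := by
    ext c
    obtain ⟨c, rfl⟩ := (Scheme.ΓSpecIso (.of k)).commRingCatIsoToRingEquiv.symm.surjective c
    apply (M.chartEquiv j).injective
    apply Subtype.ext
    simp only [RingEquiv.toRingHom_eq_coe, RingHom.coe_comp, RingHom.coe_coe, Function.comp_apply,
      RingEquiv.apply_symm_apply]
    exact congr($(M.evalAt_const (M.U j) (M.mem j)) c)
  rw [h1]
  refine RingHom.isStandardSmoothOfRelativeDimension_respectsIso.2 _ _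
    (RingHom.isStandardSmoothOfRelativeDimension_respectsIso.1 _ _ ?_)
  exact (RingHom.isStandardSmoothOfRelativeDimension_algebraMap n).mpr (hA j)

end curve

section final

variable {X Z : Scheme.{u}} [IsIntegral X] [IsIntegral Z] [IsLocallyNoetherian X]
  [IsLocallyNoetherian Z] (h : X ⟶ Z) [IsDominant h]
  {I : Type*} (V : I → Z.Opens) (hV : ∀ y, ∃ a, y ∈ V a) (l : I → Z.functionField)
  (hl0 : ∀ a, l a ≠ 0) (α γ : ℕ) (hγ : 0 < γ) (KX : X → ℚ) (KZ : Z → ℚ) (PX : X.functionField)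
  (hPX : PX ≠ 0) (PZ : Z.functionField) (hPZ : PZ ≠ 0)
  (hKX : ∀ a x, h x ∈ V a → KX x = -X.ord PX x + α * X.ord (pullFun h (l a)) x)
  (hKZ : ∀ a, ∀ y ∈ V a, KZ y = -Z.ord PZ y + γ * Z.ord (l a) y)

include hV hl0 hγ hPX hPZ hKX hKZ in
theorem pullback_tau : ∃ E, IsPullbackDiv h (((α : ℚ) / γ) • KZ) E ∧ QLinEq KX E := by
  have hc : (γ : ℚ) ≠ 0 := by exact_mod_cast hγ.ne'
  have hne {f : Z.functionField} (hf : f ≠ 0) : pullFun h f ≠ 0 :=
    (map_ne_zero (pullFun h).hom).mpr hf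
  refine ⟨fun x => KX x + X.ord PX x - α / γ * X.ord (pullFun h PZ) x, ⟨γ, hγ, fun y => ?_⟩, γ,
    pullFun h PZ ^ α * (PX ^ γ)⁻¹, hγ,
    mul_ne_zero (pow_ne_zero _ (hne hPZ)) (inv_ne_zero (pow_ne_zero _ hPX)), fun x => ?_⟩
  · obtain ⟨a, ha⟩ := hV y
    have h1 : l a ^ (α * γ) ≠ 0 := pow_ne_zero _ (hl0 a)
    have h2 : PZ ^ α ≠ 0 := pow_ne_zero _ hPZ
    refine ⟨V a, l a ^ (α * γ) * (PZ ^ α)⁻¹, ha, mul_ne_zero h1 (inv_ne_zero h2), fun y hy => ?_,
      fun x hx => ?_⟩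
    · rw [Pi.smul_apply, smul_eq_mul, hKZ a y hy, Scheme.ord_mul h1 (inv_ne_zero h2), ord_inv' h2,
        ord_pow' (hl0 a), ord_pow' hPZ]
      push_cast
      field_simp
      ring
    · dsimp only
      rw [hKX a x hx, map_mul, map_inv₀, Scheme.ord_mul (hne h1) (inv_ne_zero (hne h2)),
        ord_inv' (hne h2), map_pow, map_pow, ord_pow' (hne (hl0 a)), ord_pow' (hne hPZ)]
      push_cast
      field_simp
      ring
  · rw [Scheme.ord_mul (pow_ne_zero _ (hne hPZ)) (inv_ne_zero (pow_ne_zero _ hPX)),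
      ord_inv' (pow_ne_zero _ hPX), ord_pow' hPX, ord_pow' (hne hPZ)]
    push_cast
    field_simp
    ring

include hV hl0 hγ hPX hPZ hKX hKZ in
theorem not_effective_tau (hnX : ∀ x : X, IsIntegrallyClosed (X.presheaf.stalk x))
    (hnZ : ∀ y : Z, IsIntegrallyClosed (Z.presheaf.stalk y)) (hF : IsField Γ(X, ⊤))
    (hl : ∀ a, ∀ y ∈ V a, l a ∈ (algebraMap (Z.presheaf.stalk y) Z.functionField).range) (a₀ : I)
    (hnu : ¬ ∀ x, h x ∈ V a₀ →
      (pullFun h (l a₀))⁻¹ ∈ (algebraMap (X.presheaf.stalk x) X.functionField).range)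
    {t : ℚ} (ht : (α : ℚ) / γ < t) :
    ¬ ∃ Δ E, 0 ≤ Δ ∧ IsPullbackDiv h (t • KZ + Δ) E ∧ QLinEq KX E := by
  rintro ⟨Δ, E, hΔ, ⟨m, hm, H⟩, m', g, hm', hg, hE⟩
  have hc : (0 : ℚ) < γ := by exact_mod_cast hγ
  obtain ⟨u, N, hN, hu⟩ : ∃ u N : ℕ, 0 < N ∧ N * t = u := by
    have h0 : 0 ≤ t.num := Rat.num_nonneg.mpr ((by positivity : (0 : ℚ) ≤ α / γ).trans ht.le)
    refine ⟨t.num.toNat, t.den, t.den_pos, ?_⟩
    rw [Rat.den_mul_eq_num, ← Int.cast_natCast, Int.toNat_of_nonneg h0]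
  have hN' : (0 : ℚ) < N := by exact_mod_cast hN
  have hpos' : (0 : ℚ) < γ * u - N * α := by
    rw [div_lt_iff₀ hc] at ht
    rw [← hu]
    nlinarith
  have hne {f : Z.functionField} (hf : f ≠ 0) : pullFun h f ≠ 0 :=
    (map_ne_zero (pullFun h).hom).mpr hf
  set Ψ := pullFun h PZ ^ (u * m * m') * (g ^ (m * N) * PX ^ (N * m * m'))⁻¹ with hΨ
  have h1 : g ^ (m * N) * PX ^ (N * m * m') ≠ 0 :=
    mul_ne_zero (pow_ne_zero _ hg) (pow_ne_zero _ hPX)
  have hΨ0 : Ψ ≠ 0 := mul_ne_zero (pow_ne_zero _ (hne hPZ)) (inv_ne_zero h1)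
  have key (a : I) (x : X) (hx : h x ∈ V a) :
      (m * m' * (γ * u - N * α) : ℚ) * X.ord (pullFun h (l a)) x ≤ X.ord Ψ x := by
    obtain ⟨U, f, hU, hf, hf1, hf2⟩ := H (h x)
    have h2 : l a ^ (γ * u * m) ≠ 0 := pow_ne_zero _ (hl0 a)
    have h3 : f ^ N * PZ ^ (u * m) ≠ 0 := mul_ne_zero (pow_ne_zero _ hf) (pow_ne_zero _ hPZ)
    have h4 := hartogs hnZ (h x) (f ^ N * PZ ^ (u * m) * (l a ^ (γ * u * m))⁻¹) fun y hy => by
      have e1 := hf1 y (hy.mem_open U.isOpen hU)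
      have e2 := hKZ a y (hy.mem_open (V a).isOpen hx)
      have e3 : (0 : ℚ) ≤ N * (m * Δ y) := mul_nonneg hN'.le (mul_nonneg (Nat.cast_nonneg _) (hΔ y))
      rw [Scheme.ord_mul h3 (inv_ne_zero h2), Scheme.ord_mul (pow_ne_zero _ hf) (pow_ne_zero _ hPZ),
        ord_inv' h2, ord_pow' hPZ, ord_pow' hf, ord_pow' (hl0 a)]
      rw [Pi.add_apply, Pi.smul_apply, smul_eq_mul, e2] at e1
      qify
      rw [← e1, ← hu]
      linarith
    have h5 := ord_nonneg_of_mem (pullFun_mem_stalk h h4)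
    rw [map_mul, map_inv₀, Scheme.ord_mul (hne h3) (inv_ne_zero (hne h2)), map_mul,
      Scheme.ord_mul (hne (pow_ne_zero _ hf)) (hne (pow_ne_zero _ hPZ)), ord_inv' (hne h2), map_pow,
      map_pow, map_pow, ord_pow' (hne hf), ord_pow' (hne hPZ), ord_pow' (hne (hl0 a))] at h5
    rw [hΨ, Scheme.ord_mul (pow_ne_zero _ (hne hPZ)) (inv_ne_zero h1), ord_inv' h1,
      Scheme.ord_mul (pow_ne_zero _ hg) (pow_ne_zero _ hPX), ord_pow' hg, ord_pow' hPX,
      ord_pow' (hne hPZ)]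
    have e1 := hE x
    have e2 := hf2 x hU
    rw [hKX a x hx] at e1
    qify at h5 ⊢
    have e3 := mul_nonneg (Nat.cast_nonneg (α := ℚ) m') h5
    rw [← e1]
    rw [← e2] at e3
    linarith
  have hmm : (0 : ℚ) < m * m' * (γ * u - N * α) :=
    mul_pos (by exact_mod_cast Nat.mul_pos hm hm') hpos'
  have hpos (a : I) (x : X) (hx : h x ∈ V a) : 0 ≤ X.ord (pullFun h (l a)) x :=
    ord_nonneg_of_mem (pullFun_mem_stalk h (hl a _ hx))
  have h0 := ord_eq_zero_of_nonneg hnX hF hΨ0 fun x => by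
    obtain ⟨a, ha⟩ := hV (h x)
    exact_mod_cast (mul_nonneg hmm.le (Int.cast_nonneg (hpos a x ha))).trans (key a x ha)
  refine hnu fun x hx => hartogs hnX x _ fun y hy => ?_
  have := key a₀ y ((hy.map h.continuous).mem_open (V a₀).isOpen hx)
  rw [h0, Int.cast_zero] at this
  rw [ord_inv' (hne (hl0 a₀)), neg_nonneg]
  exact_mod_cast nonpos_of_mul_nonpos_right this hmm

end final

end Pool.Agent.Lib.MP_99f32e_ag
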