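import Pool.Agent.Lib.MP_99f32e_ag.MJac

open MvPolynomial Sum Matrix WithZero

set_option linter.unusedSectionVars false

universe u

namespace Pool.Agent.Lib.MP_99f32e_ag

variable {Y I : Type} [Fintype Y] [DecidableEq Y] [Fintype I] [DecidableEq I] {q : ℕ}
  {k K : Type u} [Field k] [Field K] [Algebra k K] {β : Fin 3 → K} {g T : MvPolynomial (Fin 3) k}
  {v : Valuation K ℤᵐ⁰}

lemma exists_dF_unit (hq0 : q ≠ 0) {s : K} {w : Y ⊕ Fin 2 → K} {b : Y ⊕ Fin 2} (hb : w b = 1)
    (hF : fF q s w = 0) (hs : v s ≤ 1) (hw : ∀ a, v (w a) ≤ 1)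
    (hz : b = inr 1 ∨ v (w (inr 1)) < 1) (h : ¬ (b = inr 1 ∧ ∀ c, v (w (inl c)) < 1)) :
    ∃ c ≠ b, 1 ≤ v (dF q s w c) := by
  by_contra! h1
  rcases b with c | c
  · have h2 := (sum_mul_dF s w).trans hF
    rw [← Finset.add_sum_erase _ _ (Finset.mem_univ (inl c)), add_eq_zero_iff_eq_neg] at h2
    have h3 := v.map_sum_lt (s := Finset.univ.erase (inl c)) (f := fun a => w a * dF q s w a)
      one_ne_zero fun a ha => (map_mul v _ _).trans_lt ((mul_le_of_le_one_left' (hw a)).trans_lt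
        (h1 a (Finset.ne_of_mem_erase ha)))
    rw [← v.map_neg, ← h2] at h3
    simp [dF, hb] at h3
  · fin_cases c
    · have h2 : v (-(w (inr 0) ^ q + s * w (inr 1) ^ q)) < 1 := h1 (inr 1) (by simp)
      have h3 : w (inr 0) = 1 := hb
      rw [v.map_neg, h3, one_pow, v.map_one_add_of_lt] at h2
      · exact h2.false
      · rw [map_mul, map_pow]
        exact (mul_le_of_le_one_left' hs).trans_lt
          (pow_lt_one₀ zero_le (hz.resolve_left (by simp)) hq0)
    · refine h ⟨rfl, fun c => lt_of_pow_lt_pow_left₀ q zero_le ?_⟩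
      simpa [dF] using h1 (inl c) (by simp)

lemma sub_pow_le (hfr : ∀ a b : K, (a - b) ^ q = a ^ q - b ^ q) {s : K} {w w' : Y ⊕ Fin 2 → K}
    (hF : fF q s w = 0) (hF' : fF q s w' = 0) (hz : w (inr 1) = 1) (hz' : w' (inr 1) = 1)
    {ρ : ℤᵐ⁰} (h : ∀ c, v (w (inl c)) ≤ ρ) (h' : ∀ c, v (w' (inl c)) ≤ ρ) :
    v (w (inr 0) - w' (inr 0)) ^ q ≤ ρ ^ (q + 1) := by
  simp only [fF, hz, hz'] at hF hF'
  rw [← map_pow, hfr, show w (inr 0) ^ q - w' (inr 0) ^ q =
    ∑ j, w (inl j) ^ (q + 1) - ∑ j, w' (inl j) ^ (q + 1) by linear_combination hF' - hF]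
  exact v.map_sub_le
    (v.map_sum_le fun c _ => (map_pow v _ _).trans_le (pow_le_pow_left₀ zero_le (h c) _))
    (v.map_sum_le fun c _ => (map_pow v _ _).trans_le (pow_le_pow_left₀ zero_le (h' c) _))

variable {N : ℕ} (bas : Module.Basis (Fin N) K (KaehlerDifferential k K))
  (e : Fin N ⊕ (Fin 2 ⊕ Fin 2 × I) ≃ Fin 3 ⊕ (Y ⊕ Fin 2) × I)

theorem estimate (H : Chart β g T) (hq : (q : k) = 0) (hY : Fintype.card Y + 1 = q) [Nonempty Y]
    (hI : Fintype.card I ≤ q) (hfr : ∀ a b : K, (a - b) ^ q = a ^ q - b ^ q)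
    (w : I → Y ⊕ Fin 2 → K) (b : I → Y ⊕ Fin 2) (hb : ∀ i, w i (b i) = 1)
    (hF : ∀ i, fF q (β 2) (w i) = 0) (hy0 : ∀ i c, w i (inl c) ≠ 0) {π : K} (hπ : v π = exp (-1))
    (hβ : ∀ f : MvPolynomial (Fin 3) k, v (aeval β f) ≤ 1) (hw : ∀ i a, v (w i a) ≤ 1)
    (hz : ∀ i, b i = inr 1 ∨ v (w i (inr 1)) < 1) {η : K} (hη0 : η ≠ 0)
    (hη : ∀ R, ((fromRows (coordMat bas (Sum.elim β fun v => w v.2 v.1)) R).submatrix id e).det =
        η * (R * (gradMat (Sum.elim β fun v => w v.2 v.1) (gM q g T b))ᵀ).det) :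
    η ∈ topLat bas v := by
  classical
  have hq0 : q ≠ 0 := by omega
  have hqK : (q : K) = 0 := by rw [← map_natCast (algebraMap k K), hq, map_zero]
  have hβ' (i) : v (β i) ≤ 1 := by simpa using hβ (X i)
  have hj : 1 ≤ v (aeval β (jac g T)) := by
    obtain ⟨δ, hδ⟩ := H.unit
    rw [← map_one v, ← hδ, map_mul]
    exact mul_le_of_le_one_left' (hβ δ)
  let ω : Fin 3 ⊕ (Y ⊕ Fin 2) × I → KaehlerDifferential k K :=
    fun u => KaehlerDifferential.D k K (Sum.elim β (fun v => w v.2 v.1) u)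
  have key (c : I → Y ⊕ Fin 2) (hc : ∀ i, c i ≠ b i) (t : I → Y ⊕ Fin 2 → K) :
      v η * ∏ i, v (t i (b i)) * (v (t i (c i)) * v (dF q (β 2) (w i) (c i))) ≤ v (dd bas e ω
        (RM fun i => ![Pi.single (b i) (t i (b i)), Pi.single (c i) (t i (c i))])) := by
    refine le_trans ?_ (congrArg v (hη _)).ge
    rw [det_RM H hq]
    simp only [cons_val_zero, cons_val_one, single_dotProduct, Pi.single_eq_same,
      Pi.single_eq_of_ne' (hc _), mul_zero, sub_zero, map_mul, map_prod, v.map_neg]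
    exact mul_le_mul_right (le_mul_of_one_le_left' hj) _
  have hR (c : I → Y ⊕ Fin 2) (t : I → Y ⊕ Fin 2 → K) (t₀ : K) (l u) :
      v ((Sum.elim ![1, 1, t₀] (fun u : (Y ⊕ Fin 2) × I => t u.2 u.1) u)⁻¹ *
        (RM fun i => ![Pi.single (b i) (t i (b i)), Pi.single (c i) (t i (c i))]) l u) ≤ 1 := by
    have h1 (s : K) : v (s⁻¹ * s) ≤ 1 := by by_cases h : s = 0 <;> simp [h]
    rcases l with l | ⟨l, i⟩ <;> rcases u with u | ⟨a, i'⟩
    · fin_cases l <;> fin_cases u <;> simp [RM]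
    · simp [RM]
    · simp [RM]
    · simp only [RM, elim_inr, fromBlocks_apply₂₂, blockDiagonal_apply', of_apply]
      split_ifs with h
      · subst h
        fin_cases l <;> simp only [Fin.zero_eta, Fin.mk_one, cons_val_zero, cons_val_one,
          Pi.single_apply] <;> split_ifs with h <;> first | exact h ▸ h1 _ | simp
      · simp
  let P (i : I) : Prop := b i = inr 1 ∧ ∀ c, v (w i (inl c)) < 1
  have hA (i) : ¬ P i → ∃ c ≠ b i, 1 ≤ v (dF q (β 2) (w i) c) :=
    exists_dF_unit hq0 (hb i) (hF i) (hβ' 2) (hw i) (hz i)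
  by_cases hP : ∀ i, ¬ P i
  · choose c hc hc' using fun i => hA i (hP i)
    obtain ⟨a, h1, h2⟩ := dd_mem bas e ω
      (RM fun i => ![Pi.single (b i) 1, Pi.single (c i) 1]) v 1 (det_regSet bas v)
      (fun u => Submodule.subset_span ⟨_, by rcases u with u | u; exacts [hβ' u, hw _ _], rfl⟩)
      fun l u => by
        have := hR c (fun _ _ => 1) 1 l u
        rwa [show Sum.elim ![1, 1, 1] (fun _ => (1 : K)) u = 1 by
          rcases u with u | u; fin_cases u; all_goals rfl, inv_one, one_mul] at this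
    refine ⟨a, h1, le_trans ?_ ((key c hc fun _ _ => 1).trans (by rwa [one_mul] at h2))⟩
    exact le_mul_of_one_le_right' (Finset.one_le_prod' fun i _ => by simpa using hc' i)
  choose y _ hy using fun i => Finset.exists_max_image Finset.univ (fun c => v (w i (inl c)))
    Finset.univ_nonempty
  obtain ⟨i₀, h0, hmin⟩ := Finset.exists_min_image (Finset.univ.filter P)
    (fun i => v (w i (inl (y i)))) (by simpa [Finset.Nonempty] using hP)
  replace h0 : P i₀ := (Finset.mem_filter.mp h0).2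
  set ρ := v (w i₀ (inl (y i₀))) with hρ
  have hρ1 : ρ < 1 := h0.2 _
  have hρ0 : 0 < ρ := v.pos_iff.mpr (hy0 _ _)
  have hz1 (i) (h : P i) : w i (inr 1) = 1 := h.1 ▸ hb i
  have blk (i : I) : ∃ (c : Y ⊕ Fin 2) (t : Y ⊕ Fin 2 → K) (ε : Y ⊕ Fin 2 → k), c ≠ b i ∧
      (i = i₀ → ε (inr 0) = 0 ∧ c ≠ inr 0) ∧ (∀ a, t a ≠ 0 ∧ v (t a) ≤ 1 ∧
        v (w i a + ε a • w i₀ (inr 0)) ≤ v (t a)) ∧
      (∏ a, v (t a)) ^ q * ρ ^ (if i = i₀ then 2 * q else Fintype.card Y) ≤
        (v (t (b i)) * (v (t c) * v (dF q (β 2) (w i) c))) ^ q := by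
    by_cases h : P i
    · obtain ⟨θ, ε, h1, h2, h3, h4, h5⟩ : ∃ (θ : K) (ε : k), (i = i₀ → ε = 0) ∧ θ ≠ 0 ∧ v θ ≤ 1 ∧
          v (w i (inr 0) + ε • w i₀ (inr 0)) ≤ v θ ∧
          v θ ^ q * ρ ^ (if i = i₀ then 2 * q else Fintype.card Y) ≤
            v (w i (inl (y i))) ^ (2 * q) := by
        by_cases hi : i = i₀
        · subst hi
          exact ⟨1, 0, fun _ => rfl, one_ne_zero, by simp, by simpa using hw _ _, by simp [hρ]⟩
        have h1 := hmin i (by simpa using h)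
        have h2 {θ : K} (hθ : v θ ^ q ≤ v (w i (inl (y i))) ^ (q + 1)) :
            v θ ^ q * ρ ^ (if i = i₀ then 2 * q else Fintype.card Y) ≤
              v (w i (inl (y i))) ^ (2 * q) := by
          rw [if_neg hi, show 2 * q = q + 1 + Fintype.card Y by omega, pow_add]
          exact mul_le_mul' hθ (pow_le_pow_left₀ zero_le h1 _)
        by_cases hu : w i (inr 0) - w i₀ (inr 0) = 0
        · refine ⟨w i (inl (y i)) ^ (q + 1), -1, fun h => absurd h hi, pow_ne_zero _ (hy0 _ _),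
            (map_pow v _ _).trans_le (pow_le_one₀ zero_le (hw _ _)),
            by simp [← sub_eq_add_neg, hu], h2 ?_⟩
          rw [map_pow]
          exact pow_le_of_le_one zero_le (pow_le_one₀ zero_le (hw _ _)) hq0
        · exact ⟨_, -1, fun h => absurd h hi, hu, v.map_sub_le (hw _ _) (hw _ _),
            by simp [← sub_eq_add_neg], h2 (sub_pow_le hfr (hF i) (hF i₀) (hz1 i h) (hz1 i₀ h0)
              (fun c => hy i c (Finset.mem_univ _))
              fun c => (hy i₀ c (Finset.mem_univ _)).trans h1)⟩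
      refine ⟨inl (y i), Sum.elim (fun _ => w i (inl (y i))) ![θ, 1], Sum.elim 0 ![ε, 0],
        by simp [h.1], fun hi => ⟨h1 hi, by simp⟩, ?_, ?_⟩
      · rintro (c | c)
        · exact ⟨hy0 _ _, hw _ _, by simpa using hy i c (Finset.mem_univ _)⟩
        · fin_cases c
          · exact ⟨h2, h3, h4⟩
          · exact ⟨one_ne_zero, by simp, by simpa using hw _ _⟩
      · simp only [h.1, dF, Fintype.prod_sum_type, elim_inl, elim_inr, Finset.prod_const,
          Finset.card_univ, Fin.prod_univ_two, cons_val_zero, cons_val_one, map_one, mul_one,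
          one_mul, map_pow]
        rw [mul_pow, mul_assoc]
        refine (mul_le_mul_right h5 _).trans_eq ?_
        simp only [← pow_mul, ← pow_add, ← pow_succ']
        subst hY
        congr 1
        ring
    · obtain ⟨c, hc, hc'⟩ := hA i h
      refine ⟨c, 1, 0, hc, fun hi => absurd (hi ▸ h0) h,
        fun a => ⟨one_ne_zero, by simp, by simpa using hw _ _⟩, ?_⟩
      simp only [Pi.one_apply, map_one, Finset.prod_const_one, one_pow, one_mul]
      exact (pow_le_one₀ zero_le hρ1.le).trans (one_le_pow₀ hc')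
  choose c t ε hc h1 h2 h3 using blk
  let τ : Fin 3 ⊕ (Y ⊕ Fin 2) × I → K :=
    Sum.elim ![1, 1, w i₀ (inl (y i₀)) ^ (q + 1)] fun u => t u.2 u.1
  let R := RM fun i => ![Pi.single (b i) (t i (b i)), Pi.single (c i) (t i (c i))]
  let ε' : Fin 3 ⊕ (Y ⊕ Fin 2) × I → K := Sum.elim 0 fun u => algebraMap k K (ε u.2 u.1)
  obtain ⟨a, h4, h5⟩ := dd_mem bas e (fun u => (τ u)⁻¹ • (ω u + ε' u • ω (inr (inr 0, i₀))))
    (Matrix.of fun l u => (τ u)⁻¹ * R l u) v π (det_logSet bas hπ) (by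
      rintro (u | ⟨a, i⟩)
      · rw [show ε' (inl u) = 0 from rfl, zero_smul, add_zero]
        fin_cases u
        · exact dlog_mem hπ (hβ' 0) one_ne_zero (by simpa [τ] using hβ' 0)
        · exact dlog_mem hπ (hβ' 1) one_ne_zero (by simpa [τ] using hβ' 1)
        have h4 := der_fF hqK (KaehlerDifferential.D k K) (β 2) (w i₀)
        rw [hF, map_zero, hz1 i₀ h0, Derivation.map_one_eq_zero, smul_zero, sub_zero, one_pow,
          one_smul, eq_comm, sub_eq_zero] at h4
        change (w i₀ (inl (y i₀)) ^ (q + 1))⁻¹ • KaehlerDifferential.D k K (β 2) ∈ _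
        rw [← h4, Finset.smul_sum]
        refine sum_mem fun j _ => ?_
        have h5 := hy i₀ j (Finset.mem_univ _)
        convert Submodule.smul_mem _ (⟨(w i₀ (inl j) / w i₀ (inl (y i₀))) ^ q, (by
          rw [map_pow, map_div₀]
          exact pow_le_one₀ zero_le (div_le_one_of_le₀ h5 zero_le) : v _ ≤ 1)⟩ : v.integer)
          (dlog_mem hπ (hw i₀ (inl j)) (hy0 i₀ (y i₀)) h5) using 1
        change _ = (w i₀ (inl j) / w i₀ (inl (y i₀))) ^ q • (w i₀ (inl (y i₀)))⁻¹ •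
          KaehlerDifferential.D k K (w i₀ (inl j))
        rw [smul_smul, smul_smul]
        congr 1
        ring
      · obtain ⟨h4, h5, h6⟩ := h2 i a
        simpa [τ, ω, ε'] using dlog_mem (k := k) hπ (h6.trans h5) h4 h6) (hR c t _)
  refine ⟨a, h4, le_trans ?_ h5⟩
  have hτ : 0 < ∏ u, v (τ u) := Finset.prod_pos fun u _ => v.pos_iff.mpr (by
    rcases u with u | u
    · fin_cases u <;> simp [τ, hy0]
    · exact (h2 _ _).1)
  have h6 : ∏ u, v (τ u) <
      ∏ i, v (t i (b i)) * (v (t i (c i)) * v (dF q (β 2) (w i) (c i))) := by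
    refine lt_of_pow_lt_pow_left₀ q zero_le (lt_of_lt_of_le ?_
      ((Finset.prod_le_prod' fun i _ => h3 i).trans_eq (Finset.prod_pow _ _ _)))
    rw [Finset.prod_mul_distrib, Finset.prod_pow_eq_pow_sum, Finset.prod_pow, Fintype.prod_sum_type,
      Fintype.prod_prod_type_right, Fin.prod_univ_three, mul_pow, mul_comm]
    refine mul_lt_mul_of_pos_left ?_ (pow_pos (Finset.prod_pos fun i _ => Finset.prod_pos
      fun a _ => v.pos_iff.mpr (h2 i a).1) _)
    simp only [τ, elim_inl, cons_val_zero, cons_val_one, cons_val, map_one, one_mul, map_pow,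
      ← pow_mul]
    refine pow_lt_pow_right_of_lt_one₀ hρ0 hρ1 ?_
    rw [← Finset.add_sum_erase _ _ (Finset.mem_univ i₀), if_pos rfl, Finset.sum_congr rfl
      fun i hi => if_neg (Finset.ne_of_mem_erase hi), Finset.sum_const,
      Finset.card_erase_of_mem (Finset.mem_univ _), Finset.card_univ, smul_eq_mul]
    have h7 : (Fintype.card I - 1) * Fintype.card Y ≤ Fintype.card Y * Fintype.card Y :=
      Nat.mul_le_mul_right _ (by omega)
    have h8 : 0 < Fintype.card Y := Fintype.card_pos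
    subst hY
    nlinarith
  have h7 := (mul_lt_mul_of_pos_left h6 (v.pos_iff.mpr hη0)).trans_le (key c hc t)
  rw [dd_scale, dd_shift bas e ω R ε' _ (by simp [ε', (h1 i₀ rfl).1]) (by
    rintro (l | ⟨l, i⟩)
    · simp [R, RM]
    · by_cases h : i = i₀
      · subst h
        fin_cases l <;> simp [R, RM, h0.1, (h1 i rfl).2.symm]
      · simp [R, RM, blockDiagonal_apply', h]), Finset.prod_inv_distrib, map_mul, map_mul,
    map_inv₀, map_prod, hπ]
  rw [← lt_div_iff₀ hτ, div_eq_inv_mul] at h7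
  rw [← lt_mul_exp_iff_le (mul_ne_zero exp_ne_zero (zero_le.trans_lt h7).ne'), mul_right_comm,
    ← exp_add, neg_add_cancel, exp_zero, one_mul]
  exact h7

end Pool.Agent.Lib.MP_99f32e_ag
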