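import Pool.Agent.Lib.MP_99f32e_ag.MData

open AlgebraicGeometry MvPolynomial Sum Matrix CategoryTheory

set_option linter.unusedSectionVars false

universe u

namespace Pool.Agent.Lib.MP_99f32e_ag

variable {Y I : Type} [Fintype Y] [DecidableEq Y] [Fintype I] [DecidableEq I] {q : ℕ}
  {k K : Type u} [Field k] [Field K] [Algebra k K]

/-- relations of a chart of the fibre product -/
noncomputable def gM (q : ℕ) (g T : MvPolynomial (Fin 3) k) (b : I → Y ⊕ Fin 2) :
    Fin 2 ⊕ Fin 2 × I → MvPolynomial (Fin 3 ⊕ (Y ⊕ Fin 2) × I) k :=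
  Sum.elim (fun l => rename inl (gB g T l)) fun l =>
    ![X (inr (b l.2, l.2)) - 1, fF q (X (inl 2)) fun a => X (inr (a, l.2))] l.1

section chart

variable {β : Fin 3 → K} {g T : MvPolynomial (Fin 3) k} {x : I → Y ⊕ Fin 2 → K}

lemma IsChart.ker {b : I → Y ⊕ Fin 2} (H' : IsChart k q β x b) (H : Chart β g T)
    (f : MvPolynomial (Fin 3 ⊕ (Y ⊕ Fin 2) × I) k) (hf : aeval (cM β x b) f = 0) :
    f ∈ Ideal.span (Set.range (gM q g T b)) := by
  let π := Ideal.Quotient.mkₐ k (Ideal.span (Set.range (gM q g T b)))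
  have hπ (l) : π (gM q g T b l) = 0 :=
    Ideal.Quotient.eq_zero_iff_mem.mpr (Ideal.subset_span ⟨l, rfl⟩)
  obtain ⟨φ, hφ⟩ := exists_lift_range β (π.comp (rename inl)).toRingHom fun f hf => by
    have : Ideal.span (Set.range (gB g T)) ≤ RingHom.ker (π.comp (rename inl)) := by
      rw [Ideal.span_le]
      rintro _ ⟨l, rfl⟩
      exact hπ (inl l)
    exact this (H.ker f hf)
  have hφ' (i) : φ ⟨β i, mem_Rg β i⟩ = π (X (inl i)) :=
    (congrArg φ (Subtype.ext (aeval_X β i).symm)).trans ((hφ (X i)).trans (by simp))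
  obtain ⟨ψ, h1, h2⟩ := H'.lift _ φ (fun i a => π (X (inr (a, i))))
    (by
      rintro i _ rfl
      have : π (X (inr (b i, i)) - 1) = 0 := hπ (inr (0, i))
      rwa [map_sub, map_one, sub_eq_zero] at this)
    fun i => by rw [hφ', ← map_fF]; exact hπ (inr (1, i))
  have h3 : ψ.comp (aeval (cM β x b)).rangeRestrict.toRingHom = π.toRingHom := by
    ext v
    · have := hφ (C v)
      rw [algHom_C] at this
      exact (congrArg ψ (Subtype.ext (algHom_C (aeval (cM β x b)) v))).trans ((h1 _).trans (this.trans (by simp)))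
    · rcases v with i | ⟨a, i⟩
      · exact (congrArg ψ (Subtype.ext (aeval_X _ _))).trans ((h1 _).trans (hφ' i))
      · exact (congrArg ψ (Subtype.ext (aeval_X _ _))).trans (h2 i a)
  exact Ideal.Quotient.eq_zero_iff_mem.mp (congr($h3 f).symm.trans
    ((congrArg ψ (Subtype.ext hf)).trans (map_zero ψ)))

theorem mem_of_forall_mem' (H' : IsChart k q β x fun _ => inr 0) (φ : K)
    (hφ : ∀ b, φ ∈ Rg k (cM β x b)) : φ ∈ Rg k β := by
  set B := Rg k β with hB
  have hint : IsIntegral B φ := by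
    have h1 : φ ∈ (integralClosure (Subring.closure (B : Set K)) K).toSubring := by
      rw [← iInf_valuationSubring_superset, Subring.mem_iInf]
      rintro ⟨V, hV⟩
      choose b _ hb using fun i => Finset.exists_max_image Finset.univ
        (fun a => V.valuation (x i a)) ⟨inr 0, Finset.mem_univ _⟩
      refine le_of_cM (O := V.toSubring) hV (fun i a => ?_) (hφ b)
      rw [ValuationSubring.mem_toSubring, ← V.valuation_le_one_iff, map_div₀]
      exact div_le_one_of_le₀ (hb i a (Finset.mem_univ _)) zero_le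
    have h2 : Subring.closure (B : Set K) = B.toSubring := Subring.closure_eq B.toSubring
    rw [h2] at h1
    exact h1
  obtain ⟨σ, hσ', -⟩ := H'.lift B (RingHom.id _) (fun _ => Pi.single (inr 0) 1)
    (by rintro i _ rfl; simp) fun i => by simp [fF]
  let φ' : Rg k (cM β x fun _ => inr 0) := ⟨φ, hφ _⟩
  let ι := (Subalgebra.inclusion (le_cM (k := k) β x fun _ => inr 0)).toRingHom
  by_contra hn
  have h0 : φ - σ φ' ≠ 0 := fun h => hn (sub_eq_zero.mp h ▸ (σ φ').2)
  obtain ⟨P, hP, hP'⟩ := (hint.sub (isIntegral_algebraMap (x := σ φ'))).isAlgebraic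
    |>.exists_nonzero_coeff_and_aeval_eq_zero (mem_nonZeroDivisors_of_ne_zero h0)
  have h1 : P.eval₂ ι (φ' - ι (σ φ')) = 0 := by
    refine Subtype.ext (Eq.trans ?_ hP')
    exact Polynomial.hom_eval₂ _ _ (Rg k (cM β x fun _ => inr 0)).val.toRingHom _
  have h2 := Polynomial.hom_eval₂ P ι σ (φ' - ι (σ φ'))
  rw [h1, map_zero, map_sub, hσ', RingHom.id_apply, sub_self, Polynomial.eval₂_at_zero] at h2
  exact hP ((hσ' _).symm.trans h2.symm)

end chart

/-- models of the fibre product -/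
abbrev MTotal (k : Type u) [Field k] [Algebra k K] (β : Fin 2 → Fin 3 → K)
    (x : Fin 2 → I → Y ⊕ Fin 2 → K) :=
  Model k K (Fin 2 × (I → Y ⊕ Fin 2)) fun j => Rg k (cM (β j.1) (x j.1) j.2)

namespace MSetup

variable {z : Fin 3 → K} {β : Fin 2 → Fin 3 → K} {g T : Fin 2 → MvPolynomial (Fin 3) k}
  {x : Fin 2 → I → Y ⊕ Fin 2 → K} {l r : Fin 2 → K} (H : MSetup q z β g T x l r)
include H

lemma ne (j t a) : x j t a ≠ 0 := ((H.one t).cone j).ne a

lemma div_mem {i j : Fin 2} {b : I → Y ⊕ Fin 2} {O : Subring K}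
    (h : (Rg k (cM (β i) (x i) b)).toSubring ≤ O) (t a) : x j t a / x i t (b t) ∈ O :=
  (H.one t).div_mem (le_of_cT (fun _ hc => h (le_cM _ _ _ hc))
    fun a => h (mem_Rg (cM (β i) (x i) b) (inr (a, t))))

lemma aeval_gM (t₀ : I) (j b) (l : Fin 2 ⊕ Fin 2 × I) :
    aeval (cM (β j) (x j) b) (gM q (g j) (T j) b l) = 0 := by
  rcases l with l | ⟨l, t⟩
  · simpa [gM, cM, aeval_rename] using ((H.one t₀).chart j).aeval_gB l
  · fin_cases l
    · simp [gM, cM, H.ne]
    · simpa [gM, cM, map_fF] using ((H.one t).cone j).eq_div (b t)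

lemma nonempty_total (t₀ : I) : Nonempty (MTotal k β x) := by
  have H₀ := H.one t₀
  let P (j : Fin 2) (a : I → Y ⊕ Fin 2) : K := ∏ t, x j t (a t)
  have hP (j a) : P j a ≠ 0 := Finset.prod_ne_zero_iff.mpr fun t _ => H.ne _ _ _
  have hle (v : Fin 3 × Fin 2 × (I → Y ⊕ Fin 2)) :
      Algebra.adjoin k (Set.range fun i => z i / z v.1) ≤ Algebra.adjoin k (Set.range
        fun w : Fin 3 × Fin 2 × (I → Y ⊕ Fin 2) =>
          z w.1 * P w.2.1 w.2.2 / (z v.1 * P v.2.1 v.2.2)) := by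
    refine Algebra.adjoin_mono ?_
    rintro _ ⟨i, rfl⟩
    exact ⟨(i, v.2), mul_div_mul_right _ _ (hP _ _)⟩
  have := exists_model (k := k)
    (fun v : Fin 3 × Fin 2 × (I → Y ⊕ Fin 2) => z v.1 * P v.2.1 v.2.2)
    (fun j : Fin 2 × (I → Y ⊕ Fin 2) => (j.1.castSucc, j)) (0, fun _ => inr 0)
    (fun j => mul_ne_zero (H₀.z_ne _) (hP _ _)) fun 𝔭 h𝔭 hG ⟨v, hv⟩ => by
    by_contra! h
    have h1 (i j : Fin 2) (a : I → Y ⊕ Fin 2) : X (i.castSucc, j, a) ∈ 𝔭 := by
      choose c hc e using fun t => (H.one t).trans i j (a t)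
      have e' : P j a = ∑ b : I → Y ⊕ Fin 2, (∏ t, c t (b t)) * P i b := by
        simp only [P, ← Finset.prod_mul_distrib]
        rw [← Fintype.prod_sum fun t b => c t b * x i t b]
        exact Finset.prod_congr rfl fun t _ => e t
      refine X_mem_of_one_mem _ h𝔭 hG _ (mul_ne_zero (H₀.z_ne _) (hP _ _))
        (Set.range fun b => (i.castSucc, i, b)) (by rintro _ ⟨b, rfl⟩; exact h (i, b)) ?_
      rw [← div_self (hP j a), congrArg (· / P j a) e', Finset.sum_div]
      refine sum_mem fun b _ => ?_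
      rw [mul_div_assoc, ← mul_div_mul_left (P i b) _ (H₀.z_ne i.castSucc)]
      exact Submodule.smul_mem _ (⟨_, hle (i.castSucc, j, a)
        (H₀.adj i ▸ prod_mem fun t _ => hc t (b t))⟩ : Algebra.adjoin k _)
        (Submodule.subset_span ⟨_, ⟨b, rfl⟩, rfl⟩)
    obtain ⟨i, j, a⟩ := v
    obtain ⟨c₀, h₀, c₁, h₁, e⟩ := H₀.rel
    have h2 := X_mem_of_one_mem _ h𝔭 hG (2, j, a) (mul_ne_zero (H₀.z_ne _) (hP _ _))
      (Set.range fun i : Fin 2 => (i.castSucc, j, a)) (by rintro _ ⟨i, rfl⟩; exact h1 i j a) (by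
        rw [← e, ← mul_div_mul_right (z 0) _ (hP j a), ← mul_div_mul_right (z 1) _ (hP j a)]
        exact add_mem (Submodule.smul_mem _ (⟨c₀, hle (2, j, a) h₀⟩ : Algebra.adjoin k _)
          (Submodule.subset_span ⟨_, ⟨0, rfl⟩, rfl⟩)) (Submodule.smul_mem _
            (⟨c₁, hle (2, j, a) h₁⟩ : Algebra.adjoin k _)
            (Submodule.subset_span ⟨_, ⟨1, rfl⟩, rfl⟩)))
    fin_cases i
    · exact hv (h1 0 j a)
    · exact hv (h1 1 j a)
    · exact hv h2
  convert this using 3 with ⟨j, b⟩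
  apply le_antisymm
  · have h1 := hle (j.castSucc, j, b)
    rw [H₀.adj j] at h1
    refine (fun S h1 h2 => le_of_cM (O := S.toSubring) h1 h2 : ∀ S : Subalgebra k K, _ ≤ S →
      (∀ t a, x j t a / x j t (b t) ∈ S) → Rg k (cM (β j) (x j) b) ≤ S) _ h1 fun t a => ?_
    refine Algebra.subset_adjoin ⟨(j.castSucc, j, Function.update b t a),
      (mul_div_mul_left _ _ (H₀.z_ne _)).trans ?_⟩
    simp only [P, ← Finset.prod_div_distrib]
    rw [Finset.prod_eq_single t (fun t' _ h => by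
      rw [Function.update_of_ne h, div_self (H.ne _ _ _)]) (by simp), Function.update_self]
  · rw [Algebra.adjoin_le_iff]
    rintro _ ⟨⟨i, j', a⟩, rfl⟩
    simp only [P]
    rw [← div_mul_div_comm, ← Finset.prod_div_distrib]
    exact mul_mem (le_cM _ _ _ ((H₀.adj j).le (Algebra.subset_adjoin ⟨i, rfl⟩)))
      (prod_mem fun t _ => H.div_mem le_rfl t _)

lemma cover {M : MTotal k β x} {N : RBase k β} {h : M.X ⟶ N.X} (hγ : M.γ ≫ h = N.γ) (p : M.X)
    (i : Fin 2) (hp : h p ∈ N.U i) : ∃ b, p ∈ M.U (i, b) := by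
  obtain ⟨⟨j, a⟩, hj⟩ := M.cov p
  have hB : (Rg k (β i)).toSubring ≤ (M.loc p).range := Model.le_loc' hγ hp
  choose c hc e using fun t => (H.one t).trans i j (a t)
  choose b hb using fun t => exists_forall_div_mem _ (M.loc_injective p) (x i t) (H.ne i t) _
    (H.ne j t (a t)) (c t) (fun b => hB (hc t b)) (H.div_mem (M.le_loc hj) t) (e t)
  exact ⟨b, M.mem_of_le_loc (j := (i, b)) (le_of_cM hB hb)⟩

lemma fibres (hq : (q : k) = 0) (hq0 : q ≠ 0) (hY : 5 ≤ Fintype.card Y) {M : MTotal k β x}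
    {N : RBase k β} {h : M.X ⟶ N.X} (hγ : M.γ ≫ h = N.γ) (hU : ∀ j, M.U j ≤ h ⁻¹ᵁ N.U j.1) :
    geometrically (fun W => IsIntegral W ∧ ∀ w : W, IsIntegrallyClosed (W.presheaf.stalk w)) h :=
  Model.fibres hγ (fun i b => le_cM _ _ _) hU (H.cover hγ) fun κ _ i φ b => by
    obtain ⟨W, _, _, _, ι, w, H'⟩ := exists_mod (q := q) κ
      (by rw [← map_natCast (φ.comp (algebraMap k _)), hq, map_zero]) hY hq0
      (φ ⟨β i 2, mem_Rg _ 2⟩) I (fun t a => a = b t) fun t => ⟨b t, fun _ h => h⟩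
    obtain ⟨f, h1, h2⟩ := IsMod.push (H.mod i b) φ H'
    refine ⟨W, _, ‹_›, ‹_›, f, ι, h1, fun b' => ⟨∏ t, ⟨x i t (b' t) / x i t (b t),
      mem_Rg (cM (β i) (x i) b) (inr (b' t, t))⟩, ?_, fun O hO hσ => ?_⟩⟩
    · rw [map_prod]
      exact Finset.prod_ne_zero_iff.mpr fun t _ => h2 t _ ▸ H'.ne _ _
    refine le_of_cM (fun _ hc => hO (le_cM _ _ _ hc)) fun t a => ?_
    rw [SubmonoidClass.coe_finsetProd, ← Finset.mul_prod_erase _ _ (Finset.mem_univ t)] at hσ
    have h3 : ∏ t' ∈ Finset.univ.erase t, x i t' (b' t') / x i t' (b t') ≠ 0 :=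
      Finset.prod_ne_zero_iff.mpr fun t _ => div_ne_zero (H.ne _ _ _) (H.ne _ _ _)
    have := H.ne i t (b t)
    have := H.ne i t (b' t)
    convert mul_mem (mul_mem (H.div_mem (j := i) hO t a) hσ)
      (prod_mem fun t' (_ : t' ∈ Finset.univ.erase t) => H.div_mem (j := i) hO t' (b' t')) using 1
    field_simp

end MSetup

end Pool.Agent.Lib.MP_99f32e_ag
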