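import Pool.Agent.Lib.MP_99f32e_ag.Jac2

open MvPolynomial Matrix WithZero

set_option linter.unusedSectionVars false

namespace Pool.Agent.Lib.MP_99f32e_ag

variable {k K : Type*} [Field k] [Field K] [Algebra k K] {ι ρ : Type*} [Fintype ι] [DecidableEq ι]
  [Fintype ρ] [DecidableEq ρ] {N : ℕ} (b : Module.Basis (Fin N) K (KaehlerDifferential k K))

theorem chart_jac' (c : ι → K) (g : ρ → MvPolynomial ι k) (hg : ∀ l, aeval c (g l) = 0)
    (hK : ∀ f : K, ∃ p q : MvPolynomial ι k, aeval c q ≠ 0 ∧ f = aeval c p / aeval c q)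
    (R₀ : Matrix ρ ι K) (hr : R₀ * (gradMat c g)ᵀ = 1) (e : Fin N ⊕ ρ ≃ ι) :
    ∃ η : K, η ≠ 0 ∧
      (∀ R : Matrix ρ ι K, ((fromRows (coordMat b c) R).submatrix id e).det =
        η * (R * (gradMat c g)ᵀ).det) ∧
      (∃ σ : Fin N → ι, b.det (fun j => KaehlerDifferential.D k K (c (σ j))) ≠ 0) ∧
      ∀ O : Subring K, (∀ p : MvPolynomial ι k, aeval c p ∈ O) → ∀ a : Fin N → K,
        (∀ j, ∃ p q : MvPolynomial ι k, aeval c q ≠ 0 ∧ (aeval c q)⁻¹ ∈ O ∧
          a j = aeval c p / aeval c q) →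
        ∃ o ∈ O, b.det (fun j => KaehlerDifferential.D k K (a j)) = η * o := by
  have h0 := coordMat_mul_gradMat b c g hg
  set η := ((fromRows (coordMat b c) R₀).submatrix id e).det with hη
  have hstar (C : Matrix ι (Fin N) K) : (coordMat b c * C).det =
      η * ((fromCols C (gradMat c g)ᵀ).submatrix e id).det := by
    rw [hη, det_fromRows_mul e _ R₀ _ C h0, hr]; simp
  obtain ⟨a₀, ha₀⟩ := exists_det_ne_zero b
  have H (j : Fin N) : ∃ C : ι → K, KaehlerDifferential.D k K (a₀ j) =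
      ∑ i, C i • KaehlerDifferential.D k K (c i) := by
    obtain ⟨p, q, hq, h⟩ := hK (a₀ j)
    obtain ⟨C, -, hC⟩ := exists_grad (KaehlerDifferential.D k K) c ⊤ (fun _ => trivial) _ trivial
      p q hq trivial h
    exact ⟨C, hC⟩
  choose C₀ hC₀ using H
  rw [det_eq_coordMat b c a₀ (Matrix.of fun i j => C₀ j i) hC₀, hstar] at ha₀
  have hη0 : η ≠ 0 := left_ne_zero_of_mul ha₀
  refine ⟨η, hη0, fun R => ?_, ?_, fun O hp a ha => ?_⟩
  · apply mul_right_cancel₀ (right_ne_zero_of_mul ha₀)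
    rw [det_fromRows_mul e _ R _ _ h0, hstar]
    ring
  · by_contra! h
    refine hη0 ((Submodule.span_eq_bot.mpr ?_).le
      (det_fromRows_mem_span ⊤ (coordMat b c) R₀ (fun _ _ => trivial) e))
    rintro _ ⟨σ, rfl⟩
    exact (b.det_apply _).symm.trans (h σ)
  have H (j : Fin N) : ∃ C : ι → K, (∀ i, C i ∈ O) ∧
      KaehlerDifferential.D k K (a j) = ∑ i, C i • KaehlerDifferential.D k K (c i) := by
    obtain ⟨p, q, h1, h2, h⟩ := ha j
    exact exists_grad _ c _ hp _ (by rw [h, div_eq_mul_inv]; exact mul_mem (hp _) h2) p q h1 h2 h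
  choose C hC hC' using H
  rw [det_eq_coordMat b c _ (Matrix.of fun i j => C j i) hC', hstar]
  refine ⟨_, ?_, rfl⟩
  rw [Matrix.det_apply']
  refine sum_mem fun σ _ => mul_mem (intCast_mem _ _) (prod_mem fun i _ => ?_)
  cases i with
  | inl i => exact hC _ _
  | inr l => exact hp _

/-- determinant of a family of differentials bordered by extra rows -/
noncomputable def dd (e : Fin N ⊕ ρ ≃ ι) (ω : ι → KaehlerDifferential k K) (R : Matrix ρ ι K) : K :=
  ((fromRows (Matrix.of fun j i => b.repr (ω i) j) R).submatrix id e).det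

variable (e : Fin N ⊕ ρ ≃ ι) (ω : ι → KaehlerDifferential k K) (R : Matrix ρ ι K)

lemma dd_scale (t : ι → K) :
    dd b e (fun i => t i • ω i) (Matrix.of fun l i => t i * R l i) = (∏ i, t i) * dd b e ω R := by
  rw [dd, dd, ← e.prod_comp, ← det_mul_row]
  congr 1
  ext (l | l) i <;> simp

lemma dd_shift (ε : ι → K) (i₀ : ι) (h1 : ε i₀ = 0) (h2 : ∀ l, R l i₀ = 0) :
    dd b e (fun i => ω i + ε i • ω i₀) R = dd b e ω R := by
  rw [dd, dd, ← det_transpose, ← det_transpose (submatrix _ _ _)]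
  refine det_eq_of_forall_row_eq_smul_add_const (fun i => ε (e i)) (e.symm i₀) (by simpa using h1) ?_
  rintro i (l | l) <;> simp [h2]

variable (v : Valuation K ℤᵐ⁰)

/-- elements bounded by the coefficient of an integral top form -/
def topLat : Submodule v.integer K where
  carrier := {t | ∃ a : Fin N → K, (∀ j, v (a j) ≤ 1) ∧
    v t ≤ v (b.det fun j => KaehlerDifferential.D k K (a j))}
  zero_mem' := ⟨0, by simp, by simp⟩
  add_mem' := by
    rintro s t ⟨a, h1, h2⟩ ⟨a', h3, h4⟩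
    rcases le_max_iff.mp (v.map_add s t) with h | h
    exacts [⟨a, h1, h.trans h2⟩, ⟨a', h3, h.trans h4⟩]
  smul_mem' := by
    rintro c t ⟨a, h1, h2⟩
    exact ⟨a, h1, (map_mul v c.1 t).trans_le ((mul_le_of_le_one_left' c.2).trans h2)⟩

lemma dd_mem {S : Set (KaehlerDifferential k K)} (t : K)
    (hS : ∀ g : Fin N → KaehlerDifferential k K, (∀ j, g j ∈ S) → t * b.det g ∈ topLat b v)
    (hω : ∀ i, ω i ∈ Submodule.span v.integer S) (hR : ∀ l i, v (R l i) ≤ 1) :
    t * dd b e ω R ∈ topLat b v := by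
  have h1 : Submodule.span v.integer (Set.range fun σ : Fin N → ι =>
      ((Matrix.of fun j i => b.repr (ω i) j).submatrix id σ).det) ≤
      (topLat b v).comap (LinearMap.mulLeft v.integer t) := by
    rw [Submodule.span_le]
    rintro _ ⟨σ, rfl⟩
    choose n f g h using fun i => Submodule.mem_span_set'.mp (hω i)
    have h2 := b.det.toMultilinearMap.map_sum fun j r => (f (σ j) r : K) • (g (σ j) r).1
    simp only [MultilinearMap.map_smul_univ] at h2
    change t * (b.toMatrix fun j => ω (σ j)).det ∈ topLat b v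
    rw [← b.det_apply, ← funext fun j => h (σ j)]
    erw [h2]
    rw [Finset.mul_sum]
    refine sum_mem fun r _ => ?_
    rw [smul_eq_mul, mul_left_comm, ← SubmonoidClass.coe_finsetProd]
    exact Submodule.smul_mem _ (∏ j, f (σ j) (r j)) (hS _ fun j => (g _ _).2)
  exact h1 (det_fromRows_mem_span v.integer _ R hR e)

variable (k) in
/-- differentials of integral elements -/
def regSet : Set (KaehlerDifferential k K) := KaehlerDifferential.D k K '' {a | v a ≤ 1}

lemma det_regSet (g : Fin N → KaehlerDifferential k K) (hg : ∀ j, g j ∈ regSet k v) :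
    1 * b.det g ∈ topLat b v := by
  choose a h1 h2 using hg
  exact ⟨a, h1, by rw [one_mul, funext h2]⟩

variable {v} {π : K} (hπ : v π = exp (-1))
include hπ

lemma det_logSet (g : Fin N → KaehlerDifferential k K)
    (hg : ∀ j, g j ∈ insert (π⁻¹ • KaehlerDifferential.D k K π) (regSet k v)) :
    π * b.det g ∈ topLat b v := by
  have h1 : v π ≤ 1 := hπ.trans_le (exp_le_exp.mpr (by omega) : exp (-1 : ℤ) ≤ exp 0)
  have h0 : π ≠ 0 := by rintro rfl; exact exp_ne_zero (hπ.symm.trans (map_zero v))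
  by_cases h : ∀ j, g j ∈ regSet k v
  · exact Submodule.smul_mem _ (⟨π, h1⟩ : v.integer) (one_mul (b.det g) ▸ det_regSet b v g h)
  obtain ⟨j, hj⟩ := not_forall.mp h
  have h2 := (hg j).resolve_right hj
  by_cases h' : ∀ j' ≠ j, g j' ∈ regSet k v
  · have := det_regSet b v (Function.update g j (π • g j)) fun j' => by
      by_cases h3 : j' = j
      · subst h3
        rw [Function.update_self, h2, smul_inv_smul₀ h0]
        exact ⟨π, h1, rfl⟩
      · rw [Function.update_of_ne h3]; exact h' j' h3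
    rwa [one_mul, AlternatingMap.map_update_smul, Function.update_eq_self] at this
  · push Not at h'
    obtain ⟨j', h3, h4⟩ := h'
    rw [b.det.map_eq_zero_of_eq g (((hg j').resolve_right h4).trans h2.symm) h3, mul_zero]
    exact zero_mem _

lemma dlog_mem {s t : K} (hs : v s ≤ 1) (ht : t ≠ 0) (h : v s ≤ v t) :
    t⁻¹ • KaehlerDifferential.D k K s ∈ Submodule.span v.integer
      (insert (π⁻¹ • KaehlerDifferential.D k K π) (regSet k v)) := by
  by_cases hs0 : s = 0
  · simp [hs0]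
  have h0 : π ≠ 0 := by rintro rfl; exact exp_ne_zero (hπ.symm.trans (map_zero v))
  have hv := (map_ne_zero v).mpr hs0
  obtain ⟨n, hn⟩ := Int.eq_ofNat_of_zero_le (neg_nonneg.mpr ((log_le_iff_le_exp hv).mpr hs))
  have h1 : v (s / π ^ n) = 1 := by
    rw [map_div₀, map_pow, hπ, ← WithZero.exp_nsmul, ← exp_log hv, ← exp_sub, exp_eq_one, nsmul_eq_mul]
    omega
  obtain ⟨u, rfl⟩ : ∃ u, s = u * π ^ n := ⟨s / π ^ n, by field_simp⟩
  rw [mul_div_cancel_right₀ _ (pow_ne_zero _ h0)] at h1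
  have hu := left_ne_zero_of_mul hs0
  have h2 : v (u * π ^ n / t) ≤ 1 := by
    rw [map_div₀]; exact div_le_one_of_le₀ h zero_le
  have h3 : t⁻¹ • KaehlerDifferential.D k K (u * π ^ n) = (u * π ^ n / t) •
      (u⁻¹ • KaehlerDifferential.D k K u + n • π⁻¹ • KaehlerDifferential.D k K π) := by
    rw [Derivation.leibniz, Derivation.leibniz_pow]
    cases n with
    | zero => match_scalars <;> field_simp <;> simp
    | succ n => rw [Nat.add_sub_cancel]; match_scalars <;> field_simp <;> ring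
  rw [h3]
  exact Submodule.smul_mem _ (⟨_, h2⟩ : v.integer) (add_mem (Submodule.smul_mem _
    (⟨u⁻¹, (by rw [map_inv₀, h1, inv_one] : v u⁻¹ ≤ 1)⟩ : v.integer)
    (Submodule.subset_span (.inr ⟨u, h1.le, rfl⟩)))
    (nsmul_mem (Submodule.subset_span (.inl rfl)) n))

end Pool.Agent.Lib.MP_99f32e_ag
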