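import Pool.Agent.Lib.MP_99f32e_ag.MGeom
import Pool.Agent.Lib.MP_99f32e_ag.MLat

open MvPolynomial Sum Matrix WithZero

set_option linter.unusedSectionVars false

universe u

namespace Pool.Agent.Lib.MP_99f32e_ag

variable {Y I : Type} [Fintype Y] [DecidableEq Y] [Fintype I] [DecidableEq I] {q : ℕ}
  {k K : Type u} [Field k] [Field K] [Algebra k K] {β β₀ : Fin 3 → K}
  {g T : MvPolynomial (Fin 3) k}

lemma gradMat_gM (hq : (q : k) = 0) (β : Fin 3 → K) (w : I → Y ⊕ Fin 2 → K) (b : I → Y ⊕ Fin 2) :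
    gradMat (Sum.elim β fun v : (Y ⊕ Fin 2) × I => w v.2 v.1) (gM q g T b) =
      fromBlocks (gradMat β (gB g T)) 0
        (Matrix.of fun l => ![0, ![0, 0, -w l.2 (inr 1) ^ (q + 1)]] l.1)
        (blockDiagonal fun i => Matrix.of ![Pi.single (b i) 1, dF q (β 2) (w i)]) := by
  have hqP : (q : MvPolynomial (Fin 3 ⊕ (Y ⊕ Fin 2) × I) k) = 0 := by
    rw [← map_natCast (C : k →+* MvPolynomial (Fin 3 ⊕ (Y ⊕ Fin 2) × I) k), hq, map_zero]
  ext l v
  rcases l with l | ⟨l, t⟩
  · rcases v with i | a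
    · simp [gradMat, gM, pderiv_rename inl_injective, aeval_rename]
    · have : pderiv (inr a : Fin 3 ⊕ (Y ⊕ Fin 2) × I) (rename inl (gB g T l)) = 0 :=
        pderiv_eq_zero_of_notMem_vars fun h => by
          obtain ⟨i, -, hi⟩ := mem_vars_rename _ _ h
          exact inl_ne_inr hi
      simp [gradMat, gM, this]
  · fin_cases l
    · rcases v with i | ⟨a, t'⟩
      · simp [gradMat, gM, pderiv_X]
      · by_cases h : t = t'
        · subst h; simp [gradMat, gM, pderiv_X, Pi.single_apply, eq_comm]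
        · simp [gradMat, gM, pderiv_X, Pi.single_apply, h, blockDiagonal_apply]
    · simp only [gradMat, gM, Fin.mk_one, of_apply, elim_inr, cons_val_one, cons_val_zero,
        der_fF hqP]
      rcases v with i | ⟨a, t'⟩
      · fin_cases i <;> simp [pderiv_X]
      · by_cases h : t = t'
        · subst h
          rcases a with j | a
          · simp [pderiv_X, Pi.single_apply, dF]
          · fin_cases a <;> simp [pderiv_X, dF]
        · simp [pderiv_X, Pi.single_apply, h, blockDiagonal_apply]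

/-- the extra rows -/
def RM (R : I → Fin 2 → Y ⊕ Fin 2 → K) : Matrix (Fin 2 ⊕ Fin 2 × I) (Fin 3 ⊕ (Y ⊕ Fin 2) × I) K :=
  fromBlocks !![1, 0, 0; 0, 1, 0] 0 0 (blockDiagonal fun i => Matrix.of (R i))

lemma det_RM (H : Chart β g T) (hq : (q : k) = 0) (w : I → Y ⊕ Fin 2 → K) (b : I → Y ⊕ Fin 2)
    (R : I → Fin 2 → Y ⊕ Fin 2 → K) :
    (RM R * (gradMat (Sum.elim β fun v : (Y ⊕ Fin 2) × I => w v.2 v.1) (gM q g T b))ᵀ).det =
      -aeval β (jac g T) * ∏ i, (R i 0 (b i) * (R i 1 ⬝ᵥ dF q (β 2) (w i)) -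
        R i 0 ⬝ᵥ dF q (β 2) (w i) * R i 1 (b i)) := by
  rw [gradMat_gM hq, RM, fromBlocks_transpose, fromBlocks_multiply, blockDiagonal_transpose,
    ← blockDiagonal_mul, transpose_zero]
  simp only [Matrix.zero_mul, Matrix.mul_zero, add_zero, zero_add]
  rw [det_fromBlocks_zero₂₁, det_blockDiagonal, H.gradMat_gB]
  congr 1
  · simp only [det_fin_two, Matrix.mul_apply, Fin.sum_univ_three, jac, transpose_apply]
    simp
    ring
  · refine Finset.prod_congr rfl fun i _ => ?_
    simp [det_fin_two, Matrix.mul_apply, dotProduct, Pi.single_apply, -Fintype.sum_sum_type]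

variable {N : ℕ} (bas : Module.Basis (Fin N) K (KaehlerDifferential k K))
  (e : Fin N ⊕ (Fin 2 ⊕ Fin 2 × I) ≃ Fin 3 ⊕ (Y ⊕ Fin 2) × I)

lemma changeM (H : Chart β g T) (hq : (q : k) = 0) (hY : Fintype.card Y + 1 = q)
    (w₀ w : I → Y ⊕ Fin 2 → K) (l r : K) (m : I → K)
    (hl : l ≠ 0) (hw : ∀ i a, w i a = m i * tw q l r (w₀ i) a) (b : I → Y ⊕ Fin 2)
    (hb : ∀ i, w i (b i) = 1) (hF : ∀ i, fF q (β 2) (w i) = 0) (γl γr : K)
    (hs : KaehlerDifferential.D k K (β₀ 2) = l ^ (q * (q + 1)) • KaehlerDifferential.D k K (β 2))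
    (hγl : KaehlerDifferential.D k K l = γl • KaehlerDifferential.D k K (β 2))
    (hγr : KaehlerDifferential.D k K r = γr • KaehlerDifferential.D k K (β 2)) (j₀ : Y) (η : K)
    (hη : ∀ R, ((fromRows (coordMat bas (Sum.elim β fun v => w v.2 v.1)) R).submatrix id e).det =
        η * (R * (gradMat (Sum.elim β fun v => w v.2 v.1) (gM q g T b))ᵀ).det) :
    η * aeval β (jac g T) * l ^ (q * (q + 1)) * ∏ i, w₀ i (inl j₀) ^ q =
      -((fromRows (coordMat bas (Sum.elim β₀ fun v => w₀ v.2 v.1))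
        (RM fun i => ![w₀ i, Pi.single (inl j₀) 1])).submatrix id e).det *
          l ^ (Fintype.card Y * Fintype.card I) := by
  have hqK : (q : K) = 0 := by rw [← map_natCast (algebraMap k K), hq, map_zero]
  have hm (i) : m i ≠ 0 := fun h => by simpa [hw, h] using hb i
  set κ := (l ^ (q * (q + 1)))⁻¹ with hκ
  have hκ1 : l ^ (q * (q + 1)) * κ = 1 := mul_inv_cancel₀ (pow_ne_zero _ hl)
  have hs' : KaehlerDifferential.D k K (β 2) = κ • KaehlerDifferential.D k K (β₀ 2) := by
    rw [hs, smul_smul, mul_comm, hκ1, one_smul]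
  set R := RM fun i => ![w₀ i, Pi.single (inl j₀) 1] with hR
  set γ : (Y ⊕ Fin 2) × I → K := fun v => m v.2 * κ * Sum.elim (fun i => γl * w₀ v.2 (inl i))
    ![γr * w₀ v.2 (inr 1), l ^ q * γl * w₀ v.2 (inr 1)] v.1 with hγ
  set G : Matrix (Fin 3 ⊕ (Y ⊕ Fin 2) × I) (Fin 3 ⊕ (Y ⊕ Fin 2) × I) K :=
    fromBlocks (diagonal ![1, 1, κ]) (Matrix.of ![0, 0, γ]) 0 (blockDiagonal fun i =>
      fromBlocks ((m i * l) • 1) 0 0 !![m i, 0; m i * r, m i * l ^ (q + 1)]) with hG
  have hmul {τ : Type} (W : Matrix τ (Fin 3 ⊕ (Y ⊕ Fin 2) × I) K) (t : τ) :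
      (∀ i, (W * G) t (inl i) = W t (inl i) * ![1, 1, κ] i) ∧
      ∀ a i, (W * G) t (inr (a, i)) =
        γ (a, i) * W t (inl 2) + m i * tw q l r (fun a => W t (inr (a, i))) a := by
    constructor
    · intro i
      simp [hG, Matrix.mul_apply, Fintype.sum_sum_type, Matrix.diagonal_apply]
    · rintro (c | a) i
      · simp [hG, Matrix.mul_apply, Fintype.sum_sum_type, Fintype.sum_prod_type, Matrix.one_apply,
          Fin.sum_univ_three, tw, blockDiagonal_apply]
        ring
      · fin_cases a <;>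
          simp [hG, Matrix.mul_apply, Fintype.sum_sum_type, Fintype.sum_prod_type,
            Fin.sum_univ_three, tw, blockDiagonal_apply] <;> ring
  have h1 := det_fromRows_change e (coordMat bas (Sum.elim β₀ fun v => w₀ v.2 v.1))
    (coordMat bas (Sum.elim β fun v => w v.2 v.1)) R
    (Matrix.of fun j => Sum.elim ![coordMat bas β j 0 - coordMat bas β₀ j 0,
      coordMat bas β j 1 - coordMat bas β₀ j 1]
      fun v => ![bas.repr (KaehlerDifferential.D k K (m v.2)) j / m v.2, 0] v.1) G (by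
      ext j v
      rcases v with i | ⟨c | c, i⟩
      · rw [(hmul _ j).1]
        fin_cases i <;>
          simp [coordMat, Matrix.mul_apply, Fintype.sum_sum_type, hR, RM, hs', mul_comm]
      · have := hm i
        rw [(hmul _ j).2]
        simp [coordMat, Matrix.mul_apply, Fintype.sum_sum_type, Fintype.sum_prod_type, hR, RM, hw,
          tw, hγ, hγl, hs', blockDiagonal_apply]
        field_simp
        ring
      · have := hm i
        rw [(hmul _ j).2]
        fin_cases c <;>
          simp [coordMat, Matrix.mul_apply, Fintype.sum_sum_type, Fintype.sum_prod_type, hR, RM, hw,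
            tw, hγ, hγl, hγr, hs', Derivation.leibniz_pow, hqK, blockDiagonal_apply] <;>
          field_simp <;> ring)
  have h4 (a : Y ⊕ Fin 2) : tw q l r (fun _ => 0) a = 0 := by
    rcases a with i | i
    · simp [tw]
    · fin_cases i <;> simp [tw]
  have h2 : R * G = RM fun i => ![w i, Pi.single (inl j₀) (m i * l)] := by
    ext s (i | ⟨a, i⟩)
    · rw [(hmul _ _).1]
      rcases s with s | s
      · fin_cases s <;> fin_cases i <;> simp [hR, RM]
      · simp [hR, RM]
    · rw [(hmul _ _).2]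
      rcases s with s | ⟨s, i'⟩
      · fin_cases s <;> simp [hR, RM, h4]
      · by_cases h : i' = i
        · subst h
          fin_cases s
          · simp [hR, RM, hw]
          · rcases a with c | c
            · simp [hR, RM, tw, Pi.single_apply]
            · fin_cases c <;> simp [hR, RM, tw]
        · simp [hR, RM, blockDiagonal_apply, h, h4]
  have h3 (i) : w i ⬝ᵥ dF q (β 2) (w i) = 0 := (sum_mul_dF (β 2) (w i)).trans (hF i)
  rw [h2, hη, det_RM H hq, hG, det_fromBlocks_zero₂₁, det_blockDiagonal, det_diagonal,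
    Fin.prod_univ_three] at h1
  simp only [cons_val_zero, cons_val_one, cons_val, hb, h3, single_dotProduct,
    det_fromBlocks_zero₂₁, det_smul, det_one, det_fin_two_of, one_mul, zero_mul, sub_zero,
    mul_one] at h1
  simp only [dF, elim_inl, hw _ (inl _), tw] at h1
  have h5 : ∏ i, (m i * l) ^ Fintype.card Y * (m i * (m i * l ^ (q + 1))) =
      (∏ i, (m i * l) ^ (q + 1)) * l ^ (Fintype.card Y * Fintype.card I) := by
    rw [pow_mul, ← Finset.card_univ (α := I), ← Finset.prod_const, ← Finset.prod_mul_distrib]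
    exact Finset.prod_congr rfl fun i _ => by subst hY; ring
  have h6 : ∏ i, m i * l * (m i * (l * w₀ i (inl j₀))) ^ q =
      (∏ i, (m i * l) ^ (q + 1)) * ∏ i, w₀ i (inl j₀) ^ q := by
    rw [← Finset.prod_mul_distrib]
    exact Finset.prod_congr rfl fun i _ => by ring
  rw [h5, h6] at h1
  apply mul_right_cancel₀ (Finset.prod_ne_zero_iff.mpr fun i (_ : i ∈ Finset.univ) =>
    pow_ne_zero (q + 1) (mul_ne_zero (hm i) hl))
  linear_combination (-l ^ (q * (q + 1))) * h1 - (((fromRows (coordMat bas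
    (Sum.elim β₀ fun v => w₀ v.2 v.1)) R).submatrix id e).det * (∏ i, (m i * l) ^ (q + 1)) *
      l ^ (Fintype.card Y * Fintype.card I)) * hκ1

end Pool.Agent.Lib.MP_99f32e_ag
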