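import Pool.Agent.Lib.MP_99f32e_ag.RData

open MvPolynomial Sum Matrix

set_option linter.unusedSectionVars false

universe u

namespace Pool.Agent.Lib.MP_99f32e_ag

variable {k K : Type u} [Field k] [Field K] [Algebra k K] {D : ℕ} {Y : Type} [Fintype Y]
  [DecidableEq Y] {q : ℕ}

/-- scaling factors of the transition map -/
def bm {A : Type*} [Field A] (q D : ℕ) (z : Fin 3 → A) : Fin 2 → A :=
  ![1, ((z 1 / z 0) ^ (3 * (D + 2))) ^ (q + 1)]

lemma trans_b {z : Fin 3 → K} (hz : ∀ i, z i ≠ 0) (hΦ : bΦ D z = 0) (w : Y ⊕ Fin 2 → K)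
    (i j : Fin 2) (a : Y ⊕ Fin 2) : ∃ c : Y ⊕ Fin 2 → K,
      (∀ b, c b ∈ (aeval (bβ D z i) : MvPolynomial (Fin 3) k →ₐ[k] K).range) ∧
      bm q D z j * tw q (bl z j) (br q z j) w a =
        ∑ b, c b * (bm q D z i * tw q (bl z i) (br q z i) w b) := by
  by_cases hij : i = j
  · subst hij
    refine ⟨Pi.single a 1, fun b => ?_, by simp [Pi.single_apply]⟩
    rw [Pi.single_apply]; split_ifs
    · exact one_mem _
    · exact zero_mem _
  have h0 (a : Y ⊕ Fin 2) : bm q D z 0 * tw q (bl z 0) (br q z 0) w a = w a := by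
    rcases a with a | a
    · simp [bm, bl, tw]
    · fin_cases a <;> simp [bm, bl, br, tw]
  have hX (i j) : bβ D z i j ∈ (aeval (bβ D z i) : MvPolynomial (Fin 3) k →ₐ[k] K).range :=
    ⟨X j, by simp⟩
  have h1 := hz 0
  have h2 := hz 1
  have h3 := hz 2
  fin_cases i <;> fin_cases j
  · exact absurd rfl hij
  · simp only [Fin.zero_eta, Fin.mk_one, h0]
    set B := (aeval (bβ D z 0) : MvPolynomial (Fin 3) k →ₐ[k] K).range
    have ht : z 1 / z 0 ∈ B := hX 0 0
    have hy : z 2 / z 0 ∈ B := hX 0 1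
    have hw : (z 1 / z 0) ^ (D + 2) / (z 2 / z 0) ∈ B := by
      convert sub_mem (pow_mem hy (D + 2)) (one_mem _) using 1
      rw [div_eq_iff (div_ne_zero h3 h1)]
      linear_combination -rel0 hz hΦ
    have hl : (z 1 / z 0) ^ (3 * (D + 2)) * bl z 1 ∈ B := by
      convert mul_mem (pow_mem ht 2) (pow_mem hw 3) using 1
      simp only [bl, cons_val_one, cons_val_zero]
      field_simp
      ring
    have hr : (z 1 / z 0) ^ (3 * (D + 2)) * (z 2 / z 1)⁻¹ ∈ B := by
      convert mul_mem (mul_mem (pow_mem ht (2 * (D + 2))) ht) hw using 1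
      rw [show 3 * (D + 2) = 2 * (D + 2) + (D + 2) by ring, pow_add]
      field_simp
    refine trans_of_tw (m := bm q D z 1) ?_ (pow_mem (pow_mem ht _) _) ?_ ?_ w a
    · convert mul_mem (pow_mem (pow_mem ht (3 * (D + 2))) q) hl using 1
      simp only [bm, cons_val_one, cons_val_zero]
      ring
    · simpa only [bm, br, cons_val_one, cons_val_zero, mul_pow] using pow_mem hr (q + 1)
    · simpa only [bm, cons_val_one, cons_val_zero, mul_pow] using pow_mem hl (q + 1)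
  · simp only [Fin.zero_eta, Fin.mk_one, h0]
    set B := (aeval (bβ D z 1) : MvPolynomial (Fin 3) k →ₐ[k] K).range
    have hu : z 2 / z 1 ∈ B := hX 1 0
    have hv : z 0 / z 1 ∈ B := hX 1 1
    have hm : ((z 1 / z 0) ^ (3 * (D + 2)))⁻¹ ∈ B := by
      rw [← inv_pow, inv_div]; exact pow_mem hv _
    have hl : ((z 1 / z 0) ^ (3 * (D + 2)))⁻¹ * (bl z 1)⁻¹ ∈ B := by
      rw [← inv_pow, inv_div, show 3 * (D + 2) = 3 * D + 5 + 1 by ring, pow_succ]
      convert mul_mem (pow_mem hv (3 * D + 5)) (pow_mem hu 3) using 1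
      simp only [bl, cons_val_one, cons_val_zero]
      field_simp
    have hr : ((z 1 / z 0) ^ (3 * (D + 2)))⁻¹ * ((z 2 / z 1)⁻¹ * (bl z 1)⁻¹) ∈ B := by
      rw [← inv_pow, inv_div, show 3 * (D + 2) = 3 * D + 5 + 1 by ring, pow_succ]
      convert mul_mem (pow_mem hv (3 * D + 5)) (pow_mem hu 2) using 1
      simp only [bl, cons_val_one, cons_val_zero]
      field_simp
    have hm0 : bm q D z 1 ≠ 0 := pow_ne_zero _ (pow_ne_zero _ (div_ne_zero h2 h1))
    have hl0 : bl z 1 ≠ 0 := div_ne_zero (div_ne_zero h1 h2) (pow_ne_zero _ (div_ne_zero h3 h2))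
    rw [← tw_tw (q := q) (br q z 1) (inv_mul_cancel₀ hm0) (inv_mul_cancel₀ hl0) w a]
    refine trans_of_tw ?_ ?_ ?_ ?_ _ a
    · convert mul_mem (pow_mem hm q) hl using 1
      simp only [bm, cons_val_one, cons_val_zero]
      ring
    · simpa only [bm, cons_val_one, cons_val_zero, inv_pow] using pow_mem hm (q + 1)
    · simpa only [bm, br, cons_val_one, cons_val_zero, mul_pow, inv_pow, mul_neg] using
        neg_mem (pow_mem hr (q + 1))
    · simpa only [bm, cons_val_one, cons_val_zero, mul_pow, inv_pow] using pow_mem hl (q + 1)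
  · exact absurd rfl hij

theorem setup_of_gen {R L : Type u} [CommRing R] [Algebra k R] {ζ : Fin 3 → R}
    (huniv : ∀ (T : Type u) [CommRing T] [Algebra k T] (x : Fin 3 → T),
      bΦ D x = 0 → ∃ π : R →ₐ[k] T, ∀ i, π (ζ i) = x i) (hζ : ∀ i, ζ i ≠ 0) (hΦ : bΦ D ζ = 0)
    [Field L] [Algebra k L] [Algebra L K] [IsScalarTower k L K] (ψ : R →ₐ[k] L)
    (hψ : Function.Injective ψ) (p : ℕ) [Fact p.Prime] [CharP k p] (n : ℕ) (hq : q = p ^ (n + 1))
    (hD : q * (q + 1) = D + 3) (hD0 : D ≠ 0) (c : Y) {w : Y ⊕ Fin 2 → K}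
    (H : Gen q (bβ D (fun i => ψ (ζ i)) 0 2) w) (hw : ∀ a, w a ≠ 0)
    (hF : fF q (algebraMap L K (bβ D (fun i => ψ (ζ i)) 0 2)) w = 0) :
    ∃ (z : Fin 3 → K) (x : Fin 2 → Y ⊕ Fin 2 → K), Setup q z (bβ D z) (bg k D) (bT k D) x (bl z) (br q z) := by
  have hp : p.Prime := Fact.out
  have hq0 : q ≠ 0 := hq ▸ pow_ne_zero _ hp.ne_zero
  have hfr (A : Type u) [CommRing A] [Nontrivial A] [Algebra k A] (a b : A) :
      (a + b) ^ q = a ^ q + b ^ q := by
    have : CharP A p := charP_of_injective_algebraMap (algebraMap k A).injective p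
    rw [hq, add_pow_char_pow]
  set y : Fin 3 → L := fun i => ψ (ζ i) with hy
  have hy0 (i) : y i ≠ 0 := (map_ne_zero_iff ψ hψ).mpr (hζ i)
  have hyΦ : bΦ D y = 0 := by simpa [bΦ, y] using congrArg ψ hΦ
  let z : Fin 3 → K := fun i => algebraMap L K (y i)
  have hz0 (i) : z i ≠ 0 := (map_ne_zero _).mpr (hy0 i)
  have hzΦ : bΦ D z = 0 := by simpa [bΦ, z] using congrArg (algebraMap L K) hyΦ
  have eβ (j) : bβ D z j = fun i => algebraMap L K (bβ D y j i) := by
    ext i; fin_cases j <;> fin_cases i <;> simp [bβ, z]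
  have el (j) : algebraMap L K (bl y j) = bl z j := by fin_cases j <;> simp [bl, z]
  have er (j) : algebraMap L K (br q y j) = br q z j := by fin_cases j <;> simp [br, z]
  have em (j) : algebraMap L K (bm q D y j) = bm q D z j := by fin_cases j <;> simp [bm, z]
  have hl0 (j) : bl y j ≠ 0 := by fin_cases j <;> simp [bl, hy0]
  have hm0 (j) : bm q D y j ≠ 0 := by fin_cases j <;> simp [bm, hy0]
  have hl1 (j) : bl z j ≠ 0 := el j ▸ (map_ne_zero _).mpr (hl0 j)
  have hm1 (j) : bm q D z j ≠ 0 := em j ▸ (map_ne_zero _).mpr (hm0 j)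
  have hch := chart_b huniv ((IsScalarTower.toAlgHom k L K).comp ψ)
    ((algebraMap L K).injective.comp hψ) (by rw [← hD, hq]; simp) (z := z) (fun _ => rfl) hz0 hzΦ
  refine ⟨z, fun j a => bm q D z j * tw q (bl z j) (br q z j) w a, hch, fun j => ?_, hz0,
    adj_b hz0, rel_b hz0 hzΦ, trans_b hz0 hzΦ w, fun j => ?_, hl1, fun j => ?_,
    s_eq_b hz0 hzΦ hq0 hD, fun j => ⟨bm q D z j, fun a => ?_⟩, nu_b hz0 hzΦ hD0 (hch 1)⟩
  · have H' := H.twist (hfr _) (s_eq_b hy0 hyΦ hq0 hD j) (hl0 j) (hm0 j)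
    rw [el, er, em] at H'
    rw [eβ]
    refine H'.cone c ?_ fun a => ?_
    · rw [fF_mul, fF_tw (hfr K) (s₀ := algebraMap L K (bβ D y 0 2)), hF, mul_zero, mul_zero]
      rw [s_eq_b hy0 hyΦ hq0 hD j, map_add, map_mul, map_pow, map_pow, el, er]
    · rcases a with a | a
      · exact mul_ne_zero (hm1 j) (mul_ne_zero (hl1 j) (hw _))
      · fin_cases a
        · exact H'.ne
        · exact mul_ne_zero (hm1 j) (mul_ne_zero (pow_ne_zero _ (hl1 j)) (hw _))
  · fin_cases j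
    · exact one_mem _
    · have hu : z 2 / z 1 ∈ (aeval (bβ D z 1) : MvPolynomial (Fin 3) k →ₐ[k] K).range :=
        ⟨X 0, by simp [bβ]⟩
      change bl z 1 ∈ (aeval (bβ D z 1) : MvPolynomial (Fin 3) k →ₐ[k] K).range
      rw [bl_eq hz0 hzΦ]
      exact mul_mem (pow_mem hu _) (inv_eps_mem hz0 hzΦ hu ⟨X 1, by simp [bβ]⟩)
  · fin_cases j
    · simp [br]
    · exact ⟨X 0 ^ (q + 1), by simp [bβ, br, ← inv_pow]⟩
  · congr 2
    ext b
    rcases b with b | b
    · simp [bm, bl, tw]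
    · fin_cases b <;> simp [bm, bl, br, tw]

theorem exists_setup (p : ℕ) [Fact p.Prime] (k : Type u) [Field k] [CharP k p] (n : ℕ)
    (hq : q = p ^ (n + 1)) (hY : 4 ≤ Fintype.card Y) :
    ∃ (K : Type u) (_ : Field K) (_ : Algebra k K) (z : Fin 3 → K) (β : Fin 2 → Fin 3 → K)
      (g T : Fin 2 → MvPolynomial (Fin 3) k) (x : Fin 2 → Y ⊕ Fin 2 → K) (l r : Fin 2 → K),
      Setup q z β g T x l r := by
  have hp : p.Prime := Fact.out
  have hq2 : 2 ≤ q := hq ▸ hp.two_le.trans (Nat.le_self_pow (by omega) p)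
  obtain ⟨D, hD⟩ : ∃ D, q * (q + 1) = D + 1 + 3 := ⟨q * (q + 1) - 4, by
    have : 2 * 2 ≤ q * (q + 1) := Nat.mul_le_mul hq2 (by omega)
    omega⟩
  obtain ⟨R, _, _, _, ζ, hζ, hΦ, huniv⟩ := exists_base_model k (D + 1)
  let L := FractionRing R
  let ψ := IsScalarTower.toAlgHom k R L
  obtain ⟨c, i, j, hic, hjc, hij, -⟩ := exists_four hY (inr 0)
  obtain ⟨W, _, _, _, _, w, -, hF, hw, -, hu⟩ := exists_fibre_model (q := q) L
    (by rw [← map_natCast (algebraMap k L) q, hq]; simp) (by omega)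
    (bβ (D + 1) (fun i => ψ (ζ i)) 0 2) (fun _ => False) hic hjc hij id id id
  let K := FractionRing W
  let _ : Algebra k K := ((algebraMap L K).comp (algebraMap k L)).toAlgebra
  have : IsScalarTower k L K := .of_algebraMap_eq' rfl
  have hinj := IsFractionRing.injective W K
  obtain ⟨z, x, H⟩ := setup_of_gen (K := K) huniv hζ hΦ ψ (IsFractionRing.injective R L) p n hq hD
    (by omega) c (w := fun a => algebraMap W K (w a)) (fun f hf => by
      obtain ⟨θ, hθ⟩ := hu (MvPolynomial (Y ⊕ Fin 2) L ⧸ Ideal.span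
        {(fF q (C (bβ (D + 1) (fun i => ψ (ζ i)) 0 2)) X : MvPolynomial (Y ⊕ Fin 2) L)})
        (fun a => Ideal.Quotient.mkₐ L _ (X a)) (fun _ h => h.elim) (by
          rw [← (Ideal.Quotient.mkₐ L _).commutes, ← map_fF]
          exact Ideal.Quotient.eq_zero_iff_mem.mpr (Ideal.subset_span rfl))
      have h1 : aeval w f = 0 := hinj (by
        rw [map_zero, ← hf]
        exact comp_aeval_apply w (IsScalarTower.toAlgHom L W K) f)
      have h2 : θ (aeval w f) = Ideal.Quotient.mkₐ L _ f :=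
        congr($(show θ.comp (aeval w) = Ideal.Quotient.mkₐ L _ by ext a : 1; simp [hθ]) f)
      rw [h1, map_zero] at h2
      exact Ideal.mem_span_singleton.mp (Ideal.Quotient.eq_zero_iff_mem.mp h2.symm))
    (fun a => (map_ne_zero_iff _ hinj).mpr (hw a)) (by
      rw [IsScalarTower.algebraMap_apply L W K, ← map_fF, hF, map_zero])
  exact ⟨K, _, _, _, _, _, _, x, _, _, H⟩

open AlgebraicGeometry CategoryTheory in
theorem counterexample' (p : ℕ) [Fact p.Prime] (k : Type u) [Field k] [CharP k p] :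
    ∃ (X Z : Scheme.{u}) (_ : IsIntegral X) (_ : IsIntegral Z) (_ : IsLocallyNoetherian X)
      (_ : IsLocallyNoetherian Z) (π : Z ⟶ Spec (.of k)) (h : X ⟶ Z) (_ : Surjective h),
      Smooth π ∧ IsProjective π ∧ Smooth (h ≫ π) ∧ IsProjective (h ≫ π) ∧
      (∀ U : Z.Opens, IsIso (h.app U)) ∧ GeometricallyIntegral h ∧
      geometrically (fun W => ∀ w : W, IsIntegrallyClosed (W.presheaf.stalk w)) h ∧
      (∃ KX, IsCanonicalDiv (h ≫ π) KX) ∧ (∃ KZ, IsCanonicalDiv π KZ) ∧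
      ∀ KX KZ, IsCanonicalDiv (h ≫ π) KX → IsCanonicalDiv π KZ →
        (∃ D E, IsPullbackDiv h D E ∧ QLinEq KX E) ∧
        ¬ ∃ Δ E, 0 ≤ Δ ∧ IsPullbackDiv h (KZ + Δ) E ∧ QLinEq KX E := by
  have hp : p.Prime := Fact.out
  have h8 : 2 ^ (2 + 1) ≤ p ^ (2 + 1) := Nat.pow_le_pow_left hp.two_le _
  have h4 : 4 ≤ Fintype.card (Fin (p ^ (2 + 1) - 1)) := by rw [Fintype.card_fin]; omega
  obtain ⟨K, _, _, z, β, g, T, x, l, r, H⟩ := exists_setup p k 2 rfl h4
  exact H.main (by simp) (by rw [Fintype.card_fin]; omega) h4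

end Pool.Agent.Lib.MP_99f32e_ag
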