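import Pool.Agent.Lib.MP_99f32e_ag.MCyc
import Pool.Agent.Lib.MP_99f32e_ag.RFinal

open MvPolynomial Sum Matrix CategoryTheory

set_option linter.unusedSectionVars false

universe u

namespace Pool.Agent.Lib.MP_99f32e_ag

variable {Y I : Type} [Fintype Y] [DecidableEq Y] [Fintype I] [DecidableEq I] {q : ℕ}

namespace IsMod

variable {R W R' W' : Type u} [CommRing R] [CommRing W] [CommRing R'] [CommRing W']
  {ι : R →+* W} {ι' : R' →+* W'} {s : R} {fx : I → Y ⊕ Fin 2 → Prop} {w : I → Y ⊕ Fin 2 → W}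
  {w' : I → Y ⊕ Fin 2 → W'}

lemma ext (H : IsMod q ι s fx w) {T : Type*} [CommRing T] {α α' : W →+* T}
    (h1 : ∀ r, α (ι r) = α' (ι r)) (h2 : ∀ i a, α (w i a) = α' (w i a)) : α = α' :=
  RingHom.ext (H.gen (α.eqLocus α') h1 h2)

lemma push (H : IsMod q ι s fx w) (φ : R →+* R') (H' : IsMod q ι' (φ s) fx w') :
    ∃ f : W →+* W', IsPushout (CommRingCat.ofHom ι) (CommRingCat.ofHom φ) (CommRingCat.ofHom f)
      (CommRingCat.ofHom ι') ∧ ∀ i a, f (w i a) = w' i a := by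
  obtain ⟨f, h1, h2⟩ := H.lift W' (ι'.comp φ) w' H'.one H'.eq
  refine ⟨f, IsPushout.mk' (CommRingCat.hom_ext (RingHom.ext h1)) (fun S α α' h3 h4 => ?_)
    (fun S α α' h => ?_), h2⟩
  · exact CommRingCat.hom_ext (H'.ext (fun r => congr($h4 r)) fun i a => h2 i a ▸ congr($h3 _))
  · have h3 (r) : α (ι r) = α' (φ r) := congr($h r)
    obtain ⟨θ, h4, h5⟩ := H'.lift S α'.hom (fun i a => α (w i a))
      (fun i a h => by rw [H.one i a h, map_one]) fun i => by rw [← h3, ← map_fF, H.eq, map_zero]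
    exact ⟨CommRingCat.ofHom θ, CommRingCat.hom_ext (H.ext
      (fun r => (congrArg θ (h1 r)).trans ((h4 _).trans (h3 r).symm))
      fun i a => (congrArg θ (h2 i a)).trans (h5 i a)), CommRingCat.hom_ext (RingHom.ext h4)⟩

lemma normal [IsDomain R] [IsIntegrallyClosed R] (H : IsMod q ι s fx w) (hq : (q : R) = 0)
    (hY : 5 ≤ Fintype.card Y) (hq0 : q ≠ 0) (hb : ∀ i, ∃ b, ∀ a, fx i a → a = b) :
    IsIntegrallyClosed W := by
  obtain ⟨W', _, _, _, ι', w', H'⟩ := exists_mod R hq hY hq0 s I fx hb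
  obtain ⟨f, h1, h2⟩ := H.lift W' ι' w' H'.one H'.eq
  obtain ⟨f', h3, h4⟩ := H'.lift W ι w H.one H.eq
  exact .of_equiv (RingEquiv.ofRingHom f' f (H.ext (by simp [h1, h3]) (by simp [h2, h4]))
    (H'.ext (by simp [h1, h3]) (by simp [h2, h4])))

end IsMod

variable {k K : Type u} [Field k] [Field K] [Algebra k K]

/-- coordinates on a chart of the fibre product -/
def cM (β : Fin 3 → K) (x : I → Y ⊕ Fin 2 → K) (b : I → Y ⊕ Fin 2) :
    Fin 3 ⊕ (Y ⊕ Fin 2) × I → K :=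
  Sum.elim β fun v => x v.2 v.1 / x v.2 (b v.2)

/-- coordinate ring of a chart -/
noncomputable abbrev Rg (k : Type u) [Field k] [Algebra k K] {σ : Type} (c : σ → K) : Subalgebra k K :=
  (aeval c : MvPolynomial σ k →ₐ[k] K).range

lemma mem_Rg {σ : Type} (c : σ → K) (v : σ) : c v ∈ Rg k c := ⟨X v, aeval_X _ _⟩

lemma Rg_le {σ : Type} {c : σ → K} {O : Subring K} (h1 : ∀ a, algebraMap k K a ∈ O)
    (h2 : ∀ v, c v ∈ O) : (Rg k c).toSubring ≤ O := by
  rintro _ ⟨f, rfl⟩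
  change aeval c f ∈ O
  induction f using MvPolynomial.induction_on with
  | C a => exact algHom_C (aeval c) a ▸ h1 a
  | add p r hp hr => rw [map_add]; exact add_mem hp hr
  | mul_X p v hp => rw [map_mul, aeval_X]; exact mul_mem hp (h2 v)

lemma le_cM (β : Fin 3 → K) (x : I → Y ⊕ Fin 2 → K) (b : I → Y ⊕ Fin 2) :
    Rg k β ≤ Rg k (cM β x b) :=
  Rg_le (O := (Rg k (cM β x b)).toSubring) (Subalgebra.algebraMap_mem _) fun i => mem_Rg (cM β x b) (inl i)

lemma le_of_cM {β : Fin 3 → K} {x : I → Y ⊕ Fin 2 → K} {b : I → Y ⊕ Fin 2} {O : Subring K}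
    (h1 : (Rg k β).toSubring ≤ O) (h2 : ∀ i a, x i a / x i (b i) ∈ O) :
    (Rg k (cM β x b)).toSubring ≤ O :=
  Rg_le (fun a => h1 ((Rg k β).algebraMap_mem a)) (by
    rintro (i | v)
    · exact h1 (mem_Rg β i)
    · exact h2 _ _)

/-- the chart is the fibre product over the chart of the base -/
def IsChart (k : Type u) [Field k] [Algebra k K] (q : ℕ) (β : Fin 3 → K)
    (x : I → Y ⊕ Fin 2 → K) (b : I → Y ⊕ Fin 2) : Prop :=
  IsMod q (Subalgebra.inclusion (le_cM (k := k) β x b)).toRingHom ⟨β 2, mem_Rg β 2⟩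
    (fun i a => a = b i) fun i a => ⟨x i a / x i (b i), mem_Rg (cM β x b) (inr (a, i))⟩

lemma Chart.normal {β : Fin 3 → K} {g T : MvPolynomial (Fin 3) k} (H : Chart β g T) :
    IsIntegrallyClosed (Rg k β) := by
  obtain ⟨ρ, hρ⟩ := H.exists_rB
  have := smooth_of_jacobian _ _ H.ker H.aeval_gB _ hρ
  exact isIntegrallyClosed_of_smooth k _

theorem isChart_of_isMod {L W : Type u} [Field L] [Algebra k L] [Algebra L K] [IsScalarTower k L K]
    [CommRing W] {β : Fin 3 → L} {g T : MvPolynomial (Fin 3) k} (H : Chart β g T)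
    (hfr : ∀ f : L, ∃ r s : MvPolynomial (Fin 3) k, f = aeval β r / aeval β s)
    (p : ℕ) [Fact p.Prime] [CharP k p] (n : ℕ) (hq : q = p ^ (n + 1)) (hY : 5 ≤ Fintype.card Y)
    {ι : L →+* W} {s₀ l r m : L} {w : I → Y ⊕ Fin 2 → W} (H₀ : IsMod q ι s₀ (fun _ _ => False) w)
    (ψ : W →+* K) (hψ : Function.Injective ψ) (hι : ∀ t, ψ (ι t) = algebraMap L K t)
    (hs : s₀ = r ^ q + l ^ (q * (q + 1)) * β 2) (hl : l ≠ 0) (hm : m ≠ 0)
    {x : I → Y ⊕ Fin 2 → K} (hx : ∀ i a, x i a = ψ (ι m * tw q (ι l) (ι r) (w i) a))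
    (hx0 : ∀ i a, x i a ≠ 0) (b : I → Y ⊕ Fin 2) :
    IsChart k q (fun i => algebraMap L K (β i)) x b := by
  have hp : p.Prime := Fact.out
  have hfr' (A : Type u) [Field A] [Algebra k A] (a b : A) : (a + b) ^ q = a ^ q + b ^ q := by
    have : CharP A p := charP_of_injective_algebraMap (algebraMap k A).injective p
    rw [hq, add_pow_char_pow]
  set β' := fun i => algebraMap L K (β i) with hβ'
  refine ⟨Subalgebra.inclusion_injective _, fun i a h => Subtype.ext (h ▸ div_self (hx0 _ _)),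
    fun i => Subtype.ext ?_,
    fun i a h => div_ne_zero (hx0 _ _) (hx0 _ _) congr($h.1), fun S h1 h2 t => ?_,
    fun S _ φ y h1 h2 => ?_⟩
  · refine (map_fF (q := q) (Rg k (cM β' x b)).val ⟨β' 2, le_cM _ _ _ (mem_Rg β' 2)⟩
      fun a => ⟨x i a / x i (b i), mem_Rg (cM β' x b) (inr (a, i))⟩).trans ?_
    change fF q (β' 2) (fun a => x i a / x i (b i)) = 0
    have h1 : x i = fun a => algebraMap L K m *
        tw q (algebraMap L K l) (algebraMap L K r) (fun a => ψ (w i a)) a := by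
      ext a; rw [hx, map_mul, map_tw, hι, hι, hι]
    simp only [div_eq_inv_mul]
    rw [fF_mul, h1, fF_mul, fF_tw (hfr' K) (s₀ := ψ (ι s₀)) (by simp [hι, hs, β']), ← map_fF,
      H₀.eq, map_zero, mul_zero, mul_zero, mul_zero]
  · obtain ⟨t', ht, e⟩ := le_of_cM (O := S.map (Rg k (cM β' x b)).val.toRingHom)
      (fun a ha => ⟨_, h1 ⟨a, ha⟩, rfl⟩) (fun i a => ⟨_, h2 i a, rfl⟩) t.2
    exact (Subtype.ext e : t' = t) ▸ ht
  have := H.normal
  obtain ⟨W', _, _, -, ι', w', H'⟩ := exists_mod (q := q) (Rg k β)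
    (by rw [← map_natCast (algebraMap k _), hq]; simp) hY (hq ▸ pow_ne_zero _ hp.ne_zero)
    ⟨β 2, mem_Rg β 2⟩ I (fun i a => a = b i) fun i => ⟨b i, fun _ h => h⟩
  let K' := FractionRing W'
  have hK' := IsFractionRing.injective W' K'
  have : IsFractionRing (Rg k β) L := .of_field _ _ fun f => by
    obtain ⟨r, s, h⟩ := hfr f
    exact ⟨⟨_, r, rfl⟩, ⟨_, s, rfl⟩, h⟩
  let φL : L →+* K' := IsFractionRing.lift (g := (algebraMap W' K').comp ι') (hK'.comp H'.inj)
  have hφL (t : Rg k β) : φL t = algebraMap W' K' (ι' t) := IsFractionRing.lift_algebraMap _ t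
  let _ : Algebra k K' := (φL.comp (algebraMap k L)).toAlgebra
  let _ : Algebra k W := (ι.comp (algebraMap k L)).toAlgebra
  have hl' := (map_ne_zero φL).mpr hl
  have hm' := (map_ne_zero φL).mpr hm
  have htw (i a) := tw_tw (q := q) (-(φL r * (φL l)⁻¹ ^ (q + 1))) (mul_inv_cancel₀ hm')
    (mul_inv_cancel₀ hl') (fun a => algebraMap W' K' (w' i a)) a
  rw [neg_mul, neg_neg, mul_assoc (φL r), ← mul_pow, inv_mul_cancel₀ hl', one_pow, mul_one] at htw
  obtain ⟨π, hπ1, hπ2⟩ := H₀.lift K' φL (fun i a => (φL m)⁻¹ * tw q (φL l)⁻¹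
      (-(φL r * (φL l)⁻¹ ^ (q + 1))) (fun a => algebraMap W' K' (w' i a)) a) (fun _ _ => False.elim)
      fun i => by
    have h3 := (map_fF (algebraMap W' K') _ _).symm.trans
      ((congrArg (algebraMap W' K') (H'.eq i)).trans (map_zero _))
    rw [← funext (htw i), fF_mul, ← hφL,
      fF_tw (hfr' K') (s₀ := φL s₀) (by simp [hs])] at h3
    simpa [hl, hm] using h3
  let Z (i a) : W := ι m * tw q (ι l) (ι r) (w i) a
  have hZ (i a) : π (Z i a) = algebraMap W' K' (w' i a) := by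
    simp only [Z, map_mul, map_tw, hπ1, hπ2, htw]
  have hZ1 (i) : π (Z i (b i)) = 1 := by rw [hZ, H'.one i _ rfl, map_one]
  let ρ : Rg k β →+* Rg k β' := ((algebraMap L K).comp (Rg k β).val.toRingHom).codRestrict _
    fun t => Rg_le (O := (Rg k β').toSubring.comap (algebraMap L K))
      (fun a => (IsScalarTower.algebraMap_apply k L K a ▸ algebraMap_mem (Rg k β') a :))
      (mem_Rg β') t.2
  obtain ⟨θ, hθ1, hθ2⟩ := H'.lift S (φ.comp ρ) y h1 h2
  let ev : MvPolynomial (Fin 3 ⊕ (Y ⊕ Fin 2) × I) k →+* W' :=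
    eval₂Hom (ι'.comp (algebraMap k _)) (Sum.elim (fun i => ι' ⟨β i, mem_Rg β i⟩) fun v => w' v.2 v.1)
  obtain ⟨f₁, hf₁⟩ := exists_lift_range (cM β' x b) (θ.comp ev) fun f hf => by
    obtain ⟨N, f', e1, e2⟩ := clear_denom' (k := k)
      ⟨ψ, fun a => (hι _).trans (IsScalarTower.algebraMap_apply k L K a).symm⟩
      ⟨π, fun a => hπ1 _⟩ (∏ i, Z i (b i)) (by simp [hZ1]) (cM β' x b)
      (fun v => algebraMap W' K' (ev (X v))) (by
        rintro (i | ⟨a, i⟩)
        · exact ⟨0, ι (β i), by simp [cM, hι, β'], by simp [hπ1, ev, ← hφL]⟩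
        · refine ⟨1, Z i a * ∏ j ∈ Finset.univ.erase i, Z j (b j), ?_, by simp [hZ, ev, H'.one]⟩
          have := hx0 i (b i)
          change ψ _ ^ 1 * (x i a / x i (b i)) = ψ _
          rw [← Finset.mul_prod_erase _ _ (Finset.mem_univ i), map_mul ψ (Z _ _), map_mul ψ (Z _ _),
            ← hx, ← hx]
          field_simp) f
    rw [hf, mul_zero, eq_comm] at e1
    rw [(map_eq_zero_iff _ hψ).mp e1, map_zero] at e2
    have e3 : (aeval fun v => algebraMap W' K' (ev (X v))).toRingHom = (algebraMap W' K').comp ev := by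
      ext a
      · simpa [ev] using! hφL (algebraMap k _ a)
      · simp
    have e4 : ev f = 0 := hK' (congr($e3 f).symm.trans (e2.symm.trans (map_zero _).symm))
    rw [RingHom.comp_apply, e4, map_zero]
  refine ⟨f₁, fun t => ?_, fun i a => ?_⟩
  · obtain ⟨t', ht, e⟩ := Rg_le (O := ((f₁.comp (Subalgebra.inclusion
      (le_cM (k := k) β' x b)).toRingHom).eqLocus φ).map (Rg k β').val.toRingHom)
      (fun a => ⟨algebraMap k _ a, by
        have := hf₁ (C a)
        rw [algHom_C, RingHom.comp_apply, eval₂Hom_C, RingHom.comp_apply, hθ1] at this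
        exact this.trans (congrArg φ (Subtype.ext (IsScalarTower.algebraMap_apply k L K a).symm)),
        rfl⟩)
      (fun i => ⟨⟨β' i, mem_Rg β' i⟩, by
        have := hf₁ (X (inl i))
        rw [RingHom.comp_apply, eval₂Hom_X', elim_inl, hθ1] at this
        exact (congrArg f₁ (Subtype.ext (aeval_X (cM β' x b) (inl i)).symm)).trans this, rfl⟩) t.2
    exact (Subtype.ext e : t' = t) ▸ ht
  · have := hf₁ (X (inr (a, i)))
    rw [RingHom.comp_apply, eval₂Hom_X', elim_inr, hθ2] at this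
    exact (congrArg f₁ (Subtype.ext (aeval_X (cM β' x b) (inr (a, i))).symm)).trans this

end Pool.Agent.Lib.MP_99f32e_ag
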