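import Pool.Agent.Lib.MP_99f32e_ag.MDiv
import Pool.Agent.Lib.MP_99f32e_ag.MDefs

open AlgebraicGeometry CategoryTheory MvPolynomial Sum Matrix WithZero

set_option linter.unusedSectionVars false

universe u

namespace Pool.Agent.Lib.MP_99f32e_ag

attribute [local instance] Model.constAlg

lemma isLeast_cast {α β : Type*} {p : α → β → Prop} {f : β → ℤ} {a : ℤ}
    (h : IsLeast {r : ℤ | ∃ x y, p x y ∧ r = f y} a) :
    IsLeast {r : ℚ | ∃ x y, p x y ∧ r = f y} (a : ℚ) := by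
  obtain ⟨⟨x, y, h1, h2⟩, h3⟩ := h
  refine ⟨⟨x, y, h1, by rw [h2]⟩, ?_⟩
  rintro _ ⟨x, y, h4, rfl⟩
  exact_mod_cast h3 ⟨x, y, h4, rfl⟩

variable {Y I : Type} [Fintype Y] [DecidableEq Y] [Fintype I] [DecidableEq I] {q : ℕ}
  {k K : Type u} [Field k] [Field K] [Algebra k K]

namespace MSetup

variable {z : Fin 3 → K} {β : Fin 2 → Fin 3 → K} {g T : Fin 2 → MvPolynomial (Fin 3) k}
  {x : Fin 2 → I → Y ⊕ Fin 2 → K} {l r : Fin 2 → K} (H : MSetup q z β g T x l r)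
include H

theorem main (hq : (q : k) = 0) (hY : Fintype.card Y + 1 = q) (h5 : 5 ≤ Fintype.card Y)
    (hI : Fintype.card I ≤ q) (hfr : ∀ a b : K, (a - b) ^ q = a ^ q - b ^ q) (t₀ : I) {α : ℕ}
    (hα : q * (q + 1) = α + Fintype.card Y * Fintype.card I) :
    ∃ (X Z : Scheme.{u}) (_ : IsIntegral X) (_ : IsIntegral Z) (_ : IsLocallyNoetherian X)
      (_ : IsLocallyNoetherian Z) (π : Z ⟶ Spec (.of k)) (h : X ⟶ Z) (_ : Surjective h),
      SmoothOfRelativeDimension 1 π ∧ IsProjective π ∧ IsKlt (h ≫ π) ∧ IsProjective (h ≫ π) ∧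
      (∀ U : Z.Opens, IsIso (h.app U)) ∧ GeometricallyIntegral h ∧
      geometrically (fun W => ∀ w : W, IsIntegrallyClosed (W.presheaf.stalk w)) h ∧
      (∃ KX, IsCanonicalDiv (h ≫ π) KX) ∧ (∃ KZ, IsCanonicalDiv π KZ) ∧
      ∀ KX KZ, IsCanonicalDiv (h ≫ π) KX → IsCanonicalDiv π KZ →
        (∃ E, IsPullbackDiv h (((α : ℚ) / (q * (q + 1) : ℕ)) • KZ) E ∧ QLinEq KX E) ∧
        ∀ t : ℚ, (α : ℚ) / (q * (q + 1) : ℕ) < t →
          ¬ ∃ Δ E, 0 ≤ Δ ∧ IsPullbackDiv h (t • KZ + Δ) E ∧ QLinEq KX E := by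
  have hq0 : q ≠ 0 := by omega
  have H₀ := H.one t₀
  obtain ⟨N⟩ := H₀.nonempty_base
  obtain ⟨M⟩ := H.nonempty_total t₀
  obtain ⟨h, hγ, hU⟩ := M.exists_hom N Prod.fst fun j => le_cM _ _ _
  have hsurj := Model.surjective_hom hγ
  choose ρ hρ using fun j => (H₀.chart j).exists_rB
  have hnZ := N.normal fun a => (H₀.chart a).normal
  have hnX := M.normal fun j => by
    have := (H₀.chart j.1).normal
    exact IsMod.normal (H.mod j.1 j.2) (by rw [← map_natCast (algebraMap k _), hq, map_zero]) h5 hq0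
      fun t => ⟨j.2 t, fun _ h => h⟩
  have hfib := H.fibres hq hq0 h5 hγ hU
  refine ⟨M.X, N.X, inferInstance, inferInstance, inferInstance, inferInstance, N.π, h, hsurj, ?_⟩
  rw [Model.comp_π hγ]
  obtain ⟨cN, hcN⟩ := N.exists_lift
  obtain ⟨cM', hcM⟩ := M.exists_lift
  choose l' hl' hreg using fun j => N.exists_emb_eq (H₀.l_mem j)
  have hl0 (j) : l' j ≠ 0 := by rw [← map_ne_zero N.emb, hl']; exact H₀.l_ne j
  have hemb (j) : M.emb (pullFun h (l' j)) = l j := by rw [Model.emb_pullFun hγ, hl']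
  have hl1 (j) : pullFun h (l' j) ≠ 0 := (map_ne_zero (pullFun h).hom).mpr (hl0 j)
  obtain ⟨n, ⟨b⟩⟩ := M.exists_basis hcM
  obtain ⟨P, hP, hc⟩ := H.canon hq hY h5 hI hfr t₀ hα M hnX _ hemb b
  choose j hj using M.cov
  have hP' (a) : P / pullFun h (l' a) ^ α ≠ 0 := div_ne_zero hP (pow_ne_zero _ (hl1 a))
  refine ⟨N.smoothDim 1 fun a => (H₀.chart a).stdSmooth, N.proj,
    ⟨hnX, n, fun a => b.det fun i => KaehlerDifferential.D k M.X.functionField (a i), 1,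
      ⟨b, fun _ => rfl⟩, one_pos, fun y => ⟨(P / pullFun h (l' (j y).1) ^ α)⁻¹,
        inv_ne_zero (hP' _), fun y' hy' => ?_, fun v hv ho => ?_⟩⟩, M.proj,
    Model.isIso_app hγ Prod.fst hU fun a φ hφ =>
      mem_of_forall_mem' (H.mod a _) φ fun b => hφ (a, b) rfl,
    ⟨fun _ _ y _ fst snd hW => (hfib y fst snd hW).1⟩,
    fun _ _ y _ fst snd hW => (hfib y fst snd hW).2,
    ⟨fun y => -M.X.ord (P / pullFun h (l' (j y).1) ^ α) y, n,
      fun a => b.det fun i => KaehlerDifferential.D k M.X.functionField (a i), ⟨b, fun _ => rfl⟩,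
      fun y => ?_⟩,
    N.exists_isCanonicalDiv hcN (fun j => gB (g j) (T j)) (fun j => (H₀.chart j).ker)
      (fun j => (H₀.chart j).aeval_gB) ρ hρ,
    fun KX KZ hKX hKZ => ?_⟩
  · rw [ord_inv' (hP' _), neg_neg]
    simpa only [Nat.cast_one, one_mul] using
      (hc _ y' (hy'.mem_open (M.U _).isOpen (hj y))).1
  · obtain ⟨a, h1, h2⟩ := (hc _ y (hj y)).2 v hv ho
    refine ⟨a, h1, lt_of_lt_of_le (b := 1) (exp_lt_exp.mpr (by simp) : exp (-(1 : ℕ) : ℤ) < exp 0) ?_⟩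
    rw [pow_one, map_mul, map_inv₀, ← div_eq_mul_inv]
    exact (one_le_div₀ ((Valuation.pos_iff v).mpr (hP' _))).mpr h2
  · have := (hc _ y (hj y)).1
    simp only [← and_assoc] at this ⊢
    rw [neg_neg]
    exact isLeast_cast this
  obtain ⟨PZ, hPZ, hKZ'⟩ := H₀.canon_base hq N l' hl' hKZ
  obtain ⟨n', F, ⟨b', hb'⟩, hF⟩ := hKX
  obtain ⟨PX, hPX, hc'⟩ := H.canon hq hY h5 hI hfr t₀ hα M hnX _ hemb b'
  have hKX' (a) (y : M.X) (hy : h y ∈ N.U a) :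
      KX y = -M.X.ord PX y + α * M.X.ord (pullFun h (l' a)) y := by
    obtain ⟨c, hc⟩ := H.cover hγ y a hy
    have h1 := (hc' (a, c) y hc).1
    have h2 := hF y
    simp only [hb', ← and_assoc] at h1 h2
    have h3 := h2.unique (isLeast_cast h1)
    rw [div_eq_mul_inv, Scheme.ord_mul hPX (inv_ne_zero (pow_ne_zero _ (hl1 a))),
      ord_inv' (pow_ne_zero _ (hl1 a)), ord_pow' (hl1 a)] at h3
    push_cast at h3
    linarith
  have hγ0 : 0 < q * (q + 1) := by positivity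
  refine ⟨pullback_tau h N.U N.cov l' hl0 _ _ hγ0 KX KZ PX hPX PZ hPZ hKX' hKZ', fun t ht =>
    not_effective_tau h N.U N.cov l' hl0 _ _ hγ0 KX KZ PX hPX PZ hPZ hKX' hKZ' hnX hnZ
      (isField_of_universallyClosed k M.π) hreg 1 (fun hinv => H₀.nu ?_) ht⟩
  refine mem_of_forall_mem' (H.mod 1 _) _ fun b => ?_
  have := M.emb_mem (j := (1, b)) fun y hy => hinv y (hU _ hy)
  rwa [map_inv₀, hemb] at this

end MSetup

theorem no_weak_formula (p : ℕ) [Fact p.Prime] (k : Type u) [Field k] [CharP k p] (ε : ℚ)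
    (hε : 0 < ε) :
    ∃ (X Z : Scheme.{u}) (_ : IsIntegral X) (_ : IsIntegral Z) (_ : IsLocallyNoetherian X)
      (_ : IsLocallyNoetherian Z) (π : Z ⟶ Spec (.of k)) (h : X ⟶ Z) (_ : Surjective h) (τ : ℚ),
      0 < τ ∧ τ < ε ∧
      SmoothOfRelativeDimension 1 π ∧ IsProjective π ∧ IsKlt (h ≫ π) ∧ IsProjective (h ≫ π) ∧
      (∀ U : Z.Opens, IsIso (h.app U)) ∧ GeometricallyIntegral h ∧
      geometrically (fun W => ∀ w : W, IsIntegrallyClosed (W.presheaf.stalk w)) h ∧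
      (∃ KX, IsCanonicalDiv (h ≫ π) KX) ∧ (∃ KZ, IsCanonicalDiv π KZ) ∧
      ∀ KX KZ, IsCanonicalDiv (h ≫ π) KX → IsCanonicalDiv π KZ →
        (∃ E, IsPullbackDiv h (τ • KZ) E ∧ QLinEq KX E) ∧
        ∀ t : ℚ, τ < t → ¬ ∃ Δ E, 0 ≤ Δ ∧ IsPullbackDiv h (t • KZ + Δ) E ∧ QLinEq KX E := by
  have hp : p.Prime := Fact.out
  obtain ⟨n, hn⟩ : ∃ n : ℕ, 6 ≤ p ^ (n + 1) ∧ 2 / ε < (p ^ (n + 1) : ℕ) := by
    have h1 (n : ℕ) : n < p ^ (n + 1) := (Nat.lt_succ_self n).trans (Nat.lt_pow_self hp.one_lt)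
    refine ⟨⌈2 / ε⌉₊ + 6, by have := h1 (⌈2 / ε⌉₊ + 6); omega, (Nat.le_ceil _).trans_lt ?_⟩
    exact_mod_cast (by have := h1 (⌈2 / ε⌉₊ + 6); omega)
  obtain ⟨q, hq⟩ : ∃ q, q = p ^ (n + 1) := ⟨_, rfl⟩
  rw [← hq] at hn
  obtain ⟨m, rfl⟩ : ∃ m, q = m + 1 := ⟨q - 1, by omega⟩
  have h5 : 5 ≤ Fintype.card (Fin m) := by rw [Fintype.card_fin]; omega
  obtain ⟨K, _, _, z, β, g, T, x, l, r, H⟩ := exists_msetup (I := Fin (m + 1)) p k n hq h5
  have : CharP K p := charP_of_injective_algebraMap (algebraMap k K).injective p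
  obtain ⟨X, Z, i1, i2, i3, i4, π, h, hs, hm⟩ := H.main (α := 2 * (m + 1)) (by rw [hq]; simp) (by simp) h5
    (by simp) (fun a b => by rw [hq, sub_pow_char_pow]) 0 (by simp only [Fintype.card_fin]; ring)
  refine ⟨X, Z, i1, i2, i3, i4, π, h, hs, _, by positivity, ?_, hm⟩
  have h6 := hn.2
  rw [div_lt_iff₀ hε] at h6
  rw [div_lt_iff₀ (by positivity)]
  push_cast at h6 ⊢
  have h7 : (0 : ℚ) < m + 1 := by positivity
  nlinarith [mul_pos hε h7]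

end Pool.Agent.Lib.MP_99f32e_ag
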