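import Pool.Agent.Lib.MP_99f32e_ag.Final
import Pool.Agent.Lib.MP_99f32e_ag.Canon
import Pool.Agent.Lib.MP_99f32e_ag.Inter

open AlgebraicGeometry CategoryTheory MvPolynomial Sum Matrix

set_option linter.unusedSectionVars false

universe u

namespace Pool.Agent.Lib.MP_99f32e_ag

attribute [local instance] Model.constAlg

variable {k K : Type u} [Field k] [Field K] [Algebra k K] {I : Type} [Fintype I] [DecidableEq I]
  {q : ℕ} {z x : I → K}

/-- models of the base -/
abbrev BaseModel (k : Type u) [Field k] [Algebra k K] (z : I → K) :=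
  Model k K I fun a => (aeval (cZ z a) : MvPolynomial I k →ₐ[k] K).range

/-- models of the total space -/
abbrev TotalModel (k : Type u) [Field k] [Algebra k K] (z x : I → K) :=
  Model k K {j : I × I // j.1 ≠ j.2} fun j =>
    (aeval (cX z x j.1.1 j.1.2) : MvPolynomial (I ⊕ I) k →ₐ[k] K).range

namespace Generic

variable (H : Generic k q z x)
include H

lemma nonempty_base (o : I) : Nonempty (BaseModel k z) := by
  have := exists_model (k := k) z id o H.z_ne fun _ _ _ h => h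
  simpa only [id, H.adjoin_Z] using this

lemma nonempty_total (o : I) : Nonempty (TotalModel k z x) := by
  obtain ⟨o', ho', -, -⟩ := H.big o o o
  have := exists_model (k := k) (fun v : I × I × I => z v.1 * ww z x v.2.1 v.2.2)
    (fun j : {j : I × I // j.1 ≠ j.2} => (j.1.1, j.1.1, j.1.2)) ⟨(o, o'), ho'.symm⟩
    (fun j => mul_ne_zero (H.z_ne _) (H.w_ne j.2)) cover_X
  rwa [show (fun j : {j : I × I // j.1 ≠ j.2} => Algebra.adjoin k (Set.range fun v : I × I × I =>
    z v.1 * ww z x v.2.1 v.2.2 / (z j.1.1 * ww z x j.1.1 j.1.2))) = _ from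
      funext fun j => H.adjoin_X j.2] at this

lemma hrZ (hq : (q : k) = 0) (a : I) :
    (Matrix.of fun l i => aeval (cZ z a) (rZ k a l i)) * (gradMat (cZ z a) (gZ k q a))ᵀ = 1 :=
  rZ_mul hq _ a (H.cZ_self a) (H.hF_cZ a)

lemma hrX (hq : (q : k) = 0) {a b : I} (hab : a ≠ b) :
    (Matrix.of fun l i => aeval (cX z x a b) (rX k q a b l i)) *
      (gradMat (cX z x a b) (gX k q a b))ᵀ = 1 :=
  rX_mul hq H.q0 _ a b hab (H.cZ_self a) (by simp [cX, ww]) (div_self (H.w_ne hab)) (H.hF_cZ a)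
    (H.hs_div a _)

lemma canon_base (hq : (q : k) = 0) (hI : Fintype.card I = q + 1) (N : BaseModel k z) (o : I)
    (l : I → N.X.functionField) (hl : ∀ a, N.emb (l a) = z o / z a)
    {D : N.X → ℚ} (hD : IsCanonicalDiv N.π D) :
    ∃ P : N.X.functionField, P ≠ 0 ∧
      ∀ a, ∀ y ∈ N.U a, D y = -N.X.ord P y + q * N.X.ord (l a) y := by
  obtain ⟨c', hc'⟩ := N.exists_lift
  obtain ⟨n, b, e, η, h0, h1, h2⟩ := N.of_isCanonicalDiv hc' (gZ k q) H.ker_cZ H.aeval_gZ (rZ k)
    (H.hrZ hq) hD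
  have hz := H.z_ne
  have hl0 (a) : l a ≠ 0 := by
    rw [← map_ne_zero N.emb, hl]; exact div_ne_zero (hz _) (hz _)
  have hc (a) : c' a = fun i => l a * c' o i := by
    funext i
    apply N.emb.injective
    have := hz o
    have := hz a
    simp only [map_mul, hc', hl, cZ]
    field_simp
  have h3 (a) : η a * l a ^ q = _ := changeZ b hq hI e (c' o) (Pi.single o 1)
    (N.emb.injective (by simpa [hc'] using H.hF_cZ o))
    (N.emb.injective (by simp [Pi.single_apply, hc', H.cZ_self])) a (l a)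
    (N.emb.injective (by
      have := hz o
      have := hz a
      simp only [map_mul, hc', hl, cZ, map_one]
      field_simp)) (η a) (hc a ▸ h1 a)
  refine ⟨_, h3 o ▸ mul_ne_zero (h0 o) (pow_ne_zero q (hl0 o)), fun a y hy => ?_⟩
  rw [h2 a y hy, ← h3 a, Scheme.ord_mul (h0 a) (pow_ne_zero q (hl0 a)), ord_pow' (hl0 a)]
  push_cast
  ring

lemma canon_total (p : ℕ) [Fact p.Prime] [CharP k p] (n : ℕ) (hqp : q = p ^ (n + 1))
    (hI : Fintype.card I = q + 1) (M : TotalModel k z x) (o : I)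
    (l : I → M.X.functionField) (hl : ∀ a, M.emb (l a) = z o / z a)
    {D : M.X → ℚ} (hD : IsCanonicalDiv M.π D) :
    ∃ P : M.X.functionField, P ≠ 0 ∧
      ∀ j, ∀ y ∈ M.U j, D y = -M.X.ord P y + (q - 1 : ℕ) * M.X.ord (l j.1.1) y := by
  have hp : p.Prime := Fact.out
  have hq : (q : k) = 0 := by rw [hqp]; simp
  obtain ⟨c', hc'⟩ := M.exists_lift
  obtain ⟨n, b, e, η, h0, h1, h2⟩ := M.of_isCanonicalDiv hc' (fun j => gX k q j.1.1 j.1.2)
    (fun j => H.ker_cX j.2) (fun j => H.aeval_gX j.2) (fun j => rX k q j.1.1 j.1.2)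
    (fun j => H.hrX hq j.2) hD
  have hz := H.z_ne
  obtain ⟨o', ho', -, -⟩ := H.big o o o
  have hw := H.w_ne ho'.symm
  let z' : I → M.X.functionField := fun i => c' ⟨(o, o'), ho'.symm⟩ (inl i)
  let x' : I → M.X.functionField := fun i => c' ⟨(o, o'), ho'.symm⟩ (inr i)
  have hz' (i) : M.emb (z' i) = z i / z o := hc' _ _
  have hx' (i) : M.emb (x' i) = ww z x o i / ww z x o o' := hc' _ _
  have hw' (i j) : M.emb (ww z' x' i j) = ww z x i j / ww z x o o' := by
    have := hz o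
    rw [ww, map_sub, map_mul, map_mul, map_pow, map_pow, hz', hz', hx', hx']
    field_simp
    simp only [ww]
    ring
  have hw0 {a b : I} (hab : a ≠ b) : ww z' x' a b ≠ 0 := by
    rw [← map_ne_zero M.emb, hw']; exact div_ne_zero (H.w_ne hab) hw
  have hl0 (a) : l a ≠ 0 := by
    rw [← map_ne_zero M.emb, hl]; exact div_ne_zero (hz _) (hz _)
  have hzo : z' o = 1 := M.emb.injective (by rw [hz', div_self (hz o), map_one])
  have hxo : x' o = 0 := M.emb.injective (by rw [hx']; simp [ww])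
  have hxo' : x' o' = 1 := M.emb.injective (by rw [hx', div_self hw, map_one])
  have hc (j : {j : I × I // j.1 ≠ j.2}) : c' j = Sum.elim (fun i => l j.1.1 * z' i)
      fun i => z' j.1.1 ^ 2 / ww z' x' j.1.1 j.1.2 * x' i +
        -x' j.1.1 / ww z' x' j.1.1 j.1.2 * z' i ^ 2 := by
    funext v
    apply M.emb.injective
    rcases v with i | i
    · have := hz o
      have := hz j.1.1
      rw [hc', elim_inl, map_mul, hl, hz', cX, elim_inl, cZ]
      field_simp
    · have h4 : z' j.1.1 ^ 2 / ww z' x' j.1.1 j.1.2 * x' i +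
          -x' j.1.1 / ww z' x' j.1.1 j.1.2 * z' i ^ 2 =
          ww z' x' j.1.1 i / ww z' x' j.1.1 j.1.2 := by
        rw [ww.eq_1 z' x' j.1.1 i]; ring
      have := H.w_ne j.2
      rw [hc', elim_inr, h4, map_div₀, hw', hw', cX, elim_inr]
      field_simp
  have h3 (j : {j : I × I // j.1 ≠ j.2}) : η j * l j.1.1 ^ (q - 1) = _ :=
    changeX b p _ hqp hI e z' x' (Pi.single o 1)
    (fun i => (Pi.single o' 1 : I → M.X.functionField) i -
      z' o' ^ (2 * q) * (Pi.single o 1 : I → M.X.functionField) i)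
    (M.emb.injective (by simpa [hz', cZ] using H.hF_cZ o))
    (M.emb.injective (by simpa [hz', hx', cZ] using H.hs_div o (ww z x o o')))
    (by simp [Pi.single_apply, hzo]) (by simp [Pi.single_apply, hxo, H.q0])
    (by simp [Pi.single_apply, sub_mul, hzo]) (by simp [Pi.single_apply, sub_mul, hxo, hxo', H.q0])
    j.1.1 j.1.2 (l j.1.1) _ _
    (M.emb.injective (by
      have := hz o
      have := hz j.1.1
      simp only [map_mul, hz', hl, map_one]
      field_simp)) (by ring) (by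
      have := hw0 j.2
      field_simp
      simp only [ww]
      ring) (η j) (hc j ▸ h1 j)
  refine ⟨_, h3 ⟨(o, o'), ho'.symm⟩ ▸ mul_ne_zero (h0 _) (pow_ne_zero _ (hl0 _)),
    fun j y hy => ?_⟩
  rw [h2 j y hy, ← h3 j, Scheme.ord_mul (h0 j) (pow_ne_zero _ (hl0 _)), ord_pow' (hl0 _)]
  push_cast
  ring

theorem main (p : ℕ) [Fact p.Prime] [CharP k p] (n : ℕ) (hqp : q = p ^ (n + 1))
    (hI : Fintype.card I = q + 1) :
    ∃ (X Z : Scheme.{u}) (_ : IsIntegral X) (_ : IsIntegral Z) (_ : IsLocallyNoetherian X)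
      (_ : IsLocallyNoetherian Z) (π : Z ⟶ Spec (.of k)) (h : X ⟶ Z) (_ : Surjective h),
      Smooth π ∧ IsProjective π ∧ Smooth (h ≫ π) ∧ IsProjective (h ≫ π) ∧
      (∀ U : Z.Opens, IsIso (h.app U)) ∧
      (∃ KX, IsCanonicalDiv (h ≫ π) KX) ∧ (∃ KZ, IsCanonicalDiv π KZ) ∧
      ∀ KX KZ, IsCanonicalDiv (h ≫ π) KX → IsCanonicalDiv π KZ →
        (∃ D E, IsPullbackDiv h D E ∧ QLinEq KX E) ∧
        ¬ ∃ Δ E, 0 ≤ Δ ∧ IsPullbackDiv h (KZ + Δ) E ∧ QLinEq KX E := by
  have hq : (q : k) = 0 := by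
    have hp : p.Prime := Fact.out
    rw [hqp]; simp
  obtain ⟨o⟩ : Nonempty I := Fintype.card_pos_iff.mp (by omega)
  obtain ⟨N⟩ := H.nonempty_base o
  obtain ⟨M⟩ := H.nonempty_total o
  obtain ⟨h, hγ, hU⟩ := M.exists_hom N (fun j => j.1.1) fun j => range_le_of_elim _ _
  have hsurj := Model.surjective_hom hγ
  have hsZ (a : I) : Algebra.Smooth k (aeval (cZ z a) : MvPolynomial I k →ₐ[k] K).range :=
    smooth_of_jacobian _ _ (H.ker_cZ a) (H.aeval_gZ a) _ (H.hrZ hq a)
  have hsX (j : {j : I × I // j.1 ≠ j.2}) : Algebra.Smooth k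
      (aeval (cX z x j.1.1 j.1.2) : MvPolynomial (I ⊕ I) k →ₐ[k] K).range :=
    smooth_of_jacobian _ _ (H.ker_cX j.2) (H.aeval_gX j.2) _ (H.hrX hq j.2)
  have hnZ := N.normal fun a => have := hsZ a; isIntegrallyClosed_of_smooth k _
  have hnX := M.normal fun j => have := hsX j; isIntegrallyClosed_of_smooth k _
  refine ⟨M.X, N.X, inferInstance, inferInstance, inferInstance, inferInstance, N.π, h, hsurj, ?_⟩
  rw [Model.comp_π hγ]
  obtain ⟨cN, hcN⟩ := N.exists_lift
  obtain ⟨cM, hcM⟩ := M.exists_lift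
  refine ⟨N.smooth hsZ, N.proj, M.smooth hsX, M.proj,
    Model.isIso_app hγ (fun j => j.1.1) hU fun a φ hφ => ?_,
    M.exists_isCanonicalDiv hcM (fun j => gX k q j.1.1 j.1.2)
      (fun j => H.ker_cX j.2) (fun j => H.aeval_gX j.2) (fun j => rX k q j.1.1 j.1.2)
      (fun j => H.hrX hq j.2),
    N.exists_isCanonicalDiv hcN (gZ k q) H.ker_cZ H.aeval_gZ (rZ k) (H.hrZ hq),
    fun KX KZ hKX hKZ => ?_⟩
  · obtain ⟨b, hb, -, -⟩ := H.big a a a
    obtain ⟨c, hc, hcb, -⟩ := H.big a b b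
    exact H.mem_of_mem_inter hb.symm hc.symm hcb.symm φ (hφ ⟨(a, b), hb.symm⟩ rfl)
      (hφ ⟨(a, c), hc.symm⟩ rfl)
  have hz := H.z_ne
  have hreg (a i : I) (y : N.X) (hy : y ∈ N.U a) :
      cN a i ∈ (algebraMap (N.X.presheaf.stalk y) N.X.functionField).range :=
    N.mem_stalk (j := a) (by rw [hcN]; exact ⟨X i, by simp⟩) hy
  have hc0 (a i : I) : cN a i ≠ 0 := by
    rw [← map_ne_zero N.emb, hcN]; exact div_ne_zero (hz _) (hz _)
  have hne (a i : I) : pullFun h (cN a i) ≠ 0 := (map_ne_zero (pullFun h).hom).mpr (hc0 a i)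
  have hemb (a i : I) : M.emb (pullFun h (cN a i)) = z i / z a := by
    rw [Model.emb_pullFun hγ, hcN]; rfl
  obtain ⟨PZ, hPZ, hKZ'⟩ := H.canon_base hq hI N o (fun a => cN a o) (fun a => hcN a o) hKZ
  obtain ⟨PX, hPX, hKX'⟩ := H.canon_total p n hqp hI M o (fun a => pullFun h (cN a o))
    (fun a => hemb a o) hKX
  have hq1 : ((q - 1 : ℕ) : ℚ) + 1 = q := by
    have := H.q0
    exact_mod_cast (by omega)
  have hKX'' (a : I) (y : M.X) (hy : h y ∈ N.U a) :
      KX y = -M.X.ord PX y + (q - 1 : ℕ) * M.X.ord (pullFun h (cN a o)) y := by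
    obtain ⟨j, hj⟩ := M.cov y
    have e1 : pullFun h (cN a o) = pullFun h (cN j.1.1 o) * pullFun h (cN a j.1.1) := by
      apply M.emb.injective
      have := hz a
      have := hz j.1.1
      rw [map_mul, hemb, hemb, hemb]
      field_simp
    have e2 : pullFun h (cN j.1.1 o) = pullFun h (cN a o) * pullFun h (cN j.1.1 a) := by
      apply M.emb.injective
      have := hz a
      have := hz j.1.1
      rw [map_mul, hemb, hemb, hemb]
      field_simp
    have e3 := ord_nonneg_of_mem (pullFun_mem_stalk h (hreg a j.1.1 _ hy))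
    have e4 := ord_nonneg_of_mem (pullFun_mem_stalk h (hreg j.1.1 a _ (hU j hj)))
    have e5 := congr(M.X.ord $e1 y)
    have e6 := congr(M.X.ord $e2 y)
    rw [Scheme.ord_mul (hne _ _) (hne _ _)] at e5 e6
    rw [hKX' j y hj, show M.X.ord (pullFun h (cN j.1.1 o)) y = M.X.ord (pullFun h (cN a o)) y by
      omega]
  rw [← hq1] at hKZ'
  refine ⟨exists_pullbackDiv h N.U N.cov (fun a => cN a o) (fun a => hc0 a o) (q - 1) KX KZ PX hPX
    PZ hKX'' hKZ', ?_⟩
  obtain ⟨a, ha, -, -⟩ := H.big o o o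
  refine not_exists_effective h N.U N.cov (fun a => cN a o) (fun a => hc0 a o) (q - 1) KX KZ PX hPX
    PZ hPZ hKX'' hKZ' hnX hnZ (isField_of_universallyClosed k M.π) (fun a => hreg a o) a
    fun hinv => H.not_mem_range ha ?_
  have := M.emb_mem (j := ⟨(a, o), ha⟩) fun y hy => hinv y (hU _ hy)
  rwa [map_inv₀, hemb, inv_div] at this

end Generic

theorem exists_generic (p : ℕ) [Fact p.Prime] (k : Type u) [Field k] [CharP k p] (n : ℕ) {q : ℕ}
    (hq : q = p ^ (n + 1)) {I : Type} [Fintype I] [DecidableEq I]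
    (hI : ∀ a b c : I, ∃ d, d ≠ a ∧ d ≠ b ∧ d ≠ c) (a : I) :
    ∃ (K : Type u) (_ : Field K) (_ : Algebra k K) (z x : I → K), Generic k q z x := by
  have hp : p.Prime := Fact.out
  have := isPrime_span (k := k) p n hq hI a
  let R := MvPolynomial (I ⊕ I) k ⧸ Ideal.span {FF k I q, ss k I q}
  let K := FractionRing R
  let ψ : MvPolynomial (I ⊕ I) k →ₐ[k] K :=
    (IsScalarTower.toAlgHom k R K).comp (Ideal.Quotient.mkₐ k _)
  have hfrob (L : Type u) [Field L] [Algebra k L] (s t : L) : (s + t) ^ q = s ^ q + t ^ q := by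
    have : CharP L p := charP_of_injective_algebraMap (algebraMap k L).injective p
    rw [hq, add_pow_char_pow]
  refine ⟨K, inferInstance, inferInstance, fun i => ψ (X (inl i)), fun i => ψ (X (inr i)),
    fun f => ?_, hfrob K, hq ▸ pow_ne_zero _ hp.ne_zero, hI⟩
  have h1 : aeval (Sum.elim (fun i => ψ (X (inl i))) fun i => ψ (X (inr i))) = ψ := by
    ext (i | i) <;> simp
  rw [h1, ← Ideal.Quotient.eq_zero_iff_mem]
  exact (injective_iff_map_eq_zero' _).mp (IsFractionRing.injective R K) _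

theorem counterexample (p : ℕ) [Fact p.Prime] (k : Type u) [Field k] [CharP k p] :
    ∃ (X Z : Scheme.{u}) (_ : IsIntegral X) (_ : IsIntegral Z) (_ : IsLocallyNoetherian X)
      (_ : IsLocallyNoetherian Z) (π : Z ⟶ Spec (.of k)) (h : X ⟶ Z) (_ : Surjective h),
      Smooth π ∧ IsProjective π ∧ Smooth (h ≫ π) ∧ IsProjective (h ≫ π) ∧
      (∀ U : Z.Opens, IsIso (h.app U)) ∧
      (∃ KX, IsCanonicalDiv (h ≫ π) KX) ∧ (∃ KZ, IsCanonicalDiv π KZ) ∧
      ∀ KX KZ, IsCanonicalDiv (h ≫ π) KX → IsCanonicalDiv π KZ →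
        (∃ D E, IsPullbackDiv h D E ∧ QLinEq KX E) ∧
        ¬ ∃ Δ E, 0 ≤ Δ ∧ IsPullbackDiv h (KZ + Δ) E ∧ QLinEq KX E := by
  have hp : p.Prime := Fact.out
  have h4 : 2 ^ (1 + 1) ≤ p ^ (1 + 1) := Nat.pow_le_pow_left hp.two_le _
  have hI (a b c : Fin (p ^ (1 + 1) + 1)) : ∃ d, d ≠ a ∧ d ≠ b ∧ d ≠ c := by
    obtain ⟨d, -, hd⟩ := Finset.exists_mem_notMem_of_card_lt_card
      (s := ({a, b, c} : Finset (Fin (p ^ (1 + 1) + 1)))) (t := Finset.univ)
      (lt_of_le_of_lt Finset.card_le_three (by rw [Finset.card_univ, Fintype.card_fin]; omega))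
    exact ⟨d, by simpa using hd⟩
  obtain ⟨K, _, _, z, x, H⟩ := exists_generic p k 1 rfl hI 0
  exact H.main p 1 rfl (Fintype.card_fin _)

end Pool.Agent.Lib.MP_99f32e_ag
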