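import Pool.Agent.Lib.MP_99f32e_ag.Defs

open AlgebraicGeometry CategoryTheory MvPolynomial HomogeneousLocalization

universe u

namespace Pool.Agent.Lib.MP_99f32e_ag

attribute [local instance] MvPolynomial.gradedAlgebra

section evalAt

variable {K : Type u} [Field K] {X : Scheme.{u}}

/-- Evaluation of sections at a `K`-point. -/
noncomputable def evalAt (γ : Spec (.of K) ⟶ X) (U : X.Opens) (h : ⊤ ≤ γ ⁻¹ᵁ U) :
    Γ(X, U) ⟶ .of K :=
  γ.appLE U ⊤ h ≫ (Scheme.ΓSpecIso (.of K)).hom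

lemma SpecMap_evalAt (γ : Spec (.of K) ⟶ X) {U : X.Opens} (hU : IsAffineOpen U)
    (h : ⊤ ≤ γ ⁻¹ᵁ U) : Spec.map (evalAt γ U h) ≫ hU.fromSpec = γ := by
  rw [evalAt, Spec.map_comp, Category.assoc,
    IsAffineOpen.SpecMap_appLE_fromSpec γ hU (isAffineOpen_top _) h, IsAffineOpen.fromSpec_top,
    Scheme.isoSpec_Spec_inv, ← Spec.map_comp_assoc]
  simp

lemma evalAt_eq_of_eq (γ : Spec (.of K) ⟶ X) {U : X.Opens} (hU : IsAffineOpen U)
    (h : ⊤ ≤ γ ⁻¹ᵁ U) (φ : Γ(X, U) ⟶ .of K) (hφ : Spec.map φ ≫ hU.fromSpec = γ) :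
    evalAt γ U h = φ := by
  have := (SpecMap_evalAt γ hU h).trans hφ.symm
  rw [cancel_mono] at this
  exact Spec.map_injective this

lemma top_le_preimage_of_eq (γ : Spec (.of K) ⟶ X) {U : X.Opens} (hU : IsAffineOpen U)
    (φ : Γ(X, U) ⟶ .of K) (hφ : Spec.map φ ≫ hU.fromSpec = γ) : ⊤ ≤ γ ⁻¹ᵁ U := by
  rw [← hφ, Scheme.Hom.comp_preimage, hU.fromSpec_preimage_self]
  simp

lemma appLE_evalAt {Y : Scheme.{u}} (γ : Spec (.of K) ⟶ X) (f : X ⟶ Y) (U : Y.Opens)
    (V : X.Opens) (e : V ≤ f ⁻¹ᵁ U) (h : ⊤ ≤ γ ⁻¹ᵁ V) (h' : ⊤ ≤ (γ ≫ f) ⁻¹ᵁ U) :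
    f.appLE U V e ≫ evalAt γ V h = evalAt (γ ≫ f) U h' := by
  rw [evalAt, Scheme.Hom.appLE_comp_appLE_assoc, evalAt]

lemma app_evalAt {Y : Scheme.{u}} (γ : Spec (.of K) ⟶ X) (f : X ⟶ Y) (U : Y.Opens)
    (h : ⊤ ≤ γ ⁻¹ᵁ (f ⁻¹ᵁ U)) :
    f.app U ≫ evalAt γ (f ⁻¹ᵁ U) h = evalAt (γ ≫ f) U h := by
  rw [Scheme.Hom.app_eq_appLE]
  exact appLE_evalAt γ f U _ _ h h

lemma res_evalAt (γ : Spec (.of K) ⟶ X) {U V : X.Opens} (e : V ≤ U)
    (h : ⊤ ≤ γ ⁻¹ᵁ V) (h' : ⊤ ≤ γ ⁻¹ᵁ U) :
    X.presheaf.map (homOfLE e).op ≫ evalAt γ V h = evalAt γ U h' := by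
  simp [evalAt]

end evalAt

section proj

variable {k K : Type u} [Field k] [Field K] [Algebra k K] {n : ℕ}

/-- evaluation of degree zero fractions -/
noncomputable def awayEval (y : Fin n → K) (f : MvPolynomial (Fin n) k) (hf : aeval y f ≠ 0) :
    Away (homogeneousSubmodule (Fin n) k) f →+* K :=
  (Localization.awayLift (aeval y : MvPolynomial (Fin n) k →ₐ[k] K).toRingHom f
    (isUnit_iff_ne_zero.mpr hf)).comp (algebraMap _ (Localization.Away f))

lemma awayEval_mk (y : Fin n → K) (f : MvPolynomial (Fin n) k) (hf : aeval y f ≠ 0) {d : ℕ}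
    (hd : f ∈ homogeneousSubmodule (Fin n) k d) (m : ℕ) (a : MvPolynomial (Fin n) k)
    (ha : a ∈ homogeneousSubmodule (Fin n) k (m • d)) :
    awayEval y f hf (Away.mk _ hd m a ha) = aeval y a / (aeval y f) ^ m := by
  simp only [awayEval, RingHom.coe_comp, Function.comp_apply,
    HomogeneousLocalization.algebraMap_apply, Away.val_mk]
  rw [Localization.awayLift_mk (v := (aeval y f)⁻¹) (hv := by simp [mul_inv_cancel₀ hf])]
  simp [div_eq_mul_inv]

lemma awayEval_awayMap (y : Fin n → K) (f g x : MvPolynomial (Fin n) k) (hx : x = f * g)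
    (hf : aeval y f ≠ 0) (hx0 : aeval y x ≠ 0) {d e : ℕ}
    (hd : f ∈ homogeneousSubmodule (Fin n) k d) (he : g ∈ homogeneousSubmodule (Fin n) k e) :
    (awayEval y x hx0).comp (awayMap _ he hx) = awayEval y f hf := by
  ext a
  obtain ⟨m, a, ha, rfl⟩ := Away.mk_surjective _ hd a
  have hg : aeval y g ≠ 0 := by
    intro h; apply hx0; rw [hx, map_mul, h, mul_zero]
  simp only [RingHom.coe_comp, Function.comp_apply, awayMap_mk, awayEval_mk]
  rw [hx]
  simp only [map_mul, map_pow, mul_pow]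
  field_simp

lemma awayEval_fromZero (y : Fin n → K) (f : MvPolynomial (Fin n) k) (hf : aeval y f ≠ 0) :
    ((awayEval y f hf).comp (fromZeroRingHom _ _)).comp
      (algebraMap k (homogeneousSubmodule (Fin n) k 0)) = algebraMap k K := by
  ext c
  simp only [awayEval, RingHom.coe_comp, Function.comp_apply,
    HomogeneousLocalization.algebraMap_apply]
  have : ((fromZeroRingHom (homogeneousSubmodule (Fin n) k) (Submonoid.powers f))
      ((algebraMap k (homogeneousSubmodule (Fin n) k 0)) c)).val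
      = algebraMap _ (Localization.Away f) (C c : MvPolynomial (Fin n) k) := rfl
  rw [this]
  rw [Localization.awayLift, IsLocalization.Away.lift_eq]
  simp

lemma range_awayEval (y : Fin n → K) (i : Fin n) (hi : aeval y (X i : MvPolynomial (Fin n) k) ≠ 0) :
    Set.range (awayEval y (X i) hi) = Algebra.adjoin k (Set.range fun j => y j / y i) := by
  have hX : (X i : MvPolynomial (Fin n) k) ∈ homogeneousSubmodule (Fin n) k 1 :=
    isHomogeneous_X k i
  have hyi : y i ≠ 0 := by simpa using hi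
  apply Set.Subset.antisymm
  · rintro _ ⟨a, rfl⟩
    obtain ⟨m, a, ha, rfl⟩ := Away.mk_surjective _ hX a
    rw [awayEval_mk]
    have ha' : a.IsHomogeneous m := by simpa using ha
    have : aeval y a / (aeval y (X i : MvPolynomial (Fin n) k)) ^ m
        = aeval (fun j => y j / y i) a := by
      have h1 : y = fun j => y i * (y j / y i) := by
        funext j; field_simp
      have h2 : aeval (fun j => y i * (y j / y i)) a
          = y i ^ m * aeval (fun j => y j / y i) a := by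
        rw [aeval_def, aeval_def, eval₂_eq', eval₂_eq', Finset.mul_sum]
        refine Finset.sum_congr rfl fun d hd => ?_
        have hdeg : m = ∑ j, d j := by
          have := ha' (mem_support_iff.mp hd)
          rw [← this, Finsupp.weight_apply, Finsupp.sum_fintype] <;> simp
        simp only [mul_pow, Finset.prod_mul_distrib, Finset.prod_pow_eq_pow_sum, hdeg]
        ring
      rw [aeval_X, div_eq_iff (pow_ne_zero _ hyi), mul_comm, ← h2, ← h1]
    rw [this, SetLike.mem_coe, Algebra.adjoin_range_eq_range_aeval]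
    exact ⟨a, rfl⟩
  · intro z hz
    have hz' : z ∈ Algebra.adjoin k (Set.range fun j => y j / y i) := hz
    clear hz
    induction hz' using Algebra.adjoin_induction with
    | mem x hx =>
      obtain ⟨j, rfl⟩ := hx
      refine ⟨Away.mk _ hX 1 (X j) (by simpa using isHomogeneous_X k j), ?_⟩
      rw [awayEval_mk]; simp
    | algebraMap c =>
      exact ⟨_, congr($(awayEval_fromZero y (X i) hi) c)⟩
    | add a b _ _ ha hb =>
      obtain ⟨a, rfl⟩ := ha
      obtain ⟨b, rfl⟩ := hb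
      exact ⟨a + b, map_add _ _ _⟩
    | mul a b _ _ ha hb =>
      obtain ⟨a, rfl⟩ := ha
      obtain ⟨b, rfl⟩ := hb
      exact ⟨a * b, map_mul _ _ _⟩

/-- The `K`-point of projective space with homogeneous coordinates `y`. -/
noncomputable def projPoint (y : Fin n → K) (f : MvPolynomial (Fin n) k) (hf : aeval y f ≠ 0)
    {d : ℕ} (hd : f ∈ homogeneousSubmodule (Fin n) k d) (hd0 : 0 < d) :
    Spec (.of K) ⟶ Proj (homogeneousSubmodule (Fin n) k) :=
  Spec.map (CommRingCat.ofHom (awayEval y f hf)) ≫ Proj.awayι _ f hd hd0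

lemma projPoint_mul (y : Fin n → K) (f g x : MvPolynomial (Fin n) k) (hx : x = f * g)
    (hf : aeval y f ≠ 0) (hx0 : aeval y x ≠ 0) {d e : ℕ}
    (hd : f ∈ homogeneousSubmodule (Fin n) k d) (he : g ∈ homogeneousSubmodule (Fin n) k e)
    (hd0 : 0 < d) :
    projPoint y x hx0 (hx ▸ SetLike.mul_mem_graded hd he) (by omega) = projPoint y f hf hd hd0 := by
  rw [projPoint, projPoint, ← Proj.SpecMap_awayMap_awayι _ hd hd0 he hx, ← Spec.map_comp_assoc,
    ← CommRingCat.ofHom_comp, awayEval_awayMap y f g x hx hf hx0 hd he]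

lemma projPoint_eq (y : Fin n → K) (f g : MvPolynomial (Fin n) k)
    (hf : aeval y f ≠ 0) (hg : aeval y g ≠ 0) {d e : ℕ}
    (hd : f ∈ homogeneousSubmodule (Fin n) k d) (he : g ∈ homogeneousSubmodule (Fin n) k e)
    (hd0 : 0 < d) (he0 : 0 < e) : projPoint y f hf hd hd0 = projPoint y g hg he he0 := by
  have hx0 : aeval y (f * g) ≠ 0 := by rw [map_mul]; exact mul_ne_zero hf hg
  rw [← projPoint_mul y f g (f * g) rfl hf hx0 hd he hd0,
    ← projPoint_mul y g f (f * g) (mul_comm _ _) hg hx0 he hd he0]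
  congr 1
  exact add_comm _ _

lemma awayι_eq (f : MvPolynomial (Fin n) k) {d : ℕ}
    (hd : f ∈ homogeneousSubmodule (Fin n) k d) (hd0 : 0 < d) :
    Proj.awayι _ f hd hd0 = Spec.map (Proj.basicOpenIsoAway _ f hd hd0).inv ≫
      (Proj.isAffineOpen_basicOpen _ f hd hd0).fromSpec := by
  rw [Proj.awayι, Iso.inv_comp_eq, Proj.basicOpenIsoSpec_hom, Proj.basicOpenToSpec,
    Category.assoc, ← Spec.map_comp_assoc, ← Proj.basicOpenIsoAway_hom _ f hd hd0, Iso.inv_hom_id]
  simp [← IsAffineOpen.isoSpec_inv_ι]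

lemma projPoint_mem_basicOpen (y : Fin n → K) (f : MvPolynomial (Fin n) k) (hf : aeval y f ≠ 0)
    {d : ℕ} (hd : f ∈ homogeneousSubmodule (Fin n) k d) (hd0 : 0 < d)
    (g : MvPolynomial (Fin n) k) {e : ℕ} (he : g ∈ homogeneousSubmodule (Fin n) k e) (he0 : 0 < e)
    (t : Spec (.of K)) (ht : projPoint y f hf hd hd0 t ∈ Proj.basicOpen _ g) : aeval y g ≠ 0 := by
  intro hg
  have h1 : t ∈ projPoint y f hf hd hd0 ⁻¹ᵁ Proj.basicOpen _ g := ht
  rw [projPoint, Scheme.Hom.comp_preimage, Proj.awayι_preimage_basicOpen _ hd hd0 he he0] at h1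
  have h2 : awayEval y f hf (Away.isLocalizationElem hd he) ∉ t.asIdeal := h1
  apply h2
  rw [awayEval_mk, map_pow, hg, zero_pow hd0.ne', zero_div]
  exact zero_mem _

lemma projPoint_toSpec (y : Fin n → K) (f : MvPolynomial (Fin n) k) (hf : aeval y f ≠ 0)
    {d : ℕ} (hd : f ∈ homogeneousSubmodule (Fin n) k d) (hd0 : 0 < d) :
    projPoint y f hf hd hd0 ≫ Proj.toSpecZero _ ≫ Spec.map (CommRingCat.ofHom (algebraMap k _)) =
      Spec.map (CommRingCat.ofHom (algebraMap k K)) := by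
  rw [projPoint, Category.assoc, Proj.awayι_toSpecZero_assoc, ← Spec.map_comp, ← Spec.map_comp,
    ← CommRingCat.ofHom_comp, ← CommRingCat.ofHom_comp, ← awayEval_fromZero y f hf]

end proj

/-- A projective integral `k`-scheme with a dominant `K`-point and an affine open cover whose
coordinate rings are identified with given subalgebras of `K`. -/
structure Model (k K : Type u) [Field k] [Field K] [Algebra k K] (J : Type)
    (A : J → Subalgebra k K) where
  X : Scheme.{u}
  int : IsIntegral X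
  π : X ⟶ Spec (.of k)
  γ : Spec (.of K) ⟶ X
  proj : IsProjective π
  γπ : γ ≫ π = Spec.map (CommRingCat.ofHom (algebraMap k K))
  dom : IsDominant γ
  U : J → X.Opens
  aff : ∀ j, IsAffineOpen (U j)
  cov : ∀ x, ∃ j, x ∈ U j
  mem : ∀ j, ⊤ ≤ γ ⁻¹ᵁ U j
  range : ∀ j, Set.range (evalAt γ (U j) (mem j)) = A j

theorem exists_model_fin {k K : Type u} [Field k] [Field K] [Algebra k K] {n : ℕ}
    (y : Fin (n + 1) → K) {J : Type} (t : J → Fin (n + 1)) (j₀ : J) (ht : ∀ j, y (t j) ≠ 0)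
    (hcov : ∀ 𝔭 : Ideal (MvPolynomial (Fin (n + 1)) k), 𝔭.IsPrime →
      (∀ (d : ℕ) (G : MvPolynomial (Fin (n + 1)) k), 0 < d → G.IsHomogeneous d →
        aeval y G = 0 → G ∈ 𝔭) → (∃ i, X i ∉ 𝔭) → ∃ j, X (t j) ∉ 𝔭) :
    Nonempty (Model k K J fun j => Algebra.adjoin k (Set.range fun i => y i / y (t j))) := by
  have hX (i : Fin (n + 1)) : (X i : MvPolynomial (Fin (n + 1)) k) ∈
      homogeneousSubmodule (Fin (n + 1)) k 1 := isHomogeneous_X k i
  have ht' (j : J) : aeval y (X (t j) : MvPolynomial (Fin (n + 1)) k) ≠ 0 := by simpa using ht j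
  let γ₀ := projPoint y (X (t j₀)) (ht' j₀) (hX _) one_pos
  let V : Fin (n + 1) → (Proj (homogeneousSubmodule (Fin (n + 1)) k)).affineOpens :=
    fun i => ⟨Proj.basicOpen _ (X i), Proj.isAffineOpen_basicOpen _ _ (hX i) one_pos⟩
  have hγ (j : J) : Spec.map ((Proj.basicOpenIsoAway _ _ (hX (t j)) one_pos).inv ≫
      CommRingCat.ofHom (awayEval y (X (t j)) (ht' j))) ≫ (V (t j)).2.fromSpec = γ₀ := by
    rw [Spec.map_comp, Category.assoc, ← awayι_eq]
    exact projPoint_eq y _ _ _ _ _ _ _ _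
  have hdom : IsDominant γ₀.toImage := inferInstance
  have hirr : IrreducibleSpace γ₀.image := by
    have := hdom.denseRange
    have h1 : IsIrreducible (Set.range γ₀.toImage) := by
      rw [← Set.image_univ]
      exact (IrreducibleSpace.isIrreducible_univ _).image _ γ₀.toImage.continuous.continuousOn
    have h2 := h1.closure
    rw [this.closure_range] at h2
    exact { isPreirreducible_univ := h2.2, toNonempty := ⟨h2.1.some⟩ }
  have hred : IsReduced γ₀.image := by
    have (U : (Proj (homogeneousSubmodule (Fin (n + 1)) k)).affineOpens) :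
        IsReduced ((γ₀.ker.subschemeCover.openCover).X U) := by
      have h1 : _root_.IsReduced Γ(γ₀.image, γ₀.imageι ⁻¹ᵁ U) :=
        isReduced_of_injective _ (γ₀.toImage_app_injective U)
      have h2 : _root_.IsReduced (Γ(Proj (homogeneousSubmodule (Fin (n + 1)) k), U) ⧸
          γ₀.ker.ideal U) :=
        isReduced_of_injective (γ₀.ker.subschemeObjIso U).commRingCatIsoToRingEquiv.symm
          (RingEquiv.injective _)
      exact inferInstanceAs (IsReduced (Spec (.of _)))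
    exact @IsReduced.of_openCover _ (γ₀.ker.subschemeCover.openCover) this
  have hmem (j : J) : ⊤ ≤ γ₀.toImage ⁻¹ᵁ (γ₀.imageι ⁻¹ᵁ (V (t j)).1) := by
    rw [← Scheme.Hom.comp_preimage, Scheme.Hom.toImage_imageι]
    exact top_le_preimage_of_eq _ _ _ (hγ j)
  refine ⟨{
    X := γ₀.image
    int := isIntegral_of_irreducibleSpace_of_isReduced _
    π := γ₀.imageι ≫ Proj.toSpecZero _ ≫ Spec.map (CommRingCat.ofHom (algebraMap k _))
    γ := γ₀.toImage
    proj := ⟨n, γ₀.imageι, inferInstance, rfl⟩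
    γπ := by rw [Scheme.Hom.toImage_imageι_assoc]; exact projPoint_toSpec _ _ _ _ _
    dom := hdom
    U := fun j => γ₀.imageι ⁻¹ᵁ (V (t j)).1
    aff := fun j => (V (t j)).2.preimage _
    cov := ?_
    mem := hmem
    range := ?_ }⟩
  · intro x
    refine hcov (γ₀.imageι x).asHomogeneousIdeal.toIdeal (γ₀.imageι x).isPrime ?_ ?_
    · intro d G hd hG h0
      by_contra hG'
      have h1 : x ∈ γ₀.imageι ⁻¹ᵁ Proj.basicOpen _ G := hG'
      obtain ⟨s, hs⟩ := hdom.denseRange.exists_mem_open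
        (γ₀.imageι ⁻¹ᵁ Proj.basicOpen _ G).isOpen ⟨x, h1⟩
      refine projPoint_mem_basicOpen y (X (t j₀)) (ht' j₀) (hX _) one_pos G hG hd s ?_ h0
      have h2 : γ₀.imageι (γ₀.toImage s) ∈ Proj.basicOpen _ G := hs
      rwa [← Scheme.Hom.comp_apply, Scheme.Hom.toImage_imageι] at h2
    · have h1 : ⨆ i, Proj.basicOpen (homogeneousSubmodule (Fin (n + 1)) k) (X i) = ⊤ := by
        apply Proj.iSup_basicOpen_eq_top'
        · exact fun i => ⟨1, hX i⟩
        · rw [eq_top_iff]
          intro f _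
          induction f using MvPolynomial.induction_on with
          | C a => exact Subalgebra.algebraMap_mem _ (algebraMap k (homogeneousSubmodule _ k 0) a)
          | add p q hp hq => exact add_mem (hp trivial) (hq trivial)
          | mul_X p i hp => exact mul_mem (hp trivial) (Algebra.subset_adjoin ⟨i, rfl⟩)
      have h2 : γ₀.imageι x ∈ ⨆ i, Proj.basicOpen (homogeneousSubmodule (Fin (n + 1)) k) (X i) := by
        rw [h1]; trivial
      obtain ⟨i, hi⟩ := TopologicalSpace.Opens.mem_iSup.mp h2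
      exact ⟨i, hi⟩
  · intro j
    have h1 := app_evalAt γ₀.toImage γ₀.imageι (V (t j)).1 (hmem j)
    have h2 : evalAt (γ₀.toImage ≫ γ₀.imageι) (V (t j)).1 (hmem j) = _ :=
      evalAt_eq_of_eq _ (V (t j)).2 _ _ ((hγ j).trans (Scheme.Hom.toImage_imageι _).symm)
    rw [← range_awayEval y (t j) (ht' j)]
    have h3 := γ₀.ker.subschemeι_app_surjective (V (t j))
    have h4 := h1.trans h2
    ext z
    constructor
    · rintro ⟨s, rfl⟩
      obtain ⟨s, rfl⟩ := h3 s
      exact ⟨_, (congr($h4 s)).symm⟩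
    · rintro ⟨s, rfl⟩
      refine ⟨γ₀.imageι.app _ ((Proj.basicOpenIsoAway _ _ (hX (t j)) one_pos).hom s),
        (congr($h4 _)).trans ?_⟩
      simp

theorem exists_model {k K : Type u} [Field k] [Field K] [Algebra k K] {ι : Type} [Finite ι]
    (y : ι → K) {J : Type} (t : J → ι) (j₀ : J) (ht : ∀ j, y (t j) ≠ 0)
    (hcov : ∀ 𝔭 : Ideal (MvPolynomial ι k), 𝔭.IsPrime →
      (∀ (d : ℕ) (G : MvPolynomial ι k), 0 < d → G.IsHomogeneous d →
        aeval y G = 0 → G ∈ 𝔭) → (∃ i, X i ∉ 𝔭) → ∃ j, X (t j) ∉ 𝔭) :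
    Nonempty (Model k K J fun j => Algebra.adjoin k (Set.range fun i => y i / y (t j))) := by
  have : Nonempty ι := ⟨t j₀⟩
  obtain ⟨n, ⟨e⟩⟩ : ∃ n, Nonempty (ι ≃ Fin (n + 1)) := by
    obtain ⟨m, ⟨e⟩⟩ := Finite.exists_equiv_fin ι
    cases m with
    | zero => exact (e (t j₀)).elim0
    | succ m => exact ⟨m, ⟨e⟩⟩
  have := exists_model_fin (k := k) (y ∘ e.symm) (fun j => e (t j)) j₀ (by simpa using ht) (by
    intro 𝔭 h𝔭 hG ⟨i, hi⟩
    obtain ⟨j, hj⟩ := hcov (𝔭.comap (rename e)) (Ideal.comap_isPrime _ _) (by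
      intro d G hd hG' h0
      refine hG d _ hd hG'.rename_isHomogeneous ?_
      rw [aeval_rename]
      simpa [Function.comp_def] using h0) ⟨e.symm i, by simpa using hi⟩
    exact ⟨j, by simpa using hj⟩)
  convert this using 4 with j
  simp only [Function.comp_apply, Equiv.symm_apply_apply]
  exact (e.symm.surjective.range_comp (fun i => y i / y (t j))).symm

end Pool.Agent.Lib.MP_99f32e_ag
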