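import Pool.Agent.Lib.MP_99f32e_ag.RChart
import Pool.Agent.Lib.MP_99f32e_ag.Final

open MvPolynomial Sum Matrix

set_option linter.unusedSectionVars false

universe u

namespace Pool.Agent.Lib.MP_99f32e_ag

section change

variable {k K : Type*} [Field k] [Field K] [Algebra k K] {N : ℕ}
  (bas : Module.Basis (Fin N) K (KaehlerDifferential k K)) {β β₀ : Fin 3 → K}
  {g T : MvPolynomial (Fin 3) k}

lemma changeB (H : Chart β g T) (e : Fin N ⊕ Fin 2 ≃ Fin 3) (κ : K)
    (hκ : KaehlerDifferential.D k K (β₀ 2) = κ • KaehlerDifferential.D k K (β 2)) (η : K)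
    (hη : ∀ R : Matrix (Fin 2) (Fin 3) K, ((fromRows (coordMat bas β) R).submatrix id e).det =
      η * (R * (gradMat β (gB g T))ᵀ).det) :
    η * aeval β (jac g T) * κ =
      -((fromRows (coordMat bas β₀) !![1, 0, 0; 0, 1, 0]).submatrix id e).det := by
  have h1 := det_fromRows_change e (coordMat bas β) (coordMat bas β₀) !![1, 0, 0; 0, 1, 0]
    (Matrix.of fun j => ![coordMat bas β₀ j 0 - coordMat bas β j 0,
      coordMat bas β₀ j 1 - coordMat bas β j 1]) (diagonal ![1, 1, κ]) (by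
      ext j i
      rw [Matrix.mul_diagonal]
      fin_cases i <;> simp [coordMat, Matrix.mul_apply, Fin.sum_univ_two, hκ, mul_comm])
  have h2 : (!![1, 0, 0; 0, 1, 0] : Matrix (Fin 2) (Fin 3) K) * diagonal ![1, 1, κ] =
      !![1, 0, 0; 0, 1, 0] := by
    ext j i
    rw [Matrix.mul_diagonal]
    fin_cases i <;> fin_cases j <;> simp
  rw [h2, hη, H.gradMat_gB, Matrix.det_diagonal, Matrix.det_fin_two] at h1
  simp only [Matrix.mul_apply, Fin.sum_univ_three, Fin.prod_univ_three] at h1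
  simp only [jac, map_sub, map_mul]
  simp at h1
  linear_combination h1

variable {Y : Type} [Fintype Y] [DecidableEq Y] {q : ℕ}

/-- the transition map of the projective bundle -/
def tw {A : Type*} [CommRing A] (q : ℕ) (l r : A) (w : Y ⊕ Fin 2 → A) : Y ⊕ Fin 2 → A :=
  Sum.elim (fun i => l * w (inl i)) ![w (inr 0) + r * w (inr 1), l ^ (q + 1) * w (inr 1)]

lemma changeT (H : Chart β g T) (hq : (q : k) = 0) (hY : Fintype.card Y + 1 = q)
    (e : Fin N ⊕ (Fin 2 ⊕ Fin 2) ≃ Fin 3 ⊕ (Y ⊕ Fin 2)) (w₀ w : Y ⊕ Fin 2 → K) (l r m : K)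
    (hl : l ≠ 0) (hw : ∀ a, w a = m * tw q l r w₀ a) (b : Y ⊕ Fin 2) (hb : w b = 1)
    (hF : fF q (β 2) w = 0) (γl γr : K)
    (hs : KaehlerDifferential.D k K (β₀ 2) = l ^ (q * (q + 1)) • KaehlerDifferential.D k K (β 2))
    (hγl : KaehlerDifferential.D k K l = γl • KaehlerDifferential.D k K (β 2))
    (hγr : KaehlerDifferential.D k K r = γr • KaehlerDifferential.D k K (β 2)) (j₀ : Y) (η : K)
    (hη : ∀ R : Matrix (Fin 2 ⊕ Fin 2) (Fin 3 ⊕ (Y ⊕ Fin 2)) K,
      ((fromRows (coordMat bas (Sum.elim β w)) R).submatrix id e).det =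
        η * (R * (gradMat (Sum.elim β w) (gT q g T b))ᵀ).det) :
    η * aeval β (jac g T) * l ^ (q * q + 1) * w₀ (inl j₀) ^ q =
      -((fromRows (coordMat bas (Sum.elim β₀ w₀)) (Matrix.of (Sum.elim
        ![Pi.single (inl 0) 1, Pi.single (inl 1) 1]
        ![Sum.elim 0 w₀, Pi.single (inr (inl j₀)) 1]))).submatrix id e).det := by
  have hqK : (q : K) = 0 := by rw [← map_natCast (algebraMap k K), hq, map_zero]
  have hm : m ≠ 0 := by rintro rfl; simp [hw] at hb
  set κ := (l ^ (q * (q + 1)))⁻¹ with hκ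
  have hκ1 : l ^ (q * (q + 1)) * κ = 1 := mul_inv_cancel₀ (pow_ne_zero _ hl)
  have hs' : KaehlerDifferential.D k K (β 2) = κ • KaehlerDifferential.D k K (β₀ 2) := by
    rw [hs, smul_smul, mul_comm, hκ1, one_smul]
  set R : Matrix (Fin 2 ⊕ Fin 2) (Fin 3 ⊕ (Y ⊕ Fin 2)) K := Matrix.of (Sum.elim
    ![Pi.single (inl 0) 1, Pi.single (inl 1) 1]
    ![Sum.elim 0 w₀, Pi.single (inr (inl j₀)) 1]) with hR
  set γ : Y ⊕ Fin 2 → K := Sum.elim (fun i => m * γl * κ * w₀ (inl i))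
    ![m * γr * κ * w₀ (inr 1), m * l ^ q * γl * κ * w₀ (inr 1)] with hγ
  set G : Matrix (Fin 3 ⊕ (Y ⊕ Fin 2)) (Fin 3 ⊕ (Y ⊕ Fin 2)) K :=
    fromBlocks (diagonal ![1, 1, κ]) (Matrix.of ![0, 0, γ]) 0
      (fromBlocks ((m * l) • 1) 0 0 !![m, 0; m * r, m * l ^ (q + 1)]) with hG
  have hmul {τ : Type} (W : Matrix τ (Fin 3 ⊕ (Y ⊕ Fin 2)) K) (t : τ) :
      (∀ i, (W * G) t (inl i) = W t (inl i) * ![1, 1, κ] i) ∧
      ∀ a, (W * G) t (inr a) = γ a * W t (inl 2) + m * tw q l r (fun a => W t (inr a)) a := by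
    constructor
    · intro i
      simp [hG, Matrix.mul_apply, Fintype.sum_sum_type, Matrix.diagonal_apply]
    · rintro (i | a)
      · simp [hG, Matrix.mul_apply, Fintype.sum_sum_type, Matrix.one_apply, Fin.sum_univ_three, tw]
        ring
      · fin_cases a <;>
          simp [hG, Matrix.mul_apply, Fintype.sum_sum_type, Fin.sum_univ_three, tw] <;> ring
  have h1 := det_fromRows_change e (coordMat bas (Sum.elim β₀ w₀)) (coordMat bas (Sum.elim β w)) R
    (Matrix.of fun j => Sum.elim ![coordMat bas β j 0 - coordMat bas β₀ j 0,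
      coordMat bas β j 1 - coordMat bas β₀ j 1]
      ![bas.repr (KaehlerDifferential.D k K m) j / m, 0]) G (by
      ext j v
      rcases v with i | i | i
      · rw [(hmul _ j).1]
        fin_cases i <;>
          simp [coordMat, Matrix.mul_apply, Fintype.sum_sum_type, hR, hs', mul_comm]
      · rw [(hmul _ j).2]
        simp [coordMat, Matrix.mul_apply, Fintype.sum_sum_type, hR, hw, tw, hγ, hγl, hs']
        field_simp
        ring
      · rw [(hmul _ j).2]
        fin_cases i <;>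
          simp [coordMat, Matrix.mul_apply, Fintype.sum_sum_type, hR, hw, tw, hγ, hγl, hγr, hs',
            Derivation.leibniz_pow, hqK] <;> field_simp <;> ring)
  have h3 := (sum_mul_dF (β 2) w).trans hF
  have h4 (a : Y ⊕ Fin 2) : tw q l r (fun _ => 0) a = 0 := by
    rcases a with i | i
    · simp [tw]
    · fin_cases i <;> simp [tw]
  have h2 : (R * G) * (gradMat (Sum.elim β w) (gT q g T b))ᵀ = fromBlocks
      !![aeval β (pderiv 0 g), -aeval β (pderiv 0 T); aeval β (pderiv 1 g), -aeval β (pderiv 1 T)]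
      0 0 !![1, 0; (R * G) (inr 1) (inr b), m * l * (m * (l * w₀ (inl j₀))) ^ q] := by
    rw [gradMat_gT hq, H.gradMat_gB]
    ext s t
    rw [Matrix.mul_apply, Fintype.sum_sum_type, Fin.sum_univ_three]
    simp only [(hmul _ _).1, (hmul _ _).2]
    rcases s with s | s <;> rcases t with t | t <;> fin_cases s <;> fin_cases t <;>
      simp [-Fintype.sum_sum_type, hR, Pi.single_apply, ← hw, hb, h3, h4]
    simp [tw, dF, hw]
  rw [hη, h2, Matrix.det_fromBlocks_zero₁₂, hG, Matrix.det_fromBlocks_zero₂₁,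
    Matrix.det_fromBlocks_zero₂₁, Matrix.det_smul, Matrix.det_one, Matrix.det_diagonal,
    Matrix.det_fin_two_of, Matrix.det_fin_two_of, Matrix.det_fin_two_of, Fin.prod_univ_three] at h1
  simp only [cons_val_zero, cons_val_one, cons_val] at h1
  simp only [jac, map_sub, map_mul]
  subst hY
  apply mul_right_cancel₀ (mul_ne_zero (pow_ne_zero (Fintype.card Y + 2) hm)
    (pow_ne_zero (2 * Fintype.card Y + 2) hl))
  linear_combination (-l ^ ((Fintype.card Y + 1) * (Fintype.card Y + 1 + 1))) * h1 -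
    (((fromRows (coordMat bas (Sum.elim β₀ w₀)) R).submatrix id e).det *
      m ^ (Fintype.card Y + 2) * l ^ (2 * Fintype.card Y + 2)) * hκ1

end change

section final

open AlgebraicGeometry CategoryTheory

variable {X Z : Scheme.{u}} [IsIntegral X] [IsIntegral Z] [IsLocallyNoetherian X]
  [IsLocallyNoetherian Z] (h : X ⟶ Z) [IsDominant h]
  {I : Type*} (V : I → Z.Opens) (hV : ∀ y, ∃ a, y ∈ V a) (l : I → Z.functionField)
  (hl0 : ∀ a, l a ≠ 0) (α c : ℕ) (hc : 0 < c) (KX : X → ℚ) (KZ : Z → ℚ) (PX : X.functionField)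
  (hPX : PX ≠ 0) (PZ : Z.functionField) (hPZ : PZ ≠ 0)
  (hKX : ∀ a x, h x ∈ V a → KX x = -X.ord PX x + α * X.ord (pullFun h (l a)) x)
  (hKZ : ∀ a, ∀ y ∈ V a, KZ y = -Z.ord PZ y + (α + c) * Z.ord (l a) y)

include hV hl0 hc hPX hKX hKZ in
theorem exists_pullbackDiv' : ∃ D E, IsPullbackDiv h D E ∧ QLinEq KX E := by
  have hc' : (α + c : ℚ) ≠ 0 := by exact_mod_cast (by omega : α + c ≠ 0)
  refine ⟨fun y => α / (α + c) * (KZ y + Z.ord PZ y), fun x => KX x + X.ord PX x,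
    ⟨1, one_pos, fun y => ?_⟩, 1, PX⁻¹, one_pos, inv_ne_zero hPX, fun x => ?_⟩
  · obtain ⟨a, ha⟩ := hV y
    refine ⟨V a, l a ^ α, ha, pow_ne_zero _ (hl0 a), fun y hy => ?_, fun x hx => ?_⟩
    · dsimp only
      rw [hKZ a y hy, ord_pow' (hl0 a)]
      push_cast
      field_simp
      ring
    · dsimp only
      rw [hKX a x hx, map_pow, ord_pow' ((map_ne_zero (pullFun h).hom).mpr (hl0 a))]
      push_cast
      ring
  · rw [ord_inv' hPX]
    push_cast
    ring

include hV hl0 hc hPX hPZ hKX hKZ in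
theorem not_exists_effective' (hnX : ∀ x : X, IsIntegrallyClosed (X.presheaf.stalk x))
    (hnZ : ∀ y : Z, IsIntegrallyClosed (Z.presheaf.stalk y)) (hF : IsField Γ(X, ⊤))
    (hl : ∀ a, ∀ y ∈ V a, l a ∈ (algebraMap (Z.presheaf.stalk y) Z.functionField).range) (a₀ : I)
    (hnu : ¬ ∀ x, h x ∈ V a₀ →
      (pullFun h (l a₀))⁻¹ ∈ (algebraMap (X.presheaf.stalk x) X.functionField).range) :
    ¬ ∃ Δ E, 0 ≤ Δ ∧ IsPullbackDiv h (KZ + Δ) E ∧ QLinEq KX E := by
  rintro ⟨Δ, E, hΔ, ⟨m, hm, H⟩, m', g, hm', hg, hE⟩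
  have hne {f : Z.functionField} (hf : f ≠ 0) : pullFun h f ≠ 0 :=
    (map_ne_zero (pullFun h).hom).mpr hf
  set Ψ := pullFun h PZ ^ (m * m') * (g ^ m * PX ^ (m * m'))⁻¹ with hΨ
  have h1 : g ^ m * PX ^ (m * m') ≠ 0 := mul_ne_zero (pow_ne_zero _ hg) (pow_ne_zero _ hPX)
  have hΨ0 : Ψ ≠ 0 := mul_ne_zero (pow_ne_zero _ (hne hPZ)) (inv_ne_zero h1)
  have key (a : I) (x : X) (hx : h x ∈ V a) :
      (c * (m * m') : ℕ) * X.ord (pullFun h (l a)) x ≤ X.ord Ψ x := by
    obtain ⟨U, f, hU, hf, hf1, hf2⟩ := H (h x)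
    have h2 : l a ^ ((α + c) * m) ≠ 0 := pow_ne_zero _ (hl0 a)
    have h3 : f * PZ ^ m ≠ 0 := mul_ne_zero hf (pow_ne_zero _ hPZ)
    have h4 := hartogs hnZ (h x) (f * PZ ^ m * (l a ^ ((α + c) * m))⁻¹) fun y hy => by
      have e1 := hf1 y (hy.mem_open U.isOpen hU)
      have e2 := hKZ a y (hy.mem_open (V a).isOpen hx)
      have e3 : (0 : ℚ) ≤ m * Δ y := mul_nonneg (Nat.cast_nonneg _) (hΔ y)
      rw [Scheme.ord_mul h3 (inv_ne_zero h2), Scheme.ord_mul hf (pow_ne_zero _ hPZ), ord_inv' h2,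
        ord_pow' hPZ, ord_pow' (hl0 a)]
      rw [Pi.add_apply, e2] at e1
      qify
      linarith
    have h5 := ord_nonneg_of_mem (pullFun_mem_stalk h h4)
    rw [map_mul, map_inv₀, Scheme.ord_mul (hne h3) (inv_ne_zero (hne h2)), map_mul,
      Scheme.ord_mul (hne hf) (hne (pow_ne_zero _ hPZ)), ord_inv' (hne h2), map_pow, map_pow,
      ord_pow' (hne hPZ), ord_pow' (hne (hl0 a))] at h5
    rw [hΨ, Scheme.ord_mul (pow_ne_zero _ (hne hPZ)) (inv_ne_zero h1), ord_inv' h1,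
      Scheme.ord_mul (pow_ne_zero _ hg) (pow_ne_zero _ hPX), ord_pow' hg, ord_pow' hPX,
      ord_pow' (hne hPZ)]
    have e1 := hE x
    have e2 := hf2 x hU
    rw [hKX a x hx] at e1
    qify at h5 ⊢
    have e3 := mul_nonneg (Nat.cast_nonneg (α := ℚ) m') h5
    rw [← e1]
    rw [← e2] at e3
    linarith
  have hpos (a : I) (x : X) (hx : h x ∈ V a) : 0 ≤ X.ord (pullFun h (l a)) x :=
    ord_nonneg_of_mem (pullFun_mem_stalk h (hl a _ hx))
  have h0 := ord_eq_zero_of_nonneg hnX hF hΨ0 fun x => by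
    obtain ⟨a, ha⟩ := hV (h x)
    exact (mul_nonneg (Nat.cast_nonneg _) (hpos a x ha)).trans (key a x ha)
  refine hnu fun x hx => hartogs hnX x _ fun y hy => ?_
  have := key a₀ y ((hy.map h.continuous).mem_open (V a₀).isOpen hx)
  rw [h0] at this
  rw [ord_inv' (hne (hl0 a₀)), neg_nonneg]
  exact nonpos_of_mul_nonpos_right this (by exact_mod_cast Nat.mul_pos hc (Nat.mul_pos hm hm'))

end final

end Pool.Agent.Lib.MP_99f32e_ag
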