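import Pool.Agent.Lib.MP_99f32e_ag.RFib
import Pool.Agent.Lib.MP_99f32e_ag.Smooth

open MvPolynomial Sum Matrix

set_option linter.unusedSectionVars false

namespace Pool.Agent.Lib.MP_99f32e_ag

lemma exists_lift_range {k K T σ : Type*} [CommRing k] [CommRing K] [CommRing T] [Algebra k K]
    (c : σ → K) (ψ : MvPolynomial σ k →+* T) (h : ∀ f, aeval c f = 0 → ψ f = 0) :
    ∃ φ : (aeval c : MvPolynomial σ k →ₐ[k] K).range →+* T,
      ∀ f, φ ((aeval c).rangeRestrict f) = ψ f :=
  ⟨(aeval c : MvPolynomial σ k →ₐ[k] K).rangeRestrict.toRingHom.liftOfSurjective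
    (AlgHom.rangeRestrict_surjective _) ⟨ψ, fun f hf => h f congr(($hf).1)⟩,
    fun f => RingHom.liftOfSurjective_comp_apply _ (AlgHom.rangeRestrict_surjective _) _ f⟩

lemma clear_denom' {k R S T τ : Type*} [CommRing k] [CommRing R] [CommRing S] [CommRing T]
    [Algebra k R] [Algebra k S] [Algebra k T] (ψ : R →ₐ[k] S) (π : R →ₐ[k] T) (d : R)
    (hd : π d = 1) (c : τ → S) (x : τ → T)
    (hc : ∀ v, ∃ (m : ℕ) (n : R), ψ d ^ m * c v = ψ n ∧ π n = x v) (f : MvPolynomial τ k) :
    ∃ (N : ℕ) (f' : R), ψ d ^ N * aeval c f = ψ f' ∧ π f' = aeval x f := by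
  induction f using MvPolynomial.induction_on with
  | C a => exact ⟨0, algebraMap k R a, by simp, by simp⟩
  | add p r hp hr =>
    obtain ⟨N, p', h1, h2⟩ := hp
    obtain ⟨M, r', h3, h4⟩ := hr
    refine ⟨N + M, d ^ M * p' + d ^ N * r', ?_, ?_⟩
    · simp only [map_add, map_mul, map_pow, ← h1, ← h3]; ring
    · simp [hd, h2, h4]
  | mul_X p v hp =>
    obtain ⟨N, p', h1, h2⟩ := hp
    obtain ⟨m, n, h3, h4⟩ := hc v
    refine ⟨N + m, p' * n, ?_, ?_⟩
    · simp only [map_mul, aeval_X, ← h1, ← h3]; ring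
    · simp [h2, h4]

lemma exists_rows {k K ι ρ : Type*} [CommRing k] [CommRing K] [Algebra k K] (c : ι → K)
    (R : Matrix ρ ι K) (hR : ∀ l i, R l i ∈ (aeval c : MvPolynomial ι k →ₐ[k] K).range) :
    ∃ r : ρ → ι → MvPolynomial ι k, (Matrix.of fun l i => aeval c (r l i)) = R := by
  choose r hr using hR
  exact ⟨r, by ext l i; exact hr l i⟩

variable {k K : Type*} [Field k] [Field K] [Algebra k K]

/-- relations of a chart of the base curve -/
noncomputable def gB (g T : MvPolynomial (Fin 3) k) : Fin 2 → MvPolynomial (Fin 3) k :=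
  ![g, X 2 - T]

/-- Jacobian determinant -/
noncomputable def jac (g T : MvPolynomial (Fin 3) k) : MvPolynomial (Fin 3) k :=
  pderiv 0 g * pderiv 1 T - pderiv 1 g * pderiv 0 T

/-- a chart of the base curve on which the last coordinate is an etale coordinate -/
structure Chart (β : Fin 3 → K) (g T : MvPolynomial (Fin 3) k) : Prop where
  ker : ∀ f, aeval β f = 0 → f ∈ Ideal.span (Set.range (gB g T))
  hg : aeval β g = 0
  hT : aeval β T = β 2
  dg : pderiv 2 g = 0
  dT : pderiv 2 T = 0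
  unit : ∃ δ : MvPolynomial (Fin 3) k, aeval β δ * aeval β (jac g T) = 1

variable {β : Fin 3 → K} {g T : MvPolynomial (Fin 3) k}

lemma chart_iff {K' : Type*} [Field K'] [Algebra k K'] {β' : Fin 3 → K'} (φ : K' →+* K)
    (he : ∀ f : MvPolynomial (Fin 3) k, φ (aeval β' f) = aeval β f) :
    Chart β g T ↔ Chart β' g T := by
  have h2 : φ (β' 2) = β 2 := by simpa using he (X 2)
  constructor
  · intro H
    obtain ⟨δ, hδ⟩ := H.unit
    exact ⟨fun f hf => H.ker f (by rw [← he, hf, map_zero]),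
      φ.injective (by rw [he, H.hg, map_zero]), φ.injective (by rw [he, H.hT, h2]), H.dg, H.dT,
      δ, φ.injective (by rw [map_mul, he, he, hδ, map_one])⟩
  · intro H
    obtain ⟨δ, hδ⟩ := H.unit
    exact ⟨fun f hf => H.ker f (φ.injective (by rw [he, hf, map_zero])),
      by rw [← he, H.hg, map_zero], by rw [← he, H.hT, h2], H.dg, H.dT,
      δ, by rw [← he, ← he, ← map_mul, hδ, map_one]⟩

namespace Chart

variable (H : Chart β g T)
include H

lemma aeval_gB (l : Fin 2) : aeval β (gB g T l) = 0 := by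
  fin_cases l
  · exact H.hg
  · simp [gB, H.hT]

lemma gradMat_gB : gradMat β (gB g T) = !![aeval β (pderiv 0 g), aeval β (pderiv 1 g), 0;
    -aeval β (pderiv 0 T), -aeval β (pderiv 1 T), 1] := by
  ext l i
  fin_cases l <;> fin_cases i <;> simp [gradMat, gB, H.dg, H.dT, pderiv_X]

lemma exists_rB : ∃ r : Fin 2 → Fin 3 → MvPolynomial (Fin 3) k,
    (Matrix.of fun l i => aeval β (r l i)) * (gradMat β (gB g T))ᵀ = 1 := by
  obtain ⟨δ, hδ⟩ := H.unit
  simp only [jac, map_sub, map_mul] at hδ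
  refine ⟨![![δ * pderiv 1 T, -(δ * pderiv 0 T), 0], ![δ * pderiv 1 g, -(δ * pderiv 0 g), 0]], ?_⟩
  rw [H.gradMat_gB]
  ext l m
  fin_cases l <;> fin_cases m <;> simp [Matrix.mul_apply, Fin.sum_univ_three]
  · linear_combination hδ
  · ring
  · ring
  · linear_combination hδ

lemma exists_D {M : Type*} [AddCommGroup M] [Module K M] [Module k M] [IsScalarTower k K M]
    (θ : Derivation k K M) (f : MvPolynomial (Fin 3) k) :
    ∃ γ : K, θ (aeval β f) = γ • θ (β 2) := by
  obtain ⟨δ, hδ⟩ := H.unit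
  simp only [jac, map_sub, map_mul] at hδ
  have h1 := derivation_aeval θ β g
  have h2 := derivation_aeval θ β T
  rw [H.hg, map_zero, Fin.sum_univ_three, H.dg, map_zero, zero_smul, add_zero] at h1
  rw [H.hT, Fin.sum_univ_three, H.dT, map_zero, zero_smul, add_zero] at h2
  have h3 : θ (β 0) = (-(aeval β δ * aeval β (pderiv 1 g))) • θ (β 2) := by
    linear_combination (norm := module) (-hδ) • θ (β 0) -
      (aeval β δ * aeval β (pderiv 1 T)) • h1 + (aeval β δ * aeval β (pderiv 1 g)) • h2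
  have h4 : θ (β 1) = (aeval β δ * aeval β (pderiv 0 g)) • θ (β 2) := by
    linear_combination (norm := module) (-hδ) • θ (β 1) +
      (aeval β δ * aeval β (pderiv 0 T)) • h1 - (aeval β δ * aeval β (pderiv 0 g)) • h2
  rw [derivation_aeval, Fin.sum_univ_three, h3, h4, smul_smul, smul_smul, ← add_smul, ← add_smul]
  exact ⟨_, rfl⟩

end Chart

variable {Y : Type} [Fintype Y] [DecidableEq Y] {q : ℕ}

/-- coordinates on a chart of the total space -/
def cT (β : Fin 3 → K) (x : Y ⊕ Fin 2 → K) (b : Y ⊕ Fin 2) : Fin 3 ⊕ (Y ⊕ Fin 2) → K :=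
  Sum.elim β fun a => x a / x b

/-- relations of a chart of the total space -/
noncomputable def gT (q : ℕ) (g T : MvPolynomial (Fin 3) k) (b : Y ⊕ Fin 2) :
    Fin 2 ⊕ Fin 2 → MvPolynomial (Fin 3 ⊕ (Y ⊕ Fin 2)) k :=
  Sum.elim (fun l => rename inl (gB g T l))
    ![X (inr b) - 1, fF q (X (inl 2)) fun a => X (inr a)]

/-- gradient of the fibre equation -/
def dF {A : Type*} [CommRing A] (q : ℕ) (s : A) (w : Y ⊕ Fin 2 → A) : Y ⊕ Fin 2 → A :=
  Sum.elim (fun j => w (inl j) ^ q) ![0, -(w (inr 0) ^ q + s * w (inr 1) ^ q)]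

lemma sum_mul_dF {A : Type*} [CommRing A] (s : A) (w : Y ⊕ Fin 2 → A) :
    ∑ a, w a * dF q s w a = fF q s w := by
  simp only [dF, fF, Fintype.sum_sum_type, Fin.sum_univ_two, elim_inl, elim_inr, pow_succ',
    cons_val_zero, cons_val_one]
  ring

lemma gradMat_gT (hq : (q : k) = 0) (β : Fin 3 → K) (w : Y ⊕ Fin 2 → K) (b : Y ⊕ Fin 2) :
    gradMat (Sum.elim β w) (gT q g T b) = Matrix.of (Sum.elim
      (fun l => Sum.elim (gradMat β (gB g T) l) 0)
      ![Pi.single (inr b) 1, Sum.elim ![0, 0, -w (inr 1) ^ (q + 1)] (dF q (β 2) w)]) := by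
  have hqP : (q : MvPolynomial (Fin 3 ⊕ (Y ⊕ Fin 2)) k) = 0 := by
    rw [← map_natCast (C : k →+* MvPolynomial (Fin 3 ⊕ (Y ⊕ Fin 2)) k), hq, map_zero]
  ext l v
  rcases l with l | l
  · rcases v with i | a
    · simp [gradMat, gT, pderiv_rename inl_injective, aeval_rename]
    · have : pderiv (inr a : Fin 3 ⊕ (Y ⊕ Fin 2)) (rename inl (gB g T l)) = 0 :=
        pderiv_eq_zero_of_notMem_vars fun h => by
          obtain ⟨i, -, hi⟩ := mem_vars_rename _ _ h
          exact inl_ne_inr hi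
      simp [gradMat, gT, this]
  · fin_cases l
    · by_cases h : v = inr b
      · subst h; simp [gradMat, gT]
      · simp [gradMat, gT, pderiv_X, Pi.single_eq_of_ne h, Pi.single_eq_of_ne' h]
    · simp only [gradMat, gT, Fin.mk_one, of_apply, elim_inr, cons_val_one, cons_val_zero,
        der_fF hqP]
      rcases v with i | j | a
      · fin_cases i <;> simp [pderiv_X]
      · simp [pderiv_X, Pi.single_apply, dF]
      · fin_cases a <;> simp [pderiv_X, dF]

lemma range_le_cT (β : Fin 3 → K) (w : Y ⊕ Fin 2 → K) :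
    (aeval β : MvPolynomial (Fin 3) k →ₐ[k] K).range ≤
      (aeval (Sum.elim β w) : MvPolynomial (Fin 3 ⊕ (Y ⊕ Fin 2)) k →ₐ[k] K).range := by
  rintro _ ⟨f, rfl⟩
  exact ⟨rename inl f, by simp [aeval_rename]⟩

lemma Chart.exists_rT (H : Chart β g T) (hq : (q : k) = 0) (hq0 : q ≠ 0) (w : Y ⊕ Fin 2 → K)
    (b : Y ⊕ Fin 2) (hb : w b = 1) (hF : fF q (β 2) w = 0) :
    ∃ r : Fin 2 ⊕ Fin 2 → Fin 3 ⊕ (Y ⊕ Fin 2) → MvPolynomial (Fin 3 ⊕ (Y ⊕ Fin 2)) k,
      (Matrix.of fun l i => aeval (Sum.elim β w) (r l i)) *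
        (gradMat (Sum.elim β w) (gT q g T b))ᵀ = 1 := by
  set A := (aeval (Sum.elim β w) : MvPolynomial (Fin 3 ⊕ (Y ⊕ Fin 2)) k →ₐ[k] K).range with hA
  have hw (a) : w a ∈ A := ⟨X (inr a), by simp⟩
  have hβ (f : MvPolynomial (Fin 3) k) : aeval β f ∈ A := range_le_cT β w ⟨f, rfl⟩
  have hs : β 2 ∈ A := by simpa using hβ (X 2)
  obtain ⟨κ, ξ, hκ, hξ, h1⟩ : ∃ (κ : K) (ξ : Y ⊕ Fin 2 → K), κ ∈ A ∧ (∀ a, ξ a ∈ A) ∧
      κ * -w (inr 1) ^ (q + 1) + ∑ a, ξ a * dF q (β 2) w a = 1 := by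
    rcases b with j | a
    · refine ⟨0, Pi.single (inl j) 1, zero_mem _, fun a => ?_, by simp [Pi.single_apply, dF, hb]⟩
      rw [Pi.single_apply]; split_ifs <;> simp
    · fin_cases a
      · obtain ⟨q', rfl⟩ := Nat.exists_eq_succ_of_ne_zero hq0
        refine ⟨-(β 2 ^ 2 * w (inr 1) ^ q'), Pi.single (inr 1) (β 2 * w (inr 1) ^ (q' + 1) - 1),
          neg_mem (mul_mem (pow_mem hs _) (pow_mem (hw _) _)), fun a => ?_, ?_⟩
        · rw [Pi.single_apply]
          split_ifs
          · exact sub_mem (mul_mem hs (pow_mem (hw _) _)) (one_mem _)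
          · exact zero_mem _
        · have hb' : w (inr 0) = 1 := hb
          simp [Pi.single_apply, dF, hb']
          ring
      · have hb' : w (inr 1) = 1 := hb
        exact ⟨-1, 0, neg_mem (one_mem _), fun _ => zero_mem _, by simp [hb']⟩
  obtain ⟨δ, hδ⟩ := H.unit
  simp only [jac, map_sub, map_mul] at hδ
  obtain ⟨r, hr⟩ := exists_rows (k := k) (Sum.elim β w) (Matrix.of (Sum.elim
    ![Sum.elim ![aeval β (δ * pderiv 1 T), aeval β (-(δ * pderiv 0 T)), 0] 0,
      Sum.elim ![aeval β (δ * pderiv 1 g), aeval β (-(δ * pderiv 0 g)), 0] 0]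
    ![Sum.elim 0 w, Sum.elim ![κ * aeval β (-(δ * pderiv 1 g)), κ * aeval β (δ * pderiv 0 g), κ]
      fun a => ξ a - ξ b * w a])) (by
    rintro (l | l) (i | a) <;> fin_cases l
    · fin_cases i <;> first | exact hβ _ | exact zero_mem _
    · fin_cases i <;> first | exact hβ _ | exact zero_mem _
    · exact zero_mem _
    · exact zero_mem _
    · exact zero_mem _
    · fin_cases i <;> first | exact mul_mem hκ (hβ _) | exact hκ
    · exact hw a
    · exact sub_mem (hξ _) (mul_mem (hξ _) (hw _)))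
  refine ⟨r, ?_⟩
  rw [hr, gradMat_gT hq, H.gradMat_gB]
  have h2 := (sum_mul_dF (β 2) w).trans hF
  ext l m
  rw [Matrix.mul_apply, Fintype.sum_sum_type, Fin.sum_univ_three]
  rcases l with l | l <;> rcases m with m | m <;> fin_cases l <;> fin_cases m <;>
    simp [-Fintype.sum_sum_type, Pi.single_apply, hb, h2, sub_mul, mul_assoc, ← Finset.mul_sum]
  all_goals first | linear_combination hδ | linear_combination h1 | linear_combination (-κ) * hδ | ring

/-- a generic point of the cone over the fibre -/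
structure Cone (k : Type*) [Field k] [Algebra k K] (q : ℕ) (β : Fin 3 → K) (x : Y ⊕ Fin 2 → K) :
    Prop where
  ker : ∀ f : MvPolynomial (Y ⊕ Fin 2) (aeval β : MvPolynomial (Fin 3) k →ₐ[k] K).range,
    aeval x f = 0 → (fF q (C ((aeval β : MvPolynomial (Fin 3) k →ₐ[k] K).rangeRestrict (X 2))) X :
      MvPolynomial (Y ⊕ Fin 2) (aeval β : MvPolynomial (Fin 3) k →ₐ[k] K).range) ∣ f
  eq : fF q (β 2) x = 0
  ne : ∀ a, x a ≠ 0

variable {x : Y ⊕ Fin 2 → K}

lemma Cone.eq_div (H : Cone k q β x) (b : Y ⊕ Fin 2) : fF q (β 2) (fun a => x a / x b) = 0 := by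
  simp only [div_eq_inv_mul, fF_mul, H.eq, mul_zero]

lemma aeval_gT (H : Chart β g T) (H' : Cone k q β x) (b : Y ⊕ Fin 2) (l : Fin 2 ⊕ Fin 2) :
    aeval (cT β x b) (gT q g T b l) = 0 := by
  rcases l with l | l
  · simpa [gT, cT, aeval_rename] using H.aeval_gB l
  · fin_cases l
    · simp [gT, cT, H'.ne]
    · simpa [gT, cT, map_fF] using H'.eq_div b

lemma ker_cT (H : Chart β g T) (H' : Cone k q β x) (b : Y ⊕ Fin 2)
    (f : MvPolynomial (Fin 3 ⊕ (Y ⊕ Fin 2)) k) (hf : aeval (cT β x b) f = 0) :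
    f ∈ Ideal.span (Set.range (gT q g T b)) := by
  set J := Ideal.span (Set.range (gT q g T b)) with hJ
  let π := Ideal.Quotient.mkₐ k J
  have hπ (l) : π (gT q g T b l) = 0 :=
    Ideal.Quotient.eq_zero_iff_mem.mpr (Ideal.subset_span ⟨l, rfl⟩)
  have hb : π (X (inr b)) = 1 := by simpa [gT, sub_eq_zero] using hπ (inr 0)
  obtain ⟨N, f', e1, e2⟩ := clear_denom' (aeval (Sum.elim β x)) π (X (inr b)) hb (cT β x b)
    (fun v => π (X v)) (by
      rintro (i | a)
      · exact ⟨0, X (inl i), by simp [cT], rfl⟩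
      · exact ⟨1, X (inr a), by simp [cT, mul_div_cancel₀ _ (H'.ne b)], rfl⟩) f
  rw [hf, mul_zero] at e1
  have e3 : aeval (fun v => π (X v)) f = π f :=
    congr($(show aeval (fun v => π (X v)) = π by ext; simp) f)
  rw [← Ideal.Quotient.eq_zero_iff_mem]
  change π f = 0
  rw [← e3, ← e2]
  obtain ⟨φ, hφ⟩ := exists_lift_range β (π.comp (rename inl)).toRingHom fun f hf => by
    have : Ideal.span (Set.range (gB g T)) ≤ RingHom.ker (π.comp (rename inl)) := by
      rw [Ideal.span_le]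
      rintro _ ⟨l, rfl⟩
      exact hπ (inl l)
    exact this (H.ker f hf)
  let Θ : MvPolynomial (Fin 3 ⊕ (Y ⊕ Fin 2)) k →ₐ[k]
      MvPolynomial (Y ⊕ Fin 2) (aeval β : MvPolynomial (Fin 3) k →ₐ[k] K).range :=
    aeval (Sum.elim (fun i => C ((aeval β).rangeRestrict (X i))) X)
  have h1 : aeval x (Θ f') = aeval (Sum.elim β x) f' := by
    have : ((aeval x).restrictScalars k).comp Θ = aeval (Sum.elim β x) := by
      ext (i | a) <;> simp [Θ]
    exact congr($this f')
  let back := eval₂Hom φ fun a => π (X (inr a))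
  have h2 : back.comp Θ.toRingHom = π.toRingHom := by
    ext v
    · have := hφ (C v)
      rw [algHom_C] at this
      simp only [back, Θ, AlgHom.toRingHom_eq_coe, RingHom.coe_comp, RingHom.coe_coe,
        Function.comp_apply, algHom_C] at this ⊢
      rw [← this]
      exact eval₂Hom_C _ _ _
    · rcases v with i | a
      · simpa [back, Θ] using hφ (X i)
      · simp [back, Θ]
  obtain ⟨G, hG⟩ := H'.ker _ (h1.trans e1.symm)
  have h3 : π f' = back (Θ f') := congr($h2 f').symm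
  have h4 : back (fF q (C ((aeval β).rangeRestrict (X 2))) X) = 0 := by
    rw [← hπ (inr 1)]
    simp [gT, map_fF, back, hφ]
  rw [h3, hG, map_mul, h4, zero_mul]

/-- evaluation along the section at infinity -/
lemma exists_section (H : Chart β g T) (H' : Cone k q β x) {S : Type*} [CommRing S]
    [Algebra k S] (β' : Fin 3 → S) (h : ∀ l, aeval β' (gB g T l) = 0) :
    ∃ φ : (aeval (cT β x (inr 0)) : MvPolynomial _ k →ₐ[k] K).range →+* S,
      ∀ f : MvPolynomial (Fin 3) k,
        φ ⟨aeval β f, range_le_cT β _ ⟨f, rfl⟩⟩ = aeval β' f := by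
  let ψ : MvPolynomial (Fin 3 ⊕ (Y ⊕ Fin 2)) k →ₐ[k] S :=
    aeval (Sum.elim β' (Pi.single (inr 0) 1))
  obtain ⟨φ, hφ⟩ := exists_lift_range (cT β x (inr 0)) ψ.toRingHom fun f hf => by
    have : Ideal.span (Set.range (gT q g T (inr 0 : Y ⊕ Fin 2))) ≤ RingHom.ker ψ := by
      rw [Ideal.span_le]
      rintro _ ⟨l | l, rfl⟩
      · simpa [gT, ψ, aeval_rename] using h l
      · fin_cases l <;> simp [gT, ψ, fF]
    exact this (ker_cT H H' _ f hf)
  refine ⟨φ, fun f => ?_⟩
  have := hφ (rename inl f)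
  simp only [ψ, AlgHom.toRingHom_eq_coe, RingHom.coe_coe, aeval_rename, elim_comp_inl] at this
  rw [← this]
  congr 1
  refine Subtype.ext ?_
  change aeval β f = aeval (cT β x (inr 0)) (rename inl f)
  simp [cT, aeval_rename]

theorem mem_of_forall_mem (H : Chart β g T) (H' : Cone k q β x) (φ : K)
    (hφ : ∀ b, φ ∈ (aeval (cT β x b) : MvPolynomial _ k →ₐ[k] K).range) :
    φ ∈ (aeval β : MvPolynomial (Fin 3) k →ₐ[k] K).range := by
  set B := (aeval β : MvPolynomial (Fin 3) k →ₐ[k] K).range with hB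
  have hint : IsIntegral B φ := by
    have h1 : φ ∈ (integralClosure (Subring.closure (B : Set K)) K).toSubring := by
      rw [← iInf_valuationSubring_superset, Subring.mem_iInf]
      rintro ⟨V, hV⟩
      obtain ⟨b, -, hb⟩ := Finset.exists_max_image Finset.univ (fun a => V.valuation (x a))
        ⟨inr 0, Finset.mem_univ _⟩
      suffices h : ∀ f : MvPolynomial (Fin 3 ⊕ (Y ⊕ Fin 2)) k, aeval (cT β x b) f ∈ V by
        obtain ⟨f, rfl⟩ := hφ b
        exact h f
      intro f
      induction f using MvPolynomial.induction_on with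
      | C a => exact hV (by simpa using B.algebraMap_mem a)
      | add p r hp hr => rw [map_add]; exact add_mem hp hr
      | mul_X p v hp =>
        rw [map_mul, aeval_X]
        refine mul_mem hp ?_
        rcases v with i | a
        · exact hV ⟨X i, by simp [cT]⟩
        · rw [← V.valuation_le_one_iff, cT, elim_inr, map_div₀]
          exact div_le_one_of_le₀ (hb a (Finset.mem_univ _)) zero_le
    have h2 : Subring.closure (B : Set K) = B.toSubring := Subring.closure_eq B.toSubring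
    rw [h2] at h1
    exact h1
  set A := (aeval (cT β x (inr 0)) : MvPolynomial _ k →ₐ[k] K).range with hA
  obtain ⟨σ, hσ⟩ := exists_section H H' (fun i => (aeval β).rangeRestrict (X i)) fun l => by
    have : (aeval fun i => (aeval β).rangeRestrict (X i) : MvPolynomial (Fin 3) k →ₐ[k] B) =
        (aeval β).rangeRestrict := by ext : 1; simp
    rw [this]
    exact Subtype.ext (H.aeval_gB l)
  have hBA : B ≤ A := range_le_cT β _
  have hσ' (a : B) : σ (Subalgebra.inclusion hBA a) = a := by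
    obtain ⟨_, f, rfl⟩ := a
    refine (hσ f).trans ?_
    have : (aeval fun i => (aeval β).rangeRestrict (X i) : MvPolynomial (Fin 3) k →ₐ[k] B) =
        (aeval β).rangeRestrict := by ext : 1; simp
    rw [this]
    rfl
  let φ' : A := ⟨φ, hφ _⟩
  by_contra hn
  have h0 : φ - σ φ' ≠ 0 := fun h => hn (sub_eq_zero.mp h ▸ (σ φ').2)
  obtain ⟨P, hP, hP'⟩ := (hint.sub (isIntegral_algebraMap (x := σ φ'))).isAlgebraic
    |>.exists_nonzero_coeff_and_aeval_eq_zero (mem_nonZeroDivisors_of_ne_zero h0)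
  have h1 : P.eval₂ (Subalgebra.inclusion hBA).toRingHom
      (φ' - Subalgebra.inclusion hBA (σ φ')) = 0 := by
    refine Subtype.ext (Eq.trans ?_ hP')
    exact Polynomial.hom_eval₂ _ _ A.val.toRingHom _
  have h2 := Polynomial.hom_eval₂ P (Subalgebra.inclusion hBA).toRingHom σ
    (φ' - Subalgebra.inclusion hBA (σ φ'))
  rw [h1, map_zero, map_sub, hσ', sub_self, Polynomial.eval₂_at_zero] at h2
  exact hP ((hσ' _).symm.trans h2.symm)

end Pool.Agent.Lib.MP_99f32e_ag
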