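import Mathlib

open Polynomial

namespace Pool.Agent.Lib.MP_99f32e_ag

section cyclic

variable {R : Type*} [CommRing R] [IsDomain R] [UniqueFactorizationMonoid R] {n : ℕ} {G : R}

omit [UniqueFactorizationMonoid R] in
lemma eisenstein_of_dvd (hn : n ≠ 0) (hsq : Squarefree G) {π : R} (hπ : Prime π) (h : π ∣ G) :
    (X ^ n + C G : R[X]).IsEisensteinAt (Ideal.span {π}) := by
  have hmon : (X ^ n + C G).Monic := monic_X_pow_add_C _ hn
  have hP : (Ideal.span {π}).IsPrime := (Ideal.span_singleton_prime hπ.ne_zero).mpr hπ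
  refine ⟨?_, ?_, ?_⟩
  · rw [hmon.leadingCoeff]
    exact (Ideal.ne_top_iff_one _).mp hP.ne_top
  · intro m hm
    rw [natDegree_X_pow_add_C] at hm
    rw [coeff_add, coeff_X_pow, if_neg hm.ne, zero_add, coeff_C]
    split_ifs
    · exact Ideal.mem_span_singleton.mpr h
    · exact zero_mem _
  · rw [coeff_add, coeff_X_pow, if_neg hn.symm, zero_add, coeff_C_zero, Ideal.span_singleton_pow,
      Ideal.mem_span_singleton, pow_two]
    exact fun h2 => hπ.not_isUnit (hsq π h2)

theorem prime_cyclic (hn : n ≠ 0) (hsq : Squarefree G) (hu : ¬ IsUnit G) :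
    Prime (X ^ n + C G : R[X]) := by
  obtain ⟨π, hπ, hπG⟩ := WfDvdMonoid.exists_irreducible_factor hu hsq.ne_zero
  have hP : (Ideal.span {π}).IsPrime :=
    (Ideal.span_singleton_prime hπ.ne_zero).mpr hπ.prime
  exact ((eisenstein_of_dvd hn hsq hπ.prime hπG).irreducible hP
    (monic_X_pow_add_C _ hn).isPrimitive
    (by rw [natDegree_X_pow_add_C]; omega)).prime

theorem isIntegrallyClosed_cyclic (hn : IsUnit (n : R)) (hsq : Squarefree G) (hu : ¬ IsUnit G) :
    IsIntegrallyClosed (AdjoinRoot (X ^ n + C G : R[X])) := by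
  have hn0 : n ≠ 0 := by rintro rfl; simp at hn
  have hpr := prime_cyclic hn0 hsq hu
  set f : R[X] := X ^ n + C G with hf
  have hmon : f.Monic := monic_X_pow_add_C _ hn0
  have hdom := AdjoinRoot.isDomain_of_prime hpr
  let K := FractionRing R
  have hRK : Function.Injective (algebraMap R K) := IsFractionRing.injective R K
  let f' : K[X] := f.map (algebraMap R K)
  have hf' : f' = X ^ n + C (algebraMap R K G) := by simp [f', hf]
  have hmon' : f'.Monic := hmon.map _
  have hirr : Fact (Irreducible f') :=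
    ⟨(hmon.irreducible_iff_irreducible_map_fraction_map).mp hpr.irreducible⟩
  let L := AdjoinRoot f'
  let φ : AdjoinRoot f →+* L := AdjoinRoot.map (algebraMap R K) f f' dvd_rfl
  have hφo (r : R) : φ (AdjoinRoot.of f r) = algebraMap K L (algebraMap R K r) :=
    AdjoinRoot.map_of _ _ _ _ r
  have hφ (g : R[X]) : φ (AdjoinRoot.mk f g) = AdjoinRoot.mk f' (g.map (algebraMap R K)) := by
    have : φ.comp (AdjoinRoot.mk f) = (AdjoinRoot.mk f').comp (mapRingHom (algebraMap R K)) := by
      ext r
      · simp only [RingHom.coe_comp, Function.comp_apply, AdjoinRoot.mk_C, coe_mapRingHom, map_C]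
        exact hφo r
      · simp only [RingHom.coe_comp, Function.comp_apply, AdjoinRoot.mk_X, coe_mapRingHom, map_X]
        exact AdjoinRoot.map_root (algebraMap R K) f f' dvd_rfl
    exact congr($this g)
  have hinj : Function.Injective φ := by
    rw [injective_iff_map_eq_zero]
    intro a ha
    obtain ⟨g, rfl⟩ := AdjoinRoot.mk_surjective a
    rw [hφ, AdjoinRoot.mk_eq_zero, map_dvd_map _ hRK hmon] at ha
    exact AdjoinRoot.mk_eq_zero.mpr ha
  let _ : Algebra (AdjoinRoot f) L := φ.toAlgebra
  have : IsScalarTower R (AdjoinRoot f) L := IsScalarTower.of_algebraMap_eq fun r =>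
    (hφo r).symm
  have : FaithfulSMul (AdjoinRoot f) L := (faithfulSMul_iff_algebraMap_injective _ _).mpr hinj
  have hfrac : IsFractionRing (AdjoinRoot f) L := IsFractionRing.of_field _ _ fun z => by
    obtain ⟨g, rfl⟩ := AdjoinRoot.mk_surjective z
    obtain ⟨b, hb, e⟩ := IsLocalization.integerNormalization_spec (nonZeroDivisors R) g
    refine ⟨AdjoinRoot.mk f (IsLocalization.integerNormalization (nonZeroDivisors R) g),
      AdjoinRoot.of f b, ?_⟩
    have hb0 : algebraMap K L (algebraMap R K b) ≠ 0 :=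
      (_root_.map_ne_zero _).mpr ((map_ne_zero_iff _ hRK).mpr (nonZeroDivisors.ne_zero hb))
    change _ = φ _ / φ _
    rw [hφ, e, hφo, eq_div_iff hb0, Algebra.smul_def, map_mul, mul_comm]
    rfl
  let B : PowerBasis K L := AdjoinRoot.powerBasis hmon'.ne_zero
  have hgen : B.gen = AdjoinRoot.root f' := rfl
  have hroot : aeval B.gen f = 0 := by
    rw [← aeval_map_algebraMap K, hgen, AdjoinRoot.aeval_eq, AdjoinRoot.mk_self]
  have hint : IsIntegral R B.gen := ⟨f, hmon, hroot⟩
  have hminK : minpoly K B.gen = f' := AdjoinRoot.minpoly_powerBasis_gen_of_monic hmon'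
  have hmin : minpoly R B.gen = f := by
    apply map_injective _ hRK
    rw [← minpoly.isIntegrallyClosed_eq_field_fractions' K hint, hminK]
  have hG : algebraMap R K G ≠ 0 := (map_ne_zero_iff _ hRK).mpr hsq.ne_zero
  have hnK : (n : K) ≠ 0 := by simpa using (hn.map (algebraMap R K)).ne_zero
  have hfin := B.finite
  have hsep : Algebra.IsSeparable K L := by
    have h1 : f'.Separable := by
      rw [hf', ← sub_neg_eq_add, ← map_neg]
      exact separable_X_pow_sub_C _ hnK (neg_ne_zero.mpr hG)
    have h2 : IsSeparable K B.gen := by rw [IsSeparable, hminK]; exact h1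
    have h3 := IntermediateField.isSeparable_adjoin_simple_iff_isSeparable K L (x := B.gen)
    have h4 : IntermediateField.adjoin K {B.gen} = ⊤ := by
      rw [← IntermediateField.toSubalgebra_inj,
        IntermediateField.adjoin_simple_toSubalgebra_of_isAlgebraic (Algebra.IsAlgebraic.isAlgebraic _),
        B.adjoin_gen_eq_top]
      rfl
    have h5 := h3.mpr h2
    rw [h4] at h5
    exact Algebra.IsSeparable.of_algHom K _ IntermediateField.topEquiv.symm.toAlgHom
  rw [isIntegrallyClosed_iff L]
  intro x hx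
  have : Algebra.IsIntegral R (AdjoinRoot f) := by
    have := hmon.finite_adjoinRoot
    infer_instance
  have hxR : IsIntegral R x := isIntegral_trans x hx
  have h1 := Algebra.discr_mul_isIntegral_mem_adjoin K hint hxR
  obtain ⟨u, hu'⟩ := hn
  have h2 : ∃ (v : Rˣ) (N : ℕ), Algebra.discr K B.basis = algebraMap R K (v * G ^ N) := by
    refine ⟨(-1) ^ (Module.finrank K L * (Module.finrank K L - 1) / 2) * u ^ Module.finrank K L *
      ((-1) ^ B.dim) ^ (n - 1), n - 1, ?_⟩
    rw [Algebra.discr_powerBasis_eq_norm, hminK.trans hf']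
    simp only [derivative_add, derivative_X_pow, derivative_C, add_zero, map_mul, aeval_C, map_pow,
      aeval_X, Algebra.norm_algebraMap, Algebra.PowerBasis.norm_gen_eq_coeff_zero_minpoly,
      hminK.trans hf', coeff_add, coeff_X_pow, if_neg hn0.symm, zero_add, coeff_C_zero, Units.val_mul,
      Units.val_pow_eq_pow_val, Units.val_neg, Units.val_one, hu', map_neg, map_one]
    rw [map_natCast (algebraMap R K)]
    ring
  obtain ⟨v, N, hv⟩ := h2
  rw [hv, algebraMap_smul] at h1
  have key (a : R) : a ∣ G ^ N → ∀ z : L, IsIntegral R z →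
      a • z ∈ Algebra.adjoin R {B.gen} → z ∈ Algebra.adjoin R {B.gen} := by
    induction a using UniqueFactorizationMonoid.induction_on_prime with
    | h₁ => intro h; exact absurd (zero_dvd_iff.mp h) (pow_ne_zero _ hsq.ne_zero)
    | h₂ a ha =>
      intro _ z _ hz
      obtain ⟨a, rfl⟩ := ha
      have := Subalgebra.smul_mem _ hz (↑a⁻¹ : R)
      rwa [smul_smul, Units.inv_mul, one_smul] at this
    | h₃ a π _ hπ ih =>
      intro h z hz hz'
      refine ih ((dvd_mul_left _ _).trans h) z hz ?_
      refine mem_adjoin_of_smul_prime_smul_of_minpoly_isEisensteinAt hπ hint (hz.smul a)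
        (by rwa [smul_smul]) ?_
      rw [hmin]
      exact eisenstein_of_dvd hn0 hsq hπ (hπ.dvd_of_dvd_pow ((dvd_mul_right _ _).trans h))
  have h3 := key _ (by simp) x hxR h1
  rw [Algebra.adjoin_singleton_eq_range_aeval] at h3
  obtain ⟨g, rfl⟩ := h3
  refine ⟨AdjoinRoot.mk f g, ?_⟩
  change φ _ = aeval B.gen g
  rw [hφ, ← aeval_map_algebraMap K, hgen, AdjoinRoot.aeval_eq]

end cyclic

/-- a polynomial two of whose partial derivatives are powers of the variables is squarefree -/
lemma squarefree_of_pderiv {κ σ : Type*} [Field κ] {G : MvPolynomial σ κ} {i j : σ} (hij : i ≠ j)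
    {m : ℕ} (hi : MvPolynomial.pderiv i G = MvPolynomial.X i ^ m)
    (hj : MvPolynomial.pderiv j G = MvPolynomial.X j ^ m) : Squarefree G ∧ ¬ IsUnit G := by
  have hG0 : G ≠ 0 := by
    rintro rfl
    rw [map_zero] at hi
    exact pow_ne_zero _ (MvPolynomial.X_ne_zero _) hi.symm
  constructor
  · rw [squarefree_iff_no_irreducibles hG0]
    rintro π hπ ⟨h, hh⟩
    have H (l : σ) (hl : MvPolynomial.pderiv l G = MvPolynomial.X l ^ m) :
        Associated π (MvPolynomial.X l) := by
      have h1 : π ∣ MvPolynomial.pderiv l G := by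
        rw [hh, Derivation.leibniz, Derivation.leibniz]
        simp only [smul_eq_mul]
        exact dvd_add (Dvd.dvd.mul_right (dvd_mul_left _ _) _)
          (Dvd.dvd.mul_left (dvd_add (dvd_mul_right _ _) (dvd_mul_right _ _)) _)
      rw [hl] at h1
      exact hπ.associated_of_dvd MvPolynomial.X_prime.irreducible (hπ.prime.dvd_of_dvd_pow h1)
    have := ((H i hi).symm.trans (H j hj)).dvd
    rw [MvPolynomial.X_dvd_X] at this
    exact hij this
  · intro h
    obtain ⟨r, -, rfl⟩ := MvPolynomial.isUnit_iff_eq_C_of_isReduced.mp h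
    rw [MvPolynomial.pderiv_C] at hi
    exact pow_ne_zero _ (MvPolynomial.X_ne_zero _) hi.symm

end Pool.Agent.Lib.MP_99f32e_ag
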