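import Pool.Agent.Lib.MP_99f32e_ag.RMain

open MvPolynomial Sum Matrix

set_option linter.unusedSectionVars false

universe u

namespace Pool.Agent.Lib.MP_99f32e_ag

/-- equation of the base curve -/
def bΦ {A : Type*} [CommRing A] (D : ℕ) (z : Fin 3 → A) : A :=
  z 2 ^ (D + 3) - (z 0 ^ (D + 2) * z 2 + z 1 ^ (D + 2) * z 0)

theorem exists_base_model (k : Type u) [Field k] (D : ℕ) :
    ∃ (R : Type u) (_ : CommRing R) (_ : IsDomain R) (_ : Algebra k R) (ζ : Fin 3 → R),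
      (∀ i, ζ i ≠ 0) ∧ bΦ D ζ = 0 ∧ ∀ (T : Type u) [CommRing T] [Algebra k T] (x : Fin 3 → T),
        bΦ D x = 0 → ∃ π : R →ₐ[k] T, ∀ i, π (ζ i) = x i := by
  let a : MvPolynomial (Fin 2) k := X 0 ^ (D + 2)
  let b : MvPolynomial (Fin 2) k := X 1 ^ (D + 2) * X 0
  let f : Polynomial (MvPolynomial (Fin 2) k) :=
    Polynomial.X ^ (D + 3) - (Polynomial.C a * Polynomial.X + Polynomial.C b)
  have h1 : (Polynomial.C a * Polynomial.X + Polynomial.C b).natDegree < D + 3 :=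
    Polynomial.natDegree_linear_le.trans_lt (by omega)
  have hmon : f.Monic := Polynomial.monic_X_pow_sub
    (Polynomial.degree_le_natDegree.trans_lt (by exact_mod_cast h1))
  have hdeg : f.natDegree = D + 3 := by
    rw [Polynomial.natDegree_sub_eq_left_of_natDegree_lt (by simpa using h1),
      Polynomial.natDegree_X_pow]
  have hX : Prime (X 0 : MvPolynomial (Fin 2) k) := X_prime
  have hP := (Ideal.span_singleton_prime hX.ne_zero).mpr hX
  have hE : f.IsEisensteinAt (Ideal.span {X 0}) := by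
    refine ⟨?_, fun {n} hn => ?_, fun h => ?_⟩
    · rw [hmon.leadingCoeff]
      exact (Ideal.ne_top_iff_one _).mp hP.ne_top
    · rw [hdeg] at hn
      rw [Ideal.mem_span_singleton, Polynomial.coeff_sub, Polynomial.coeff_X_pow, if_neg hn.ne,
        zero_sub, dvd_neg, Polynomial.coeff_add, Polynomial.coeff_C_mul_X, Polynomial.coeff_C]
      refine dvd_add ?_ ?_ <;> split_ifs
      · exact dvd_pow_self _ (by omega)
      · exact dvd_zero _
      · exact dvd_mul_left _ _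
      · exact dvd_zero _
    · have h2 : f.coeff 0 = -b := by simp [f]
      rw [h2, Ideal.span_singleton_pow, Ideal.mem_span_singleton, dvd_neg, pow_two,
        mul_dvd_mul_iff_right hX.ne_zero] at h
      simpa using X_dvd_X.mp (hX.dvd_of_dvd_pow h)
  have hpr : Prime f := (hE.irreducible hP hmon.isPrimitive (by omega)).prime
  refine ⟨AdjoinRoot f, inferInstance, AdjoinRoot.isDomain_of_prime hpr, inferInstance,
    ![AdjoinRoot.mk f (Polynomial.C (X 0)), AdjoinRoot.mk f (Polynomial.C (X 1)),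
      AdjoinRoot.mk f Polynomial.X], fun i => ?_, ?_, fun T _ _ x hx => ?_⟩
  · fin_cases i <;> exact AdjoinRoot.mk_ne_zero_of_natDegree_lt hmon (by simp) (by simp [hdeg])
  · rw [← AdjoinRoot.mk_self (f := f)]
    simp [bΦ, f, a, b]
  · refine ⟨AdjoinRoot.liftAlgHom f (aeval ![x 0, x 1]) (x 2) (by simpa [f, a, b, bΦ, Polynomial.eval₂_pow] using hx),
      fun i => ?_⟩
    fin_cases i <;> simp

variable {k K : Type u} [Field k] [Field K] [Algebra k K] {D : ℕ}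

lemma ker_of_cone {R : Type u} [CommRing R] [Algebra k R] {ζ : Fin 3 → R}
    (huniv : ∀ (T : Type u) [CommRing T] [Algebra k T] (x : Fin 3 → T),
      bΦ D x = 0 → ∃ π : R →ₐ[k] T, ∀ i, π (ζ i) = x i)
    (ψ : R →ₐ[k] K) (hψ : Function.Injective ψ) {β : Fin 3 → K} {g T : MvPolynomial (Fin 3) k}
    (σ : Fin 3 → MvPolynomial (Fin 3) k) (hg : aeval σ (bΦ D X : MvPolynomial (Fin 3) k) = g)
    {i i₀ i₁ : Fin 3} (hi : σ i = 1) (hi₀ : σ i₀ = X 0) (hi₁ : σ i₁ = X 1)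
    (h₀ : ψ (ζ i) * β 0 = ψ (ζ i₀)) (h₁ : ψ (ζ i) * β 1 = ψ (ζ i₁))
    (hT : aeval ![X 0, X 1, 0] T = T) (hT' : aeval β T = β 2) (f : MvPolynomial (Fin 3) k)
    (hf : aeval β f = 0) : f ∈ Ideal.span (Set.range (gB g T)) := by
  set J := Ideal.span (Set.range (gB g T)) with hJ
  let π₀ := Ideal.Quotient.mkₐ k J
  have hπ (l) : π₀ (gB g T l) = 0 :=
    Ideal.Quotient.eq_zero_iff_mem.mpr (Ideal.subset_span ⟨l, rfl⟩)
  obtain ⟨π, hπ'⟩ := huniv _ (fun i => π₀ (σ i)) (by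
    rw [← hπ 0]
    change _ = π₀ g
    simp [← hg, bΦ])
  have hd : π (ζ i) = 1 := by rw [hπ', hi, map_one]
  have e₀ : ∃ (m : ℕ) (n : R), ψ (ζ i) ^ m * β 0 = ψ n ∧ π n = π₀ (X 0) :=
    ⟨1, ζ i₀, by rw [pow_one, h₀], by rw [hπ', hi₀]⟩
  have e₁ : ∃ (m : ℕ) (n : R), ψ (ζ i) ^ m * β 1 = ψ n ∧ π n = π₀ (X 1) :=
    ⟨1, ζ i₁, by rw [pow_one, h₁], by rw [hπ', hi₁]⟩
  have e₂ : ∃ (m : ℕ) (n : R), ψ (ζ i) ^ m * β 2 = ψ n ∧ π n = π₀ (X 2) := by
    obtain ⟨m, n, h1, h2⟩ := clear_denom' ψ π (ζ i) hd ![β 0, β 1, 0] ![π₀ (X 0), π₀ (X 1), 0]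
      (fun v => by
        fin_cases v
        · exact e₀
        · exact e₁
        · exact ⟨0, 0, by simp, by simp⟩) T
    have h3 (S : Type u) [CommRing S] [Algebra k S] (θ : MvPolynomial (Fin 3) k →ₐ[k] S) :
        aeval ![θ (X 0), θ (X 1), 0] T = θ T := by
      have : aeval ![θ (X 0), θ (X 1), 0] = θ.comp (aeval ![X 0, X 1, 0]) := by
        ext v; fin_cases v <;> simp
      rw [this, AlgHom.comp_apply, hT]
    have h4 := h3 K (aeval β)
    rw [aeval_X, aeval_X, hT'] at h4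
    refine ⟨m, n, h4 ▸ h1, h2.trans ((h3 _ π₀).trans ?_)⟩
    have h5 : π₀ (X 2 - T) = 0 := hπ 1
    rw [map_sub, sub_eq_zero] at h5
    exact h5.symm
  obtain ⟨N, f', h1, h2⟩ := clear_denom' ψ π (ζ i) hd β (fun v => π₀ (X v))
    (fun v => by fin_cases v <;> assumption) f
  rw [hf, mul_zero, eq_comm, map_eq_zero_iff ψ hψ] at h1
  rw [h1, map_zero, show aeval (fun v => π₀ (X v)) = π₀ by ext; simp] at h2
  exact Ideal.Quotient.eq_zero_iff_mem.mp h2.symm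

/-- coordinates on the two charts -/
def bβ {A : Type*} [Field A] (D : ℕ) (z : Fin 3 → A) : Fin 2 → Fin 3 → A :=
  ![![z 1 / z 0, z 2 / z 0, z 1 / z 0],
    ![z 2 / z 1, z 0 / z 1, z 2 / z 1 * (1 + z 2 / z 1 * (z 0 / z 1) ^ (D + 1)) ^ 2]]

/-- equations of the two charts -/
noncomputable def bg (k : Type u) [Field k] (D : ℕ) : Fin 2 → MvPolynomial (Fin 3) k :=
  ![X 1 ^ (D + 3) - (X 1 + X 0 ^ (D + 2)), X 0 ^ (D + 3) - (X 1 ^ (D + 2) * X 0 + X 1)]

/-- etale coordinates of the two charts -/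
noncomputable def bT (k : Type u) [Field k] (D : ℕ) : Fin 2 → MvPolynomial (Fin 3) k :=
  ![X 0, X 0 * (1 + X 0 * X 1 ^ (D + 1)) ^ 2]

variable {z : Fin 3 → K} (hz : ∀ i, z i ≠ 0) (hΦ : bΦ D z = 0)
include hz hΦ

omit hz in
lemma bΦ_div (m : K) : bΦ D (fun i => z i / m) = 0 := by
  simp only [bΦ, div_eq_mul_inv, mul_pow] at hΦ ⊢
  linear_combination m⁻¹ ^ (D + 3) * hΦ

lemma rel0 : (z 2 / z 0) ^ (D + 3) - (z 2 / z 0 + (z 1 / z 0) ^ (D + 2)) = 0 := by
  simpa [bΦ, hz] using bΦ_div hΦ (z 0)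

lemma rel1 : (z 0 / z 1) * (1 + z 2 / z 1 * (z 0 / z 1) ^ (D + 1)) = (z 2 / z 1) ^ (D + 3) := by
  have := bΦ_div hΦ (z 1)
  simp only [bΦ, div_self (hz 1)] at this
  linear_combination -this

lemma inv_eps_mem {B : Subalgebra k K} (hu : z 2 / z 1 ∈ B) (hv : z 0 / z 1 ∈ B) :
    (1 + z 2 / z 1 * (z 0 / z 1) ^ (D + 1))⁻¹ ∈ B := by
  let u : B := ⟨_, hu⟩
  let v : B := ⟨_, hv⟩
  have h1 : IsCoprime (1 + u * v ^ (D + 1)) u := ⟨1, -v ^ (D + 1), by ring⟩
  have h2 : v * (1 + u * v ^ (D + 1)) = u ^ (D + 3) := Subtype.ext (rel1 hz hΦ)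
  obtain ⟨w, hw⟩ := ((h1.pow_right (n := D + 3)).isUnit_of_dvd
    (h2 ▸ dvd_mul_left _ _)).exists_right_inv
  exact (eq_inv_of_mul_eq_one_right (congrArg Subtype.val hw) :
    (w : K) = (1 + z 2 / z 1 * (z 0 / z 1) ^ (D + 1))⁻¹) ▸ w.2

omit hz hΦ in
lemma chart_b {R : Type u} [CommRing R] [Algebra k R] {ζ : Fin 3 → R}
    (huniv : ∀ (T : Type u) [CommRing T] [Algebra k T] (x : Fin 3 → T),
      bΦ D x = 0 → ∃ π : R →ₐ[k] T, ∀ i, π (ζ i) = x i)
    (ψ : R →ₐ[k] K) (hψ : Function.Injective ψ) (hD : ((D + 3 : ℕ) : k) = 0)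
    (hζ : ∀ i, ψ (ζ i) = z i) (hz : ∀ i, z i ≠ 0) (hΦ : bΦ D z = 0) (j : Fin 2) :
    Chart (bβ D z j) (bg k D j) (bT k D j) := by
  have hD' : (D : K) = -3 := by
    have := congrArg (algebraMap k K) hD
    rw [map_natCast, map_zero] at this
    push_cast at this
    linear_combination this
  fin_cases j
  · refine ⟨ker_of_cone huniv ψ hψ ![1, X 0, X 1] (i := 0) (i₀ := 1) (i₁ := 2) (by simp [bΦ, bg])
      rfl rfl rfl (by simp [bβ, hζ, mul_div_cancel₀, hz]) (by simp [bβ, hζ, mul_div_cancel₀, hz])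
      (by simp [bT]) (by simp [bT, bβ]), by simpa [bg, bβ] using rel0 hz hΦ, by simp [bT, bβ],
      by simp [bg, pderiv_X], by simp [bT, pderiv_X], 1, ?_⟩
    simp [jac, bg, bT, pderiv_X, hD']
  · refine ⟨ker_of_cone huniv ψ hψ ![X 1, 1, X 0] (i := 1) (i₀ := 2) (i₁ := 0) (by simp [bΦ, bg])
      rfl rfl rfl (by simp [bβ, hζ, mul_div_cancel₀, hz]) (by simp [bβ, hζ, mul_div_cancel₀, hz])
      (by simp [bT]) (by simp [bT, bβ]), ?_, by simp [bT, bβ],
      by simp [bg, pderiv_X], by simp [bT, pderiv_X], ?_⟩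
    · have := rel1 hz hΦ
      simp [bg, bβ]
      linear_combination -this
    · obtain ⟨δ, hδ⟩ := inv_eps_mem hz hΦ
        (B := (aeval (bβ D z 1) : MvPolynomial (Fin 3) k →ₐ[k] K).range) ⟨X 0, by simp [bβ]⟩
        ⟨X 1, by simp [bβ]⟩
      have h1 : aeval (bβ D z 1) (jac (bg k D 1) (bT k D 1)) =
          (1 + z 2 / z 1 * (z 0 / z 1) ^ (D + 1)) ^ 3 := by
        simp [jac, bg, bT, bβ, pderiv_X, hD']
        ring
      have h2 : 1 + z 2 / z 1 * (z 0 / z 1) ^ (D + 1) ≠ 0 := fun h => by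
        have := rel1 hz hΦ
        rw [h, mul_zero] at this
        exact pow_ne_zero _ (div_ne_zero (hz 2) (hz 1)) this.symm
      refine ⟨δ ^ 3, ?_⟩
      change aeval (bβ D z 1) _ * aeval (bβ D z 1) (jac (bg k D 1) (bT k D 1)) = 1
      rw [h1, map_pow, show aeval (bβ D z 1) δ = _ from hδ, ← mul_pow, inv_mul_cancel₀ h2, one_pow]

/-- local equations of the ample divisor -/
def bl {A : Type*} [Field A] (z : Fin 3 → A) : Fin 2 → A := ![1, z 0 / z 1 / (z 2 / z 1) ^ 3]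

/-- the translation part of the transition map -/
def br {A : Type*} [Field A] (q : ℕ) (z : Fin 3 → A) : Fin 2 → A := ![0, (z 2 / z 1)⁻¹ ^ (q + 1)]

lemma s_eq_b {q : ℕ} (hq0 : q ≠ 0) (hD : q * (q + 1) = D + 3) (j : Fin 2) :
    bβ D z 0 2 = br q z j ^ q + bl z j ^ (q * (q + 1)) * bβ D z j 2 := by
  fin_cases j
  · simp [br, bl, hq0]
  · have h1 := rel1 hz hΦ
    have hu := div_ne_zero (hz 2) (hz 1)
    have hv := div_ne_zero (hz 0) (hz 1)
    change z 1 / z 0 = ((z 2 / z 1)⁻¹ ^ (q + 1)) ^ q + (z 0 / z 1 / (z 2 / z 1) ^ 3) ^ (q * (q + 1)) *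
      (z 2 / z 1 * (1 + z 2 / z 1 * (z 0 / z 1) ^ (D + 1)) ^ 2)
    rw [← pow_mul, mul_comm (q + 1), hD, ← inv_div (z 0)]
    generalize z 2 / z 1 = u at *
    generalize z 0 / z 1 = v at *
    have h2 : 1 + u * v ^ (D + 1) = u ^ (D + 3) / v := by rw [← h1]; field_simp
    rw [h2, div_pow, inv_pow, ← pow_mul]
    field_simp
    linear_combination (-v * (u ^ (D + 3)) ^ 3) * h1

omit hΦ in
lemma adj_b (j : Fin 2) : Algebra.adjoin k (Set.range fun i => z i / z j.castSucc) =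
    (aeval (bβ D z j) : MvPolynomial (Fin 3) k →ₐ[k] K).range := by
  rw [← Algebra.adjoin_range_eq_range_aeval]
  have h1 (i) : z i / z j.castSucc ∈ Algebra.adjoin k (Set.range fun i => z i / z j.castSucc) :=
    Algebra.subset_adjoin ⟨i, rfl⟩
  have h2 (i) : bβ D z j i ∈ Algebra.adjoin k (Set.range (bβ D z j)) :=
    Algebra.subset_adjoin ⟨i, rfl⟩
  apply le_antisymm <;> rw [Algebra.adjoin_le_iff] <;> rintro _ ⟨i, rfl⟩ <;> fin_cases j <;>
    fin_cases i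
  · simp [hz]
  · exact h2 0
  · exact h2 1
  · exact h2 1
  · simp [hz]
  · exact h2 0
  · exact h1 1
  · exact h1 2
  · exact h1 1
  · exact h1 2
  · exact h1 0
  · exact mul_mem (h1 2) (pow_mem (add_mem (one_mem _) (mul_mem (h1 2) (pow_mem (h1 0) _))) _)

lemma rel_b : ∃ c₀ ∈ Algebra.adjoin k (Set.range fun i => z i / z 2),
    ∃ c₁ ∈ Algebra.adjoin k (Set.range fun i => z i / z 2),
      c₀ * (z 0 / z 2) + c₁ * (z 1 / z 2) = 1 := by
  have h1 (i) : z i / z 2 ∈ Algebra.adjoin k (Set.range fun i => z i / z 2) :=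
    Algebra.subset_adjoin ⟨i, rfl⟩
  refine ⟨(z 0 / z 2) ^ (D + 1) + (z 1 / z 2) ^ (D + 2),
    add_mem (pow_mem (h1 0) _) (pow_mem (h1 1) _), 0, zero_mem _, ?_⟩
  have := bΦ_div hΦ (z 2)
  simp only [bΦ, div_self (hz 2)] at this
  linear_combination -this

lemma bl_eq : bl z 1 = (z 2 / z 1) ^ D * (1 + z 2 / z 1 * (z 0 / z 1) ^ (D + 1))⁻¹ := by
  have h1 := rel1 hz hΦ
  have hu := div_ne_zero (hz 2) (hz 1)
  have hv := div_ne_zero (hz 0) (hz 1)
  change z 0 / z 1 / (z 2 / z 1) ^ 3 = _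
  generalize z 2 / z 1 = u at *
  generalize z 0 / z 1 = v at *
  have h2 : 1 + u * v ^ (D + 1) = u ^ (D + 3) / v := by rw [← h1]; field_simp
  rw [h2]
  field_simp
  ring

lemma nu_b (hD : D ≠ 0) (H : Chart (bβ D z 1) (bg k D 1) (bT k D 1)) :
    (bl z 1)⁻¹ ∉ (aeval (bβ D z 1) : MvPolynomial (Fin 3) k →ₐ[k] K).range := by
  rintro ⟨f, hf⟩
  have h1 : aeval (bβ D z 1) (f * X 0 ^ D - (1 + X 0 * X 1 ^ (D + 1))) = 0 := by
    have hu := div_ne_zero (hz 2) (hz 1)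
    rw [map_sub, map_mul, show aeval (bβ D z 1) f = _ from hf, bl_eq hz hΦ]
    simp [bβ]
    field_simp
    ring
  have h2 : Ideal.span (Set.range (gB (bg k D 1) (bT k D 1))) ≤
      RingHom.ker (constantCoeff : MvPolynomial (Fin 3) k →+* k) := by
    rw [Ideal.span_le]
    rintro _ ⟨l, rfl⟩
    fin_cases l <;> simp [gB, bg, bT]
  simpa [hD] using h2 (H.ker _ h1)

omit hz hΦ

variable {Y : Type} [Fintype Y] [DecidableEq Y] {q : ℕ}

lemma fF_tw {A : Type*} [CommRing A] (hfr : ∀ a b : A, (a + b) ^ q = a ^ q + b ^ q) {s₀ s l r : A}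
    (hs : s₀ = r ^ q + l ^ (q * (q + 1)) * s) (w : Y ⊕ Fin 2 → A) :
    fF q s (tw q l r w) = l ^ (q + 1) * fF q s₀ w := by
  simp only [fF, tw, elim_inl, elim_inr, cons_val_zero, cons_val_one, hfr, mul_pow,
    ← Finset.mul_sum, hs]
  ring

lemma tw_tw {A : Type*} [CommRing A] {m m' l l' : A} (r : A) (hm : m * m' = 1) (hl : l * l' = 1)
    (w : Y ⊕ Fin 2 → A) (a : Y ⊕ Fin 2) :
    m * tw q l (-(r * l ^ (q + 1))) (fun b => m' * tw q l' r w b) a = w a := by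
  have h1 : l ^ (q + 1) * l' ^ (q + 1) = 1 := by rw [← mul_pow, hl, one_pow]
  rcases a with i | i
  · simp only [tw, elim_inl]
    linear_combination (l * l' * w (inl i)) * hm + w (inl i) * hl
  · fin_cases i
    · simp only [tw, elim_inr, Fin.zero_eta, cons_val_zero, cons_val_one]
      linear_combination (w (inr 0) + r * w (inr 1) * (1 - l ^ (q + 1) * l' ^ (q + 1))) * hm -
        r * w (inr 1) * h1
    · simp only [tw, elim_inr, Fin.mk_one, cons_val_zero, cons_val_one]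
      linear_combination (l ^ (q + 1) * l' ^ (q + 1) * w (inr 1)) * hm + w (inr 1) * h1

lemma trans_of_tw {B : Subalgebra k K} {m l r : K} (h1 : m * l ∈ B) (h2 : m ∈ B) (h3 : m * r ∈ B)
    (h4 : m * l ^ (q + 1) ∈ B) (w : Y ⊕ Fin 2 → K) (a : Y ⊕ Fin 2) :
    ∃ c : Y ⊕ Fin 2 → K, (∀ b, c b ∈ B) ∧ m * tw q l r w a = ∑ b, c b * w b := by
  have h0 (b : Y ⊕ Fin 2) {t : K} (ht : t ∈ B) (b' : Y ⊕ Fin 2) :
      (Pi.single b t : Y ⊕ Fin 2 → K) b' ∈ B := by
    rw [Pi.single_apply]; split_ifs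
    · exact ht
    · exact zero_mem _
  rcases a with i | i
  · exact ⟨_, h0 (inl i) h1, by simp [tw, Pi.single_apply, mul_assoc]⟩
  · fin_cases i
    · refine ⟨Pi.single (inr 0) m + Pi.single (inr 1) (m * r),
        fun b => add_mem (h0 _ h2 b) (h0 _ h3 b), ?_⟩
      simp [tw, Pi.single_apply, mul_assoc, mul_add]
    · exact ⟨_, h0 (inr 1) h4, by simp [tw, Pi.single_apply, mul_assoc]⟩

variable {L : Type u} [Field L] [Algebra L K]

/-- a generic point of the cone over a field -/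
def Gen (q : ℕ) (s : L) (x : Y ⊕ Fin 2 → K) : Prop :=
  ∀ f : MvPolynomial (Y ⊕ Fin 2) L, aeval x f = 0 → fF q (C s) X ∣ f

lemma Gen.twist {s₀ s l r m : L} {x : Y ⊕ Fin 2 → K} (H : Gen q s₀ x)
    (hfr : ∀ a b : MvPolynomial (Y ⊕ Fin 2) L, (a + b) ^ q = a ^ q + b ^ q)
    (hs : s₀ = r ^ q + l ^ (q * (q + 1)) * s) (hl : l ≠ 0) (hm : m ≠ 0) :
    Gen q s fun a => algebraMap L K m * tw q (algebraMap L K l) (algebraMap L K r) x a := by
  intro f hf
  let Θ : MvPolynomial (Y ⊕ Fin 2) L →ₐ[L] MvPolynomial (Y ⊕ Fin 2) L :=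
    aeval fun a => C m * tw q (C l) (C r) X a
  let Θ' : MvPolynomial (Y ⊕ Fin 2) L →ₐ[L] MvPolynomial (Y ⊕ Fin 2) L :=
    aeval fun a => C m⁻¹ * tw q (C l⁻¹) (C (-(r * l⁻¹ ^ (q + 1)))) X a
  have h1 : (aeval x).comp Θ = aeval fun a =>
      algebraMap L K m * tw q (algebraMap L K l) (algebraMap L K r) x a := by
    ext a; simp [Θ, map_tw]
  have h2 (g) : Θ' (Θ g) = g := by
    have : Θ'.comp Θ = AlgHom.id _ _ := by
      ext a : 1
      have := tw_tw (q := q) (m := C m) (m' := C m⁻¹) (l := C l) (l' := C l⁻¹)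
        (C (-(r * l⁻¹ ^ (q + 1)))) (by rw [← map_mul, mul_inv_cancel₀ hm, map_one])
        (by rw [← map_mul, mul_inv_cancel₀ hl, map_one]) (X : _ → MvPolynomial (Y ⊕ Fin 2) L) a
      rw [← map_pow, ← map_mul, ← map_neg, neg_mul, neg_neg, mul_assoc r, ← mul_pow,
        inv_mul_cancel₀ hl, one_pow, mul_one] at this
      simpa [Θ, Θ', map_tw] using this
    exact congr($this g)
  have h3 : Θ (fF q (C s) X) = C (m ^ (q + 1) * l ^ (q + 1)) * fF q (C s₀) X := by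
    rw [map_fF]
    simp only [Θ, algHom_C, algebraMap_eq, aeval_X, fF_mul]
    rw [fF_tw hfr (s₀ := C s₀) (by simp [hs])]
    simp [mul_assoc]
  have h4 := map_dvd Θ' (H (Θ f) (congr($h1 f).trans hf))
  have h5 := congrArg Θ' h3
  rw [h2, map_mul, algHom_C, algebraMap_eq] at h5
  rw [h2] at h4
  rw [h5]
  exact (IsUnit.mul_left_dvd ((isUnit_iff_ne_zero.mpr
    (mul_ne_zero (pow_ne_zero _ hm) (pow_ne_zero _ hl))).map C)).mpr h4

lemma Gen.ne {s : L} {x : Y ⊕ Fin 2 → K} (H : Gen q s x) : x (inr 0) ≠ 0 := fun h => by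
  simpa [map_fF, fF] using map_dvd (eval (Pi.single (inr 0) 1)) (H (X (inr 0)) (by simpa using h))

lemma Gen.cone [Algebra k L] [IsScalarTower k L K] {β : Fin 3 → L} {x : Y ⊕ Fin 2 → K}
    (H : Gen q (β 2) x) (c : Y) (hF : fF q (algebraMap L K (β 2)) x = 0) (hx : ∀ a, x a ≠ 0) :
    Cone k q (fun i => algebraMap L K (β i)) x := by
  refine ⟨fun f hf => ?_, hF, hx⟩
  have h0 (g : MvPolynomial (Fin 3) k) :
      aeval (fun i => algebraMap L K (β i)) g = algebraMap L K (aeval β g) :=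
    (comp_aeval_apply β (IsScalarTower.toAlgHom k L K) g).symm
  obtain ⟨φ, hφ⟩ := exists_lift_range (fun i => algebraMap L K (β i))
    (aeval β : MvPolynomial (Fin 3) k →ₐ[k] L).toRingHom fun g hg => by
      rwa [h0, map_eq_zero] at hg
  have h1 (b) : algebraMap L K (φ b) = b := by
    obtain ⟨g, rfl⟩ := AlgHom.rangeRestrict_surjective _ b
    rw [hφ]
    exact (h0 g).symm
  refine fF_dvd_of_map φ (fun a b h => Subtype.ext (by rw [← h1, h, h1])) c _ f ?_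
  rw [hφ]
  convert H _ ?_
  · simp
  · rw [← hf, aeval_def, eval₂_map, aeval_def]
    congr 1
    exact RingHom.ext h1

end Pool.Agent.Lib.MP_99f32e_ag
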