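import Pool.Agent.Lib.MP_99f32e_ag.RCyc

open MvPolynomial Sum

universe u

namespace Pool.Agent.Lib.MP_99f32e_ag

variable {Y : Type} [Fintype Y]

/-- The equation of the fibres. -/
def fF {A : Type*} [CommRing A] (q : ℕ) (s : A) (w : Y ⊕ Fin 2 → A) : A :=
  ∑ j, w (inl j) ^ (q + 1) - w (inr 1) * (w (inr 0) ^ q + s * w (inr 1) ^ q)

variable {q : ℕ}

lemma map_fF {A B F : Type*} [CommRing A] [CommRing B] [FunLike F A B] [RingHomClass F A B]
    (φ : F) (s : A) (w : Y ⊕ Fin 2 → A) : φ (fF q s w) = fF q (φ s) fun a => φ (w a) := by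
  simp [fF]

lemma fF_mul {A : Type*} [CommRing A] (s m : A) (w : Y ⊕ Fin 2 → A) :
    fF q s (fun a => m * w a) = m ^ (q + 1) * fF q s w := by
  simp only [fF, mul_pow, ← Finset.mul_sum]; ring

lemma der_fF {k A M : Type*} [CommRing k] [CommRing A] [Algebra k A] [AddCommGroup M] [Module A M]
    [Module k M] (hq : (q : A) = 0) (δ : Derivation k A M) (s : A) (w : Y ⊕ Fin 2 → A) :
    δ (fF q s w) = ∑ j, w (inl j) ^ q • δ (w (inl j)) -
      (w (inr 0) ^ q + s * w (inr 1) ^ q) • δ (w (inr 1)) - w (inr 1) ^ (q + 1) • δ s := by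
  have h1 (a : A) : δ (a ^ q) = 0 := by
    rw [Derivation.leibniz_pow, ← Nat.cast_smul_eq_nsmul A, hq, zero_smul]
  have h2 (a : A) : δ (a ^ (q + 1)) = a ^ q • δ a := by
    rw [pow_succ, Derivation.leibniz, h1, smul_zero, add_zero]
  simp only [fF, map_sub, map_sum, h2, Derivation.leibniz, map_add, h1, smul_zero, zero_add,
    smul_smul]
  rw [mul_comm (w (inr 1)), ← pow_succ, sub_sub, add_comm (w (inr 1) ^ (q + 1) • δ s)]

variable [DecidableEq Y]

lemma fF_update {A : Type*} [CommRing A] (s a : A) (w : Y ⊕ Fin 2 → A) (c : Y)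
    (hw : w (inl c) = 0) :
    fF q s (Function.update w (inl c) a) = a ^ (q + 1) + fF q s w := by
  simp only [fF]
  rw [← Finset.add_sum_erase _ _ (Finset.mem_univ c), ← Finset.add_sum_erase _ _ (Finset.mem_univ c),
    Function.update_self, hw, Function.update_of_ne (by simp), Function.update_of_ne (by simp),
    Finset.sum_congr rfl fun j hj => by
      rw [Function.update_of_ne (by simpa using Finset.ne_of_mem_erase hj)]]
  ring

section model

variable (S : Type*) [CommRing S] (c : Y) (fx : Y ⊕ Fin 2 → Prop) [DecidablePred fx]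

/-- free coordinates -/
abbrev FreeIdx := {a : Y ⊕ Fin 2 // a ≠ inl c ∧ ¬ fx a}

/-- coordinates with the distinguished one set to zero -/
noncomputable def w0 (a : Y ⊕ Fin 2) : MvPolynomial (FreeIdx c fx) S :=
  if h : a ≠ inl c ∧ ¬ fx a then X ⟨a, h⟩ else if a = inl c then 0 else 1

/-- coordinates with the distinguished one as the outer variable -/
noncomputable def wP : Y ⊕ Fin 2 → Polynomial (MvPolynomial (FreeIdx c fx) S) :=
  Function.update (fun a => Polynomial.C (w0 S c fx a)) (inl c) Polynomial.X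

variable {S}

lemma fF_wP (s : S) : fF q (Polynomial.C (C s)) (wP S c fx) =
    Polynomial.X ^ (q + 1) + Polynomial.C (fF q (C s) (w0 S c fx)) := by
  rw [wP, fF_update _ _ _ _ (by simp [w0]), map_fF]

variable {c fx}

omit [Fintype Y] in
lemma exists_back {T : Type*} [CommRing T] [Algebra S T] (x : Y ⊕ Fin 2 → T)
    (hx : ∀ a, fx a → x a = 1) :
    ∃ ψ : Polynomial (MvPolynomial (FreeIdx c fx) S) →ₐ[S] T, ∀ a, ψ (wP S c fx a) = x a := by
  refine ⟨Polynomial.eval₂AlgHom (aeval fun v => x v.1) (x (inl c)) fun _ => Commute.all _ _,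
    fun a => ?_⟩
  by_cases h : a = inl c
  · subst h; simp [wP]
  · rw [wP, Function.update_of_ne h]
    by_cases h' : fx a
    · simp [w0, h, h', hx a h']
    · simp [w0, h, h']

theorem fF_dvd_of_map {L : Type*} [CommRing L] (φ : S →+* L) (hφ : Function.Injective φ) (c : Y)
    (s : S) (f : MvPolynomial (Y ⊕ Fin 2) S) (h : fF q (C (φ s)) X ∣ map φ f) :
    fF q (C s) X ∣ f := by
  let fx : Y ⊕ Fin 2 → Prop := fun _ => False
  have h1 (g : MvPolynomial (Y ⊕ Fin 2) S) : aeval (wP L c fx) (map φ g) =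
      (aeval (wP S c fx) g).map (map φ) := by
    induction g using MvPolynomial.induction_on with
    | C a => simp [Polynomial.algebraMap_apply]
    | add p r hp hr => simp only [map_add, hp, hr, Polynomial.map_add]
    | mul_X p a hp =>
      simp only [map_mul, hp, map_X, aeval_X, Polynomial.map_mul]
      congr 1
      by_cases h : a = inl c
      · subst h; simp [wP]
      · simp [wP, w0, h, fx]
  have h2 : aeval (wP S c fx) (fF q (C s) X) =
      Polynomial.X ^ (q + 1) + Polynomial.C (fF q (C s) (w0 S c fx)) := by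
    rw [map_fF, ← fF_wP]; simp [Polynomial.algebraMap_apply]
  have h3 : (fF q (C (φ s)) X : MvPolynomial (Y ⊕ Fin 2) L) = map φ (fF q (C s) X) := by
    rw [map_fF]; simp
  have h4 := map_dvd (aeval (wP L c fx)) h
  rw [h3, h1, h1, Polynomial.map_dvd_map _ (map_injective φ hφ)
    (h2 ▸ Polynomial.monic_X_pow_add_C _ (Nat.succ_ne_zero q))] at h4
  obtain ⟨ψ, hψ⟩ := exists_back (S := S) (c := c) (fx := fx)
    (X : Y ⊕ Fin 2 → MvPolynomial (Y ⊕ Fin 2) S) (by simp [fx])
  have h5 (g : MvPolynomial (Y ⊕ Fin 2) S) : ψ (aeval (wP S c fx) g) = g := by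
    have : ψ.comp (aeval (wP S c fx)) = AlgHom.id _ _ := by
      ext a : 1; simp [hψ]
    exact congr($this g)
  simpa only [h5] using map_dvd ψ h4

end model

theorem exists_fibre_model (κ : Type u) [Field κ] (hq : (q : κ) = 0) (hq0 : q ≠ 0) (s : κ)
    (fx : Y ⊕ Fin 2 → Prop) {c i j : Y} (hic : i ≠ c) (hjc : j ≠ c) (hij : i ≠ j)
    (hc : ¬ fx (inl c)) (hi : ¬ fx (inl i)) (hj : ¬ fx (inl j)) :
    ∃ (W : Type u) (_ : CommRing W) (_ : IsDomain W) (_ : IsIntegrallyClosed W) (_ : Algebra κ W)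
      (w : Y ⊕ Fin 2 → W), (∀ a, fx a → w a = 1) ∧ fF q (algebraMap κ W s) w = 0 ∧
      (∀ a, w a ≠ 0) ∧ Function.Surjective (aeval w : MvPolynomial _ κ →ₐ[κ] W) ∧
      ∀ (T : Type u) [CommRing T] [Algebra κ T] (x : Y ⊕ Fin 2 → T), (∀ a, fx a → x a = 1) →
        fF q (algebraMap κ T s) x = 0 → ∃ ψ : W →ₐ[κ] T, ∀ a, ψ (w a) = x a := by
  classical
  let G := fF q (C s) (w0 κ c fx)
  have hqP : (q : MvPolynomial (FreeIdx c fx) κ) = 0 := by
    rw [← map_natCast (C : κ →+* MvPolynomial (FreeIdx c fx) κ), hq, map_zero]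
  have hd (l : Y) (h : (inl l : Y ⊕ Fin 2) ≠ inl c ∧ ¬ fx (inl l)) :
      pderiv ⟨inl l, h⟩ G = X ⟨inl l, h⟩ ^ q := by
    have h1 (a : Y ⊕ Fin 2) (ha : a ≠ inl l) : pderiv ⟨inl l, h⟩ (w0 κ c fx a) = 0 := by
      unfold w0
      split_ifs
      · exact pderiv_X_of_ne (by simpa using ha)
      · simp
      · simp
    rw [der_fF hqP, h1 _ (by simp), Finset.sum_eq_single l]
    · simp [w0, h]
    · intro m _ hm
      rw [h1 _ (by simpa using hm), smul_zero]
    · simp
  obtain ⟨hsq, hu⟩ := squarefree_of_pderiv (G := G) (by simpa using hij)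
    (hd i ⟨by simpa using hic, hi⟩) (hd j ⟨by simpa using hjc, hj⟩)
  have hn : IsUnit ((q + 1 : ℕ) : MvPolynomial (FreeIdx c fx) κ) := by simp [hqP]
  let f : Polynomial (MvPolynomial (FreeIdx c fx) κ) := Polynomial.X ^ (q + 1) + Polynomial.C G
  have hmon : f.Monic := Polynomial.monic_X_pow_add_C _ (Nat.succ_ne_zero q)
  have hf : fF q (Polynomial.C (C s)) (wP κ c fx) = f := fF_wP c fx s
  have hs : algebraMap κ (AdjoinRoot f) s = AdjoinRoot.mk f (Polynomial.C (C s)) := rfl
  refine ⟨AdjoinRoot f, inferInstance,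
    AdjoinRoot.isDomain_of_prime (prime_cyclic (Nat.succ_ne_zero q) hsq hu),
    isIntegrallyClosed_cyclic hn hsq hu, inferInstance, fun a => AdjoinRoot.mk f (wP κ c fx a),
    fun a ha => ?_, ?_, fun a => ?_, ?_, fun T _ _ x hx hF => ?_⟩
  · have : a ≠ inl c := by rintro rfl; exact hc ha
    simp [wP, w0, ha, this]
  · rw [hs, ← map_fF, hf, AdjoinRoot.mk_self]
  · have h1 : f.natDegree = q + 1 := Polynomial.natDegree_X_pow_add_C
    by_cases h : a = inl c
    · subst h
      refine AdjoinRoot.mk_ne_zero_of_natDegree_lt hmon (by simp [wP]) ?_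
      simp [wP, h1, Nat.pos_of_ne_zero hq0]
    · refine AdjoinRoot.mk_ne_zero_of_natDegree_lt hmon ?_ ?_
      · by_cases h' : fx a <;> simp [wP, w0, h, h']
      · simp [wP, Function.update_of_ne h, h1]
  · have h1 (r : MvPolynomial (FreeIdx c fx) κ) : AdjoinRoot.mk f (Polynomial.C r) ∈
        (aeval fun a => AdjoinRoot.mk f (wP κ c fx a) : MvPolynomial _ κ →ₐ[κ] _).range := by
      induction r using MvPolynomial.induction_on with
      | C a => exact algebraMap_mem _ a
      | add p r hp hr => rw [map_add, map_add]; exact add_mem hp hr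
      | mul_X p a hp =>
        rw [map_mul, map_mul]
        refine mul_mem hp ⟨X a.1, ?_⟩
        simp [wP, w0, a.2]
    intro g
    obtain ⟨g, rfl⟩ := AdjoinRoot.mk_surjective g
    change _ ∈ AlgHom.range _
    induction g using Polynomial.induction_on' with
    | add p r hp hr => rw [map_add]; exact add_mem hp hr
    | monomial m r =>
      rw [← Polynomial.C_mul_X_pow_eq_monomial, map_mul, map_pow]
      refine mul_mem (h1 r) (pow_mem ?_ _)
      exact ⟨X (inl c), by simp [wP]⟩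
  · obtain ⟨ψ, hψ⟩ := exists_back (S := κ) (c := c) x hx
    have h1 : ψ f = 0 := by
      rw [← hf, map_fF, ← hF]
      simp only [hψ]
      congr 1
      exact ψ.commutes s
    refine ⟨Ideal.Quotient.liftₐ _ ψ fun a ha => ?_, fun a => hψ a⟩
    obtain ⟨b, rfl⟩ := Ideal.mem_span_singleton.mp ha
    rw [map_mul, h1, zero_mul]

end Pool.Agent.Lib.MP_99f32e_ag
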