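import Pool.Agent.Lib.MP_99f32e_ag.Canon

open AlgebraicGeometry CategoryTheory IsLocalRing Limits MvPolynomial

universe u

namespace Pool.Agent.Lib.MP_99f32e_ag

lemma X_mem_of_one_mem {k K ι : Type*} [Field k] [Field K] [Algebra k K] (y : ι → K)
    {𝔭 : Ideal (MvPolynomial ι k)} (h𝔭 : 𝔭.IsPrime)
    (hG : ∀ (d : ℕ) (G : MvPolynomial ι k), 0 < d → G.IsHomogeneous d → aeval y G = 0 → G ∈ 𝔭)
    (v : ι) (hv : y v ≠ 0) (S : Set ι) (hS : ∀ s ∈ S, X s ∈ 𝔭)
    (h1 : (1 : K) ∈ Submodule.span (Algebra.adjoin k (Set.range fun i => y i / y v))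
      ((fun s => y s / y v) '' S)) : X v ∈ 𝔭 := by
  have hA (c : K) (hc : c ∈ Algebra.adjoin k (Set.range fun i => y i / y v)) :
      ∃ (N : ℕ) (G : MvPolynomial ι k), G.IsHomogeneous N ∧ aeval y G = c * y v ^ N := by
    induction hc using Algebra.adjoin_induction with
    | mem a ha =>
      obtain ⟨i, rfl⟩ := ha
      exact ⟨1, X i, isHomogeneous_X k i, by simp [hv]⟩
    | algebraMap a => exact ⟨0, C a, isHomogeneous_C _ a, by simp⟩
    | add a b _ _ ha hb =>
      obtain ⟨N, G, h1, h2⟩ := ha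
      obtain ⟨N', G', h3, h4⟩ := hb
      refine ⟨N + N', G * X v ^ N' + X v ^ N * G', (h1.mul (isHomogeneous_X_pow v N')).add
        ((isHomogeneous_X_pow v N).mul h3), ?_⟩
      simp only [map_add, map_mul, map_pow, aeval_X, h2, h4]; ring
    | mul a b _ _ ha hb =>
      obtain ⟨N, G, h1, h2⟩ := ha
      obtain ⟨N', G', h3, h4⟩ := hb
      exact ⟨N + N', G * G', h1.mul h3, by simp only [map_mul, h2, h4]; ring⟩
  have hI (c : K) (hc : c ∈ Submodule.span (Algebra.adjoin k (Set.range fun i => y i / y v))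
      ((fun s => y s / y v) '' S)) : ∃ (N : ℕ) (G : MvPolynomial ι k), G.IsHomogeneous N ∧
        G ∈ 𝔭 ∧ aeval y G = c * y v ^ N := by
    induction hc using Submodule.span_induction with
    | mem a ha =>
      obtain ⟨i, hi, rfl⟩ := ha
      exact ⟨1, X i, isHomogeneous_X k i, hS i hi, by simp [hv]⟩
    | zero => exact ⟨0, 0, isHomogeneous_zero _ _ _, zero_mem _, by simp⟩
    | add a b _ _ ha hb =>
      obtain ⟨N, G, h1, h1', h2⟩ := ha
      obtain ⟨N', G', h3, h3', h4⟩ := hb
      refine ⟨N + N', G * X v ^ N' + X v ^ N * G', (h1.mul (isHomogeneous_X_pow v N')).add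
        ((isHomogeneous_X_pow v N).mul h3),
        add_mem (Ideal.mul_mem_right _ _ h1') (Ideal.mul_mem_left _ _ h3'), ?_⟩
      simp only [map_add, map_mul, map_pow, aeval_X, h2, h4]; ring
    | smul a b _ hb =>
      obtain ⟨N, G, h1, h2⟩ := hA a a.2
      obtain ⟨N', G', h3, h3', h4⟩ := hb
      refine ⟨N + N', G * G', h1.mul h3, Ideal.mul_mem_left _ _ h3', ?_⟩
      change _ = (a : K) * b * _
      simp only [map_mul, h2, h4]; ring
  obtain ⟨N, G, h2, h3, h4⟩ := hI 1 h1
  have h5 := hG (1 + N) (X v * X v ^ N - X v * G) (by omega)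
    (((isHomogeneous_X k v).mul (isHomogeneous_X_pow v N)).sub ((isHomogeneous_X k v).mul h2))
    (by simp [h4])
  have h6 := add_mem h5 (Ideal.mul_mem_left _ (X v) h3)
  rw [sub_add_cancel, ← pow_succ'] at h6
  exact h𝔭.mem_of_pow_mem _ h6

namespace Model

variable {k K : Type u} [Field k] [Field K] [Algebra k K] {J : Type} {A : J → Subalgebra k K}
  (M : Model k K J A)

/-- the local ring at a point, inside `K` -/
noncomputable def loc (x : M.X) : M.X.presheaf.stalk x →+* K :=
  M.emb.comp (algebraMap _ M.X.functionField)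

lemma loc_injective (x : M.X) : Function.Injective (M.loc x) :=
  M.emb.injective.comp (IsFractionRing.injective _ _)

lemma le_loc {j : J} {x : M.X} (hx : x ∈ M.U j) : (A j).toSubring ≤ (M.loc x).range := by
  intro a ha
  obtain ⟨f, rfl, h⟩ := M.exists_emb_eq ha
  obtain ⟨o, rfl⟩ := h x hx
  exact ⟨o, rfl⟩

lemma mem_of_le_loc {j : J} {x : M.X} (h : (A j).toSubring ≤ (M.loc x).range) : x ∈ M.U j := by
  let e : M.X.presheaf.stalk x ≃+* (M.loc x).range := RingEquiv.ofBijective
    (M.loc x).rangeRestrict ⟨fun _ _ h => M.loc_injective x congr($h.1),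
      RingHom.rangeRestrict_surjective _⟩
  let ψ : Γ(M.X, M.U j) ⟶ M.X.presheaf.stalk x := CommRingCat.ofHom (e.symm.toRingHom.comp
    ((evalAt M.γ (M.U j) (M.mem j)).hom.codRestrict _ fun s => h (M.chartEquiv j s).2))
  have hψ : ψ ≫ CommRingCat.ofHom (M.loc x) = evalAt M.γ (M.U j) (M.mem j) := by
    ext s
    exact congr($(e.apply_symm_apply ⟨_, h (M.chartEquiv j s).2⟩).1)
  let lx : M.X.presheaf.stalk x ⟶ .of K := CommRingCat.ofHom (M.loc x)
  have : IsDominant (Spec.map lx) :=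
    ⟨(PrimeSpectrum.denseRange_comap_iff_ker_le_nilRadical (M.loc x)).mpr (by
      rw [(RingHom.injective_iff_ker_eq_bot _).mp (M.loc_injective x)]; exact bot_le)⟩
  have h1 : Spec.map ψ ≫ (M.aff j).fromSpec = M.X.fromSpecStalk x := by
    refine ext_of_isDominant (Spec.map lx) ?_
    rw [← Spec.map_comp_assoc, hψ, SpecMap_evalAt]
    have h2 : lx =
        M.X.presheaf.stalkSpecializes ((genericPoint_spec M.X).specializes trivial) ≫
          M.X.presheaf.stalkSpecializes M.γ_specializes ≫ Scheme.stalkClosedPointTo M.γ := rfl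
    rw [h2, Spec.map_comp, Spec.map_comp, Category.assoc, Category.assoc,
      Scheme.SpecMap_stalkSpecializes_fromSpecStalk, Scheme.SpecMap_stalkSpecializes_fromSpecStalk,
      Scheme.Spec_stalkClosedPointTo_fromSpecStalk]
  change x ∈ (M.U j : Set M.X)
  rw [← (M.aff j).range_fromSpec]
  exact ⟨Spec.map ψ (closedPoint _), by
    rw [← Scheme.Hom.comp_apply, h1, Scheme.fromSpecStalk_closedPoint]⟩

end Model

namespace Model

variable {k K : Type u} [Field k] [Field K] [Algebra k K] {J P : Type}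
  {A : J × P → Subalgebra k K} {B : J → Subalgebra k K} {M : Model k K (J × P) A}
  {N : Model k K J B} {h : M.X ⟶ N.X} (hγ : M.γ ≫ h = N.γ)
include hγ

lemma le_loc' {i : J} {x : M.X} (hx : h x ∈ N.U i) : (B i).toSubring ≤ (M.loc x).range := by
  have := isDominant_hom hγ
  intro a ha
  obtain ⟨f, rfl, hf⟩ := N.exists_emb_eq ha
  obtain ⟨o, ho⟩ := pullFun_mem_stalk h (hf _ hx)
  exact ⟨o, by rw [← emb_pullFun hγ, ← ho]; rfl⟩

theorem fibres (hτ : ∀ i b, B i ≤ A (i, b)) (hU : ∀ j, M.U j ≤ h ⁻¹ᵁ N.U j.1)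
    (hcov : ∀ x i, h x ∈ N.U i → ∃ b, x ∈ M.U (i, b))
    (hpush : ∀ (κ : Type u) [Field κ] (i : J) (φ : B i →+* κ) (b : P), ∃ (W : Type u)
      (_ : CommRing W) (_ : IsDomain W) (_ : IsIntegrallyClosed W) (f₁ : A (i, b) →+* W)
      (f₂ : κ →+* W), IsPushout (CommRingCat.ofHom (Subalgebra.inclusion (hτ i b)).toRingHom)
        (CommRingCat.ofHom φ) (CommRingCat.ofHom f₁) (CommRingCat.ofHom f₂) ∧
        ∀ b', ∃ σ : A (i, b), f₁ σ ≠ 0 ∧ ∀ O : Subring K, (A (i, b)).toSubring ≤ O →
          (σ : K)⁻¹ ∈ O → (A (i, b')).toSubring ≤ O) :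
    geometrically (fun W => IsIntegral W ∧ ∀ w : W, IsIntegrallyClosed (W.presheaf.stalk w)) h := by
  intro κ _ y W fst snd hW
  obtain ⟨i, hi⟩ := N.cov (y (closedPoint κ))
  have hy : ⊤ ≤ y ⁻¹ᵁ N.U i := (Scheme.preimage_eq_top_of_closedPoint_mem y hi).ge
  choose T _ _ _ f₁ f₂ hP hσ using
    hpush κ i ((evalAt y _ hy).hom.comp (N.chartEquiv i).symm.toRingHom)
  let a (b : P) : Γ(M.X, M.U (i, b)) ⟶ .of (T b) :=
    CommRingCat.ofHom ((f₁ b).comp (M.chartEquiv (i, b)).toRingHom)
  have P0 (b : P) : IsPushout (h.appLE (N.U i) (M.U (i, b)) (hU (i, b))) (evalAt y _ hy) (a b)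
      (CommRingCat.ofHom (f₂ b)) := by
    refine (hP b).of_iso (N.chartEquiv i).symm.toCommRingCatIso
      (M.chartEquiv (i, b)).symm.toCommRingCatIso (Iso.refl _) (Iso.refl _) ?_ ?_ ?_ ?_
    · ext s
      obtain ⟨s, rfl⟩ := (N.chartEquiv i).surjective s
      apply (M.chartEquiv (i, b)).injective
      change M.chartEquiv _ ((M.chartEquiv _).symm _) =
        M.chartEquiv _ (h.appLE _ _ _ ((N.chartEquiv i).symm _))
      rw [RingEquiv.apply_symm_apply, RingEquiv.symm_apply_apply]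
      refine Subtype.ext ?_
      have h1 := congr($(appLE_evalAt M.γ h (N.U i) (M.U (i, b)) (hU (i, b)) (M.mem _)
        (hγ ▸ N.mem i)) s)
      rw [evalAt_congr hγ _ _ (N.mem i)] at h1
      exact h1.symm
    · rfl
    · ext s
      change f₁ b s = f₁ b (M.chartEquiv _ ((M.chartEquiv _).symm s))
      rw [RingEquiv.apply_symm_apply]
    · rfl
  have P1 (b : P) : ∃ ι : Spec (.of (T b)) ⟶ W,
      IsPullback (Spec.map (a b)) ι (M.aff (i, b)).fromSpec fst := by
    have := (isPullback_SpecMap_of_isPushout _ _ _ _ (P0 b)).paste_vert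
      (IsPullback.of_vert_isIso_mono (snd := 𝟙 _) (f := (N.aff i).fromSpec) (g := y)
        ⟨by rw [SpecMap_evalAt, Category.id_comp]⟩)
    rw [IsAffineOpen.SpecMap_appLE_fromSpec h (N.aff i) (M.aff (i, b))] at this
    exact ⟨_, this.of_bot' hW⟩
  choose ι hι using P1
  have hopen (b : P) : IsOpenImmersion (ι b) :=
    MorphismProperty.of_isPullback (P := @IsOpenImmersion) (hι b) inferInstance
  have hr (b : P) (w : W) (hw : fst w ∈ M.U (i, b)) : w ∈ Set.range (ι b) := by
    obtain ⟨p, hp⟩ : fst w ∈ Set.range (M.aff (i, b)).fromSpec := by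
      rw [IsAffineOpen.range_fromSpec]; exact hw
    obtain ⟨t, -, ht⟩ := Scheme.exists_preimage_of_isPullback (hι b) p w hp
    exact ⟨t, ht⟩
  have hc (w : W) : ∃ b, w ∈ Set.range (ι b) := by
    have h1 : h (fst w) ∈ N.U i := by
      rw [← Scheme.Hom.comp_apply, hW.w, Scheme.Hom.comp_apply]
      exact hy (Set.mem_univ (snd w))
    exact (hcov _ i h1).imp fun b hb => hr b w hb
  have hst (w : W) : IsDomain (W.presheaf.stalk w) ∧ IsIntegrallyClosed (W.presheaf.stalk w) := by
    obtain ⟨b, t, rfl⟩ := hc w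
    let e := (asIso ((ι b).stalkMap t)).commRingCatIsoToRingEquiv
    let _ : Algebra (T b) ((Spec (.of (T b))).presheaf.stalk t) :=
      StructureSheaf.stalkAlgebra (T b) t
    have : IsLocalization.AtPrime ((Spec (.of (T b))).presheaf.stalk t) t.asIdeal :=
      StructureSheaf.IsLocalization.to_stalk (T b) t
    have h1 : IsIntegrallyClosed ((Spec (.of (T b))).presheaf.stalk t) :=
      isIntegrallyClosed_of_isLocalization (R := T b) _ t.asIdeal.primeCompl
        (Ideal.primeCompl_le_nonZeroDivisors _)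
    exact ⟨e.toMulEquiv.isDomain _, IsIntegrallyClosed.of_equiv e.symm⟩
  have hred : IsReduced W :=
    have (w : W) : _root_.IsReduced (W.presheaf.stalk w) := have := (hst w).1; inferInstance
    isReduced_of_isReduced_stalk W
  have hgen (b b' : P) : ι b (⊥ : PrimeSpectrum (T b)) ∈ Set.range (ι b') := by
    obtain ⟨σ, h1, h2⟩ := hσ b b'
    have h3 : fst (ι b (⊥ : PrimeSpectrum (T b))) =
        (M.aff (i, b)).fromSpec (Spec.map (a b) (⊥ : PrimeSpectrum (T b))) := by
      rw [← Scheme.Hom.comp_apply, ← (hι b).w, Scheme.Hom.comp_apply]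
    have h4 : fst (ι b (⊥ : PrimeSpectrum (T b))) ∈ M.X.basicOpen ((M.chartEquiv _).symm σ) := by
      rw [h3]
      change Spec.map (a b) (⊥ : PrimeSpectrum (T b)) ∈
        (M.aff (i, b)).fromSpec ⁻¹ᵁ M.X.basicOpen ((M.chartEquiv _).symm σ)
      rw [IsAffineOpen.fromSpec_preimage_basicOpen]
      intro h5
      have h6 : f₁ b (M.chartEquiv _ ((M.chartEquiv _).symm σ)) = 0 := h5
      rw [RingEquiv.apply_symm_apply] at h6
      exact h1 h6
    have h5 := M.X.basicOpen_le _ h4
    refine hr b' _ (M.mem_of_le_loc (h2 _ (M.le_loc h5) ?_))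
    obtain ⟨o, ho⟩ := (M.X.mem_basicOpen _ _ h5).mp h4
    refine ⟨↑o⁻¹, ?_⟩
    rw [map_units_inv, ho, loc, RingHom.comp_apply, ← germ_mem_stalk (M.generic_mem _),
      emb_germ_chartEquiv_symm]
  have hirr : IrreducibleSpace W := by
    have := surjective_hom hγ
    obtain ⟨x, hx⟩ := h.surjective (y (closedPoint κ))
    obtain ⟨w, -⟩ := Scheme.exists_preimage_of_isPullback hW x _ hx
    have : PreirreducibleSpace W := ⟨IsPreirreducible.of_subset_iUnion
      (U := fun b => (ι b).opensRange)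
      (fun b b' _ hd => Set.disjoint_left.mp (TopologicalSpace.Opens.coe_disjoint.mpr hd)
        (hgen b b) (hgen b b'))
      (fun b => by
        change IsPreirreducible (Set.range (ι b))
        rw [← Set.image_univ]
        exact (PreirreducibleSpace.isPreirreducible_univ).image _ (ι b).continuous.continuousOn)
      isOpen_univ fun w _ => Set.mem_iUnion.mpr (hc w)⟩
    exact ⟨⟨w⟩⟩
  exact ⟨isIntegral_of_irreducibleSpace_of_isReduced W, fun w => (hst w).2⟩

end Model

end Pool.Agent.Lib.MP_99f32e_ag
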