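import Pool.Agent.Lib.MP_99f32e_ag.RGeom
import Pool.Agent.Lib.MP_99f32e_ag.RCanon

open AlgebraicGeometry CategoryTheory MvPolynomial Sum Matrix

set_option linter.unusedSectionVars false

universe u

namespace Pool.Agent.Lib.MP_99f32e_ag

attribute [local instance] Model.constAlg

lemma map_tw {Y : Type} {A B F : Type*} [CommRing A] [CommRing B] [FunLike F A B] [RingHomClass F A B]
    (φ : F) (q : ℕ) (l r : A) (w : Y ⊕ Fin 2 → A) (a : Y ⊕ Fin 2) :
    φ (tw q l r w a) = tw q (φ l) (φ r) (fun a => φ (w a)) a := by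
  rcases a with i | i
  · simp [tw]
  · fin_cases i <;> simp [tw]

lemma tw_div {Y : Type} {A : Type*} [Field A] (q : ℕ) (l r m : A) (w : Y ⊕ Fin 2 → A) (a : Y ⊕ Fin 2) :
    tw q l r (fun a => w a / m) a = tw q l r w a / m := by
  rcases a with i | i
  · simp [tw, mul_div_assoc]
  · fin_cases i <;> simp [tw, mul_div_assoc, add_div]

lemma exists_four {Y : Type} [Fintype Y] [DecidableEq Y] (hY : 4 ≤ Fintype.card Y)
    (b : Y ⊕ Fin 2) : ∃ c i j : Y, i ≠ c ∧ j ≠ c ∧ i ≠ j ∧ inl c ≠ b ∧ inl i ≠ b ∧ inl j ≠ b := by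
  have h1 : 2 < (Finset.univ.filter fun i : Y => inl i ≠ b).card := by
    have h2 : (Finset.univ.filter fun i : Y => ¬ inl i ≠ b).card ≤ 1 :=
      Finset.card_le_one.mpr fun i hi j hj => by
        simp only [ne_eq, not_not, Finset.mem_filter] at hi hj
        exact inl_injective (hi.2.trans hj.2.symm)
    have h3 := Finset.card_filter_add_card_filter_not (s := Finset.univ) fun i : Y => inl i ≠ b
    rw [Finset.card_univ] at h3
    omega
  obtain ⟨c, i, j, hc, hi, hj, h2, h3, h4⟩ := Finset.two_lt_card_iff.mp h1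
  exact ⟨c, i, j, h2.symm, h3.symm, h4, (Finset.mem_filter.mp hc).2, (Finset.mem_filter.mp hi).2,
    (Finset.mem_filter.mp hj).2⟩

lemma exists_forall_div_mem {O K P : Type*} [CommRing O] [IsLocalRing O] [Field K] [Fintype P]
    (φ : O →+* K) (hφ : Function.Injective φ) (x : P → K) (hx : ∀ a, x a ≠ 0) (t : K) (ht : t ≠ 0)
    (c : P → K) (hc : ∀ b, c b ∈ φ.range) (h : ∀ b, x b / t ∈ φ.range) (e : t = ∑ b, c b * x b) :
    ∃ b, ∀ a, x a / x b ∈ φ.range := by
  choose c' hc' using hc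
  choose o ho using h
  have h2 : ∑ b, c' b * o b = 1 := hφ (by
    simp only [map_sum, map_mul, hc', ho, map_one, ← mul_div_assoc, ← Finset.sum_div, ← e]
    exact div_self ht)
  obtain ⟨b, -, hb⟩ := IsLocalRing.exists_of_isUnit_sum (h2 ▸ isUnit_one)
  obtain ⟨w, hw⟩ := (isUnit_of_mul_isUnit_right hb).exists_right_inv
  replace hw := congrArg φ hw
  rw [map_mul, ho, map_one] at hw
  refine ⟨b, fun a => ⟨o a * w, ?_⟩⟩
  have := hx b
  rw [map_mul, ho, eq_inv_of_mul_eq_one_right hw]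
  field_simp

variable {k K : Type u} [Field k] [Field K] [Algebra k K] {Y : Type} [Fintype Y] [DecidableEq Y]
  {q : ℕ}

lemma Model.ord_eq_zero {J : Type} {A : J → Subalgebra k K} (M : Model k K J A) {j : J}
    {f f' : M.X.functionField} (hf : M.emb f ∈ A j) (hf' : M.emb f' ∈ A j) (e : f' * f = 1)
    {x : M.X} (hx : x ∈ M.U j) : M.X.ord f x = 0 := by
  have h1 := ord_nonneg_of_mem (M.mem_stalk hf hx)
  have h2 := ord_nonneg_of_mem (M.mem_stalk hf' hx)
  have h3 := Scheme.ord_mul (x := x) (left_ne_zero_of_mul_eq_one e) (right_ne_zero_of_mul_eq_one e)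
  rw [e, ord_one'] at h3
  omega

lemma le_cT (β : Fin 3 → K) (x : Y ⊕ Fin 2 → K) (b : Y ⊕ Fin 2) :
    (aeval β : MvPolynomial (Fin 3) k →ₐ[k] K).range ≤
      (aeval (cT β x b) : MvPolynomial _ k →ₐ[k] K).range := range_le_cT β _

lemma le_of_cT {β : Fin 3 → K} {x : Y ⊕ Fin 2 → K} {b : Y ⊕ Fin 2} {O : Subring K}
    (h1 : (aeval β : MvPolynomial (Fin 3) k →ₐ[k] K).range.toSubring ≤ O)
    (h2 : ∀ a, x a / x b ∈ O) :
    (aeval (cT β x b) : MvPolynomial _ k →ₐ[k] K).range.toSubring ≤ O := by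
  rintro _ ⟨f, rfl⟩
  change aeval (cT β x b) f ∈ O
  induction f using MvPolynomial.induction_on with
  | C a => exact h1 ⟨C a, by simp⟩
  | add p r hp hr => rw [map_add]; exact add_mem hp hr
  | mul_X p v hp =>
    rw [map_mul, aeval_X]
    refine mul_mem hp ?_
    rcases v with i | a
    · exact h1 ⟨X i, by simp [cT]⟩
    · exact h2 a

lemma exists_push {β : Fin 3 → K} {g T : MvPolynomial (Fin 3) k} {x : Y ⊕ Fin 2 → K}
    (H : Chart β g T) (H' : Cone k q β x) (hq : (q : k) = 0) (hq0 : q ≠ 0)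
    (hY : 4 ≤ Fintype.card Y) (κ : Type u) [Field κ]
    (φ : (aeval β : MvPolynomial (Fin 3) k →ₐ[k] K).range →+* κ) (b : Y ⊕ Fin 2) :
    ∃ (W : Type u) (_ : CommRing W) (_ : IsDomain W) (_ : IsIntegrallyClosed W)
      (f₁ : (aeval (cT β x b) : MvPolynomial _ k →ₐ[k] K).range →+* W) (f₂ : κ →+* W),
      IsPushout (CommRingCat.ofHom (Subalgebra.inclusion (le_cT β x b)).toRingHom)
        (CommRingCat.ofHom φ) (CommRingCat.ofHom f₁) (CommRingCat.ofHom f₂) ∧
      ∀ a, f₁ ((aeval (cT β x b)).rangeRestrict (X (inr a))) ≠ 0 := by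
  have hqκ : (q : κ) = 0 := by
    rw [← map_natCast (φ.comp (algebraMap k _)), hq, map_zero]
  obtain ⟨c, i, j, hic, hjc, hij, hc, hi, hj⟩ := exists_four hY b
  obtain ⟨W, _, _, _, _, w, hw1, hwF, hw0, hsurj, huniv⟩ := exists_fibre_model κ hqκ hq0
    (φ ((aeval β).rangeRestrict (X 2))) (· = b) hic hjc hij hc hi hj
  let ρ : MvPolynomial (Fin 3) k →+* W :=
    ((algebraMap κ W).comp φ).comp (aeval β).rangeRestrict.toRingHom
  let ψ : MvPolynomial (Fin 3 ⊕ (Y ⊕ Fin 2)) k →+* W :=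
    eval₂Hom (ρ.comp C) (Sum.elim (fun i => ρ (X i)) w)
  have hψ (f : MvPolynomial (Fin 3) k) : ψ (rename inl f) = ρ f := by
    have : ψ.comp (rename inl : MvPolynomial (Fin 3) k →ₐ[k] _).toRingHom = ρ := by
      ext <;> simp [ψ]
    exact congr($this f)
  obtain ⟨f₁, hf₁⟩ := exists_lift_range (cT β x b) ψ fun f hf => by
    have : Ideal.span (Set.range (gT q g T b)) ≤ RingHom.ker ψ := by
      rw [Ideal.span_le]
      rintro _ ⟨l | l, rfl⟩
      · change ψ (rename inl _) = 0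
        have h1 : (aeval β : MvPolynomial (Fin 3) k →ₐ[k] K).rangeRestrict (gB g T l) = 0 :=
          Subtype.ext (H.aeval_gB l)
        rw [hψ]
        change algebraMap κ W (φ ((aeval β).rangeRestrict (gB g T l))) = 0
        rw [h1, map_zero, map_zero]
      · fin_cases l
        · simp [gT, ψ, hw1]
        · have : fF q (ρ (X 2)) (fun a => w a) = 0 := hwF
          simpa [gT, ψ, map_fF] using this
    exact this (ker_cT H H' b f hf)
  have hinc (f : MvPolynomial (Fin 3) k) :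
      Subalgebra.inclusion (le_cT β x b) ((aeval β).rangeRestrict f) =
        (aeval (cT β x b)).rangeRestrict (rename inl f) := by
    refine Subtype.ext ?_
    change aeval β f = aeval (cT β x b) (rename inl f)
    simp [cT, aeval_rename]
  have hX (a : Y ⊕ Fin 2) : f₁ ((aeval (cT β x b)).rangeRestrict (X (inr a))) = w a := by
    simp [hf₁, ψ]
  have hsq (f : MvPolynomial (Fin 3) k) : f₁ ((aeval (cT β x b)).rangeRestrict (rename inl f)) =
      algebraMap κ W (φ ((aeval β).rangeRestrict f)) := (hf₁ _).trans (hψ f)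
  refine ⟨W, inferInstance, inferInstance, inferInstance, f₁, algebraMap κ W,
    IsPushout.mk' ?_ (fun S α α' h1 h2 => ?_) (fun S α α' h => ?_), fun a => hX a ▸ hw0 a⟩
  · ext a
    obtain ⟨f, rfl⟩ := AlgHom.rangeRestrict_surjective _ a
    exact (congrArg f₁ (hinc f)).trans (hsq f)
  · ext a
    obtain ⟨f, rfl⟩ := hsurj a
    induction f using MvPolynomial.induction_on with
    | C a => rw [algHom_C]; exact congr($h2 a)
    | add p r hp hr => simp only [map_add, hp, hr]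
    | mul_X p v hp =>
      simp only [map_mul, hp, aeval_X]
      rw [← hX]
      exact congrArg _ congr($h1 _)
  · let _ := α'.hom.toAlgebra
    have h1 (f : MvPolynomial (Fin 3) k) :
        α ((aeval (cT β x b)).rangeRestrict (rename inl f)) =
          α' (φ ((aeval β).rangeRestrict f)) :=
      (congrArg α (hinc f)).symm.trans congr($h ((aeval β).rangeRestrict f))
    have h2 (l : Fin 2) : α ((aeval (cT β x b)).rangeRestrict (gT q g T b (inr l))) = 0 := by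
      have : (aeval (cT β x b) : MvPolynomial _ k →ₐ[k] K).rangeRestrict (gT q g T b (inr l)) = 0 :=
        Subtype.ext (aeval_gT H H' b _)
      rw [this, map_zero]
    obtain ⟨θ, hθ⟩ := huniv S (fun a => α ((aeval (cT β x b)).rangeRestrict (X (inr a))))
      (by
        rintro _ rfl
        simpa [gT, sub_eq_zero] using h2 0)
      (by
        have h3 := h1 (X 2)
        have h4 := h2 1
        rw [rename_X] at h3
        simp only [gT, elim_inr, cons_val_one, cons_val_zero, map_fF] at h4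
        rw [h3] at h4
        exact h4)
    refine ⟨CommRingCat.ofHom θ.toRingHom, ?_, ?_⟩
    · ext a
      obtain ⟨f, rfl⟩ := AlgHom.rangeRestrict_surjective _ a
      change θ (f₁ _) = α _
      induction f using MvPolynomial.induction_on with
      | C a => rw [← rename_C inl a, hsq, h1]; exact θ.commutes _
      | add p r hp hr => simp only [map_add, hp, hr]
      | mul_X p v hp =>
        simp only [map_mul, hp]
        congr 1
        rcases v with i | a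
        · rw [← rename_X inl i, hsq, h1]; exact θ.commutes _
        · rw [hX, hθ]
    · ext a
      exact θ.commutes a

/-- the data of the example -/
structure Setup (q : ℕ) (z : Fin 3 → K) (β : Fin 2 → Fin 3 → K)
    (g T : Fin 2 → MvPolynomial (Fin 3) k) (x : Fin 2 → Y ⊕ Fin 2 → K) (l r : Fin 2 → K) :
    Prop where
  chart (j) : Chart (β j) (g j) (T j)
  cone (j) : Cone k q (β j) (x j)
  z_ne (i) : z i ≠ 0
  adj (j : Fin 2) : Algebra.adjoin k (Set.range fun i => z i / z j.castSucc) =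
    (aeval (β j) : MvPolynomial (Fin 3) k →ₐ[k] K).range
  rel : ∃ c₀ ∈ Algebra.adjoin k (Set.range fun i => z i / z 2),
    ∃ c₁ ∈ Algebra.adjoin k (Set.range fun i => z i / z 2), c₀ * (z 0 / z 2) + c₁ * (z 1 / z 2) = 1
  trans (i j a) : ∃ c : Y ⊕ Fin 2 → K,
    (∀ b, c b ∈ (aeval (β i) : MvPolynomial (Fin 3) k →ₐ[k] K).range) ∧ x j a = ∑ b, c b * x i b
  l_mem (j) : l j ∈ (aeval (β j) : MvPolynomial (Fin 3) k →ₐ[k] K).range
  l_ne (j) : l j ≠ 0
  r_mem (j) : (r j)⁻¹ ∈ (aeval (β j) : MvPolynomial (Fin 3) k →ₐ[k] K).range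
  s_eq (j) : β 0 2 = r j ^ q + l j ^ (q * (q + 1)) * β j 2
  x_eq (j) : ∃ m, ∀ a, x j a = m * tw q (l j) (r j) (x 0) a
  nu : (l 1)⁻¹ ∉ (aeval (β 1) : MvPolynomial (Fin 3) k →ₐ[k] K).range

/-- models of the base -/
abbrev RBase (k : Type u) [Field k] [Algebra k K] (β : Fin 2 → Fin 3 → K) :=
  Model k K (Fin 2) fun j => (aeval (β j) : MvPolynomial (Fin 3) k →ₐ[k] K).range

/-- models of the total space -/
abbrev RTotal (k : Type u) [Field k] [Algebra k K] (β : Fin 2 → Fin 3 → K)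
    (x : Fin 2 → Y ⊕ Fin 2 → K) :=
  Model k K (Fin 2 × (Y ⊕ Fin 2)) fun j =>
    (aeval (cT (β j.1) (x j.1) j.2) : MvPolynomial (Fin 3 ⊕ (Y ⊕ Fin 2)) k →ₐ[k] K).range

namespace Setup

variable {z : Fin 3 → K} {β : Fin 2 → Fin 3 → K} {g T : Fin 2 → MvPolynomial (Fin 3) k}
  {x : Fin 2 → Y ⊕ Fin 2 → K} {l r : Fin 2 → K} (H : Setup q z β g T x l r)
include H

lemma nonempty_base : Nonempty (RBase k β) := by
  have := exists_model (k := k) z Fin.castSucc 0 (fun j => H.z_ne _) fun 𝔭 h𝔭 hG ⟨i, hi⟩ => by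
    by_contra! h
    obtain ⟨c₀, h₀, c₁, h₁, e⟩ := H.rel
    have h2 := X_mem_of_one_mem z h𝔭 hG 2 (H.z_ne _) (Set.range Fin.castSucc)
      (by rintro _ ⟨j, rfl⟩; exact h j) (by
        rw [← e]
        exact add_mem (Submodule.smul_mem _ (⟨c₀, h₀⟩ : Algebra.adjoin k _)
          (Submodule.subset_span ⟨0, ⟨0, rfl⟩, rfl⟩)) (Submodule.smul_mem _
            (⟨c₁, h₁⟩ : Algebra.adjoin k _) (Submodule.subset_span ⟨1, ⟨1, rfl⟩, rfl⟩)))
    fin_cases i
    · exact hi (h 0)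
    · exact hi (h 1)
    · exact hi h2
  rwa [funext H.adj] at this

lemma div_mem {i j : Fin 2} {a b : Y ⊕ Fin 2} {O : Subring K}
    (h : (aeval (cT (β i) (x i) b) : MvPolynomial _ k →ₐ[k] K).range.toSubring ≤ O) :
    x j a / x i b ∈ O := by
  obtain ⟨c, hc, e⟩ := H.trans i j a
  rw [e, Finset.sum_div]
  refine sum_mem fun a' _ => ?_
  rw [mul_div_assoc]
  exact mul_mem (h (le_cT _ _ _ (hc a'))) (h ⟨X (inr a'), by simp [cT]⟩)

lemma base_le (v : Fin 3 × Fin 2 × (Y ⊕ Fin 2)) :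
    Algebra.adjoin k (Set.range fun i => z i / z v.1) ≤ Algebra.adjoin k (Set.range
      fun w : Fin 3 × Fin 2 × (Y ⊕ Fin 2) => z w.1 * x w.2.1 w.2.2 / (z v.1 * x v.2.1 v.2.2)) := by
  refine Algebra.adjoin_mono ?_
  rintro _ ⟨i, rfl⟩
  exact ⟨(i, v.2), mul_div_mul_right _ _ ((H.cone _).ne _)⟩

lemma nonempty_total : Nonempty (RTotal k β x) := by
  have := exists_model (k := k) (fun v : Fin 3 × Fin 2 × (Y ⊕ Fin 2) => z v.1 * x v.2.1 v.2.2)
    (fun j : Fin 2 × (Y ⊕ Fin 2) => (j.1.castSucc, j)) (0, inr 0)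
    (fun j => mul_ne_zero (H.z_ne _) ((H.cone _).ne _)) fun 𝔭 h𝔭 hG ⟨v, hv⟩ => by
    by_contra! h
    have h1 (i j : Fin 2) (a : Y ⊕ Fin 2) : X (i.castSucc, j, a) ∈ 𝔭 := by
      obtain ⟨c, hc, e⟩ := H.trans i j a
      refine X_mem_of_one_mem _ h𝔭 hG _ (mul_ne_zero (H.z_ne _) ((H.cone _).ne _))
        (Set.range fun b => (i.castSucc, i, b)) (by rintro _ ⟨b, rfl⟩; exact h (i, b)) ?_
      rw [← div_self ((H.cone j).ne a), congrArg (· / x j a) e, Finset.sum_div]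
      refine sum_mem fun b _ => ?_
      rw [mul_div_assoc, ← mul_div_mul_left (x i b) _ (H.z_ne i.castSucc)]
      exact Submodule.smul_mem _ (⟨c b, H.base_le (i.castSucc, j, a) (H.adj i ▸ hc b)⟩ :
        Algebra.adjoin k _) (Submodule.subset_span ⟨_, ⟨b, rfl⟩, rfl⟩)
    obtain ⟨i, j, a⟩ := v
    obtain ⟨c₀, h₀, c₁, h₁, e⟩ := H.rel
    have h2 := X_mem_of_one_mem _ h𝔭 hG (2, j, a) (mul_ne_zero (H.z_ne _) ((H.cone _).ne _))
      (Set.range fun i : Fin 2 => (i.castSucc, j, a)) (by rintro _ ⟨i, rfl⟩; exact h1 i j a) (by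
        rw [← e, ← mul_div_mul_right (z 0) _ ((H.cone j).ne a),
          ← mul_div_mul_right (z 1) _ ((H.cone j).ne a)]
        exact add_mem (Submodule.smul_mem _ (⟨c₀, H.base_le (2, j, a) h₀⟩ : Algebra.adjoin k _)
          (Submodule.subset_span ⟨_, ⟨0, rfl⟩, rfl⟩)) (Submodule.smul_mem _
            (⟨c₁, H.base_le (2, j, a) h₁⟩ : Algebra.adjoin k _)
            (Submodule.subset_span ⟨_, ⟨1, rfl⟩, rfl⟩)))
    fin_cases i
    · exact hv (h1 0 j a)
    · exact hv (h1 1 j a)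
    · exact hv h2
  convert this using 3 with ⟨j, b⟩
  apply le_antisymm
  · have h1 := H.base_le (j.castSucc, j, b)
    rw [H.adj j] at h1
    refine (fun S h1 h2 => le_of_cT (O := S.toSubring) h1 h2 : ∀ S : Subalgebra k K, _ ≤ S →
      (∀ a, x j a / x j b ∈ S) → AlgHom.range (aeval (cT (β j) (x j) b)) ≤ S) _ h1 fun a => ?_
    exact Algebra.subset_adjoin ⟨(j.castSucc, j, a), mul_div_mul_left _ _ (H.z_ne _)⟩
  · rw [Algebra.adjoin_le_iff]
    rintro _ ⟨⟨i, j', a⟩, rfl⟩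
    dsimp only
    rw [← div_mul_div_comm]
    exact mul_mem (le_cT _ _ _ (H.adj j ▸ Algebra.subset_adjoin ⟨i, rfl⟩)) (H.div_mem le_rfl)

lemma cover {M : RTotal k β x} {N : RBase k β} {h : M.X ⟶ N.X} (hγ : M.γ ≫ h = N.γ) (p : M.X)
    (i : Fin 2) (hp : h p ∈ N.U i) : ∃ b, p ∈ M.U (i, b) := by
  obtain ⟨⟨j, a⟩, hj⟩ := M.cov p
  have hB : (aeval (β i) : MvPolynomial (Fin 3) k →ₐ[k] K).range.toSubring ≤ (M.loc p).range :=
    Model.le_loc' hγ hp
  have h0 := M.le_loc hj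
  have h1 (b) : x i b / x j a ∈ (M.loc p).range := H.div_mem (O := (M.loc p).range) h0
  obtain ⟨c, hc, e⟩ := H.trans i j a
  obtain ⟨b, hb⟩ := exists_forall_div_mem _ (M.loc_injective p) (x i) (H.cone i).ne _
    ((H.cone j).ne a) c (fun b => hB (hc b)) h1 e
  have h2 := le_of_cT (x := x i) (b := b) hB hb
  exact ⟨b, M.mem_of_le_loc (j := (i, b)) h2⟩

omit H in
lemma D_eq {F : Type*} [Field F] [Algebra k F] (hq : (q : k) = 0) {s₀ s l r : F}
    (h : s₀ = r ^ q + l ^ (q * (q + 1)) * s) :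
    KaehlerDifferential.D k F s₀ = l ^ (q * (q + 1)) • KaehlerDifferential.D k F s := by
  have hF : (q : F) = 0 := by rw [← map_natCast (algebraMap k F), hq, map_zero]
  have h1 (a : F) : KaehlerDifferential.D k F (a ^ q) = 0 := by
    rw [Derivation.leibniz_pow, ← Nat.cast_smul_eq_nsmul F, hF, zero_smul]
  rw [h, map_add, h1, zero_add, Derivation.leibniz, mul_comm q, pow_mul, h1, smul_zero, add_zero]

lemma canon_base (hq : (q : k) = 0) (N : RBase k β) (l' : Fin 2 → N.X.functionField)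
    (hl : ∀ j, N.emb (l' j) = l j) {D : N.X → ℚ} (hD : IsCanonicalDiv N.π D) :
    ∃ P : N.X.functionField, P ≠ 0 ∧
      ∀ j, ∀ y ∈ N.U j, D y = -N.X.ord P y + (q * (q + 1) : ℕ) * N.X.ord (l' j) y := by
  obtain ⟨c', hc'⟩ := N.exists_lift
  choose ρ hρ using fun j => (H.chart j).exists_rB
  obtain ⟨n, b, e, η, h0, h1, h2⟩ := N.of_isCanonicalDiv hc' (fun j => gB (g j) (T j))
    (fun j => (H.chart j).ker) (fun j => (H.chart j).aeval_gB) ρ hρ hD
  have he (j) := N.emb_aeval _ _ (hc' j)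
  have hch (j) : Chart (c' j) (g j) (T j) := (chart_iff N.emb (he j)).mp (H.chart j)
  have hl0 (j) : l' j ≠ 0 := by rw [← map_ne_zero N.emb, hl]; exact H.l_ne j
  have h3 (j) : η j * aeval (c' j) (jac (g j) (T j)) * l' j ^ (q * (q + 1)) =
      -((fromRows (coordMat b (c' 0)) !![1, 0, 0; 0, 1, 0]).submatrix id e).det := by
    obtain ⟨f, hf⟩ := H.r_mem j
    refine changeB b (β₀ := c' 0) (hch j) e _ (D_eq (r := (aeval (c' j) f)⁻¹) hq ?_) _ (h1 j)
    apply N.emb.injective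
    rw [map_add, map_mul, map_pow, map_pow, map_inv₀, he, hc', hc', hl, H.s_eq j, ← inv_inv (r j),
      ← hf]
    rfl
  have h4 (j) : aeval (c' j) (jac (g j) (T j)) ≠ 0 :=
    right_ne_zero_of_mul_eq_one (hch j).unit.choose_spec
  refine ⟨_, h3 0 ▸ mul_ne_zero (mul_ne_zero (h0 0) (h4 0)) (pow_ne_zero _ (hl0 0)),
    fun j y hy => ?_⟩
  rw [h2 j y hy, ← h3 j, Scheme.ord_mul (mul_ne_zero (h0 j) (h4 j)) (pow_ne_zero _ (hl0 j)),
    Scheme.ord_mul (h0 j) (h4 j), ord_pow' (hl0 j), N.ord_eq_zero (j := j) ⟨_, (he j _).symm⟩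
      ⟨_, (he j _).symm⟩ (hch j).unit.choose_spec hy]
  push_cast
  ring

lemma canon_total (hq : (q : k) = 0) (hY : Fintype.card Y + 1 = q) (j₀ : Y) (M : RTotal k β x)
    (l' : Fin 2 → M.X.functionField) (hl : ∀ j, M.emb (l' j) = l j) {D : M.X → ℚ}
    (hD : IsCanonicalDiv M.π D) : ∃ P : M.X.functionField, P ≠ 0 ∧
      ∀ j, ∀ y ∈ M.U j, D y = -M.X.ord P y + (q * q + 1 : ℕ) * M.X.ord (l' j.1) y := by
  obtain ⟨c', hc'⟩ := M.exists_lift
  choose ρ hρ using fun j : Fin 2 × (Y ⊕ Fin 2) => (H.chart j.1).exists_rT hq (by omega) _ j.2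
    (div_self ((H.cone j.1).ne _)) ((H.cone j.1).eq_div j.2)
  obtain ⟨n, b, e, η, h0, h1, h2⟩ := M.of_isCanonicalDiv hc' (fun j => gT q (g j.1) (T j.1) j.2)
    (fun j => ker_cT (H.chart j.1) (H.cone j.1) j.2) (fun j => aeval_gT (H.chart j.1) (H.cone j.1) j.2)
    ρ hρ hD
  let β' (j) (i : Fin 3) := c' j (inl i)
  let w (j) (a : Y ⊕ Fin 2) := c' j (inr a)
  have hcw (j) : c' j = Sum.elim (β' j) (w j) := by ext (i | a) <;> rfl
  have hβ (j i) : M.emb (β' j i) = β j.1 i := hc' j (inl i)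
  have hw (j a) : M.emb (w j a) = x j.1 a / x j.1 j.2 := hc' j (inr a)
  have he (j) := M.emb_aeval _ _ (hβ j)
  have hch (j) : Chart (β' j) (g j.1) (T j.1) := (chart_iff M.emb (he j)).mp (H.chart j.1)
  have hl0 (j) : l' j ≠ 0 := by rw [← map_ne_zero M.emb, hl]; exact H.l_ne j
  have hw0 : w (0, inr 0) (inl j₀) ≠ 0 := by
    rw [← map_ne_zero M.emb, hw]; exact div_ne_zero ((H.cone _).ne _) ((H.cone _).ne _)
  have h3 (j) : η j * aeval (β' j) (jac (g j.1) (T j.1)) * l' j.1 ^ (q * q + 1) *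
      w (0, inr 0) (inl j₀) ^ q =
      -((fromRows (coordMat b (Sum.elim (β' (0, inr 0)) (w (0, inr 0)))) (Matrix.of (Sum.elim
        ![Pi.single (inl 0) 1, Pi.single (inl 1) 1]
        ![Sum.elim 0 (w (0, inr 0)), Pi.single (inr (inl j₀)) 1]))).submatrix id e).det := by
    obtain ⟨f, hf⟩ := H.r_mem j.1
    obtain ⟨f', hf'⟩ := H.l_mem j.1
    obtain ⟨m, hm⟩ := H.x_eq j.1
    have hr : M.emb (aeval (β' j) f)⁻¹ = r j.1 := by
      rw [map_inv₀, he, ← inv_inv (r j.1), ← hf]; rfl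
    have hl' : l' j.1 = aeval (β' j) f' := M.emb.injective (by rw [hl, he, ← hf']; rfl)
    obtain ⟨γ, hγ⟩ := (hch j).exists_D (KaehlerDifferential.D k _) f
    obtain ⟨γ', hγ'⟩ := (hch j).exists_D (KaehlerDifferential.D k _) f'
    refine changeT b (β₀ := β' (0, inr 0)) (hch j) hq hY e (w (0, inr 0)) (w j) (l' j.1)
      (aeval (β' j) f)⁻¹ (tw q (l' j.1) (aeval (β' j) f)⁻¹ (w (0, inr 0)) j.2)⁻¹ (hl0 _)
      (fun a => M.emb.injective ?_) j.2 (M.emb.injective ?_) (M.emb.injective ?_) γ'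
      (-(aeval (β' j) f)⁻¹ ^ 2 * γ)
      (D_eq (r := (aeval (β' j) f)⁻¹) hq (M.emb.injective ?_)) (hl' ▸ hγ') ?_ j₀ _ (hcw j ▸ h1 j)
    · have h4 := (H.cone j.1).ne j.2
      have h5 := (H.cone 0).ne (inr 0)
      simp only [map_mul, map_inv₀ M.emb (tw ..), map_tw, hw, hr, hl, tw_div, hm] at h4 ⊢
      have := left_ne_zero_of_mul h4
      have := right_ne_zero_of_mul h4
      field_simp
    · rw [hw, div_self ((H.cone _).ne _), map_one]
    · simpa only [map_fF, hw, hβ, map_zero] using (H.cone j.1).eq_div j.2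
    · rw [map_add, map_mul, map_pow, map_pow, hr, hβ, hβ, hl, H.s_eq j.1]
    · rw [Derivation.leibniz_inv, hγ, smul_smul]
  have h4 (j) : aeval (β' j) (jac (g j.1) (T j.1)) ≠ 0 :=
    right_ne_zero_of_mul_eq_one (hch j).unit.choose_spec
  have h5 (j) := (eq_div_iff (pow_ne_zero q hw0)).mpr (h3 j)
  refine ⟨_, h5 (0, inr 0) ▸ mul_ne_zero (mul_ne_zero (h0 _) (h4 _)) (pow_ne_zero _ (hl0 _)),
    fun j y hy => ?_⟩
  rw [h2 j y hy, ← h5 j, Scheme.ord_mul (mul_ne_zero (h0 j) (h4 j)) (pow_ne_zero _ (hl0 _)),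
    Scheme.ord_mul (h0 j) (h4 j), ord_pow' (hl0 _),
    M.ord_eq_zero (j := j) (le_cT _ _ _ ⟨_, (he j _).symm⟩) (le_cT _ _ _ ⟨_, (he j _).symm⟩)
      (hch j).unit.choose_spec hy]
  push_cast
  ring

theorem main (hq : (q : k) = 0) (hY : Fintype.card Y + 1 = q) (h4 : 4 ≤ Fintype.card Y) :
    ∃ (X Z : Scheme.{u}) (_ : IsIntegral X) (_ : IsIntegral Z) (_ : IsLocallyNoetherian X)
      (_ : IsLocallyNoetherian Z) (π : Z ⟶ Spec (.of k)) (h : X ⟶ Z) (_ : Surjective h),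
      Smooth π ∧ IsProjective π ∧ Smooth (h ≫ π) ∧ IsProjective (h ≫ π) ∧
      (∀ U : Z.Opens, IsIso (h.app U)) ∧ GeometricallyIntegral h ∧
      geometrically (fun W => ∀ w : W, IsIntegrallyClosed (W.presheaf.stalk w)) h ∧
      (∃ KX, IsCanonicalDiv (h ≫ π) KX) ∧ (∃ KZ, IsCanonicalDiv π KZ) ∧
      ∀ KX KZ, IsCanonicalDiv (h ≫ π) KX → IsCanonicalDiv π KZ →
        (∃ D E, IsPullbackDiv h D E ∧ QLinEq KX E) ∧
        ¬ ∃ Δ E, 0 ≤ Δ ∧ IsPullbackDiv h (KZ + Δ) E ∧ QLinEq KX E := by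
  have hq0 : q ≠ 0 := by omega
  obtain ⟨j₀⟩ : Nonempty Y := Fintype.card_pos_iff.mp (by omega)
  obtain ⟨N⟩ := H.nonempty_base
  obtain ⟨M⟩ := H.nonempty_total
  obtain ⟨h, hγ, hU⟩ := M.exists_hom N Prod.fst fun j => le_cT _ _ _
  have hsurj := Model.surjective_hom hγ
  choose ρ hρ using fun j => (H.chart j).exists_rB
  choose ρ' hρ' using fun j : Fin 2 × (Y ⊕ Fin 2) => (H.chart j.1).exists_rT hq hq0 _ j.2
    (div_self ((H.cone j.1).ne _)) ((H.cone j.1).eq_div j.2)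
  have hsZ (j) := smooth_of_jacobian _ _ (H.chart j).ker (H.chart j).aeval_gB _ (hρ j)
  have hsX (j : Fin 2 × (Y ⊕ Fin 2)) := smooth_of_jacobian _ _
    (ker_cT (H.chart j.1) (H.cone j.1) j.2) (aeval_gT (H.chart j.1) (H.cone j.1) j.2) _ (hρ' j)
  have hnZ := N.normal fun a => have := hsZ a; isIntegrallyClosed_of_smooth k _
  have hnX := M.normal fun j => have := hsX j; isIntegrallyClosed_of_smooth k _
  have hfib := Model.fibres hγ (fun i b => le_cT _ _ _) hU (H.cover hγ) fun κ _ i φ b => by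
    obtain ⟨W, _, _, _, f₁, f₂, h1, h2⟩ := exists_push (H.chart i) (H.cone i) hq hq0 h4 κ φ b
    refine ⟨W, _, ‹_›, ‹_›, f₁, f₂, h1, fun b' => ⟨_, h2 b', fun O hO hσ => ?_⟩⟩
    refine le_of_cT (fun _ hc => hO (le_cT _ _ _ hc)) fun a => ?_
    have h3 : (x i b' / x i b)⁻¹ ∈ O := by
      have h5 : (aeval (cT (β i) (x i) b) (X (inr b') : MvPolynomial _ k))⁻¹ ∈ O := hσ
      rwa [aeval_X] at h5
    have := (H.cone i).ne b
    have := (H.cone i).ne b'
    convert mul_mem (H.div_mem (j := i) (a := a) hO) h3 using 1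
    field_simp
  refine ⟨M.X, N.X, inferInstance, inferInstance, inferInstance, inferInstance, N.π, h, hsurj, ?_⟩
  rw [Model.comp_π hγ]
  obtain ⟨cN, hcN⟩ := N.exists_lift
  obtain ⟨cM, hcM⟩ := M.exists_lift
  refine ⟨N.smooth hsZ, N.proj, M.smooth hsX, M.proj,
    Model.isIso_app hγ Prod.fst hU fun a φ hφ =>
      mem_of_forall_mem (H.chart a) (H.cone a) φ fun b => hφ (a, b) rfl,
    ⟨fun _ _ y _ fst snd hW => (hfib y fst snd hW).1⟩,
    fun _ _ y _ fst snd hW => (hfib y fst snd hW).2,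
    M.exists_isCanonicalDiv hcM (fun j => gT q (g j.1) (T j.1) j.2)
      (fun j => ker_cT (H.chart j.1) (H.cone j.1) j.2)
      (fun j => aeval_gT (H.chart j.1) (H.cone j.1) j.2) ρ' hρ',
    N.exists_isCanonicalDiv hcN (fun j => gB (g j) (T j)) (fun j => (H.chart j).ker)
      (fun j => (H.chart j).aeval_gB) ρ hρ,
    fun KX KZ hKX hKZ => ?_⟩
  choose l' hl' hreg using fun j => N.exists_emb_eq (H.l_mem j)
  have hl0 (j) : l' j ≠ 0 := by rw [← map_ne_zero N.emb, hl']; exact H.l_ne j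
  have hemb (j) : M.emb (pullFun h (l' j)) = l j := by rw [Model.emb_pullFun hγ, hl']
  obtain ⟨PZ, hPZ, hKZ'⟩ := H.canon_base hq N l' hl' hKZ
  obtain ⟨PX, hPX, hKX'⟩ := H.canon_total hq hY j₀ M _ hemb hKX
  have hKX'' (a) (y : M.X) (hy : h y ∈ N.U a) :
      KX y = -M.X.ord PX y + (q * q + 1 : ℕ) * M.X.ord (pullFun h (l' a)) y := by
    obtain ⟨b, hb⟩ := H.cover hγ y a hy
    exact hKX' (a, b) y hb
  have hq1 : ((q * (q + 1) : ℕ) : ℚ) = (q * q + 1 : ℕ) + (Fintype.card Y : ℕ) := by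
    rw [← hY]; push_cast; ring
  rw [hq1] at hKZ'
  refine ⟨exists_pullbackDiv' h N.U N.cov l' hl0 _ _ (by omega) KX KZ PX hPX PZ hKX'' hKZ',
    not_exists_effective' h N.U N.cov l' hl0 _ _ (by omega) KX KZ PX hPX PZ hPZ hKX'' hKZ' hnX hnZ
      (isField_of_universallyClosed k M.π) hreg 1 fun hinv => H.nu ?_⟩
  refine mem_of_forall_mem (H.chart 1) (H.cone 1) _ fun b => ?_
  have := M.emb_mem (j := (1, b)) fun y hy => hinv y (hU _ hy)
  rwa [map_inv₀, hemb] at this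

end Setup

end Pool.Agent.Lib.MP_99f32e_ag
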